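import Mathlib

/-!
Project PS (MP_b05a29_gt), analysis part: definitions on `ℝ^N`.
-/

open scoped ContDiff Matrix
open MeasureTheory Set

namespace PS

noncomputable section

/-- Euclidean space `ℝ^N`. -/
abbrev E (N : ℕ) := EuclideanSpace ℝ (Fin N)

/-- The fibre `Λ(ℝ^N)`, with orthonormal basis indexed by the subsets of `{1..N}`. -/
abbrev Lam (N : ℕ) := EuclideanSpace ℝ (Finset (Fin N))

variable {N : ℕ}

/-- The `i`-th basis vector. -/
def ev (i : Fin N) : E N := EuclideanSpace.single i (1 : ℝ)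

/-- The `i`-th partial derivative. -/
def pd {F : Type*} [NormedAddCommGroup F] [NormedSpace ℝ F] (i : Fin N) (f : E N → F) (x : E N) : F :=
  fderiv ℝ f x (ev i)

/-- Christoffel symbol `Γ^k_{ij}` of the metric `G`. -/
def chr (G : E N → Matrix (Fin N) (Fin N) ℝ) (x : E N) (i j k : Fin N) : ℝ :=
  (1 / 2 : ℝ) * ∑ l, (G x)⁻¹ k l *
    (pd i (fun y => G y j l) x + pd j (fun y => G y i l) x - pd l (fun y => G y i j) x)

/-- Curvature `(F_{ij})^l_k = ∂_i Γ^l_{jk} - ∂_j Γ^l_{ik} + Γ^l_{im} Γ^m_{jk} - Γ^l_{jm} Γ^m_{ik}`. -/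
def curv (G : E N → Matrix (Fin N) (Fin N) ℝ) (x : E N) (i j l k : Fin N) : ℝ :=
  pd i (fun y => chr G y j k l) x - pd j (fun y => chr G y i k l) x
    + ∑ m, (chr G x i m l * chr G x j k m - chr G x j m l * chr G x i k m)

/-- Scalar curvature `∑_{j,k} G^{jk} ∑_i (F_{ij})^i_k`. -/
def scal (G : E N → Matrix (Fin N) (Fin N) ℝ) (x : E N) : ℝ :=
  ∑ j, ∑ k, (G x)⁻¹ j k * ∑ i, curv G x i j i k

/-- A smooth Riemannian metric on the set `U`, given by its matrix in the standard coordinates. -/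
structure IsMetricOn (G : E N → Matrix (Fin N) (Fin N) ℝ) (U : Set (E N)) : Prop where
  smooth : ∀ i j, ContDiffOn ℝ ∞ (fun x => G x i j) U
  posDef : ∀ x ∈ U, (G x).PosDef

/-- Squared norm of the differential of a function, for the metric `G`. -/
def gradSq (G : E N → Matrix (Fin N) (Fin N) ℝ) (f : E N → ℝ) (x : E N) : ℝ :=
  ∑ k, ∑ l, (G x)⁻¹ k l * (pd k f x * pd l f x)

/-- sign `(-1)^{#{j ∈ I, j < i}}`. -/
def sgn (i : Fin N) (I : Finset (Fin N)) : ℝ := (-1) ^ (I.filter (· < i)).card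

/-- exterior multiplication by the `i`-th basis covector -/
def extL (i : Fin N) : Lam N →L[ℝ] Lam N := LinearMap.toContinuousLinearMap
  { toFun := fun u => WithLp.toLp 2 (fun I => if i ∈ I then sgn i I * u (I.erase i) else 0)
    map_add' := by
      intro u v; ext I; by_cases h : i ∈ I <;> simp [h, mul_add]
    map_smul' := by
      intro c u; ext I; by_cases h : i ∈ I <;> simp [h, mul_left_comm] }

/-- contraction with the `i`-th basis vector -/
def intL (i : Fin N) : Lam N →L[ℝ] Lam N := LinearMap.toContinuousLinearMap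
  { toFun := fun u => WithLp.toLp 2 (fun I => if i ∈ I then 0 else sgn i I * u (insert i I))
    map_add' := by
      intro u v; ext I; by_cases h : i ∈ I <;> simp [h, mul_add]
    map_smul' := by
      intro c u; ext I; by_cases h : i ∈ I <;> simp [h, mul_left_comm] }

/-- the skew Clifford generators, `cl_i² = -1` -/
def cl (i : Fin N) : Lam N →L[ℝ] Lam N := extL i - intL i

/-- the symmetric Clifford generators, `ep_i² = 1` -/
def ep (i : Fin N) : Lam N →L[ℝ] Lam N := extL i + intL i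

/-- the number operator restricted to index `i` -/
def numL (i : Fin N) : Lam N →L[ℝ] Lam N := LinearMap.toContinuousLinearMap
  { toFun := fun u => WithLp.toLp 2 (fun I => if i ∈ I then u I else 0)
    map_add' := by
      intro u v; ext I; by_cases h : i ∈ I <;> simp [h]
    map_smul' := by
      intro c u; ext I; by_cases h : i ∈ I <;> simp [h] }

/-- even elements of the fibre -/
def EvenV (v : Lam N) : Prop := ∀ I : Finset (Fin N), Odd I.card → v I = 0
/-- odd elements of the fibre -/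
def OddV (v : Lam N) : Prop := ∀ I : Finset (Fin N), Even I.card → v I = 0

/-- parity reversing operators -/
def OddOp (T : Lam N →L[ℝ] Lam N) : Prop :=
  (∀ v, EvenV v → OddV (T v)) ∧ (∀ v, OddV v → EvenV (T v))

/-- test functions: smooth with compact support -/
def Test (u : E N → Lam N) : Prop := ContDiff ℝ ∞ u ∧ HasCompactSupport u

/-- first order operator with coefficients `a`, `b` -/
def opB (a : Fin N → E N → (Lam N →L[ℝ] Lam N)) (b : E N → (Lam N →L[ℝ] Lam N))
    (u : E N → Lam N) (x : E N) : Lam N :=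
  ∑ i, a i x (pd i u x) + b x (u x)

/-- potential `∑ F_i ep_i` -/
def potL (F : E N → Fin N → ℝ) (x : E N) : Lam N →L[ℝ] Lam N := ∑ i, F x i • ep i

/-- the Gram-Schmidt column algorithm is chosen in `Frame.lean`; here: spin connection and Dirac
operator built from a frame `fr` with `frᵀ G fr = 1` -/
def cliff (fr : E N → Matrix (Fin N) (Fin N) ℝ) (i : Fin N) (x : E N) : Lam N →L[ℝ] Lam N :=
  ∑ a, fr x i a • cl a

/-- coordinate connection matrix `(A_i)_{jk} = Γ^j_{ik}` -/
def conM (G : E N → Matrix (Fin N) (Fin N) ℝ) (i : Fin N) (x : E N) : Matrix (Fin N) (Fin N) ℝ :=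
  Matrix.of fun j k => chr G x i k j

/-- frame connection `ω_i = fr⁻¹ (∂_i fr + A_i fr)` -/
def omg (G fr : E N → Matrix (Fin N) (Fin N) ℝ) (i : Fin N) (x : E N) :
    Matrix (Fin N) (Fin N) ℝ :=
  (fr x)⁻¹ * (Matrix.of (fun j k => pd i (fun y => fr y j k) x) + conM G i x * fr x)

/-- `σ(ω) = -¼ ∑ ω_{ab} cl_a cl_b` -/
def spinL (w : Matrix (Fin N) (Fin N) ℝ) : Lam N →L[ℝ] Lam N :=
  (-(1 / 4 : ℝ)) • ∑ a, ∑ b, w a b • (cl a ∘L cl b)

/-- covariant derivative `∇_i u = ∂_i u + σ(ω_i) u` -/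
def nab (G fr : E N → Matrix (Fin N) (Fin N) ℝ) (i : Fin N) (u : E N → Lam N) (x : E N) : Lam N :=
  pd i u x + spinL (omg G fr i x) (u x)

/-- Dirac operator -/
def dirac (G fr : E N → Matrix (Fin N) (Fin N) ℝ) (u : E N → Lam N) (x : E N) : Lam N :=
  ∑ i, cliff fr i x (nab G fr i u x)

/-- `|∇u|²_G = ∑ G^{ij} ⟨∇_i u, ∇_j u⟩` -/
def nabSq (G fr : E N → Matrix (Fin N) (Fin N) ℝ) (u : E N → Lam N) (x : E N) : ℝ :=
  ∑ i, ∑ j, (G x)⁻¹ i j * inner ℝ (nab G fr i u x) (nab G fr j u x)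

/-- Riemannian density `√det G` -/
def dens (G : E N → Matrix (Fin N) (Fin N) ℝ) (x : E N) : ℝ := Real.sqrt (G x).det

/-- smooth orthonormal frame -/
structure IsFrame (G fr : E N → Matrix (Fin N) (Fin N) ℝ) : Prop where
  metric : IsMetricOn G univ
  smooth : ∀ i j, ContDiff ℝ ∞ (fun x => fr x i j)
  orth : ∀ x, (fr x)ᵀ * G x * fr x = 1

/-- curvature of the frame connection -/
def Omg (G fr : E N → Matrix (Fin N) (Fin N) ℝ) (i j : Fin N) (x : E N) :
    Matrix (Fin N) (Fin N) ℝ :=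
  Matrix.of (fun a b => pd i (fun y => omg G fr j y a b) x - pd j (fun y => omg G fr i y a b) x)
    + (omg G fr i x * omg G fr j x - omg G fr j x * omg G fr i x)

/-- the potential term of the main inequality -/
def Ppot (G : E N → Matrix (Fin N) (Fin N) ℝ) (F : E N → Fin N → ℝ) (x : E N) : ℝ :=
  scal G x / 4 + ∑ j, F x j ^ 2 - ∑ j, Real.sqrt (gradSq G (fun y => F y j) x)

/-- the space `L²(ℝ^N; Λ)` -/
abbrev L2 (N : ℕ) := Lp (Lam N) 2 (volume : Measure (E N))

/-- class in `L²` of a function (junk value `0`) -/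
def tl (u : E N → Lam N) : L2 N := by
  classical exact if h : MemLp u 2 (volume : Measure (E N)) then h.toLp u else 0

/-- the weighted Sobolev norm, squared -/
def wSq (u : E N → Lam N) : ℝ := ∫ x, (‖u x‖ ^ 2 + ∑ i, ‖pd i u x‖ ^ 2 + ‖x‖ ^ 2 * ‖u x‖ ^ 2)

/-- the flat model -/
def B0 (lam : ℝ) (u : E N → Lam N) (x : E N) : Lam N :=
  ∑ i, cl i (pd i u x) + lam • ∑ i, x i • ep i (u x)

/-- the Gaussian -/
def gau (lam : ℝ) (x : E N) : Lam N :=
  Real.exp (-(lam / 2) * ‖x‖ ^ 2) • EuclideanSpace.single (∅ : Finset (Fin N)) (1 : ℝ)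

/-- the box `∏ [-r_j, r_j]` -/
def box (r : Fin N → ℝ) : Set (E N) := {x | ∀ j, |x j| ≤ r j}

/-- norm of the vector `v` for the metric `G` at `x` -/
def vnorm (G : E N → Matrix (Fin N) (Fin N) ℝ) (x v : E N) : ℝ :=
  Real.sqrt (∑ i, ∑ j, G x i j * v i * v j)

/-- length of the straight segment from `x` to `y` -/
def segLen (G : E N → Matrix (Fin N) (Fin N) ℝ) (x y : E N) : ℝ :=
  ∫ s in (0 : ℝ)..1, vnorm G (x + s • (y - x)) (y - x)

/-- pulled back metric `φ^* G` -/
def pull (φ : E N → E N) (G : E N → Matrix (Fin N) (Fin N) ℝ) (x : E N) :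
    Matrix (Fin N) (Fin N) ℝ :=
  Matrix.of fun i j => ∑ a, ∑ b, G (φ x) a b * pd i (fun y => φ y a) x * pd j (fun y => φ y b) x

end

end PS
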