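import Pool.Agent.H96.PS.Stmt

/-! Project PS: the interface between the hyperbolic side (Fenchel-Nielsen model) and the
intrinsic statement. -/

open scoped ENNReal UpperHalfPlane ContDiff Matrix
open MeasureTheory Set

namespace PS

noncomputable section

abbrev SL2R : Type := Matrix.SpecialLinearGroup (Fin 2) ℝ

/-- trace of an element of `SL_2(ℝ)` -/
def tr (A : SL2R) : ℝ := (A : Matrix (Fin 2) (Fin 2) ℝ).trace

/-- A Fenchel-Nielsen model of the part of Teichmueller space where all the curves of a pants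
decomposition have length `< 1`. Coordinates: `x (idx (inl e)) = log` of the length of the curve
`e`, `x (idx (inr e))` = twist (`2 π` is a full Dehn twist). -/
structure FNModel (g n : ℕ) where
  d : ℕ
  idx : Fin d ⊕ Fin d ≃ Fin (dimT g n)
  rep : E (dimT g n) → (SurfaceGroup g n →* SL2R)
  smooth : ∀ γ i j, ContDiff ℝ ∞ (fun x => (rep x γ : Matrix (Fin 2) (Fin 2) ℝ) i j)
  disc : ∀ x, (∀ e, x (idx (Sum.inl e)) < 0) → ∃ (z : ℍ) (r : ℝ), 0 < r ∧
    ∀ γ, γ ≠ 1 → r ≤ dist z (rep x γ • z)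
  hyp : ∀ x, (∀ e, x (idx (Sum.inl e)) < 0) → ∀ γ, ¬ IsPer γ → 2 < |tr (rep x γ)|
  par : ∀ x, (∀ e, x (idx (Sum.inl e)) < 0) → ∀ γ, IsPer γ → |tr (rep x γ)| = 2
  rank : ∀ x, (∀ e, x (idx (Sum.inl e)) < 0) → ∀ v, (∀ γ, fderiv ℝ (fun y => tr (rep y γ) ^ 2) x v = 0) →
    v = 0
  twist : ∀ e, ∃ τ : autStar g n, ∀ x γ,
    rep (x + (2 * Real.pi) • ev (idx (Sum.inr e))) γ = rep x ((τ : MulAut (SurfaceGroup g n)) γ) ∨
    rep (x + (2 * Real.pi) • ev (idx (Sum.inr e))) γ = -rep x ((τ : MulAut (SurfaceGroup g n)) γ)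
  faces : ∀ (x y : E (dimT g n)), (∀ e, x (idx (Sum.inl e)) < 0) → ∀ (i : Fin d) (L : ℝ),
    (∀ j, j < i → x (idx (Sum.inl i)) ≤ x (idx (Sum.inl j))) →
    (∀ j, i < j → y (idx (Sum.inl j)) ≤ y (idx (Sum.inl i))) →
    2 * L + y (idx (Sum.inl i)) = x (idx (Sum.inl i)) →
    ∀ (φ : MulAut (SurfaceGroup g n)) (K : ℝ), 1 ≤ K →
    (∀ γ, 2 < |tr (rep y (φ γ))| →
      2 < |tr (rep x γ)| ∧ Pool.Agent.DC.tl (rep x γ) ≤ K * Pool.Agent.DC.tl (rep y (φ γ))) →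
    Real.exp (2 * L) ≤ K

/-- the region where all curves have length `< 1` -/
def FNModel.V {g n : ℕ} (M : FNModel g n) : Set (E (dimT g n)) := {x | ∀ e, x (M.idx (Sum.inl e)) < 0}

end

end PS
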