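import Pool.Agent.H96.PS.Cube_x

/-!
Project PS (MP_b05a29_gt), row A20: the smooth cube inequality from the theorem of row A19.
-/

set_option autoImplicit false

open scoped ContDiff Matrix Manifold
open MeasureTheory Set

namespace PS
noncomputable section
variable {N : ℕ}

theorem cy_box_compact (r : Fin N → ℝ) : IsCompact (box r) := by
  have hclosed : IsClosed (box r) := by
    have h : box r = ⋂ j, {x : E N | |x j| ≤ r j} := by
      ext x
      simp [box]
    rw [h]
    refine isClosed_iInter (fun j => ?_)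
    exact isClosed_le (by fun_prop) continuous_const
  have hb : Bornology.IsBounded (box r) := by
    refine (Metric.isBounded_iff_subset_closedBall (0 : E N)).2
      ⟨Real.sqrt (∑ j, r j ^ 2), fun x hx => ?_⟩
    rw [mem_closedBall_zero_iff, EuclideanSpace.norm_eq]
    apply Real.sqrt_le_sqrt
    refine Finset.sum_le_sum (fun j _ => ?_)
    rw [Real.norm_eq_abs]
    exact pow_le_pow_left₀ (abs_nonneg _) (hx j) 2
  exact Metric.isCompact_of_isClosed_isBounded hclosed hb

theorem cy_glue {χ f : E N → ℝ} {U W : Set (E N)} (hU : IsOpen U) (hW : W ⊆ U)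
    (hχ : ContDiff ℝ ∞ χ) (hf : ContDiffOn ℝ ∞ f U)
    (h0 : ∀ x, x ∉ W → ∀ᶠ y in nhds x, χ y = 0) : ContDiff ℝ ∞ (fun x => χ x * f x) := by
  rw [contDiff_iff_contDiffAt]
  intro x
  by_cases hx : x ∈ W
  · exact hχ.contDiffAt.mul (hf.contDiffAt (hU.mem_nhds (hW hx)))
  · refine (contDiffAt_const (c := (0 : ℝ))).congr_of_eventuallyEq ?_
    filter_upwards [h0 x hx] with y hy
    rw [hy, zero_mul]

/-- the neighbourhood of the box in which the cut-off is made -/
def cyW (U : Set (E N)) (r : Fin N → ℝ) (f : Fin N → E N → ℝ) (ρ R : ℝ) : Set (E N) :=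
  {x | x ∈ U ∧ ‖x‖ < R ∧
    ∀ j, (x j < r j ∨ 3 / 4 * ρ < f j x) ∧ (-r j < x j ∨ f j x < -(3 / 4 * ρ))}

theorem cyW_open {U : Set (E N)} {r : Fin N → ℝ} {f : Fin N → E N → ℝ} {ρ R : ℝ} (hU : IsOpen U)
    (hf : ∀ j, ContinuousOn (f j) U) : IsOpen (cyW U r f ρ R) := by
  rw [isOpen_iff_mem_nhds]
  intro x hx
  have hcf : ∀ j, ContinuousAt (f j) x := fun j => (hf j).continuousAt (hU.mem_nhds hx.1)
  have hcx : ∀ j, ContinuousAt (fun y : E N => y j) x := fun j => by fun_prop
  have h1 : ∀ j, ∀ᶠ y in nhds x, (y j < r j ∨ 3 / 4 * ρ < f j y) ∧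
      (-r j < y j ∨ f j y < -(3 / 4 * ρ)) := by
    intro j
    refine Filter.Eventually.and ?_ ?_
    · rcases (hx.2.2 j).1 with h | h
      · exact ((hcx j).eventually_lt_const h).mono fun y hy => Or.inl hy
      · exact ((hcf j).eventually_const_lt h).mono fun y hy => Or.inr hy
    · rcases (hx.2.2 j).2 with h | h
      · exact ((hcx j).eventually_const_lt h).mono fun y hy => Or.inl hy
      · exact ((hcf j).eventually_lt_const h).mono fun y hy => Or.inr hy
  have h2 : ∀ᶠ y in nhds x, ‖y‖ < R := (continuous_norm.continuousAt).eventually_lt_const hx.2.1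
  filter_upwards [hU.mem_nhds hx.1, h2, Filter.eventually_all.2 h1] with y hy1 hy2 hy3
  exact ⟨hy1, hy2, hy3⟩

theorem cy_cutoff {W K : Set (E N)} (hW : IsOpen W) (hK : IsClosed K) (hKW : K ⊆ W) :
    ∃ χ : E N → ℝ, ContDiff ℝ ∞ χ ∧ (∀ x, 0 ≤ χ x ∧ χ x ≤ 1) ∧
      (∀ x, x ∈ K → ∀ᶠ y in nhds x, χ y = 1) ∧ (∀ x, x ∉ W → ∀ᶠ y in nhds x, χ y = 0) := by
  obtain ⟨φ, h0, h1, h2⟩ := exists_contMDiffMap_zero_one_nhds_of_isClosed (n := (⊤ : ℕ∞)) 𝓘(ℝ, E N)
    hW.isClosed_compl hK (disjoint_compl_left_iff_subset.2 hKW)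
  refine ⟨φ, φ.contMDiff.contDiff, fun x => h2 x, fun x hx => ?_, fun x hx => ?_⟩
  · exact eventually_nhdsSet_iff_forall.1 h1 x hx
  · exact eventually_nhdsSet_iff_forall.1 h0 x hx

/-! ### derivatives -/

theorem cy_pd_div {f g : E N → ℝ} {x : E N} (hf : DifferentiableAt ℝ f x)
    (hg : DifferentiableAt ℝ g x) (h0 : g x ≠ 0) (k : Fin N) :
    pd k (fun y => f y / g y) x = pd k f x / g x - f x * pd k g x / g x ^ 2 := by
  have h1 : HasFDerivAt (fun y => (g y)⁻¹) ((-(g x ^ 2)⁻¹) • fderiv ℝ g x) x :=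
    (hasDerivAt_inv h0).comp_hasFDerivAt x hg.hasFDerivAt
  have h2 := hf.hasFDerivAt.mul h1
  have h3 : (fun y => f y / g y) = f * fun y => (g y)⁻¹ := by
    funext y
    rw [div_eq_mul_inv]
    rfl
  unfold pd
  rw [h3, h2.fderiv]
  simp only [add_apply, smul_apply, smul_eq_mul]
  field_simp
  ring

theorem cy_pd_h {f : Fin N → E N → ℝ} {x : E N} (hf : ∀ i, DifferentiableAt ℝ (f i) x)
    (e ρ : ℝ) (k : Fin N) :
    pd k (fun y => 1 - e * Real.smoothTransition (4 * (∑ i, f i y ^ 2) / ρ ^ 2 - 1)) x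
      = -e * deriv Real.smoothTransition (4 * (∑ i, f i x ^ 2) / ρ ^ 2 - 1) * (8 / ρ ^ 2)
        * ∑ i, f i x * pd k (f i) x := by
  have h1 : ∀ i, HasFDerivAt (fun y => f i y ^ 2) ((2 * f i x) • fderiv ℝ (f i) x) x := by
    intro i
    have := (hf i).hasFDerivAt.pow 2
    simpa using this
  have h2 : HasFDerivAt (fun y => ∑ i, f i y ^ 2) (∑ i, (2 * f i x) • fderiv ℝ (f i) x) x :=
    HasFDerivAt.fun_sum fun i _ => h1 i
  have h3 : HasFDerivAt (fun y => 4 * (∑ i, f i y ^ 2) / ρ ^ 2 - 1)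
      ((4 / ρ ^ 2) • ∑ i, (2 * f i x) • fderiv ℝ (f i) x) x := by
    have h4 := (h2.const_mul (4 / ρ ^ 2)).sub_const 1
    refine h4.congr_of_eventuallyEq (Filter.Eventually.of_forall fun y => ?_)
    show 4 * (∑ i, f i y ^ 2) / ρ ^ 2 - 1 = 4 / ρ ^ 2 * (∑ i, f i y ^ 2) - 1
    ring
  have h5 : DifferentiableAt ℝ Real.smoothTransition (4 * (∑ i, f i x ^ 2) / ρ ^ 2 - 1) := by
    have h : ContDiff ℝ 1 Real.smoothTransition := Real.smoothTransition.contDiff
    exact (h.differentiable one_ne_zero).differentiableAt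
  have h6 := h5.hasDerivAt.comp_hasFDerivAt x h3
  have h7 := (h6.const_mul e).const_sub 1
  unfold pd
  have h8 : (fun y => 1 - e * Real.smoothTransition (4 * (∑ i, f i y ^ 2) / ρ ^ 2 - 1))
      = fun y => 1 - e * (Real.smoothTransition ∘ fun y => 4 * (∑ i, f i y ^ 2) / ρ ^ 2 - 1) y := rfl
  rw [h8, h7.fderiv]
  simp only [neg_apply, smul_apply, sum_apply, smul_eq_mul]
  have h9 : ∑ i, 2 * f i x * (fderiv ℝ (f i) x) (ev k)
      = 2 * ∑ i, f i x * (fderiv ℝ (f i) x) (ev k) := by
    rw [Finset.mul_sum]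
    refine Finset.sum_congr rfl fun i _ => ?_
    ring
  rw [h9]
  ring

theorem cy_pd_smul {f : E N → ℝ} {x : E N} (hf : DifferentiableAt ℝ f x) (t : ℝ) (k : Fin N) :
    pd k (fun y => t * f y) x = t * pd k f x := by
  unfold pd
  rw [(hf.hasFDerivAt.const_mul t).fderiv]
  rfl

/-! ### the proof -/

theorem cy_main (hN : 0 < N)
    (hA : ∀ (G : E N → Matrix (Fin N) (Fin N) ℝ) (F : E N → Fin N → ℝ) (lam R : ℝ),
      0 < lam → IsMetricOn G univ → (∀ x, R ≤ ‖x‖ → G x = 1) →
      (∀ j, ContDiff ℝ ∞ (fun x => F x j)) → (∀ x, R ≤ ‖x‖ → ∀ j, F x j = lam * x j) →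
      ∀ δ : ℝ, 0 < δ → (∀ x, δ ≤ Ppot G F x) → False)
    {c b ρ K : ℝ} (hc : 0 < c) (hb : b * (8 * N) = c)
    (hK : ∀ t, |deriv Real.smoothTransition t| ≤ K) (hρ : 0 < ρ)
    (h1 : 32 * K * N ^ 2 ≤ b * ρ ^ 2) (h2 : 8 * N ≤ b * ρ ^ 2)
    (U : Set (E N)) (G : E N → Matrix (Fin N) (Fin N) ℝ) (r : Fin N → ℝ) (f : Fin N → E N → ℝ)
    (hU : IsOpen U) (hr : ∀ j, 0 < r j) (hQU : box r ⊆ U) (hG : IsMetricOn G U)
    (hsc : ∀ x ∈ box r, c ≤ scal G x) (hf : ∀ j, ContDiffOn ℝ ∞ (f j) U)
    (hgr : ∀ j, ∀ x ∈ box r, gradSq G (f j) x ≤ 1)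
    (hlo : ∀ j, ∀ x ∈ box r, x j = - r j → f j x ≤ -ρ)
    (hhi : ∀ j, ∀ x ∈ box r, x j = r j → ρ ≤ f j x) : False := by
  classical
  have hNr : (0 : ℝ) < N := Nat.cast_pos.2 hN
  have hbpos : 0 < b := by
    have : 0 < b * (8 * N) := by rw [hb]; exact hc
    exact pos_of_mul_pos_left this (by positivity)
  have hcl : IsClosed (box r) := (cy_box_compact r).isClosed
  obtain ⟨R0, hR0⟩ := (cy_box_compact r).isBounded.subset_closedBall (0 : E N)
  set R : ℝ := R0 + 1 with hR
  set W : Set (E N) := cyW U r f ρ R with hW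
  have hWo : IsOpen W := cyW_open hU fun j => (hf j).continuousOn
  have hWU : W ⊆ U := fun x hx => hx.1
  have hQW : box r ⊆ W := by
    intro x hx
    refine ⟨hQU hx, ?_, fun j => ⟨?_, ?_⟩⟩
    · have := hR0 hx
      rw [mem_closedBall_zero_iff] at this
      rw [hR]; linarith
    · rcases lt_or_eq_of_le (abs_le.1 (hx j)).2 with h | h
      · exact Or.inl h
      · exact Or.inr (by have := hhi j x hx h; linarith)
    · rcases lt_or_eq_of_le (abs_le.1 (hx j)).1 with h | h
      · exact Or.inl h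
      · exact Or.inr (by have := hlo j x hx h.symm; linarith)
  obtain ⟨χ, hχs, hχ01, hχ1, hχ0⟩ := cy_cutoff hWo hcl hQW
  have hχW : ∀ x, x ∉ W → χ x = 0 := fun x hx => (hχ0 x hx).self_of_nhds
  have hout : ∀ x : E N, R ≤ ‖x‖ → x ∉ W := fun x hx h => absurd h.2.1 (not_lt.2 hx)
  have houtQ : ∀ x : E N, R ≤ ‖x‖ → x ∉ box r := fun x hx h => hout x hx (hQW h)
  -- the metric
  set G' : E N → Matrix (Fin N) (Fin N) ℝ := fun x => χ x • G x + (1 - χ x) • 1 with hG'
  have hG'm : IsMetricOn G' univ := by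
    refine ⟨fun i j => ?_, fun x _ => ?_⟩
    · rw [contDiffOn_univ]
      have h3 := cy_glue hU hWU hχs (hG.smooth i j) hχ0
      have h4 : ContDiff ℝ ∞ (fun x => (1 - χ x) * (1 : Matrix (Fin N) (Fin N) ℝ) i j) :=
        (contDiff_const.sub hχs).mul contDiff_const
      exact h3.add h4
    · by_cases hx : x ∈ W
      · rcases eq_or_lt_of_le (hχ01 x).1 with h | h
        · have h3 : G' x = 1 := by
            rw [hG']
            simp only [← h, zero_smul, sub_zero, one_smul, zero_add]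
          rw [h3]
          exact Matrix.PosDef.one
        · have h3 : (χ x • G x).PosDef := (hG.posDef x (hWU hx)).smul h
          have h4 : ((1 - χ x) • (1 : Matrix (Fin N) (Fin N) ℝ)).PosSemidef :=
            Matrix.PosSemidef.one.smul (sub_nonneg.2 (hχ01 x).2)
          exact h3.add_posSemidef h4
      · have h3 : G' x = 1 := by
          rw [hG']
          simp only [hχW x hx, zero_smul, sub_zero, one_smul, zero_add]
        rw [h3]
        exact Matrix.PosDef.one
  have hG'inf : ∀ x, R ≤ ‖x‖ → G' x = 1 := by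
    intro x hx
    rw [hG']
    simp only [hχW x (hout x hx), zero_smul, sub_zero, one_smul, zero_add]
  have hG'Q : ∀ x, x ∈ box r → G' =ᶠ[nhds x] G := by
    intro x hx
    filter_upwards [hχ1 x hx] with y hy
    rw [hG']
    simp only [hy, one_smul, sub_self, zero_smul, add_zero]
  -- the vector field
  set v : Fin N → E N → ℝ := fun j x => b * (χ x * f j x) + (1 - χ x) * x j with hv
  have hcoord : ∀ j : Fin N, ContDiff ℝ ∞ (fun x : E N => x j) := fun j => by fun_prop
  have hvs : ∀ j, ContDiff ℝ ∞ (v j) := fun j =>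
    (contDiff_const.mul (cy_glue hU hWU hχs (hf j) hχ0)).add
      ((contDiff_const.sub hχs).mul (hcoord j))
  have hvout : ∀ x : E N, x ∉ W → ∀ j, v j x = x j := by
    intro x hx j
    rw [hv]
    simp only [hχW x hx]
    ring
  have hvQ : ∀ x, x ∈ box r → ∀ j, v j =ᶠ[nhds x] fun y => b * f j y := by
    intro x hx j
    filter_upwards [hχ1 x hx] with y hy
    rw [hv]
    simp only [hy]
    ring
  obtain ⟨j0, hj0⟩ := @Finite.exists_min (Fin N) ℝ _ ⟨⟨0, hN⟩⟩ _ r
  set μ : ℝ := min (3 / 4 * b * ρ) (r j0) with hμ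
  have hμpos : 0 < μ := lt_min (by positivity) (hr j0)
  have hμ1 : μ ≤ 3 / 4 * b * ρ := min_le_left _ _
  have hμ2 : ∀ j, μ ≤ r j := fun j => (min_le_right _ _).trans (hj0 j)
  have hvμ : ∀ x, x ∉ box r → μ ^ 2 ≤ ∑ j, v j x ^ 2 := by
    intro x hx
    have h3 : ∃ j, r j < |x j| := by
      by_contra hcon
      push Not at hcon
      exact hx hcon
    obtain ⟨j, hj⟩ := h3
    have h4 : μ ≤ |v j x| := by
      have hc0 := (hχ01 x).1
      have hc1 := (hχ01 x).2
      rcases lt_abs.1 hj with h | h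
      · refine le_trans ?_ (le_abs_self _)
        by_cases hxW : x ∈ W
        · have h5 : 3 / 4 * ρ < f j x := by
            rcases (hxW.2.2 j).1 with h6 | h6
            · exact absurd h6 (not_lt.2 h.le)
            · exact h6
          have h7 : μ ≤ b * f j x := by
            have : b * (3 / 4 * ρ) ≤ b * f j x := mul_le_mul_of_nonneg_left h5.le hbpos.le
            linarith
          have h8 : μ ≤ x j := (hμ2 j).trans h.le
          have h9 : v j x = χ x * (b * f j x) + (1 - χ x) * x j := by rw [hv]; ring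
          rw [h9]
          nlinarith [mul_le_mul_of_nonneg_left h7 hc0,
            mul_le_mul_of_nonneg_left h8 (sub_nonneg.2 hc1)]
        · rw [hvout x hxW j]
          exact (hμ2 j).trans h.le
      · refine le_trans ?_ (neg_le_abs _)
        by_cases hxW : x ∈ W
        · have h5 : f j x < -(3 / 4 * ρ) := by
            rcases (hxW.2.2 j).2 with h6 | h6
            · exact absurd h6 (not_lt.2 (by linarith))
            · exact h6
          have h7 : μ ≤ b * (-f j x) := by
            have : b * (3 / 4 * ρ) ≤ b * (-f j x) :=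
              mul_le_mul_of_nonneg_left (by linarith) hbpos.le
            linarith
          have h8 : μ ≤ -x j := (hμ2 j).trans h.le
          have h9 : -v j x = χ x * (b * (-f j x)) + (1 - χ x) * (-x j) := by rw [hv]; ring
          rw [h9]
          nlinarith [mul_le_mul_of_nonneg_left h7 hc0,
            mul_le_mul_of_nonneg_left h8 (sub_nonneg.2 hc1)]
        · rw [hvout x hxW j]
          exact (hμ2 j).trans h.le
    calc μ ^ 2 ≤ |v j x| ^ 2 := pow_le_pow_left₀ hμpos.le h4 2
      _ = v j x ^ 2 := sq_abs _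
      _ ≤ ∑ j, v j x ^ 2 :=
          Finset.single_le_sum (f := fun j => v j x ^ 2) (fun i _ => sq_nonneg _)
            (Finset.mem_univ j)
  -- the bending function
  set τ : E N → ℝ := fun x => if x ∈ box r then
    Real.smoothTransition (4 * (∑ i, f i x ^ 2) / ρ ^ 2 - 1) else 1 with hτ
  have hτ01 : ∀ x, 0 ≤ τ x ∧ τ x ≤ 1 := by
    intro x
    rw [hτ]
    by_cases hx : x ∈ box r
    · simp only [hx, if_true]
      exact ⟨Real.smoothTransition.nonneg _, Real.smoothTransition.le_one _⟩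
    · simp only [hx, if_false]
      exact ⟨zero_le_one, le_rfl⟩
  have hτW : ∀ x, x ∈ W → τ x = Real.smoothTransition (4 * (∑ i, f i x ^ 2) / ρ ^ 2 - 1) := by
    intro x hxW
    by_cases hx : x ∈ box r
    · rw [hτ]
      simp only [hx, if_true]
    · rw [hτ]
      simp only [hx, if_false]
      symm
      apply Real.smoothTransition.one_of_one_le
      have h3 : ∃ j, r j < |x j| := by
        by_contra hcon
        push Not at hcon
        exact hx hcon
      obtain ⟨j, hj⟩ := h3
      have h4 : (3 / 4 * ρ) ^ 2 ≤ f j x ^ 2 := by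
        rcases lt_abs.1 hj with h | h
        · rcases (hxW.2.2 j).1 with h6 | h6
          · exact absurd h6 (not_lt.2 h.le)
          · exact pow_le_pow_left₀ (by positivity) h6.le 2
        · rcases (hxW.2.2 j).2 with h6 | h6
          · exact absurd h6 (not_lt.2 (by linarith))
          · have h7 : 3 / 4 * ρ ≤ -f j x := by linarith
            have h8 := pow_le_pow_left₀ (by positivity) h7 2
            rwa [neg_sq] at h8
      have h5 : f j x ^ 2 ≤ ∑ i, f i x ^ 2 :=
        Finset.single_le_sum (f := fun i => f i x ^ 2) (fun i _ => sq_nonneg _)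
          (Finset.mem_univ j)
      have h6 : 2 ≤ 4 * (∑ i, f i x ^ 2) / ρ ^ 2 := by
        rw [le_div_iff₀ (by positivity)]
        have : 0 < ρ ^ 2 := by positivity
        nlinarith
      linarith
  have hτWe : ∀ x, x ∈ W → τ =ᶠ[nhds x]
      fun y => Real.smoothTransition (4 * (∑ i, f i y ^ 2) / ρ ^ 2 - 1) := by
    intro x hx
    filter_upwards [hWo.mem_nhds hx] with y hy using hτW y hy
  have hτout : ∀ x, x ∉ box r → τ =ᶠ[nhds x] fun _ => 1 := by
    intro x hx
    filter_upwards [hcl.isOpen_compl.mem_nhds hx] with y hy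
    have hy' : y ∉ box r := hy
    rw [hτ]
    simp only [hy', if_false]
  have hτs : ContDiff ℝ ∞ τ := by
    rw [contDiff_iff_contDiffAt]
    intro x
    by_cases hx : x ∈ box r
    · have hxW := hQW hx
      refine ContDiffAt.congr_of_eventuallyEq ?_ (hτWe x hxW)
      have h3 : ∀ i, ContDiffAt ℝ ∞ (f i) x := fun i =>
        (hf i).contDiffAt (hU.mem_nhds (hWU hxW))
      have h4 : ContDiffAt ℝ ∞ (fun y => 4 * (∑ i, f i y ^ 2) / ρ ^ 2 - 1) x :=
        ((contDiffAt_const.mul (ContDiffAt.sum fun i _ => (h3 i).pow 2)).div_const _).sub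
          contDiffAt_const
      exact (Real.smoothTransition.contDiff.contDiffAt).comp x h4
    · exact contDiffAt_const.congr_of_eventuallyEq (hτout x hx)
  -- bounds
  have hbd : ∀ (φ : E N → ℝ) (t : ℝ), Continuous φ → (∀ x, R < ‖x‖ → φ x = t) →
      ∃ A : ℝ, 0 ≤ A ∧ ∀ x, |φ x| ≤ A := by
    intro φ t hφ ht
    obtain ⟨C0, hC0⟩ := (isCompact_closedBall (0 : E N) R).exists_bound_of_continuousOn
      hφ.continuousOn
    refine ⟨max |C0| |t|, (abs_nonneg _).trans (le_max_left _ _), fun x => ?_⟩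
    rcases le_or_gt ‖x‖ R with hx | hx
    · exact (hC0 x (by simpa using hx)).trans ((le_abs_self _).trans (le_max_left _ _))
    · rw [ht x hx]
      exact le_max_right _ _
  have hopen : IsOpen {x : E N | R < ‖x‖} := isOpen_lt continuous_const continuous_norm
  obtain ⟨A, hA0, hAb⟩ := hbd (fun x => scal G' x) 0 (cx_sm_scal hG'm).continuous (by
    intro x hx
    have h3 : G' =ᶠ[nhds x] fun _ => 1 := by
      filter_upwards [hopen.mem_nhds hx] with y hy
      exact hG'inf y (le_of_lt hy)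
    show scal G' x = 0
    rw [cx_scal_congr h3, cx_scal_one])
  obtain ⟨B, hB0, hBb⟩ := hbd (fun x => ∑ j, Real.sqrt (gradSq G' (v j) x))
    (∑ j : Fin N, Real.sqrt (∑ k, ∑ l, (1 : Matrix (Fin N) (Fin N) ℝ)⁻¹ k l
      * ((ev k : E N) j * (ev l : E N) j)))
    (continuous_finsetSum _ fun j _ =>
      Real.continuous_sqrt.comp (cx_ct_grad hG'm (hvs j))) (by
    intro x hx
    refine Finset.sum_congr rfl fun j _ => ?_
    have h3 : v j =ᶠ[nhds x] fun y => y j := by
      filter_upwards [hopen.mem_nhds hx] with y hy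
      exact hvout y (hout y (le_of_lt hy)) j
    have h4 : ∀ k, pd k (v j) x = (ev k : E N) j := by
      intro k
      rw [cx_pd_congr h3]
      unfold pd
      have h5 : HasFDerivAt (fun y : E N => y j) (EuclideanSpace.proj j : E N →L[ℝ] ℝ) x :=
        (EuclideanSpace.proj j : E N →L[ℝ] ℝ).hasFDerivAt
      rw [h5.fderiv]
      rfl
    unfold gradSq
    simp only [h4, hG'inf x hx.le])
  -- the large constant
  have hμ2pos : 0 < μ ^ 2 := by positivity
  set L : ℝ := 1 + (B + A / 4 + c / 8) / μ ^ 2 with hL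
  have hT0 : 0 ≤ B + A / 4 + c / 8 := by positivity
  have hL1 : 1 ≤ L := by
    have : 0 ≤ (B + A / 4 + c / 8) / μ ^ 2 := by positivity
    rw [hL]; linarith
  have hLpos : 0 < L := by linarith
  have hLμ : B + A / 4 + c / 8 ≤ L * μ ^ 2 := by
    rw [hL, add_mul, div_mul_cancel₀ _ hμ2pos.ne']
    linarith
  set h : E N → ℝ := fun x => 1 - (1 - 1 / L) * τ x with hh
  have he0 : 0 ≤ 1 - 1 / L := by
    have : 1 / L ≤ 1 := by rw [div_le_one hLpos]; exact hL1
    linarith
  have he1 : 1 - 1 / L < 1 := by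
    have : 0 < 1 / L := by positivity
    linarith
  have hhpos : ∀ x, 0 < h x := by
    intro x
    have h3 := hτ01 x
    rw [hh]
    simp only
    nlinarith [h3.1, h3.2]
  have hhs : ContDiff ℝ ∞ h := contDiff_const.sub (contDiff_const.mul hτs)
  have hhout : ∀ x, x ∉ box r → h =ᶠ[nhds x] fun _ => 1 / L := by
    intro x hx
    filter_upwards [hτout x hx] with y hy
    rw [hh]
    simp only [hy]
    ring
  set F : E N → Fin N → ℝ := fun x j => v j x / h x with hF
  have hFs : ∀ j, ContDiff ℝ ∞ (fun x => F x j) := fun j =>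
    (hvs j).div hhs fun x => (hhpos x).ne'
  have hFout : ∀ x, x ∉ box r → ∀ j, (fun y => F y j) =ᶠ[nhds x] fun y => L * v j y := by
    intro x hx j
    filter_upwards [hhout x hx] with y hy
    rw [hF]
    simp only [hy]
    field_simp
  have hFinf : ∀ x, R ≤ ‖x‖ → ∀ j, F x j = L * x j := by
    intro x hx j
    have h3 : F x j = L * v j x := (hFout x (houtQ x hx) j).eq_of_nhds
    rw [h3, hvout x (hout x hx) j]
  refine hA G' F L R hLpos hG'm hG'inf hFs hFinf (c / 8) (by positivity) fun x => ?_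
  unfold Ppot
  by_cases hx : x ∈ box r
  · -- in the box
    have hGx : G' x = G x := (hG'Q x hx).eq_of_nhds
    have hfd : ∀ i, DifferentiableAt ℝ (f i) x := fun i =>
      ((hf i).contDiffAt (hU.mem_nhds (hQU hx))).differentiableAt (by simp)
    have hM : ((G x)⁻¹).PosSemidef := (hG.posDef x (hQU hx)).inv.posSemidef
    have hvx : ∀ j, v j x = b * f j x := fun j => (hvQ x hx j).eq_of_nhds
    have hhe : h =ᶠ[nhds x] fun y =>
        1 - (1 - 1 / L) * Real.smoothTransition (4 * (∑ i, f i y ^ 2) / ρ ^ 2 - 1) := by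
      filter_upwards [hτWe x (hQW hx)] with y hy
      rw [hh]
      simp only [hy]
    have key := cx_inside hN hc hb hK hρ h1 h2 hL1 hM (fun j => f j x)
      (fun j k => pd k (f j) x) (fun j => by
        show Real.sqrt (gradSq G (f j) x) ≤ 1
        exact Real.sqrt_le_one.2 (hgr j x hx)) rfl (h := h x) hhe.eq_of_nhds
      (d := fun k => pd k h x) (by
        funext k
        rw [cx_pd_congr hhe, cy_pd_h hfd]
        simp only [Pi.smul_apply, Finset.sum_apply, smul_eq_mul]) (hsc x hx)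
    have e1 : scal G' x = scal G x := cx_scal_congr (hG'Q x hx)
    have e2 : ∀ j, F x j = b * f j x / h x := fun j => by
      show v j x / h x = _
      rw [hvx]
    have e3 : ∀ j, Real.sqrt (gradSq G' (fun y => F y j) x)
        = cx_n (G x)⁻¹ ((b / h x) • (fun k => pd k (f j) x)
          + (-(b * f j x / h x ^ 2)) • fun k => pd k h x) := by
      intro j
      have h3 : ∀ k, pd k (fun y => F y j) x = ((b / h x) • (fun k => pd k (f j) x)
          + (-(b * f j x / h x ^ 2)) • fun k => pd k h x) k := by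
        intro k
        show pd k (fun y => v j y / h y) x = _
        rw [cy_pd_div ((hvs j).differentiable (by simp)).differentiableAt
          (hhs.differentiable (by simp)).differentiableAt (hhpos x).ne', hvx,
          cx_pd_congr (hvQ x hx j), cy_pd_smul (hfd j)]
        simp only [Pi.add_apply, Pi.smul_apply, smul_eq_mul]
        ring
      unfold gradSq cx_n
      rw [hGx]
      simp only [h3]
    rw [e1]
    simp only [e2, e3]
    exact key
  · -- outside
    have e2 : ∀ j, F x j = L * v j x := fun j => (hFout x hx j).eq_of_nhds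
    have e3 : ∀ j, Real.sqrt (gradSq G' (fun y => F y j) x)
        = L * Real.sqrt (gradSq G' (v j) x) := by
      intro j
      have h3 : ∀ k, pd k (fun y => F y j) x = L * pd k (v j) x := fun k => by
        rw [cx_pd_congr (hFout x hx j), cy_pd_smul ((hvs j).differentiable (by simp)).differentiableAt]
      have h4 : gradSq G' (fun y => F y j) x = L ^ 2 * gradSq G' (v j) x := by
        unfold gradSq
        simp only [h3]
        rw [Finset.mul_sum]
        refine Finset.sum_congr rfl fun k _ => ?_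
        rw [Finset.mul_sum]
        refine Finset.sum_congr rfl fun l _ => ?_
        ring
      rw [h4, Real.sqrt_mul (sq_nonneg L), Real.sqrt_sq hLpos.le]
    have h5 : ∑ j, F x j ^ 2 = L ^ 2 * ∑ j, v j x ^ 2 := by
      rw [Finset.mul_sum]
      refine Finset.sum_congr rfl fun j _ => ?_
      rw [e2, mul_pow]
    have h6 : ∑ j, Real.sqrt (gradSq G' (fun y => F y j) x)
        = L * ∑ j, Real.sqrt (gradSq G' (v j) x) := by
      rw [Finset.mul_sum]
      exact Finset.sum_congr rfl fun j _ => e3 j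
    rw [h5, h6]
    have h7 := hvμ x hx
    have h8 := (abs_le.1 (hAb x)).1
    have h9 : ∑ j, Real.sqrt (gradSq G' (v j) x) ≤ B := (le_abs_self _).trans (hBb x)
    have h10 : L ^ 2 * μ ^ 2 ≤ L ^ 2 * ∑ j, v j x ^ 2 :=
      mul_le_mul_of_nonneg_left h7 (sq_nonneg L)
    have h11 : L * ∑ j, Real.sqrt (gradSq G' (v j) x) ≤ L * B :=
      mul_le_mul_of_nonneg_left h9 hLpos.le
    have h12 : L * (B + A / 4 + c / 8) ≤ L * (L * μ ^ 2) :=
      mul_le_mul_of_nonneg_left hLμ hLpos.le
    have h13 : A / 4 + c / 8 ≤ L * (A / 4 + c / 8) := by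
      have : 0 ≤ A / 4 + c / 8 := by positivity
      nlinarith
    have h14 : -A ≤ scal G' x := h8
    nlinarith

/-- The cube inequality, from the theorem of row A19. -/
theorem cy_cube (N : ℕ)
    (hA : ∀ (G : E N → Matrix (Fin N) (Fin N) ℝ) (F : E N → Fin N → ℝ) (lam R : ℝ),
      0 < lam → IsMetricOn G univ → (∀ x, R ≤ ‖x‖ → G x = 1) →
      (∀ j, ContDiff ℝ ∞ (fun x => F x j)) → (∀ x, R ≤ ‖x‖ → ∀ j, F x j = lam * x j) →
      ∀ δ : ℝ, 0 < δ → (∀ x, δ ≤ Ppot G F x) → False)
    (c : ℝ) (hc : 0 < c) : ∃ ρ : ℝ, 0 < ρ ∧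
    ∀ (U : Set (E N)) (G : E N → Matrix (Fin N) (Fin N) ℝ) (r : Fin N → ℝ) (f : Fin N → E N → ℝ),
      IsOpen U → (∀ j, 0 < r j) → box r ⊆ U → IsMetricOn G U → (∀ x ∈ box r, c ≤ scal G x) →
      (∀ j, ContDiffOn ℝ ∞ (f j) U) → (∀ j, ∀ x ∈ box r, gradSq G (f j) x ≤ 1) →
      (∀ j, ∀ x ∈ box r, x j = - r j → f j x ≤ -ρ) → (∀ j, ∀ x ∈ box r, x j = r j → ρ ≤ f j x) →
      False := by
  rcases Nat.eq_zero_or_pos N with hN | hN
  · subst hN
    refine ⟨1, one_pos, fun U G r f _ _ _ _ hsc _ _ _ _ => ?_⟩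
    have h3 := hsc 0 (fun j => j.elim0)
    have h4 : scal G 0 = 0 := by
      unfold scal
      simp
    rw [h4] at h3
    linarith
  · obtain ⟨K, hK0, hK⟩ := cx_tr_bdd
    have hNr : (0 : ℝ) < N := Nat.cast_pos.2 hN
    set b : ℝ := c / (8 * N) with hb
    have hbpos : 0 < b := by positivity
    have hb8 : b * (8 * N) = c := by
      rw [hb]
      field_simp
    set T : ℝ := (32 * K * N ^ 2 + 8 * N) / b with hT
    have hTpos : 0 < T := by positivity
    have hρ2 : b * Real.sqrt T ^ 2 = 32 * K * N ^ 2 + 8 * N := by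
      rw [Real.sq_sqrt hTpos.le, hT]
      field_simp
    refine ⟨Real.sqrt T, Real.sqrt_pos.2 hTpos, ?_⟩
    intro U G r f hU hr hQU hG hsc hf hgr hlo hhi
    refine cy_main hN hA hc hb8 hK (Real.sqrt_pos.2 hTpos) ?_ ?_ U G r f hU hr hQU hG hsc hf hgr
      hlo hhi
    · rw [hρ2]
      have : (0 : ℝ) ≤ 8 * N := by positivity
      linarith
    · rw [hρ2]
      have : (0 : ℝ) ≤ 32 * K * N ^ 2 := by positivity
      linarith

end
end PS
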