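import Pool.Agent.H96.PS.ADefs

/-! Christoffel symbols, metric compatibility, derivative of the inverse and of the density. -/

open scoped ContDiff Matrix
open MeasureTheory Set

namespace PS
noncomputable section
variable {N : ℕ}

namespace Chris

theorem contDiff_entry {G : E N → Matrix (Fin N) (Fin N) ℝ} (hG : IsMetricOn G univ)
    (i j : Fin N) : ContDiff ℝ ∞ (fun x => G x i j) :=
  contDiffOn_univ.1 (hG.smooth i j)

theorem diff_entry {G : E N → Matrix (Fin N) (Fin N) ℝ} (hG : IsMetricOn G univ) (x : E N)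
    (i j : Fin N) : DifferentiableAt ℝ (fun x => G x i j) x :=
  ((contDiff_entry hG i j).differentiable (by simp)) x

theorem symm {G : E N → Matrix (Fin N) (Fin N) ℝ} (hG : IsMetricOn G univ) (x : E N)
    (i j : Fin N) : G x i j = G x j i := by
  have h := (hG.posDef x (mem_univ x)).isHermitian.apply j i
  simpa using h

theorem pd_symm {G : E N → Matrix (Fin N) (Fin N) ℝ} (hG : IsMetricOn G univ) (x : E N)
    (k i j : Fin N) : pd k (fun y => G y i j) x = pd k (fun y => G y j i) x := by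
  have : (fun y => G y i j) = fun y => G y j i := funext fun y => symm hG y i j
  rw [this]

theorem isUnit_det {G : E N → Matrix (Fin N) (Fin N) ℝ} (hG : IsMetricOn G univ) (x : E N) :
    IsUnit (G x).det :=
  isUnit_iff_ne_zero.2 (hG.posDef x (mem_univ x)).det_pos.ne'

theorem mul_inv {G : E N → Matrix (Fin N) (Fin N) ℝ} (hG : IsMetricOn G univ) (x : E N) :
    G x * (G x)⁻¹ = 1 := Matrix.mul_nonsing_inv _ (isUnit_det hG x)

theorem inv_mul {G : E N → Matrix (Fin N) (Fin N) ℝ} (hG : IsMetricOn G univ) (x : E N) :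
    (G x)⁻¹ * G x = 1 := Matrix.nonsing_inv_mul _ (isUnit_det hG x)

theorem inv_symm {G : E N → Matrix (Fin N) (Fin N) ℝ} (hG : IsMetricOn G univ) (x : E N)
    (i j : Fin N) : (G x)⁻¹ i j = (G x)⁻¹ j i := by
  have h1 : (G x)ᵀ = G x := by
    ext a b
    exact symm hG x b a
  have h2 : ((G x)⁻¹)ᵀ = (G x)⁻¹ := by rw [Matrix.transpose_nonsing_inv, h1]
  calc (G x)⁻¹ i j = ((G x)⁻¹)ᵀ j i := rfl
    _ = (G x)⁻¹ j i := by rw [h2]

/-- The lowered Christoffel symbol. -/
theorem low {G : E N → Matrix (Fin N) (Fin N) ℝ} (hG : IsMetricOn G univ) (x : E N)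
    (i j k : Fin N) : ∑ l, chr G x i j l * G x l k = (1 / 2 : ℝ) *
      (pd i (fun y => G y j k) x + pd j (fun y => G y i k) x - pd k (fun y => G y i j) x) := by
  set t : Fin N → ℝ := fun m => pd i (fun y => G y j m) x + pd j (fun y => G y i m) x -
    pd m (fun y => G y i j) x with ht
  have h1 : ∀ l, chr G x i j l * G x l k = (1 / 2 : ℝ) * ∑ m, (G x k l * (G x)⁻¹ l m) * t m := by
    intro l
    have : chr G x i j l = (1 / 2 : ℝ) * ∑ m, (G x)⁻¹ l m * t m := rfl
    rw [this, mul_assoc, Finset.sum_mul]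
    congr 1
    refine Finset.sum_congr rfl fun m _ => ?_
    rw [symm hG x l k]; ring
  calc ∑ l, chr G x i j l * G x l k
      = ∑ l, (1 / 2 : ℝ) * ∑ m, (G x k l * (G x)⁻¹ l m) * t m :=
        Finset.sum_congr rfl fun l _ => h1 l
    _ = (1 / 2 : ℝ) * ∑ m, (G x * (G x)⁻¹) k m * t m := by
        rw [← Finset.mul_sum, Finset.sum_comm]
        congr 1
        refine Finset.sum_congr rfl fun m _ => ?_
        rw [← Finset.sum_mul, Matrix.mul_apply]
    _ = (1 / 2 : ℝ) * t k := by
        rw [mul_inv hG x]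
        congr 1
        rw [Finset.sum_eq_single k]
        · rw [Matrix.one_apply_eq, one_mul]
        · intro b _ hb
          rw [Matrix.one_apply_ne (Ne.symm hb), zero_mul]
        · intro h; exact absurd (Finset.mem_univ k) h

/-- The determinant of a matrix with differentiable entries, with its derivative. -/
theorem det_hasFDerivAt {A : E N → Matrix (Fin N) (Fin N) ℝ} (x : E N)
    (h : ∀ i j, DifferentiableAt ℝ (fun y => A y i j) x) :
    HasFDerivAt (fun y => (A y).det)
      (∑ σ : Equiv.Perm (Fin N), ((Equiv.Perm.sign σ : ℤ) : ℝ) •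
        ∑ i, (∏ j ∈ Finset.univ.erase i, A x (σ j) j) • fderiv ℝ (fun y => A y (σ i) i) x) x := by
  have e : (fun y => (A y).det) = fun y => ∑ σ : Equiv.Perm (Fin N),
      ((Equiv.Perm.sign σ : ℤ) : ℝ) * ∏ i, A y (σ i) i := by
    funext y
    exact Matrix.det_apply' (A y)
  rw [e]
  refine HasFDerivAt.fun_sum fun σ _ => ?_
  refine HasFDerivAt.const_mul ?_ _
  exact HasFDerivAt.finsetProd (u := Finset.univ) (g := fun i y => A y (σ i) i)
    (fun i _ => (h (σ i) i).hasFDerivAt)

theorem pd_det {A : E N → Matrix (Fin N) (Fin N) ℝ} (x : E N)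
    (h : ∀ i j, DifferentiableAt ℝ (fun y => A y i j) x) (k : Fin N) :
    pd k (fun y => (A y).det) x =
      ∑ j, ((A x).updateCol j fun i => pd k (fun y => A y i j) x).det := by
  unfold pd
  rw [(det_hasFDerivAt x h).fderiv]
  simp only [ContinuousLinearMap.sum_apply, ContinuousLinearMap.smul_apply, smul_eq_mul]
  simp_rw [Finset.mul_sum]
  rw [Finset.sum_comm]
  refine Finset.sum_congr rfl fun j _ => ?_
  rw [Matrix.det_apply']
  refine Finset.sum_congr rfl fun σ _ => ?_
  congr 1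
  rw [← Finset.mul_prod_erase Finset.univ _ (Finset.mem_univ j), Matrix.updateCol_self, mul_comm]
  congr 1
  refine Finset.prod_congr rfl fun i hi => ?_
  rw [Matrix.updateCol_ne (Finset.ne_of_mem_erase hi)]

theorem pd_det_inv {A : E N → Matrix (Fin N) (Fin N) ℝ} (x : E N)
    (h : ∀ i j, DifferentiableAt ℝ (fun y => A y i j) x) (hu : IsUnit (A x).det) (k : Fin N) :
    pd k (fun y => (A y).det) x =
      (A x).det * ∑ j, ∑ i, (A x)⁻¹ j i * pd k (fun y => A y i j) x := by
  rw [pd_det x h k, Finset.mul_sum]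
  refine Finset.sum_congr rfl fun j _ => ?_
  rw [← Matrix.cramer_apply, ← Matrix.det_smul_inv_mulVec_eq_cramer _ _ hu]
  rw [Pi.smul_apply, smul_eq_mul]
  rfl

theorem adj_diff {A : E N → Matrix (Fin N) (Fin N) ℝ} (x : E N)
    (h : ∀ i j, DifferentiableAt ℝ (fun y => A y i j) x) (i j : Fin N) :
    DifferentiableAt ℝ (fun y => (A y).adjugate i j) x := by
  have e : (fun y => (A y).adjugate i j) = fun y => ((A y).updateRow j (Pi.single i 1)).det := by
    funext y
    exact Matrix.adjugate_apply (A y) i j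
  rw [e]
  refine (det_hasFDerivAt x fun a b => ?_).differentiableAt
  by_cases hab : a = j
  · subst hab
    simp only [Matrix.updateRow_self]
    exact differentiableAt_const _
  · simp only [Matrix.updateRow_ne hab]
    exact h a b

theorem inv_diff {A : E N → Matrix (Fin N) (Fin N) ℝ} (x : E N)
    (h : ∀ i j, DifferentiableAt ℝ (fun y => A y i j) x) (hu : (A x).det ≠ 0) (i j : Fin N) :
    DifferentiableAt ℝ (fun y => (A y)⁻¹ i j) x := by
  have e : (fun y => (A y)⁻¹ i j) = fun y => ((A y).det)⁻¹ * (A y).adjugate i j := by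
    funext y
    rw [Matrix.inv_def, Ring.inverse_eq_inv, Matrix.smul_apply, smul_eq_mul]
  rw [e]
  exact ((det_hasFDerivAt x h).differentiableAt.inv hu).mul (adj_diff x h i j)

end Chris

open Chris

theorem chr_symm {G : E N → Matrix (Fin N) (Fin N) ℝ} (hG : IsMetricOn G univ) (x : E N)
    (i j k : Fin N) : chr G x i j k = chr G x j i k := by
  unfold chr
  congr 1
  refine Finset.sum_congr rfl fun l _ => ?_
  rw [pd_symm hG x l i j]
  ring

/-- metric compatibility `∂_i G_{jk} = ∑ (Γ^l_{ij} G_{lk} + Γ^l_{ik} G_{jl})` -/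
theorem chr_compat {G : E N → Matrix (Fin N) (Fin N) ℝ} (hG : IsMetricOn G univ) (x : E N)
    (i j k : Fin N) : pd i (fun y => G y j k) x =
      ∑ l, (chr G x i j l * G x l k + chr G x i k l * G x j l) := by
  rw [Finset.sum_add_distrib]
  have e : ∑ l, chr G x i k l * G x j l = ∑ l, chr G x i k l * G x l j :=
    Finset.sum_congr rfl fun l _ => by rw [Chris.symm hG x j l]
  rw [e, low hG x i j k, low hG x i k j, pd_symm hG x i k j, pd_symm hG x k i j,
    pd_symm hG x k j i, pd_symm hG x j i k]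
  ring

/-- `∂_k √det G = √det G ∑_i Γ^i_{ik}` -/
theorem pd_dens {G : E N → Matrix (Fin N) (Fin N) ℝ} (hG : IsMetricOn G univ) (x : E N)
    (k : Fin N) : pd k (dens G) x = dens G x * ∑ i, chr G x i k i := by
  have hpos : 0 < (G x).det := (hG.posDef x (mem_univ x)).det_pos
  have hd : DifferentiableAt ℝ (fun y => (G y).det) x :=
    (det_hasFDerivAt x (diff_entry hG x)).differentiableAt
  have h1 : pd k (dens G) x = (1 / (2 * Real.sqrt (G x).det)) * pd k (fun y => (G y).det) x := by
    unfold pd dens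
    rw [fderiv_sqrt hd hpos.ne']
    simp
  have h2 : ∑ j, ∑ i, (G x)⁻¹ j i * pd k (fun y => G y i j) x = 2 * ∑ i, chr G x i k i := by
    have h3 : ∀ j i, (G x)⁻¹ j i * pd k (fun y => G y i j) x =
        ∑ l, (chr G x k i l * (G x l j * (G x)⁻¹ j i) +
          chr G x k j l * ((G x)⁻¹ j i * G x i l)) := by
      intro j i
      rw [chr_compat hG x k i j, Finset.mul_sum]
      refine Finset.sum_congr rfl fun l _ => ?_
      ring
    have h4 : ∑ j, ∑ i, (G x)⁻¹ j i * pd k (fun y => G y i j) x =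
        (∑ j, ∑ i, ∑ l, chr G x k i l * (G x l j * (G x)⁻¹ j i)) +
        ∑ j, ∑ i, ∑ l, chr G x k j l * ((G x)⁻¹ j i * G x i l) := by
      rw [← Finset.sum_add_distrib]
      refine Finset.sum_congr rfl fun j _ => ?_
      rw [← Finset.sum_add_distrib]
      refine Finset.sum_congr rfl fun i _ => ?_
      rw [h3 j i, Finset.sum_add_distrib]
    have h5 : ∑ j, ∑ i, ∑ l, chr G x k i l * (G x l j * (G x)⁻¹ j i) =
        ∑ i, chr G x k i i := by
      rw [Finset.sum_comm]
      refine Finset.sum_congr rfl fun i _ => ?_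
      rw [Finset.sum_comm]
      have : ∀ l, ∑ j, chr G x k i l * (G x l j * (G x)⁻¹ j i) =
          chr G x k i l * (1 : Matrix (Fin N) (Fin N) ℝ) l i := by
        intro l
        rw [← Finset.mul_sum, ← Matrix.mul_apply, Chris.mul_inv hG x]
      simp_rw [this]
      rw [Finset.sum_eq_single i]
      · rw [Matrix.one_apply_eq, mul_one]
      · intro b _ hb
        rw [Matrix.one_apply_ne hb, mul_zero]
      · intro h; exact absurd (Finset.mem_univ i) h
    have h6 : ∑ j, ∑ i, ∑ l, chr G x k j l * ((G x)⁻¹ j i * G x i l) =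
        ∑ i, chr G x k i i := by
      refine Finset.sum_congr rfl fun j _ => ?_
      rw [Finset.sum_comm]
      have : ∀ l, ∑ i, chr G x k j l * ((G x)⁻¹ j i * G x i l) =
          chr G x k j l * (1 : Matrix (Fin N) (Fin N) ℝ) j l := by
        intro l
        rw [← Finset.mul_sum, ← Matrix.mul_apply, Chris.inv_mul hG x]
      simp_rw [this]
      rw [Finset.sum_eq_single j]
      · rw [Matrix.one_apply_eq, mul_one]
      · intro b _ hb
        rw [Matrix.one_apply_ne (Ne.symm hb), mul_zero]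
      · intro h; exact absurd (Finset.mem_univ j) h
    rw [h4, h5, h6]
    have h7 : ∑ i, chr G x k i i = ∑ i, chr G x i k i :=
      Finset.sum_congr rfl fun i _ => chr_symm hG x k i i
    rw [h7]; ring
  rw [h1, pd_det_inv x (diff_entry hG x) (Chris.isUnit_det hG x) k, h2]
  have hs : Real.sqrt (G x).det ≠ 0 := (Real.sqrt_pos.2 hpos).ne'
  have hm : (G x).det = Real.sqrt (G x).det * Real.sqrt (G x).det :=
    (Real.mul_self_sqrt hpos.le).symm
  unfold dens
  generalize Real.sqrt (G x).det = s at hs hm ⊢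
  rw [hm]
  field_simp

/-- `∂_k G^{ij} = - ∑_l (Γ^i_{kl} G^{lj} + Γ^j_{kl} G^{il})` -/
theorem pd_inv {G : E N → Matrix (Fin N) (Fin N) ℝ} (hG : IsMetricOn G univ) (x : E N)
    (i j k : Fin N) : pd k (fun y => (G y)⁻¹ i j) x =
      - ∑ l, (chr G x k l i * (G x)⁻¹ l j + chr G x k l j * (G x)⁻¹ i l) := by
  have hI : ∀ a b, DifferentiableAt ℝ (fun y => (G y)⁻¹ a b) x := fun a b =>
    inv_diff x (diff_entry hG x) (hG.posDef x (mem_univ x)).det_pos.ne' a b
  -- derivative of the product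
  have h1 : ∀ a b, ∑ l, ((G x) a l * pd k (fun y => (G y)⁻¹ l b) x +
      (G x)⁻¹ l b * pd k (fun y => G y a l) x) = 0 := by
    intro a b
    have e : (fun y => ∑ l, G y a l * (G y)⁻¹ l b) =
        fun _ => (1 : Matrix (Fin N) (Fin N) ℝ) a b := by
      funext y
      rw [← Matrix.mul_apply, Chris.mul_inv hG y]
    have h2 : pd k (fun y => ∑ l, G y a l * (G y)⁻¹ l b) x = 0 := by
      rw [e]; unfold pd; simp
    have h3 : HasFDerivAt (fun y => ∑ l, G y a l * (G y)⁻¹ l b)
        (∑ l, (G x a l • fderiv ℝ (fun y => (G y)⁻¹ l b) x +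
          (G x)⁻¹ l b • fderiv ℝ (fun y => G y a l) x)) x := by
      refine HasFDerivAt.fun_sum fun l _ => ?_
      exact (diff_entry hG x a l).hasFDerivAt.mul (hI l b).hasFDerivAt
    unfold pd at h2 ⊢
    rw [h3.fderiv] at h2
    simpa [ContinuousLinearMap.sum_apply] using h2
  -- multiply with the inverse
  have h2 : ∑ a, (G x)⁻¹ i a * ∑ l, ((G x) a l * pd k (fun y => (G y)⁻¹ l j) x +
      (G x)⁻¹ l j * pd k (fun y => G y a l) x) = 0 :=
    Finset.sum_eq_zero fun a _ => by rw [h1 a j, mul_zero]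
  have h3 : ∑ a, (G x)⁻¹ i a * ∑ l, ((G x) a l * pd k (fun y => (G y)⁻¹ l j) x +
      (G x)⁻¹ l j * pd k (fun y => G y a l) x) =
      (∑ a, ∑ l, ((G x)⁻¹ i a * (G x) a l) * pd k (fun y => (G y)⁻¹ l j) x) +
      ∑ a, ∑ l, (G x)⁻¹ i a * (G x)⁻¹ l j * pd k (fun y => G y a l) x := by
    rw [← Finset.sum_add_distrib]
    refine Finset.sum_congr rfl fun a _ => ?_
    rw [Finset.mul_sum, ← Finset.sum_add_distrib]
    refine Finset.sum_congr rfl fun l _ => ?_
    ring
  have h4 : ∑ a, ∑ l, ((G x)⁻¹ i a * (G x) a l) * pd k (fun y => (G y)⁻¹ l j) x =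
      pd k (fun y => (G y)⁻¹ i j) x := by
    rw [Finset.sum_comm]
    have : ∀ l, ∑ a, ((G x)⁻¹ i a * (G x) a l) * pd k (fun y => (G y)⁻¹ l j) x =
        (1 : Matrix (Fin N) (Fin N) ℝ) i l * pd k (fun y => (G y)⁻¹ l j) x := by
      intro l
      rw [← Finset.sum_mul, ← Matrix.mul_apply, Chris.inv_mul hG x]
    simp_rw [this]
    rw [Finset.sum_eq_single i]
    · rw [Matrix.one_apply_eq, one_mul]
    · intro b _ hb
      rw [Matrix.one_apply_ne (Ne.symm hb), zero_mul]
    · intro h; exact absurd (Finset.mem_univ i) h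
  have h5 : ∑ a, ∑ l, (G x)⁻¹ i a * (G x)⁻¹ l j * pd k (fun y => G y a l) x =
      (∑ a, ∑ l, ∑ m, (G x)⁻¹ i a * chr G x k a m * (G x m l * (G x)⁻¹ l j)) +
      ∑ a, ∑ l, ∑ m, ((G x)⁻¹ i a * G x a m) * (chr G x k l m * (G x)⁻¹ l j) := by
    rw [← Finset.sum_add_distrib]
    refine Finset.sum_congr rfl fun a _ => ?_
    rw [← Finset.sum_add_distrib]
    refine Finset.sum_congr rfl fun l _ => ?_
    rw [chr_compat hG x k a l, Finset.mul_sum, ← Finset.sum_add_distrib]
    refine Finset.sum_congr rfl fun m _ => ?_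
    ring
  have h6 : ∑ a, ∑ l, ∑ m, (G x)⁻¹ i a * chr G x k a m * (G x m l * (G x)⁻¹ l j) =
      ∑ a, chr G x k a j * (G x)⁻¹ i a := by
    refine Finset.sum_congr rfl fun a _ => ?_
    rw [Finset.sum_comm]
    have : ∀ m, ∑ l, (G x)⁻¹ i a * chr G x k a m * (G x m l * (G x)⁻¹ l j) =
        (G x)⁻¹ i a * chr G x k a m * (1 : Matrix (Fin N) (Fin N) ℝ) m j := by
      intro m
      rw [← Finset.mul_sum, ← Matrix.mul_apply, Chris.mul_inv hG x]
    simp_rw [this]
    rw [Finset.sum_eq_single j]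
    · rw [Matrix.one_apply_eq, mul_one, mul_comm]
    · intro b _ hb
      rw [Matrix.one_apply_ne hb, mul_zero]
    · intro h; exact absurd (Finset.mem_univ j) h
  have h7 : ∑ a, ∑ l, ∑ m, ((G x)⁻¹ i a * G x a m) * (chr G x k l m * (G x)⁻¹ l j) =
      ∑ l, chr G x k l i * (G x)⁻¹ l j := by
    rw [Finset.sum_comm]
    refine Finset.sum_congr rfl fun l _ => ?_
    rw [Finset.sum_comm]
    have : ∀ m, ∑ a, ((G x)⁻¹ i a * G x a m) * (chr G x k l m * (G x)⁻¹ l j) =
        (1 : Matrix (Fin N) (Fin N) ℝ) i m * (chr G x k l m * (G x)⁻¹ l j) := by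
      intro m
      rw [← Finset.sum_mul, ← Matrix.mul_apply, Chris.inv_mul hG x]
    simp_rw [this]
    rw [Finset.sum_eq_single i]
    · rw [Matrix.one_apply_eq, one_mul]
    · intro b _ hb
      rw [Matrix.one_apply_ne (Ne.symm hb), zero_mul]
    · intro h; exact absurd (Finset.mem_univ i) h
  rw [h3, h4, h5, h6, h7] at h2
  rw [Finset.sum_add_distrib]
  linarith

end
end PS
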