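import Pool.Agent.H96.PS.ADefs

/-!
Project PS (MP_b05a29_gt), row A1: the Clifford algebra acting on `Λ(ℝ^N)`.
-/

open scoped ContDiff Matrix
open MeasureTheory Set

namespace PS
noncomputable section
variable {N : ℕ}

namespace CliffAux

/-- toggle the membership of `i` in `I` -/
def tog (i : Fin N) (I : Finset (Fin N)) : Finset (Fin N) :=
  if i ∈ I then I.erase i else insert i I

/-- `+1` if `i ∈ I`, else `-1` -/
def ss (i : Fin N) (I : Finset (Fin N)) : ℝ := if i ∈ I then 1 else -1

theorem mem_tog (i j : Fin N) (I : Finset (Fin N)) :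
    j ∈ tog i I ↔ ((j = i ∧ i ∉ I) ∨ (j ≠ i ∧ j ∈ I)) := by
  unfold tog
  by_cases h : i ∈ I
  · by_cases hj : j = i <;> simp [h, hj]
  · by_cases hj : j = i <;> simp [h, hj]

theorem tog_tog (i : Fin N) (I : Finset (Fin N)) : tog i (tog i I) = I := by
  ext j
  rw [mem_tog, mem_tog]
  by_cases hj : j = i
  · subst hj; simp
  · simp [hj, mem_tog]

theorem tog_comm (i j : Fin N) (I : Finset (Fin N)) : tog i (tog j I) = tog j (tog i I) := by
  ext k
  rw [mem_tog i k, mem_tog j k, mem_tog j i, mem_tog j k, mem_tog i k, mem_tog i j]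
  by_cases hij : i = j
  · subst hij; simp [mem_tog]
  · have hji : ¬ j = i := fun h => hij h.symm
    by_cases hki : k = i
    · subst hki; simp [hij, hji, mem_tog]
    · by_cases hkj : k = j
      · subst hkj; simp [hij, hji, hki, mem_tog]
      · simp [hki, hkj, mem_tog]

theorem ss_sq (i : Fin N) (I : Finset (Fin N)) : ss i I * ss i I = 1 := by
  unfold ss; by_cases h : i ∈ I <;> simp [h]

theorem ss_tog_self (i : Fin N) (I : Finset (Fin N)) : ss i (tog i I) = - ss i I := by
  unfold ss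
  by_cases h : i ∈ I <;> simp [h, mem_tog]

theorem ss_tog_ne {i j : Fin N} (hij : i ≠ j) (I : Finset (Fin N)) :
    ss i (tog j I) = ss i I := by
  unfold ss
  by_cases h : i ∈ I <;> simp [h, mem_tog, hij]

theorem sgn_sq (i : Fin N) (I : Finset (Fin N)) : sgn i I * sgn i I = 1 := by
  unfold sgn
  rw [← pow_add, ← two_mul, pow_mul]; norm_num

theorem filter_tog_self (i : Fin N) (I : Finset (Fin N)) :
    (tog i I).filter (· < i) = I.filter (· < i) := by
  ext k
  rw [Finset.mem_filter, Finset.mem_filter, mem_tog]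
  constructor
  · rintro ⟨h, hk⟩
    rcases h with ⟨rfl, _⟩ | ⟨_, h⟩
    · exact absurd hk (lt_irrefl _)
    · exact ⟨h, hk⟩
  · rintro ⟨h, hk⟩
    exact ⟨Or.inr ⟨ne_of_lt hk, h⟩, hk⟩

theorem sgn_tog_self (i : Fin N) (I : Finset (Fin N)) : sgn i (tog i I) = sgn i I := by
  unfold sgn; rw [filter_tog_self]

theorem sgn_tog_gt {i j : Fin N} (hij : i < j) (I : Finset (Fin N)) :
    sgn i (tog j I) = sgn i I := by
  unfold sgn
  have : (tog j I).filter (· < i) = I.filter (· < i) := by
    ext k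
    rw [Finset.mem_filter, Finset.mem_filter, mem_tog]
    constructor
    · rintro ⟨h, hk⟩
      rcases h with ⟨rfl, _⟩ | ⟨_, h⟩
      · exact absurd (lt_trans hk hij) (lt_irrefl _)
      · exact ⟨h, hk⟩
    · rintro ⟨h, hk⟩
      exact ⟨Or.inr ⟨ne_of_lt (lt_trans hk hij), h⟩, hk⟩
  rw [this]

theorem sgn_tog_lt {i j : Fin N} (hij : j < i) (I : Finset (Fin N)) :
    sgn i (tog j I) = - sgn i I := by
  unfold sgn
  by_cases h : j ∈ I
  · have e : I.filter (· < i) = insert j ((tog j I).filter (· < i)) := by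
      ext k
      rw [Finset.mem_insert, Finset.mem_filter, Finset.mem_filter, mem_tog]
      by_cases hkj : k = j
      · subst hkj; simp [h, hij]
      · simp [hkj]
    have hn : j ∉ (tog j I).filter (· < i) := by
      rw [Finset.mem_filter, mem_tog]; simp [h]
    rw [e, Finset.card_insert_of_notMem hn, pow_succ]; ring
  · have e : (tog j I).filter (· < i) = insert j (I.filter (· < i)) := by
      ext k
      rw [Finset.mem_insert, Finset.mem_filter, Finset.mem_filter, mem_tog]
      by_cases hkj : k = j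
      · subst hkj; simp [h, hij]
      · simp [hkj]
    have hn : j ∉ I.filter (· < i) := by
      rw [Finset.mem_filter]; simp [h]
    rw [e, Finset.card_insert_of_notMem hn, pow_succ]; ring

/-- the skew symmetry of the signs -/
theorem sgn_skew {i j : Fin N} (hij : i ≠ j) (I : Finset (Fin N)) :
    sgn i I * sgn j (tog i I) = - (sgn j I * sgn i (tog j I)) := by
  rcases lt_or_gt_of_ne hij with h | h
  · rw [sgn_tog_lt h, sgn_tog_gt h]; ring
  · rw [sgn_tog_gt h, sgn_tog_lt h]; ring

theorem ext_apply (i : Fin N) (u : Lam N) (I : Finset (Fin N)) :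
    extL i u I = if i ∈ I then sgn i I * u (I.erase i) else 0 := rfl

theorem int_apply (i : Fin N) (u : Lam N) (I : Finset (Fin N)) :
    intL i u I = if i ∈ I then 0 else sgn i I * u (insert i I) := rfl

theorem num_apply (i : Fin N) (u : Lam N) (I : Finset (Fin N)) :
    numL i u I = if i ∈ I then u I else 0 := rfl

theorem cl_apply (i : Fin N) (u : Lam N) (I : Finset (Fin N)) :
    cl i u I = ss i I * (sgn i I * u (tog i I)) := by
  have : cl i u I = extL i u I - intL i u I := rfl
  rw [this, ext_apply, int_apply]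
  unfold ss tog
  by_cases h : i ∈ I <;> simp [h]

theorem ep_apply (i : Fin N) (u : Lam N) (I : Finset (Fin N)) :
    ep i u I = sgn i I * u (tog i I) := by
  have : ep i u I = extL i u I + intL i u I := rfl
  rw [this, ext_apply, int_apply]
  unfold tog
  by_cases h : i ∈ I <;> simp [h]

theorem card_tog (i : Fin N) (I : Finset (Fin N)) :
    (tog i I).card + 1 = I.card ∨ (tog i I).card = I.card + 1 := by
  unfold tog
  by_cases h : i ∈ I
  · left; simp only [h, if_true]; exact Finset.card_erase_add_one h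
  · right; simp only [h, if_false]; exact Finset.card_insert_of_notMem h

theorem odd_tog (i : Fin N) (I : Finset (Fin N)) : Odd (tog i I).card ↔ Even I.card := by
  rcases card_tog i I with h | h
  · rw [← h]; exact ⟨fun h => h.add_one, fun h => by
      by_contra h2
      rw [Nat.not_odd_iff_even] at h2
      exact (Nat.not_odd_iff_even.mpr h) h2.add_one⟩
  · rw [h]; exact ⟨fun h1 => by
      by_contra h2
      rw [Nat.not_even_iff_odd] at h2
      exact (Nat.not_odd_iff_even.mpr h2.add_one) h1, fun h1 => h1.add_one⟩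

theorem even_tog (i : Fin N) (I : Finset (Fin N)) : Even (tog i I).card ↔ Odd I.card := by
  rw [← Nat.not_odd_iff_even, odd_tog, Nat.not_even_iff_odd]

/-- the toggle as an equivalence -/
def togE (i : Fin N) : Finset (Fin N) ≃ Finset (Fin N) where
  toFun := tog i
  invFun := tog i
  left_inv := tog_tog i
  right_inv := tog_tog i

theorem inner_eq (u v : Lam N) : inner ℝ u v = ∑ I, u I * v I := by
  rw [PiLp.inner_apply]
  refine Finset.sum_congr rfl fun I _ => ?_
  simp [mul_comm]

end CliffAux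

open CliffAux

theorem cl_mul (i j : Fin N) : (cl i ∘L cl j + cl j ∘L cl i : Lam N →L[ℝ] Lam N) =
    if i = j then (-2 : ℝ) • ContinuousLinearMap.id ℝ (Lam N) else 0 := by
  ext u I
  have e : (cl i ∘L cl j + cl j ∘L cl i : Lam N →L[ℝ] Lam N) u I
      = cl i (cl j u) I + cl j (cl i u) I := rfl
  rw [e, cl_apply, cl_apply, cl_apply, cl_apply]
  by_cases hij : i = j
  · subst hij
    rw [if_pos rfl, tog_tog, ss_tog_self, sgn_tog_self]
    have e2 : ((-2 : ℝ) • ContinuousLinearMap.id ℝ (Lam N)) u I = -2 * u I := rfl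
    rw [e2]
    have h1 := ss_sq i I
    have h2 := sgn_sq i I
    have : ss i I * (sgn i I * (-ss i I * (sgn i I * u I)))
        = -((ss i I * ss i I) * (sgn i I * sgn i I) * u I) := by ring
    rw [this, h1, h2]; ring
  · rw [if_neg hij, ss_tog_ne (fun h => hij h.symm), ss_tog_ne hij, tog_comm j i I]
    have h := sgn_skew hij I
    have e2 : ((0 : Lam N →L[ℝ] Lam N)) u I = 0 := rfl
    rw [e2]
    have : ss i I * (sgn i I * (ss j I * (sgn j (tog i I) * u (tog i (tog j I))))) +
        ss j I * (sgn j I * (ss i I * (sgn i (tog j I) * u (tog i (tog j I)))))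
        = ss i I * ss j I * u (tog i (tog j I)) *
          (sgn i I * sgn j (tog i I) + sgn j I * sgn i (tog j I)) := by ring
    rw [this, h]; ring

theorem ep_mul (i j : Fin N) : (ep i ∘L ep j + ep j ∘L ep i : Lam N →L[ℝ] Lam N) =
    if i = j then (2 : ℝ) • ContinuousLinearMap.id ℝ (Lam N) else 0 := by
  ext u I
  have e : (ep i ∘L ep j + ep j ∘L ep i : Lam N →L[ℝ] Lam N) u I
      = ep i (ep j u) I + ep j (ep i u) I := rfl
  rw [e, ep_apply, ep_apply, ep_apply, ep_apply]
  by_cases hij : i = j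
  · subst hij
    rw [if_pos rfl, tog_tog, sgn_tog_self]
    have e2 : ((2 : ℝ) • ContinuousLinearMap.id ℝ (Lam N)) u I = 2 * u I := rfl
    rw [e2]
    have h2 := sgn_sq i I
    have : sgn i I * (sgn i I * u I) = (sgn i I * sgn i I) * u I := by ring
    rw [this, h2]; ring
  · rw [if_neg hij, tog_comm j i I]
    have h := sgn_skew hij I
    have e2 : ((0 : Lam N →L[ℝ] Lam N)) u I = 0 := rfl
    rw [e2]
    have : sgn i I * (sgn j (tog i I) * u (tog i (tog j I))) +
        sgn j I * (sgn i (tog j I) * u (tog i (tog j I)))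
        = u (tog i (tog j I)) *
          (sgn i I * sgn j (tog i I) + sgn j I * sgn i (tog j I)) := by ring
    rw [this, h]; ring

theorem cl_ep (i j : Fin N) : (cl i ∘L ep j + ep j ∘L cl i : Lam N →L[ℝ] Lam N) = 0 := by
  ext u I
  have e : (cl i ∘L ep j + ep j ∘L cl i : Lam N →L[ℝ] Lam N) u I
      = cl i (ep j u) I + ep j (cl i u) I := rfl
  have e2 : ((0 : Lam N →L[ℝ] Lam N)) u I = 0 := rfl
  rw [e, e2, cl_apply, ep_apply, ep_apply, cl_apply]
  by_cases hij : i = j
  · subst hij
    rw [tog_tog, ss_tog_self, sgn_tog_self]; ring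
  · rw [ss_tog_ne hij, tog_comm j i I]
    have h := sgn_skew hij I
    have : ss i I * (sgn i I * (sgn j (tog i I) * u (tog i (tog j I)))) +
        sgn j I * (ss i I * (sgn i (tog j I) * u (tog i (tog j I))))
        = ss i I * u (tog i (tog j I)) *
          (sgn i I * sgn j (tog i I) + sgn j I * sgn i (tog j I)) := by ring
    rw [this, h]; ring

theorem cl_adj (i : Fin N) (u v : Lam N) : inner ℝ (cl i u) v = - inner ℝ u (cl i v) := by
  rw [inner_eq, inner_eq, ← Equiv.sum_comp (togE i) (fun I => cl i u I * v I),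
    ← Finset.sum_neg_distrib]
  refine Finset.sum_congr rfl fun I _ => ?_
  have e : (togE i) I = tog i I := rfl
  rw [e, cl_apply, cl_apply, tog_tog, ss_tog_self, sgn_tog_self]; ring

theorem ep_adj (i : Fin N) (u v : Lam N) : inner ℝ (ep i u) v = inner ℝ u (ep i v) := by
  rw [inner_eq, inner_eq, ← Equiv.sum_comp (togE i) (fun I => ep i u I * v I)]
  refine Finset.sum_congr rfl fun I _ => ?_
  have e : (togE i) I = tog i I := rfl
  rw [e, ep_apply, ep_apply, tog_tog, sgn_tog_self]; ring

theorem cl_odd (i : Fin N) : OddOp (cl i : Lam N →L[ℝ] Lam N) := by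
  refine ⟨fun v hv I hI => ?_, fun v hv I hI => ?_⟩
  · rw [cl_apply, hv _ ((odd_tog i I).mpr hI)]; ring
  · rw [cl_apply, hv _ ((even_tog i I).mpr hI)]; ring

theorem ep_odd (i : Fin N) : OddOp (ep i : Lam N →L[ℝ] Lam N) := by
  refine ⟨fun v hv I hI => ?_, fun v hv I hI => ?_⟩
  · rw [ep_apply, hv _ ((odd_tog i I).mpr hI)]; ring
  · rw [ep_apply, hv _ ((even_tog i I).mpr hI)]; ring

theorem cl_ep_num (i : Fin N) : (cl i ∘L ep i : Lam N →L[ℝ] Lam N) =
    (2 : ℝ) • numL i - ContinuousLinearMap.id ℝ (Lam N) := by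
  ext u I
  have e : (cl i ∘L ep i : Lam N →L[ℝ] Lam N) u I = cl i (ep i u) I := rfl
  have e2 : ((2 : ℝ) • numL i - ContinuousLinearMap.id ℝ (Lam N)) u I
      = 2 * numL i u I - u I := rfl
  rw [e, e2, cl_apply, ep_apply, tog_tog, sgn_tog_self, num_apply]
  have h2 := sgn_sq i I
  have : ss i I * (sgn i I * (sgn i I * u I)) = ss i I * (sgn i I * sgn i I) * u I := by ring
  rw [this, h2]
  unfold ss
  by_cases h : i ∈ I
  · simp only [h, if_true]; ring
  · simp only [h, if_false]; ring

theorem norm_sum_cl (c : Fin N → ℝ) (v : Lam N) :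
    ‖∑ a, c a • cl a v‖ ^ 2 = (∑ a, c a ^ 2) * ‖v‖ ^ 2 := by
  have h1 : ∀ a b, inner ℝ (c a • cl a v) (c b • cl b v) + inner ℝ (c b • cl b v) (c a • cl a v)
      = if a = b then 2 * c a ^ 2 * ‖v‖ ^ 2 else 0 := by
    intro a b
    have h := congrArg (fun T : Lam N →L[ℝ] Lam N => T v) (cl_mul a b)
    have e : (cl a ∘L cl b + cl b ∘L cl a : Lam N →L[ℝ] Lam N) v
      = cl a (cl b v) + cl b (cl a v) := rfl
    simp only [e] at h
    have e3 : inner ℝ v (cl a (cl b v)) + inner ℝ v (cl b (cl a v))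
        = if a = b then -2 * ‖v‖ ^ 2 else 0 := by
      rw [← inner_add_right, h]
      by_cases hab : a = b
      · simp only [hab, if_true]
        have e4 : ((-2 : ℝ) • ContinuousLinearMap.id ℝ (Lam N)) v = (-2 : ℝ) • v := rfl
        rw [e4, inner_smul_right, real_inner_self_eq_norm_sq]
      · simp only [hab, if_false]
        have e4 : (0 : Lam N →L[ℝ] Lam N) v = 0 := rfl
        rw [e4, inner_zero_right]
    rw [real_inner_smul_left, real_inner_smul_left, real_inner_smul_right, real_inner_smul_right,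
      cl_adj, cl_adj]
    have e5 : c a * (c b * -inner ℝ v (cl a (cl b v))) + c b * (c a * -inner ℝ v (cl b (cl a v)))
        = -(c a * c b) * (inner ℝ v (cl a (cl b v)) + inner ℝ v (cl b (cl a v))) := by ring
    rw [e5, e3]
    by_cases hab : a = b
    · subst hab; simp only [if_true]; ring
    · simp only [hab, if_false]; ring
  have h2 : ‖∑ a, c a • cl a v‖ ^ 2 = ∑ a, ∑ b, inner ℝ (c a • cl a v) (c b • cl b v) := by
    rw [← real_inner_self_eq_norm_sq, sum_inner]
    refine Finset.sum_congr rfl fun a _ => ?_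
    rw [inner_sum]
  have h3 : ∑ a, ∑ b, inner ℝ (c a • cl a v) (c b • cl b v)
      = ∑ a, ∑ b, inner ℝ (c b • cl b v) (c a • cl a v) := Finset.sum_comm
  have h4 : 2 * ‖∑ a, c a • cl a v‖ ^ 2 = ∑ a, ∑ b, (inner ℝ (c a • cl a v) (c b • cl b v)
      + inner ℝ (c b • cl b v) (c a • cl a v)) := by
    have : ∑ a, ∑ b, (inner ℝ (c a • cl a v) (c b • cl b v)
      + inner ℝ (c b • cl b v) (c a • cl a v)) =
      ∑ a, ∑ b, inner ℝ (c a • cl a v) (c b • cl b v)
      + ∑ a, ∑ b, inner ℝ (c b • cl b v) (c a • cl a v) := by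
      rw [← Finset.sum_add_distrib]
      refine Finset.sum_congr rfl fun a _ => ?_
      rw [← Finset.sum_add_distrib]
    rw [this, ← h3, ← h2]; ring
  have h5 : ∑ a, ∑ b, (inner ℝ (c a • cl a v) (c b • cl b v)
      + inner ℝ (c b • cl b v) (c a • cl a v)) = ∑ a, 2 * c a ^ 2 * ‖v‖ ^ 2 := by
    refine Finset.sum_congr rfl fun a _ => ?_
    rw [Finset.sum_congr rfl fun b _ => h1 a b]
    simp
  have h6 : ∑ a, 2 * c a ^ 2 * ‖v‖ ^ 2 = 2 * ((∑ a, c a ^ 2) * ‖v‖ ^ 2) := by
    rw [Finset.sum_mul, Finset.mul_sum]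
    refine Finset.sum_congr rfl fun a _ => ?_
    ring
  rw [h5, h6] at h4
  linarith

theorem norm_sum_ep (c : Fin N → ℝ) (v : Lam N) :
    ‖∑ a, c a • ep a v‖ ^ 2 = (∑ a, c a ^ 2) * ‖v‖ ^ 2 := by
  have h1 : ∀ a b, inner ℝ (c a • ep a v) (c b • ep b v) + inner ℝ (c b • ep b v) (c a • ep a v)
      = if a = b then 2 * c a ^ 2 * ‖v‖ ^ 2 else 0 := by
    intro a b
    have h := congrArg (fun T : Lam N →L[ℝ] Lam N => T v) (ep_mul a b)
    have e : (ep a ∘L ep b + ep b ∘L ep a : Lam N →L[ℝ] Lam N) v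
      = ep a (ep b v) + ep b (ep a v) := rfl
    simp only [e] at h
    have e3 : inner ℝ v (ep a (ep b v)) + inner ℝ v (ep b (ep a v))
        = if a = b then 2 * ‖v‖ ^ 2 else 0 := by
      rw [← inner_add_right, h]
      by_cases hab : a = b
      · simp only [hab, if_true]
        have e4 : ((2 : ℝ) • ContinuousLinearMap.id ℝ (Lam N)) v = (2 : ℝ) • v := rfl
        rw [e4, inner_smul_right, real_inner_self_eq_norm_sq]
      · simp only [hab, if_false]
        have e4 : (0 : Lam N →L[ℝ] Lam N) v = 0 := rfl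
        rw [e4, inner_zero_right]
    rw [real_inner_smul_left, real_inner_smul_left, real_inner_smul_right, real_inner_smul_right,
      ep_adj, ep_adj]
    have e5 : c a * (c b * inner ℝ v (ep a (ep b v))) + c b * (c a * inner ℝ v (ep b (ep a v)))
        = (c a * c b) * (inner ℝ v (ep a (ep b v)) + inner ℝ v (ep b (ep a v))) := by ring
    rw [e5, e3]
    by_cases hab : a = b
    · subst hab; simp only [if_true]; ring
    · simp only [hab, if_false]; ring
  have h2 : ‖∑ a, c a • ep a v‖ ^ 2 = ∑ a, ∑ b, inner ℝ (c a • ep a v) (c b • ep b v) := by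
    rw [← real_inner_self_eq_norm_sq, sum_inner]
    refine Finset.sum_congr rfl fun a _ => ?_
    rw [inner_sum]
  have h3 : ∑ a, ∑ b, inner ℝ (c a • ep a v) (c b • ep b v)
      = ∑ a, ∑ b, inner ℝ (c b • ep b v) (c a • ep a v) := Finset.sum_comm
  have h4 : 2 * ‖∑ a, c a • ep a v‖ ^ 2 = ∑ a, ∑ b, (inner ℝ (c a • ep a v) (c b • ep b v)
      + inner ℝ (c b • ep b v) (c a • ep a v)) := by
    have : ∑ a, ∑ b, (inner ℝ (c a • ep a v) (c b • ep b v)
      + inner ℝ (c b • ep b v) (c a • ep a v)) =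
      ∑ a, ∑ b, inner ℝ (c a • ep a v) (c b • ep b v)
      + ∑ a, ∑ b, inner ℝ (c b • ep b v) (c a • ep a v) := by
      rw [← Finset.sum_add_distrib]
      refine Finset.sum_congr rfl fun a _ => ?_
      rw [← Finset.sum_add_distrib]
    rw [this, ← h3, ← h2]; ring
  have h5 : ∑ a, ∑ b, (inner ℝ (c a • ep a v) (c b • ep b v)
      + inner ℝ (c b • ep b v) (c a • ep a v)) = ∑ a, 2 * c a ^ 2 * ‖v‖ ^ 2 := by
    refine Finset.sum_congr rfl fun a _ => ?_
    rw [Finset.sum_congr rfl fun b _ => h1 a b]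
    simp
  have h6 : ∑ a, 2 * c a ^ 2 * ‖v‖ ^ 2 = 2 * ((∑ a, c a ^ 2) * ‖v‖ ^ 2) := by
    rw [Finset.sum_mul, Finset.mul_sum]
    refine Finset.sum_congr rfl fun a _ => ?_
    ring
  rw [h5, h6] at h4
  linarith

theorem num_nonneg (i : Fin N) (v : Lam N) : 0 ≤ inner ℝ v (numL i v) := by
  rw [inner_eq]
  refine Finset.sum_nonneg fun I _ => ?_
  rw [num_apply]
  by_cases h : i ∈ I
  · simp only [h, if_true]; exact mul_self_nonneg _
  · simp only [h, if_false, mul_zero]; exact le_rfl

theorem num_odd (v : Lam N) (hv : OddV v) : ‖v‖ ^ 2 ≤ ∑ i, inner ℝ v (numL i v) := by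
  have e : ∑ i, inner ℝ v (numL i v) = ∑ I : Finset (Fin N), (I.card : ℝ) * (v I * v I) := by
    simp only [inner_eq]
    rw [Finset.sum_comm]
    refine Finset.sum_congr rfl fun I _ => ?_
    have : ∀ i, v I * numL i v I = if i ∈ I then v I * v I else 0 := by
      intro i; rw [num_apply]; by_cases h : i ∈ I <;> simp [h]
    rw [Finset.sum_congr rfl fun i _ => this i, ← Finset.sum_filter]
    simp
  rw [e, ← real_inner_self_eq_norm_sq, inner_eq]
  refine Finset.sum_le_sum fun I _ => ?_
  rcases Nat.even_or_odd I.card with h | h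
  · rw [hv I h]; simp
  · have h1 : (1 : ℝ) ≤ (I.card : ℝ) := by
      exact_mod_cast h.pos
    nlinarith [mul_self_nonneg (v I)]

end
end PS
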