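import Pool.Agent.H96.PS.ADefs
import Pool.Agent.H96.PS.Cliff

/-! Project PS (MP_b05a29_gt): algebra of the spin representation. -/

open scoped ContDiff Matrix
open MeasureTheory Set

namespace PS
noncomputable section
variable {N : ℕ}

namespace SpinAux

/-- Clifford relation, pointwise. -/
theorem rel (i j : Fin N) (x : Lam N) :
    cl i (cl j x) = -cl j (cl i x) + (if i = j then (-2 : ℝ) else 0) • x := by
  have h := congrArg (fun T : Lam N →L[ℝ] Lam N => T x) (cl_mul i j)
  by_cases hij : i = j
  · simp only [hij, if_true, ContinuousLinearMap.add_apply, ContinuousLinearMap.comp_apply,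
      ContinuousLinearMap.smul_apply, ContinuousLinearMap.id_apply] at h
    simp only [hij, if_true]
    rw [eq_neg_add_iff_add_eq]
    exact h
  · simp only [hij, if_false, ContinuousLinearMap.add_apply, ContinuousLinearMap.comp_apply,
      ContinuousLinearMap.zero_apply] at h
    simp only [hij, if_false, zero_smul, add_zero]
    exact eq_neg_of_add_eq_zero_left h

theorem triple (a b c : Fin N) (x : Lam N) : cl a (cl b (cl c x)) =
    cl c (cl a (cl b x)) + (if b = c then (-2 : ℝ) else 0) • cl a x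
      - (if a = c then (-2 : ℝ) else 0) • cl b x := by
  rw [rel b c x, map_add, map_neg, map_smul, rel a c (cl b x)]
  abel

theorem skew_apply {w : Matrix (Fin N) (Fin N) ℝ} (hw : wᵀ = -w) (a b : Fin N) :
    w b a = - w a b := by
  have := congrFun (congrFun hw a) b
  simpa using this

theorem spin_apply (w : Matrix (Fin N) (Fin N) ℝ) (u : Lam N) :
    spinL w u = (-(1 / 4 : ℝ)) • ∑ a, ∑ b, w a b • cl a (cl b u) := by
  simp [spinL, ContinuousLinearMap.sum_apply]

theorem spin_cl' {w : Matrix (Fin N) (Fin N) ℝ} (hw : wᵀ = -w) (c : Fin N) (x : Lam N) :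
    spinL w (cl c x) - cl c (spinL w x) = ∑ a, w a c • cl a x := by
  have h1 : spinL w (cl c x) - cl c (spinL w x) =
      (-(1 / 4 : ℝ)) • ∑ a, ∑ b, w a b •
        ((if b = c then (-2 : ℝ) else 0) • cl a x - (if a = c then (-2 : ℝ) else 0) • cl b x) := by
    rw [spin_apply, spin_apply, map_smul, ← smul_sub, map_sum, ← Finset.sum_sub_distrib]
    congr 1
    refine Finset.sum_congr rfl fun a _ => ?_
    rw [map_sum, ← Finset.sum_sub_distrib]
    refine Finset.sum_congr rfl fun b _ => ?_
    rw [map_smul, ← smul_sub, triple]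
    congr 1
    abel
  have h2 : (∑ a, ∑ b, w a b • ((if b = c then (-2 : ℝ) else 0) • cl a x
      - (if a = c then (-2 : ℝ) else 0) • cl b x)) = (-4 : ℝ) • ∑ a, w a c • cl a x := by
    have e1 : (∑ a, ∑ b, w a b • ((if b = c then (-2 : ℝ) else 0) • cl a x
        - (if a = c then (-2 : ℝ) else 0) • cl b x)) =
        (∑ a, ∑ b, (if b = c then ((-2 : ℝ) * w a b) • cl a x else 0)) -
        ∑ b, ∑ a, (if a = c then ((-2 : ℝ) * w a b) • cl b x else 0) := by
      rw [Finset.sum_comm (f := fun b a => (if a = c then ((-2 : ℝ) * w a b) • cl b x else 0)),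
        ← Finset.sum_sub_distrib]
      refine Finset.sum_congr rfl fun a _ => ?_
      rw [← Finset.sum_sub_distrib]
      refine Finset.sum_congr rfl fun b _ => ?_
      rw [smul_sub]
      congr 1
      · split_ifs <;> simp [smul_smul, mul_comm]
      · split_ifs <;> simp [smul_smul, mul_comm]
    rw [e1]
    simp only [Finset.sum_ite_eq', Finset.mem_univ, if_true]
    rw [← Finset.sum_sub_distrib, Finset.smul_sum]
    refine Finset.sum_congr rfl fun a _ => ?_
    rw [← sub_smul, smul_smul, skew_apply hw a c]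
    congr 1
    ring
  rw [h1, h2, smul_smul]
  norm_num

theorem move {w : Matrix (Fin N) (Fin N) ℝ} (hw : wᵀ = -w) (a b : Fin N) (x : Lam N) :
    spinL w (cl a (cl b x)) - cl a (cl b (spinL w x)) =
      (∑ e, w e a • cl e (cl b x)) + ∑ e, w e b • cl a (cl e x) := by
  have h1 := spin_cl' hw a (cl b x)
  have h2 := congrArg (fun y => cl a y) (spin_cl' hw b x)
  simp only [map_sub, map_sum, map_smul] at h2
  rw [← h1, ← h2]
  abel

theorem spin_comm' {w z : Matrix (Fin N) (Fin N) ℝ} (hw : wᵀ = -w) (x : Lam N) :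
    spinL w (spinL z x) - spinL z (spinL w x) = spinL (w * z - z * w) x := by
  have h1 : spinL w (spinL z x) - spinL z (spinL w x) =
      (-(1 / 4 : ℝ)) • ∑ a, ∑ b, z a b •
        ((∑ e, w e a • cl e (cl b x)) + ∑ e, w e b • cl a (cl e x)) := by
    rw [spin_apply z, spin_apply z, map_smul, ← smul_sub, map_sum, ← Finset.sum_sub_distrib]
    congr 1
    refine Finset.sum_congr rfl fun a _ => ?_
    rw [map_sum, ← Finset.sum_sub_distrib]
    refine Finset.sum_congr rfl fun b _ => ?_
    rw [map_smul, ← smul_sub, move hw]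
  have h2 : (∑ a, ∑ b, z a b •
        ((∑ e, w e a • cl e (cl b x)) + ∑ e, w e b • cl a (cl e x))) =
      ∑ a, ∑ b, (w * z - z * w) a b • cl a (cl b x) := by
    have e1 : (∑ a, ∑ b, z a b •
        ((∑ e, w e a • cl e (cl b x)) + ∑ e, w e b • cl a (cl e x))) =
        (∑ a, ∑ b, ∑ e, (w e a * z a b) • cl e (cl b x)) +
        ∑ a, ∑ b, ∑ e, (z a b * w e b) • cl a (cl e x) := by
      rw [← Finset.sum_add_distrib]
      refine Finset.sum_congr rfl fun a _ => ?_
      rw [← Finset.sum_add_distrib]
      refine Finset.sum_congr rfl fun b _ => ?_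
      rw [smul_add, Finset.smul_sum, Finset.smul_sum]
      congr 1
      · refine Finset.sum_congr rfl fun e _ => ?_
        rw [smul_smul, mul_comm (z a b)]
      · refine Finset.sum_congr rfl fun e _ => ?_
        rw [smul_smul]
    have e2 : (∑ a, ∑ b, ∑ e, (w e a * z a b) • cl e (cl b x)) =
        ∑ e, ∑ b, (w * z) e b • cl e (cl b x) := by
      rw [Finset.sum_comm]
      rw [Finset.sum_comm (f := fun e b => (w * z) e b • cl e (cl b x))]
      refine Finset.sum_congr rfl fun b _ => ?_
      rw [Finset.sum_comm]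
      refine Finset.sum_congr rfl fun e _ => ?_
      rw [Matrix.mul_apply, Finset.sum_smul]
    have e3 : (∑ a, ∑ b, ∑ e, (z a b * w e b) • cl a (cl e x)) =
        - ∑ a, ∑ e, (z * w) a e • cl a (cl e x) := by
      rw [← Finset.sum_neg_distrib]
      refine Finset.sum_congr rfl fun a _ => ?_
      rw [Finset.sum_comm, ← Finset.sum_neg_distrib]
      refine Finset.sum_congr rfl fun e _ => ?_
      rw [Matrix.mul_apply, ← neg_smul, ← Finset.sum_neg_distrib, Finset.sum_smul]
      refine Finset.sum_congr rfl fun b _ => ?_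
      rw [skew_apply hw b e]
      congr 1
      ring
    rw [e1, e2, e3, ← sub_eq_add_neg, ← Finset.sum_sub_distrib]
    refine Finset.sum_congr rfl fun a _ => ?_
    rw [← Finset.sum_sub_distrib]
    refine Finset.sum_congr rfl fun b _ => ?_
    rw [← sub_smul, Matrix.sub_apply]
  rw [h1, h2, ← spin_apply]

end SpinAux

theorem spin_cl {w : Matrix (Fin N) (Fin N) ℝ} (hw : wᵀ = -w) (c : Fin N) :
    (spinL w ∘L cl c - cl c ∘L spinL w : Lam N →L[ℝ] Lam N) = ∑ a, w a c • cl a := by
  ext1 x
  rw [ContinuousLinearMap.sub_apply, ContinuousLinearMap.comp_apply,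
    ContinuousLinearMap.comp_apply, SpinAux.spin_cl' hw, ContinuousLinearMap.sum_apply]
  rfl

theorem spin_comm {w z : Matrix (Fin N) (Fin N) ℝ} (hw : wᵀ = -w) (hz : zᵀ = -z) :
    (spinL w ∘L spinL z - spinL z ∘L spinL w : Lam N →L[ℝ] Lam N) = spinL (w * z - z * w) := by
  ext1 x
  rw [ContinuousLinearMap.sub_apply, ContinuousLinearMap.comp_apply,
    ContinuousLinearMap.comp_apply, SpinAux.spin_comm' hw]

theorem spin_adj {w : Matrix (Fin N) (Fin N) ℝ} (hw : wᵀ = -w) (u v : Lam N) :
    inner ℝ (spinL w u) v = - inner ℝ u (spinL w v) := by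
  have h : ∀ a b : Fin N, inner ℝ (cl a (cl b u)) v = inner ℝ u (cl b (cl a v)) := by
    intro a b
    rw [cl_adj, cl_adj]; simp
  rw [SpinAux.spin_apply, SpinAux.spin_apply, inner_smul_left, inner_smul_right, sum_inner,
    inner_sum]
  have e1 : (∑ a, inner ℝ (∑ b, w a b • cl a (cl b u)) v) =
      ∑ a, ∑ b, w a b * inner ℝ u (cl b (cl a v)) := by
    refine Finset.sum_congr rfl fun a _ => ?_
    rw [sum_inner]
    refine Finset.sum_congr rfl fun b _ => ?_
    rw [inner_smul_left, h]; simp
  have e2 : (∑ a, inner ℝ u (∑ b, w a b • cl a (cl b v))) =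
      ∑ a, ∑ b, w a b * inner ℝ u (cl a (cl b v)) := by
    refine Finset.sum_congr rfl fun a _ => ?_
    rw [inner_sum]
    refine Finset.sum_congr rfl fun b _ => ?_
    rw [inner_smul_right]
  rw [e1, e2, Finset.sum_comm]
  have e3 : (∑ b, ∑ a, w a b * inner ℝ u (cl b (cl a v))) =
      - ∑ a, ∑ b, w a b * inner ℝ u (cl a (cl b v)) := by
    rw [← Finset.sum_neg_distrib]
    refine Finset.sum_congr rfl fun b _ => ?_
    rw [← Finset.sum_neg_distrib]
    refine Finset.sum_congr rfl fun a _ => ?_
    rw [SpinAux.skew_apply hw b a]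
    ring
  rw [e3]
  simp

theorem spin_ep {w : Matrix (Fin N) (Fin N) ℝ} (c : Fin N) :
    (spinL w ∘L ep c : Lam N →L[ℝ] Lam N) = ep c ∘L spinL w := by
  have h : ∀ (a : Fin N) (x : Lam N), cl a (ep c x) = - ep c (cl a x) := by
    intro a x
    have := congrArg (fun T : Lam N →L[ℝ] Lam N => T x) (cl_ep a c)
    simp only [ContinuousLinearMap.add_apply, ContinuousLinearMap.comp_apply,
      ContinuousLinearMap.zero_apply] at this
    exact eq_neg_of_add_eq_zero_left this
  ext1 x
  rw [ContinuousLinearMap.comp_apply, ContinuousLinearMap.comp_apply, SpinAux.spin_apply,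
    SpinAux.spin_apply, map_smul, map_sum]
  congr 1
  refine Finset.sum_congr rfl fun a _ => ?_
  rw [map_sum]
  refine Finset.sum_congr rfl fun b _ => ?_
  rw [map_smul, h, map_neg, h, neg_neg]

end
end PS
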