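import Pool.Agent.H96.PS.ADefs
import Pool.Agent.H96.PS.Cliff
import Pool.Agent.H96.PS.Chris
import Pool.Agent.H96.PS.Spin

/-! Algebra of the connection: the frame connection is skew, Clifford relations of `c^i`,
commutator of the covariant derivative with Clifford multiplication. -/

open scoped ContDiff Matrix
open MeasureTheory Set

namespace PS
noncomputable section
variable {N : ℕ}

namespace ConAlg

theorem smul_add' (r : ℝ) (A B : Lam N →L[ℝ] Lam N) : r • A + r • B = r • (A + B) :=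
  (smul_add r A B).symm

theorem smul_sub' (r : ℝ) (A B : Lam N →L[ℝ] Lam N) : r • A - r • B = r • (A - B) :=
  (smul_sub r A B).symm

theorem sub_smul' (r s : ℝ) (A : Lam N →L[ℝ] Lam N) : r • A - s • A = (r - s) • A :=
  (sub_smul r s A).symm

theorem neg_smul' (r : ℝ) (A : Lam N →L[ℝ] Lam N) : -(r • A) = (-r) • A :=
  (neg_smul r A).symm

theorem smul_smul' (r s : ℝ) (A : Lam N →L[ℝ] Lam N) : r • s • A = (r * s) • A :=
  smul_smul r s A

theorem pd_smul (i : Fin N) {f : E N → ℝ} {x : E N} (hf : DifferentiableAt ℝ f x)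
    (A : Lam N →L[ℝ] Lam N) : fderiv ℝ (fun y => f y • A) x (ev i) = pd i f x • A := by
  have h := (hf.hasFDerivAt.smul_const A).fderiv
  exact congrArg (fun L : E N →L[ℝ] (Lam N →L[ℝ] Lam N) => L (ev i)) h

theorem smul_zero' (r : ℝ) : r • (0 : Lam N →L[ℝ] Lam N) = 0 :=
  ContinuousLinearMap.ext fun _ => smul_zero (M := ℝ) (A := Lam N) r

theorem sum_smul' (f : Fin N → ℝ) (A : Lam N →L[ℝ] Lam N) : (∑ i, f i) • A = ∑ i, f i • A := by
  refine ContinuousLinearMap.ext fun v => ?_
  have h1 : ((∑ i, f i) • A) v = (∑ i, f i) • (A v) := rfl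
  have h2 : (∑ i, f i • A) v = ∑ i, f i • (A v) := by
    rw [sum_apply]
    rfl
  rw [h1, h2]
  exact Finset.sum_smul

theorem inv_left {G fr : E N → Matrix (Fin N) (Fin N) ℝ} (h : IsFrame G fr) (x : E N) :
    (fr x)⁻¹ = (fr x)ᵀ * G x :=
  Matrix.inv_eq_left_inv (h.orth x)

theorem isUnit_det {G fr : E N → Matrix (Fin N) (Fin N) ℝ} (h : IsFrame G fr) (x : E N) :
    IsUnit (fr x).det :=
  Matrix.isUnit_det_of_left_inverse (h.orth x)

theorem mul_left_inv {G fr : E N → Matrix (Fin N) (Fin N) ℝ} (h : IsFrame G fr) (x : E N) :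
    fr x * ((fr x)ᵀ * G x) = 1 := by
  rw [← inv_left h x]
  exact Matrix.mul_nonsing_inv _ (isUnit_det h x)

theorem mul_transpose {G fr : E N → Matrix (Fin N) (Fin N) ℝ} (h : IsFrame G fr) (x : E N) :
    fr x * (fr x)ᵀ = (G x)⁻¹ := by
  refine (Matrix.inv_eq_left_inv ?_).symm
  rw [Matrix.mul_assoc]
  exact mul_left_inv h x

theorem diff_fr {G fr : E N → Matrix (Fin N) (Fin N) ℝ} (h : IsFrame G fr) (x : E N)
    (i j : Fin N) : DifferentiableAt ℝ (fun y => fr y i j) x :=
  ((h.smooth i j).differentiable (by simp)) x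

/-- derivative matrix of the frame -/
def dfr (fr : E N → Matrix (Fin N) (Fin N) ℝ) (i : Fin N) (x : E N) : Matrix (Fin N) (Fin N) ℝ :=
  Matrix.of (fun j k => pd i (fun y => fr y j k) x)

/-- derivative matrix of the metric -/
theorem dG_eq {G : E N → Matrix (Fin N) (Fin N) ℝ} (hG : IsMetricOn G univ) (i : Fin N) (x : E N) :
    (Matrix.of (fun j k => pd i (fun y => G y j k) x) : Matrix (Fin N) (Fin N) ℝ) =
      (conM G i x)ᵀ * G x + G x * conM G i x := by
  ext j k
  rw [Matrix.of_apply, chr_compat hG x i j k, Matrix.add_apply, Matrix.mul_apply,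
    Matrix.mul_apply, Finset.sum_add_distrib]
  congr 1
  refine Finset.sum_congr rfl fun l _ => ?_
  simp only [conM, Matrix.of_apply]
  ring

theorem pd_mul (i : Fin N) {f g : E N → ℝ} {x : E N} (hf : DifferentiableAt ℝ f x)
    (hg : DifferentiableAt ℝ g x) :
    pd i (fun y => f y * g y) x = pd i f x * g x + f x * pd i g x := by
  unfold pd
  rw [fderiv_fun_mul hf hg]
  simp only [add_apply, smul_apply, smul_eq_mul]
  ring

theorem pd_sum {ι : Type*} (s : Finset ι) (i : Fin N) {f : ι → E N → ℝ} {x : E N}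
    (hf : ∀ a ∈ s, DifferentiableAt ℝ (f a) x) :
    pd i (fun y => ∑ a ∈ s, f a y) x = ∑ a ∈ s, pd i (f a) x := by
  unfold pd
  rw [fderiv_fun_sum hf]
  simp only [sum_apply]

/-- `0 = ∂_i (frᵀ G fr)` -/
theorem diff_orth {G fr : E N → Matrix (Fin N) (Fin N) ℝ} (h : IsFrame G fr) (i : Fin N)
    (x : E N) :
    (dfr fr i x)ᵀ * G x * fr x +
      (fr x)ᵀ * (Matrix.of (fun j k => pd i (fun y => G y j k) x)) * fr x +
      (fr x)ᵀ * G x * dfr fr i x = 0 := by
  ext a b
  have h0 : ∀ y, ∑ k, (∑ j, fr y j a * G y j k) * fr y k b = (1 : Matrix (Fin N) (Fin N) ℝ) a b := by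
    intro y
    rw [← h.orth y]
    simp only [Matrix.mul_apply, Matrix.transpose_apply]
  have h1 : pd i (fun y => ∑ k, (∑ j, fr y j a * G y j k) * fr y k b) x = 0 := by
    have : (fun y => ∑ k, (∑ j, fr y j a * G y j k) * fr y k b) =
        fun _ => (1 : Matrix (Fin N) (Fin N) ℝ) a b := funext h0
    rw [this]
    simp [pd]
  have hf := diff_fr h x
  have hg := Chris.diff_entry h.metric x
  have hd : ∀ j k, DifferentiableAt ℝ (fun y => fr y j a * G y j k) x :=
    fun j k => (hf j a).fun_mul (hg j k)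
  have hs : ∀ k, DifferentiableAt ℝ (fun y => ∑ j, fr y j a * G y j k) x :=
    fun k => DifferentiableAt.fun_sum fun j _ => hd j k
  rw [pd_sum _ _ (fun k _ => (hs k).fun_mul (hf k b))] at h1
  have h2 : ∀ k, pd i (fun y => (∑ j, fr y j a * G y j k) * fr y k b) x =
      (∑ j, pd i (fun y => fr y j a) x * G x j k) * fr x k b +
      (∑ j, fr x j a * pd i (fun y => G y j k) x) * fr x k b +
      (∑ j, fr x j a * G x j k) * pd i (fun y => fr y k b) x := by
    intro k
    rw [pd_mul i (hs k) (hf k b), pd_sum _ _ (fun j _ => hd j k)]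
    have : ∀ j, pd i (fun y => fr y j a * G y j k) x =
        pd i (fun y => fr y j a) x * G x j k + fr x j a * pd i (fun y => G y j k) x :=
      fun j => pd_mul i (hf j a) (hg j k)
    simp only [this]
    rw [Finset.sum_add_distrib, add_mul]
  simp only [h2] at h1
  rw [Finset.sum_add_distrib, Finset.sum_add_distrib] at h1
  simp only [Matrix.add_apply, Matrix.mul_apply, Matrix.transpose_apply, dfr, Matrix.of_apply,
    Matrix.zero_apply]
  exact h1

theorem G_transpose {G : E N → Matrix (Fin N) (Fin N) ℝ} (hG : IsMetricOn G univ) (x : E N) :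
    (G x)ᵀ = G x := by
  ext a b
  exact Chris.symm hG x b a

theorem omg_eq {G fr : E N → Matrix (Fin N) (Fin N) ℝ} (h : IsFrame G fr) (i : Fin N) (x : E N) :
    omg G fr i x = (fr x)ᵀ * G x * (dfr fr i x + conM G i x * fr x) := by
  unfold omg
  rw [inv_left h x]
  rfl

theorem fr_mul_omg {G fr : E N → Matrix (Fin N) (Fin N) ℝ} (h : IsFrame G fr) (i : Fin N)
    (x : E N) : fr x * omg G fr i x = dfr fr i x + conM G i x * fr x := by
  rw [omg_eq h, ← Matrix.mul_assoc, mul_left_inv h x, Matrix.one_mul]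

end ConAlg

theorem omg_skew {G fr : E N → Matrix (Fin N) (Fin N) ℝ} (h : IsFrame G fr) (i : Fin N) (x : E N) :
    (omg G fr i x)ᵀ = - omg G fr i x := by
  rw [eq_neg_iff_add_eq_zero, ConAlg.omg_eq h]
  have h1 := ConAlg.diff_orth h i x
  rw [ConAlg.dG_eq h.metric i x] at h1
  rw [← h1]
  simp only [Matrix.transpose_mul, Matrix.transpose_add, Matrix.transpose_transpose,
    ConAlg.G_transpose h.metric x, Matrix.mul_add, Matrix.add_mul, Matrix.mul_assoc]
  abel

theorem cliff_mul {G fr : E N → Matrix (Fin N) (Fin N) ℝ} (h : IsFrame G fr) (i j : Fin N)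
    (x : E N) : (cliff fr i x ∘L cliff fr j x + cliff fr j x ∘L cliff fr i x : Lam N →L[ℝ] Lam N) =
      (-2 * (G x)⁻¹ i j) • ContinuousLinearMap.id ℝ (Lam N) := by
  have h1 : (cliff fr i x ∘L cliff fr j x : Lam N →L[ℝ] Lam N) =
      ∑ a, ∑ b, (fr x i a * fr x j b) • (cl a ∘L cl b) := by
    unfold cliff
    rw [ContinuousLinearMap.finsetSum_comp]
    refine Finset.sum_congr rfl fun a _ => ?_
    rw [ContinuousLinearMap.comp_finsetSum]
    refine Finset.sum_congr rfl fun b _ => ?_
    rw [ContinuousLinearMap.smul_comp, ContinuousLinearMap.comp_smul, smul_smul]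
  have h2 : (cliff fr j x ∘L cliff fr i x : Lam N →L[ℝ] Lam N) =
      ∑ a, ∑ b, (fr x i a * fr x j b) • (cl b ∘L cl a) := by
    unfold cliff
    rw [ContinuousLinearMap.comp_finsetSum]
    refine Finset.sum_congr rfl fun a _ => ?_
    rw [ContinuousLinearMap.finsetSum_comp]
    refine Finset.sum_congr rfl fun b _ => ?_
    rw [ContinuousLinearMap.smul_comp, ContinuousLinearMap.comp_smul, smul_smul,
      mul_comm (fr x j b)]
  rw [h1, h2, ← Finset.sum_add_distrib]
  have h3 : ∀ a, ((∑ b, (fr x i a * fr x j b) • (cl a ∘L cl b)) +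
      ∑ b, (fr x i a * fr x j b) • (cl b ∘L cl a) : Lam N →L[ℝ] Lam N) =
      (-2 * (fr x i a * fr x j a)) • ContinuousLinearMap.id ℝ (Lam N) := by
    intro a
    rw [← Finset.sum_add_distrib, Finset.sum_eq_single a]
    · rw [ConAlg.smul_add', cl_mul, if_pos rfl, ConAlg.smul_smul']
      congr 1
      ring
    · intro b _ hb
      rw [ConAlg.smul_add', cl_mul, if_neg (Ne.symm hb), ConAlg.smul_zero']
    · intro hh; exact absurd (Finset.mem_univ a) hh
  rw [Finset.sum_congr rfl fun a _ => h3 a, ← Finset.sum_smul, ← Finset.mul_sum]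
  congr 2
  rw [← ConAlg.mul_transpose h x, Matrix.mul_apply]
  rfl

/-- `[∇_i, c^j] = - ∑_k Γ^j_{ik} c^k` -/
theorem nab_cliff {G fr : E N → Matrix (Fin N) (Fin N) ℝ} (h : IsFrame G fr) (i j : Fin N)
    (x : E N) : pd i (cliff fr j) x + spinL (omg G fr i x) ∘L cliff fr j x
      - cliff fr j x ∘L spinL (omg G fr i x) = - ∑ k, chr G x i k j • cliff fr k x := by
  have h1 : pd i (cliff fr j) x = ∑ a, ConAlg.dfr fr i x j a • (cl a : Lam N →L[ℝ] Lam N) := by
    unfold pd cliff
    have hd : ∀ a ∈ (Finset.univ : Finset (Fin N)),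
        DifferentiableAt ℝ (fun y => fr y j a • (cl a : Lam N →L[ℝ] Lam N)) x :=
      fun a _ => (ConAlg.diff_fr h x j a).smul_const _
    rw [fderiv_fun_sum hd]
    simp only [sum_apply]
    refine Finset.sum_congr rfl fun a _ => ?_
    exact ConAlg.pd_smul i (ConAlg.diff_fr h x j a) (cl a)
  have h2 : (spinL (omg G fr i x) ∘L cliff fr j x - cliff fr j x ∘L spinL (omg G fr i x) :
      Lam N →L[ℝ] Lam N) = - ∑ a, (fr x * omg G fr i x) j a • (cl a : Lam N →L[ℝ] Lam N) := by
    have e1 : (spinL (omg G fr i x) ∘L cliff fr j x - cliff fr j x ∘L spinL (omg G fr i x) :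
        Lam N →L[ℝ] Lam N) = ∑ c, fr x j c • ∑ a, omg G fr i x a c • (cl a : Lam N →L[ℝ] Lam N) := by
      unfold cliff
      rw [ContinuousLinearMap.comp_finsetSum, ContinuousLinearMap.finsetSum_comp,
        ← Finset.sum_sub_distrib]
      refine Finset.sum_congr rfl fun c _ => ?_
      rw [ContinuousLinearMap.smul_comp, ContinuousLinearMap.comp_smul, ConAlg.smul_sub',
        spin_cl (omg_skew h i x)]
    rw [e1]
    simp only [Finset.smul_sum, smul_smul]
    rw [Finset.sum_comm, ← Finset.sum_neg_distrib]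
    refine Finset.sum_congr rfl fun a _ => ?_
    rw [← Finset.sum_smul, ConAlg.neg_smul']
    congr 1
    rw [Matrix.mul_apply, ← Finset.sum_neg_distrib]
    refine Finset.sum_congr rfl fun c _ => ?_
    have : omg G fr i x a c = - omg G fr i x c a := by
      have h3 := congrFun (congrFun (omg_skew h i x) c) a
      simpa using h3
    rw [this]; ring
  rw [add_sub_assoc, h2, h1, ConAlg.fr_mul_omg h, ← sub_eq_add_neg, ← Finset.sum_sub_distrib]
  have h4 : ∀ a, ConAlg.dfr fr i x j a • (cl a : Lam N →L[ℝ] Lam N) -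
      (ConAlg.dfr fr i x + conM G i x * fr x) j a • (cl a : Lam N →L[ℝ] Lam N) =
      ∑ k, -((chr G x i k j * fr x k a) • (cl a : Lam N →L[ℝ] Lam N)) := by
    intro a
    rw [ConAlg.sub_smul', Matrix.add_apply, sub_add_cancel_left, Matrix.mul_apply,
      ← ConAlg.neg_smul', ConAlg.sum_smul', ← Finset.sum_neg_distrib]
    rfl
  rw [Finset.sum_congr rfl fun a _ => h4 a, Finset.sum_comm, ← Finset.sum_neg_distrib]
  refine Finset.sum_congr rfl fun k _ => ?_
  unfold cliff
  rw [Finset.smul_sum, ← Finset.sum_neg_distrib]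
  refine Finset.sum_congr rfl fun a _ => ?_
  rw [smul_smul]

end
end PS
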