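import Pool.Agent.H96.PS.ADefs

/-! project PS (MP_b05a29_gt), row A7: abstract Clifford contraction (in any real algebra). -/

open scoped ContDiff Matrix
open MeasureTheory Set

namespace PS
noncomputable section
variable {N : ℕ}

namespace CliffContrAux

variable {A : Type*} [Ring A] [Algebra ℝ A]

theorem cyc1 (e : Fin N → A)
    (he : ∀ i j, e i * e j + e j * e i = if i = j then (-2 : ℝ) • (1 : A) else 0)
    (a b c : Fin N) :
    e b * e c * e a = e a * e b * e c + (if a = b then (2 : ℝ) else 0) • e c
      - (if a = c then (2 : ℝ) else 0) • e b := by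
  have h1 : e c * e a = (if c = a then (-2 : ℝ) • (1 : A) else 0) - e a * e c :=
    eq_sub_of_add_eq (he c a)
  have h2 : e b * e a = (if b = a then (-2 : ℝ) • (1 : A) else 0) - e a * e b :=
    eq_sub_of_add_eq (he b a)
  have e1 : e b * e c * e a = e b * (e c * e a) := mul_assoc _ _ _
  have e2 : e b * (e a * e c) = (e b * e a) * e c := (mul_assoc _ _ _).symm
  rw [e1, h1, mul_sub, e2, h2, sub_mul]
  by_cases hab : a = b <;> by_cases hac : a = c
  · subst hab; subst hac
    simp
  · subst hab
    have : ¬ c = a := fun h => hac h.symm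
    simp [this, hac]
  · subst hac
    have : ¬ b = a := fun h => hab h.symm
    simp [this, hab]
    abel
  · have h3 : ¬ c = a := fun h => hac h.symm
    have h4 : ¬ b = a := fun h => hab h.symm
    simp [h3, h4, hab, hac]

theorem sum3_cyc {M : Type*} [AddCommMonoid M] (f : Fin N → Fin N → Fin N → M) :
    ∑ a, ∑ b, ∑ c, f b c a = ∑ a, ∑ b, ∑ c, f a b c := by
  rw [Finset.sum_comm]
  refine Finset.sum_congr rfl fun b _ => ?_
  rw [Finset.sum_comm]

theorem contr3 (e : Fin N → A)
    (he : ∀ i j, e i * e j + e j * e i = if i = j then (-2 : ℝ) • (1 : A) else 0)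
    (R : Fin N → Fin N → Fin N → ℝ)
    (h1 : ∀ a b c, R a b c = - R b a c)
    (h3 : ∀ a b c, R a b c + R b c a + R c a b = 0) :
    ∑ a, ∑ b, ∑ c, R a b c • (e a * e b * e c) = (2 : ℝ) • ∑ b, (∑ a, R a b a) • e b := by
  set T := ∑ a, ∑ b, ∑ c, R a b c • (e a * e b * e c) with hT
  have c1 : ∑ a, ∑ b, ∑ c, R b c a • (e b * e c * e a) = T :=
    sum3_cyc (fun a b c => R a b c • (e a * e b * e c))
  have c2 : ∑ a, ∑ b, ∑ c, R c a b • (e c * e a * e b) = T := by
    rw [← c1]
    exact sum3_cyc (fun a b c => R b c a • (e b * e c * e a))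
  have key : ∀ a b c : Fin N, R a b c • (e a * e b * e c) + R b c a • (e b * e c * e a)
      + R c a b • (e c * e a * e b)
      = (if a = b then (2 * R b c a) • e c else 0) - (if a = c then (2 * R b c a) • e b else 0)
        + ((if b = c then (2 * R c a b) • e a else 0)
            - (if a = c then (2 * R c a b) • e b else 0)) := by
    intro a b c
    have k1 := cyc1 e he a b c
    have k2 : e c * e a * e b = e a * e b * e c + (if b = c then (2 : ℝ) else 0) • e a
        - (if a = c then (2 : ℝ) else 0) • e b := by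
      have := cyc1 e he c a b
      have h : e c * e a * e b = e a * e b * e c - (if c = a then (2 : ℝ) else 0) • e b
          + (if c = b then (2 : ℝ) else 0) • e a := by
        rw [this]; abel
      rw [h]
      have q1 : (if c = a then (2 : ℝ) else 0) = if a = c then (2 : ℝ) else 0 := by
        simp only [eq_comm]
      have q2 : (if c = b then (2 : ℝ) else 0) = if b = c then (2 : ℝ) else 0 := by
        simp only [eq_comm]
      rw [q1, q2]; abel
    rw [k1, k2]
    have h0 : R a b c = - R b c a - R c a b := by linarith [h3 a b c]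
    rw [h0]
    split_ifs <;> module
  have tot : T + T + T = ∑ a, ∑ b, ∑ c,
      ((if a = b then (2 * R b c a) • e c else 0) - (if a = c then (2 * R b c a) • e b else 0)
        + ((if b = c then (2 * R c a b) • e a else 0)
            - (if a = c then (2 * R c a b) • e b else 0))) := by
    nth_rewrite 2 [← c1]
    nth_rewrite 2 [← c2]
    rw [hT]
    simp only [← Finset.sum_add_distrib]
    refine Finset.sum_congr rfl fun a _ => Finset.sum_congr rfl fun b _ =>
      Finset.sum_congr rfl fun c _ => key a b c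
  have s1 : ∑ a, ∑ b, ∑ c, (if a = b then (2 * R b c a) • e c else 0 : A)
      = (2 : ℝ) • ∑ b, (∑ a, R a b a) • e b := by
    have : ∀ a, ∑ b, ∑ c, (if a = b then (2 * R b c a) • e c else 0 : A)
        = ∑ c, (2 * R a c a) • e c := by
      intro a
      rw [Finset.sum_comm]
      refine Finset.sum_congr rfl fun c _ => ?_
      simp
    simp only [this]
    rw [Finset.sum_comm, Finset.smul_sum]
    refine Finset.sum_congr rfl fun c _ => ?_
    rw [Finset.sum_smul, Finset.smul_sum]
    refine Finset.sum_congr rfl fun a _ => ?_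
    rw [smul_smul]
  have s2 : ∑ a, ∑ b, ∑ c, (if a = c then (2 * R b c a) • e b else 0 : A)
      = - ((2 : ℝ) • ∑ b, (∑ a, R a b a) • e b) := by
    have : ∀ a, ∑ b, ∑ c, (if a = c then (2 * R b c a) • e b else 0 : A)
        = ∑ b, (2 * R b a a) • e b := by
      intro a
      refine Finset.sum_congr rfl fun b _ => ?_
      simp
    simp only [this]
    rw [Finset.sum_comm, Finset.smul_sum, ← Finset.sum_neg_distrib]
    refine Finset.sum_congr rfl fun b _ => ?_
    rw [Finset.sum_smul, Finset.smul_sum, ← Finset.sum_neg_distrib]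
    refine Finset.sum_congr rfl fun a _ => ?_
    rw [h1 b a a, smul_smul, ← neg_smul]
    congr 1
    ring
  have s3 : ∑ a, ∑ b, ∑ c, (if b = c then (2 * R c a b) • e a else 0 : A)
      = (2 : ℝ) • ∑ b, (∑ a, R a b a) • e b := by
    have : ∀ a, ∑ b, ∑ c, (if b = c then (2 * R c a b) • e a else 0 : A)
        = ∑ b, (2 * R b a b) • e a := by
      intro a
      refine Finset.sum_congr rfl fun b _ => ?_
      simp
    simp only [this]
    rw [Finset.smul_sum]
    refine Finset.sum_congr rfl fun a _ => ?_
    rw [Finset.sum_smul, Finset.smul_sum]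
    refine Finset.sum_congr rfl fun b _ => ?_
    rw [smul_smul]
  have s4 : ∑ a, ∑ b, ∑ c, (if a = c then (2 * R c a b) • e b else 0 : A) = 0 := by
    refine Finset.sum_eq_zero fun a _ => Finset.sum_eq_zero fun b _ =>
      Finset.sum_eq_zero fun c _ => ?_
    split_ifs with h
    · subst h
      have : R a a b = 0 := by linarith [h1 a a b]
      rw [this]; simp
    · rfl
  have tot2 : T + T + T = (6 : ℝ) • ∑ b, (∑ a, R a b a) • e b := by
    rw [tot]
    simp only [Finset.sum_add_distrib, Finset.sum_sub_distrib]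
    rw [s1, s2, s3, s4]
    module
  have h3T : T = (1 / 3 : ℝ) • (T + T + T) := by module
  rw [h3T, tot2, smul_smul]
  norm_num

/-- pair symmetry, only the case needed for the symmetry of the Ricci tensor -/
theorem ric_symm (R : Fin N → Fin N → Fin N → Fin N → ℝ)
    (h1 : ∀ a b c d, R a b c d = - R b a c d) (h2 : ∀ a b c d, R a b c d = - R a b d c)
    (h3 : ∀ a b c d, R a b d c + R b c d a + R c a d b = 0) (a b d : Fin N) :
    R a b a d = R a d a b := by
  have b1 := h3 a b d a
  have b2 := h3 b d a a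
  have b3 := h3 d a a b
  have b4 := h3 a a b d
  have p1 := h1 a b a d
  have p2 := h2 a b a d
  have p3 := h1 a b d a
  have p4 := h1 b d a a
  have p5 := h2 b d a a
  have p6 := h1 d a a b
  have p7 := h2 d a a b
  have p8 := h1 d a b a
  have p9 := h2 a d a b
  have p10 := h1 a a b d
  have p11 := h1 a a d b
  have p12 := h2 b a a d
  have p13 := h1 a d b a
  have p14 := h1 a b a d
  linarith

theorem main (e : Fin N → A)
    (he : ∀ i j, e i * e j + e j * e i = if i = j then (-2 : ℝ) • (1 : A) else 0)
    (R : Fin N → Fin N → Fin N → Fin N → ℝ)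
    (h1 : ∀ a b c d, R a b c d = - R b a c d) (h2 : ∀ a b c d, R a b c d = - R a b d c)
    (h3 : ∀ a b c d, R a b d c + R b c d a + R c a d b = 0) :
    ∑ a, ∑ b, ∑ c, ∑ d, R a b c d • (e a * (e b * (e c * e d)))
      = (-2 * ∑ a, ∑ b, R a b a b) • (1 : A) := by
  have h4 : ∀ a b c d, R a b c d + R b c a d + R c a b d = 0 := by
    intro a b c d
    have := h3 a b c d
    rw [h2 a b d c, h2 b c d a, h2 c a d b] at this
    linarith
  have hS : ∑ a, ∑ b, ∑ c, ∑ d, R a b c d • (e a * (e b * (e c * e d)))
      = ∑ d, (∑ a, ∑ b, ∑ c, R a b c d • (e a * e b * e c)) * e d := by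
    have : ∀ d, (∑ a, ∑ b, ∑ c, R a b c d • (e a * e b * e c)) * e d
        = ∑ a, ∑ b, ∑ c, R a b c d • (e a * (e b * (e c * e d))) := by
      intro d
      simp only [Finset.sum_mul, smul_mul_assoc, mul_assoc]
    simp only [this]
    rw [Finset.sum_comm (s := Finset.univ (α := Fin N)) (t := Finset.univ (α := Fin N))
      (f := fun d a => ∑ b, ∑ c, R a b c d • (e a * (e b * (e c * e d))))]
    refine Finset.sum_congr rfl fun a _ => ?_
    rw [Finset.sum_comm (s := Finset.univ (α := Fin N)) (t := Finset.univ (α := Fin N))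
      (f := fun d b => ∑ c, R a b c d • (e a * (e b * (e c * e d))))]
    refine Finset.sum_congr rfl fun b _ => ?_
    rw [Finset.sum_comm]
  have hT : ∀ d, ∑ a, ∑ b, ∑ c, R a b c d • (e a * e b * e c)
      = (2 : ℝ) • ∑ b, (∑ a, R a b a d) • e b := fun d =>
    contr3 e he (fun a b c => R a b c d) (fun a b c => h1 a b c d) (fun a b c => h4 a b c d)
  rw [hS]
  simp only [hT]
  set Q : Fin N → Fin N → ℝ := fun b d => ∑ a, R a b a d with hQ
  have hQs : ∀ b d, Q b d = Q d b := fun b d =>
    Finset.sum_congr rfl fun a _ => ric_symm R h1 h2 h3 a b d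
  have hU : ∑ d, ((2 : ℝ) • ∑ b, Q b d • e b) * e d = (2 : ℝ) • ∑ d, ∑ b, Q b d • (e b * e d) := by
    rw [Finset.smul_sum]
    refine Finset.sum_congr rfl fun d _ => ?_
    rw [smul_mul_assoc, Finset.sum_mul]
    simp only [smul_mul_assoc]
  rw [hU]
  have hV : ∑ d, ∑ b, Q b d • (e b * e d) = ∑ d, ∑ b, Q b d • (e d * e b) := by
    rw [Finset.sum_comm]
    refine Finset.sum_congr rfl fun b _ => Finset.sum_congr rfl fun d _ => ?_
    rw [hQs]
  have hW : (2 : ℝ) • ∑ d, ∑ b, Q b d • (e b * e d)
      = ∑ d, ∑ b, Q b d • (e b * e d + e d * e b) := by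
    rw [two_smul]
    nth_rewrite 2 [hV]
    simp only [smul_add, Finset.sum_add_distrib]
  rw [hW]
  simp only [he]
  have hX : ∀ d, ∑ b, Q b d • (if b = d then (-2 : ℝ) • (1 : A) else 0)
      = (-2 * Q d d) • (1 : A) := by
    intro d
    simp only [smul_ite, smul_zero, Finset.sum_ite_eq', Finset.mem_univ, if_true]
    rw [smul_smul]
    congr 1
    ring
  simp only [hX]
  rw [← Finset.sum_smul, ← Finset.mul_sum]
  congr 2
  simp only [hQ]
  rw [Finset.sum_comm]

end CliffContrAux

end
end PS
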