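import Pool.Agent.H96.PS.ADefs
import Pool.Agent.H96.PS.Cliff
import Pool.Agent.H96.PS.CliffContr_x

/-! project PS (MP_b05a29_gt), row A7: Clifford contraction of a curvature tensor. -/

open scoped ContDiff Matrix
open MeasureTheory Set

namespace PS
noncomputable section
variable {N : ℕ}

theorem cliff_contr (R : Fin N → Fin N → Fin N → Fin N → ℝ)
    (h1 : ∀ a b c d, R a b c d = - R b a c d) (h2 : ∀ a b c d, R a b c d = - R a b d c)
    (h3 : ∀ a b c d, R a b d c + R b c d a + R c a d b = 0) :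
    (∑ a, ∑ b, ∑ c, ∑ d, R a b c d • (cl a ∘L cl b ∘L cl c ∘L cl d) : Lam N →L[ℝ] Lam N) =
      (-2 * ∑ a, ∑ b, R a b a b) • ContinuousLinearMap.id ℝ (Lam N) :=
  CliffContrAux.main (A := Lam N →L[ℝ] Lam N) (fun i => cl i) (fun i j => cl_mul i j) R h1 h2 h3

end
end PS
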