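import Pool.Agent.H96.PS.ADefs
import Pool.Agent.H96.PS.Chris
import Pool.Agent.H96.PS.ConAlg

/-!
Project PS (MP_b05a29_gt), row A6: the curvature of the frame connection is the curvature of the
metric in the frame, it is skew, and the first Bianchi identity holds.
-/

open scoped ContDiff Matrix
open MeasureTheory Set

namespace PS
noncomputable section
variable {N : ℕ}

/-- entrywise partial derivative of a matrix valued function -/
def cfD (i : Fin N) (M : E N → Matrix (Fin N) (Fin N) ℝ) (x : E N) : Matrix (Fin N) (Fin N) ℝ :=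
  Matrix.of fun a b => pd i (fun y => M y a b) x

/-- entrywise smooth matrix valued function -/
def CfSM (M : E N → Matrix (Fin N) (Fin N) ℝ) : Prop := ∀ a b, ContDiff ℝ ∞ (fun x => M x a b)

lemma cf_smooth_pd {F : Type*} [NormedAddCommGroup F] [NormedSpace ℝ F] {f : E N → F}
    (hf : ContDiff ℝ ∞ f) (i : Fin N) : ContDiff ℝ ∞ (fun x => pd i f x) := by
  have h1 : ContDiff ℝ ∞ (fderiv ℝ f) := hf.fderiv_right (m := ∞) (by simp)
  exact h1.clm_apply contDiff_const

lemma CfSM.diffAt {M : E N → Matrix (Fin N) (Fin N) ℝ} (h : CfSM M) (a b : Fin N) (x : E N) :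
    DifferentiableAt ℝ (fun x => M x a b) x :=
  ((h a b).differentiable (by simp)) x

lemma CfSM.mul {M P : E N → Matrix (Fin N) (Fin N) ℝ} (h : CfSM M) (h' : CfSM P) :
    CfSM (fun x => M x * P x) := by
  intro a b
  simp only [Matrix.mul_apply]
  exact ContDiff.sum fun c _ => (h a c).mul (h' c b)

lemma CfSM.add {M P : E N → Matrix (Fin N) (Fin N) ℝ} (h : CfSM M) (h' : CfSM P) :
    CfSM (fun x => M x + P x) := by
  intro a b
  simp only [Matrix.add_apply]
  exact (h a b).add (h' a b)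

lemma CfSM.transpose {M : E N → Matrix (Fin N) (Fin N) ℝ} (h : CfSM M) : CfSM (fun x => (M x)ᵀ) :=
  fun a b => h b a

lemma CfSM.cfD {M : E N → Matrix (Fin N) (Fin N) ℝ} (h : CfSM M) (i : Fin N) : CfSM (cfD i M) :=
  fun a b => cf_smooth_pd (h a b) i

lemma cfD_add {M P : E N → Matrix (Fin N) (Fin N) ℝ} (h : CfSM M) (h' : CfSM P) (i : Fin N) (x : E N) :
    cfD i (fun y => M y + P y) x = cfD i M x + cfD i P x := by
  ext a b
  simp only [cfD, Matrix.of_apply, Matrix.add_apply, pd]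
  rw [fderiv_fun_add (h.diffAt a b x) (h'.diffAt a b x)]
  rfl

lemma cfD_mul {M P : E N → Matrix (Fin N) (Fin N) ℝ} (h : CfSM M) (h' : CfSM P) (i : Fin N) (x : E N) :
    cfD i (fun y => M y * P y) x = cfD i M x * P x + M x * cfD i P x := by
  ext a b
  simp only [cfD, Matrix.of_apply, Matrix.add_apply, Matrix.mul_apply, pd]
  have hd : ∀ c, DifferentiableAt ℝ (fun y => M y a c * P y c b) x :=
    fun c => (h.diffAt a c x).mul (h'.diffAt c b x)
  rw [fderiv_fun_sum (fun c _ => hd c), ← Finset.sum_add_distrib, ContinuousLinearMap.sum_apply]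
  refine Finset.sum_congr rfl fun c _ => ?_
  rw [fderiv_fun_mul (h.diffAt a c x) (h'.diffAt c b x)]
  simp only [ContinuousLinearMap.add_apply, ContinuousLinearMap.smul_apply, smul_eq_mul]
  ring

lemma cf_pd_comm {f : E N → ℝ} (hf : ContDiff ℝ ∞ f) (i j : Fin N) (x : E N) :
    pd i (fun y => pd j f y) x = pd j (fun y => pd i f y) x := by
  have h1 : ContDiff ℝ ∞ (fderiv ℝ f) := hf.fderiv_right (m := ∞) (by simp)
  have h2 : DifferentiableAt ℝ (fderiv ℝ f) x := (h1.differentiable (by simp)) x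
  have key : ∀ k l : Fin N, pd k (fun y => pd l f y) x = fderiv ℝ (fderiv ℝ f) x (ev k) (ev l) := by
    intro k l
    simp only [pd]
    rw [fderiv_clm_apply h2 (differentiableAt_const _)]
    simp
  rw [key, key]
  have hs : IsSymmSndFDerivAt ℝ f x :=
    (hf.contDiffAt).isSymmSndFDerivAt (by
      simp only [minSmoothness_of_isRCLikeNormedField]
      exact WithTop.coe_le_coe.2 (le_top : (2 : ℕ∞) ≤ ⊤))
  exact hs (ev i) (ev j)

lemma cfD_comm {M : E N → Matrix (Fin N) (Fin N) ℝ} (h : CfSM M) (i j : Fin N) (x : E N) :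
    cfD i (cfD j M) x = cfD j (cfD i M) x := by
  ext a b
  exact cf_pd_comm (h a b) i j x

lemma IsFrame.cf_smG {G fr : E N → Matrix (Fin N) (Fin N) ℝ} (h : IsFrame G fr) : CfSM G :=
  fun a b => contDiffOn_univ.1 (h.metric.smooth a b)

lemma IsFrame.cf_smfr {G fr : E N → Matrix (Fin N) (Fin N) ℝ} (h : IsFrame G fr) : CfSM fr :=
  fun a b => h.smooth a b

lemma IsFrame.cf_inv_eq {G fr : E N → Matrix (Fin N) (Fin N) ℝ} (h : IsFrame G fr) (x : E N) :
    (fr x)⁻¹ = (fr x)ᵀ * G x :=
  Matrix.inv_eq_left_inv (h.orth x)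

lemma IsFrame.cf_mul_inv {G fr : E N → Matrix (Fin N) (Fin N) ℝ} (h : IsFrame G fr) (x : E N) :
    fr x * (fr x)⁻¹ = 1 := by
  rw [h.cf_inv_eq x]
  exact mul_eq_one_comm.1 (h.orth x)

lemma IsFrame.cf_inv_mul {G fr : E N → Matrix (Fin N) (Fin N) ℝ} (h : IsFrame G fr) (x : E N) :
    (fr x)⁻¹ * fr x = 1 := by
  rw [h.cf_inv_eq x]
  exact h.orth x

lemma IsFrame.cf_Ginv_eq {G fr : E N → Matrix (Fin N) (Fin N) ℝ} (h : IsFrame G fr) (x : E N) :
    (G x)⁻¹ = fr x * (fr x)ᵀ := by
  apply Matrix.inv_eq_left_inv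
  rw [Matrix.mul_assoc]
  exact mul_eq_one_comm.1 (h.orth x)

lemma IsFrame.cf_smGinv {G fr : E N → Matrix (Fin N) (Fin N) ℝ} (h : IsFrame G fr) :
    CfSM (fun x => (G x)⁻¹) := by
  have : (fun x => (G x)⁻¹) = fun x => fr x * (fr x)ᵀ := funext h.cf_Ginv_eq
  rw [this]
  exact h.cf_smfr.mul h.cf_smfr.transpose

lemma IsFrame.cf_smfrinv {G fr : E N → Matrix (Fin N) (Fin N) ℝ} (h : IsFrame G fr) :
    CfSM (fun x => (fr x)⁻¹) := by
  have : (fun x => (fr x)⁻¹) = fun x => (fr x)ᵀ * G x := funext h.cf_inv_eq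
  rw [this]
  exact h.cf_smfr.transpose.mul h.cf_smG

lemma IsFrame.cf_smchr {G fr : E N → Matrix (Fin N) (Fin N) ℝ} (h : IsFrame G fr) (i j k : Fin N) :
    ContDiff ℝ ∞ (fun x => chr G x i j k) := by
  unfold chr
  refine contDiff_const.mul (ContDiff.sum fun l _ => (h.cf_smGinv k l).mul ?_)
  exact ((cf_smooth_pd (h.cf_smG j l) i).add (cf_smooth_pd (h.cf_smG i l) j)).sub (cf_smooth_pd (h.cf_smG i j) l)

lemma IsFrame.cf_smcon {G fr : E N → Matrix (Fin N) (Fin N) ℝ} (h : IsFrame G fr) (i : Fin N) :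
    CfSM (conM G i) := fun j k => h.cf_smchr i k j

lemma IsFrame.cf_smomg {G fr : E N → Matrix (Fin N) (Fin N) ℝ} (h : IsFrame G fr) (i : Fin N) :
    CfSM (omg G fr i) :=
  h.cf_smfrinv.mul ((h.cf_smfr.cfD i).add ((h.cf_smcon i).mul h.cf_smfr))

lemma IsFrame.cf_fr_omg {G fr : E N → Matrix (Fin N) (Fin N) ℝ} (h : IsFrame G fr) (i : Fin N)
    (x : E N) : fr x * omg G fr i x = cfD i fr x + conM G i x * fr x := by
  unfold omg
  rw [← Matrix.mul_assoc, h.cf_mul_inv, Matrix.one_mul]
  rfl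

lemma IsFrame.cf_fr_D_omg {G fr : E N → Matrix (Fin N) (Fin N) ℝ} (h : IsFrame G fr) (i j : Fin N)
    (x : E N) : fr x * cfD i (omg G fr j) x =
      cfD i (cfD j fr) x + (cfD i (conM G j) x * fr x + conM G j x * cfD i fr x)
        - cfD i fr x * omg G fr j x := by
  have h1 : (fun y => fr y * omg G fr j y) = fun y => cfD j fr y + conM G j y * fr y :=
    funext (h.cf_fr_omg j)
  have h2 : cfD i (fun y => fr y * omg G fr j y) x =
      cfD i (fun y => cfD j fr y + conM G j y * fr y) x := by rw [h1]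
  rw [cfD_mul h.cf_smfr (h.cf_smomg j), cfD_add (h.cf_smfr.cfD j) ((h.cf_smcon j).mul h.cf_smfr),
    cfD_mul (h.cf_smcon j) h.cf_smfr] at h2
  rw [eq_sub_iff_add_eq', h2]

lemma cf_curv_eq_matrix (G : E N → Matrix (Fin N) (Fin N) ℝ) (i j : Fin N) (x : E N) :
    Matrix.of (fun l k => curv G x i j l k) = cfD i (conM G j) x - cfD j (conM G i) x
      + (conM G i x * conM G j x - conM G j x * conM G i x) := by
  ext l k
  simp only [Matrix.of_apply, curv, cfD, conM, Matrix.add_apply, Matrix.sub_apply, Matrix.mul_apply,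
    Finset.sum_sub_distrib]

theorem Omg_eq {G fr : E N → Matrix (Fin N) (Fin N) ℝ} (h : IsFrame G fr) (i j : Fin N) (x : E N) :
    Omg G fr i j x = (fr x)⁻¹ * Matrix.of (fun l k => curv G x i j l k) * fr x := by
  have h0 : fr x * Omg G fr i j x = Matrix.of (fun l k => curv G x i j l k) * fr x := by
    have e1 : Omg G fr i j x = cfD i (omg G fr j) x - cfD j (omg G fr i) x
        + (omg G fr i x * omg G fr j x - omg G fr j x * omg G fr i x) := rfl
    rw [e1, Matrix.mul_add, Matrix.mul_sub, Matrix.mul_sub, h.cf_fr_D_omg, h.cf_fr_D_omg,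
      ← Matrix.mul_assoc, ← Matrix.mul_assoc, h.cf_fr_omg, h.cf_fr_omg, cf_curv_eq_matrix,
      cfD_comm h.cf_smfr j i x]
    have e2 := h.cf_fr_omg i x
    have e3 := h.cf_fr_omg j x
    have e4 : conM G i x * fr x * omg G fr j x =
        conM G i x * cfD j fr x + conM G i x * conM G j x * fr x := by
      rw [Matrix.mul_assoc, e3, Matrix.mul_add, Matrix.mul_assoc]
    have e5 : conM G j x * fr x * omg G fr i x =
        conM G j x * cfD i fr x + conM G j x * conM G i x * fr x := by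
      rw [Matrix.mul_assoc, e2, Matrix.mul_add, Matrix.mul_assoc]
    simp only [Matrix.add_mul, Matrix.sub_mul, e4, e5]
    abel
  rw [Matrix.mul_assoc, ← h0, ← Matrix.mul_assoc, h.cf_inv_mul, Matrix.one_mul]

theorem Omg_skew {G fr : E N → Matrix (Fin N) (Fin N) ℝ} (h : IsFrame G fr) (i j : Fin N)
    (x : E N) : (Omg G fr i j x)ᵀ = - Omg G fr i j x := by
  have hd : ∀ k l : Fin N, (cfD k (omg G fr l) x)ᵀ = - cfD k (omg G fr l) x := by
    intro k l
    ext a b
    simp only [cfD, Matrix.transpose_apply, Matrix.of_apply, Matrix.neg_apply]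
    have h1 : (fun y => omg G fr l y b a) = fun y => - omg G fr l y a b := by
      funext y
      have := congrFun (congrFun (omg_skew h l y) a) b
      simpa using this
    rw [h1]
    simp only [pd]
    rw [fderiv_fun_neg]
    rfl
  have e1 : Omg G fr i j x = cfD i (omg G fr j) x - cfD j (omg G fr i) x
        + (omg G fr i x * omg G fr j x - omg G fr j x * omg G fr i x) := rfl
  rw [e1]
  simp only [Matrix.transpose_add, Matrix.transpose_sub, Matrix.transpose_mul, hd,
    omg_skew h i x, omg_skew h j x, Matrix.neg_mul, Matrix.mul_neg, neg_neg]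
  abel

/-- first Bianchi identity -/
theorem curv_bianchi {G : E N → Matrix (Fin N) (Fin N) ℝ} (hG : IsMetricOn G univ) (x : E N)
    (i j k l : Fin N) : curv G x i j l k + curv G x j k l i + curv G x k i l j = 0 := by
  have hs : ∀ a b c : Fin N, (fun y => chr G y a b c) = fun y => chr G y b a c :=
    fun a b c => funext fun y => chr_symm hG y a b c
  unfold curv
  rw [hs j k l, hs i k l, hs j i l]
  simp only [Finset.sum_sub_distrib]
  have e1 : ∀ a b c d : Fin N, (∑ m, chr G x a m l * chr G x b c m) =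
      ∑ m, chr G x a m l * chr G x c b m := by
    intro a b c _
    exact Finset.sum_congr rfl fun m _ => by rw [chr_symm hG x b c m]
  rw [e1 i j k l, e1 j i k l, e1 k j i l]
  ring

end
end PS
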