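import Pool.Agent.H96.PS.ADefs
import Pool.Agent.H96.PS.ConAlg

/-!
Project PS (MP_b05a29_gt), row A8: smoothness and calculus for the covariant derivative.
-/

open scoped ContDiff Matrix
open MeasureTheory Set

namespace PS
noncomputable section
variable {N : ℕ} {F F' : Type*} [NormedAddCommGroup F] [NormedSpace ℝ F] [NormedAddCommGroup F']
  [NormedSpace ℝ F']

theorem lp_diff {f : E N → F} (hf : ContDiff ℝ ∞ f) : Differentiable ℝ f :=
  hf.differentiable (by simp)

theorem lp_pd_smooth {f : E N → F} (hf : ContDiff ℝ ∞ f) (i : Fin N) : ContDiff ℝ ∞ (pd i f) := by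
  unfold pd
  exact (hf.fderiv_right (m := ∞) (by simp)).clm_apply contDiff_const

theorem lp_pd_add {f g : E N → F} {x : E N} (hf : DifferentiableAt ℝ f x)
    (hg : DifferentiableAt ℝ g x) (i : Fin N) :
    pd i (fun y => f y + g y) x = pd i f x + pd i g x := by
  unfold pd
  rw [fderiv_fun_add hf hg]
  rfl

theorem lp_pd_sum {ι : Type*} {s : Finset ι} {f : ι → E N → F} {x : E N}
    (hf : ∀ a ∈ s, DifferentiableAt ℝ (f a) x) (i : Fin N) :
    pd i (fun y => ∑ a ∈ s, f a y) x = ∑ a ∈ s, pd i (f a) x := by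
  unfold pd
  rw [fderiv_fun_sum hf]
  simp

theorem lp_pd_clm {T : E N → F →L[ℝ] F'} {v : E N → F} {x : E N} (hT : DifferentiableAt ℝ T x)
    (hv : DifferentiableAt ℝ v x) (i : Fin N) :
    pd i (fun y => T y (v y)) x = pd i T x (v x) + T x (pd i v x) := by
  unfold pd
  rw [fderiv_clm_apply hT hv]
  simp [add_comm]

theorem lp_pd_smul_const {f : E N → ℝ} {x : E N} (hf : DifferentiableAt ℝ f x) (c : F)
    (i : Fin N) : pd i (fun y => f y • c) x = pd i f x • c := by
  unfold pd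
  rw [fderiv_smul_const hf]
  rfl

theorem lp_pd_mul {f g : E N → ℝ} {x : E N} (hf : DifferentiableAt ℝ f x)
    (hg : DifferentiableAt ℝ g x) (i : Fin N) :
    pd i (fun y => f y * g y) x = pd i f x * g x + f x * pd i g x := by
  unfold pd
  rw [fderiv_fun_mul hf hg]
  simp
  ring

theorem lp_pd_comm {f : E N → F} (hf : ContDiff ℝ ∞ f) (i j : Fin N) (x : E N) :
    pd i (pd j f) x = pd j (pd i f) x := by
  have h1 : ∀ k l : Fin N, pd k (pd l f) x = fderiv ℝ (fderiv ℝ f) x (ev k) (ev l) := by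
    intro k l
    have h2 : DifferentiableAt ℝ (fderiv ℝ f) x :=
      ((hf.fderiv_right (m := ∞) (by simp)).differentiable (by simp)) x
    show fderiv ℝ (fun y => fderiv ℝ f y (ev l)) x (ev k) = _
    rw [fderiv_clm_apply h2 (differentiableAt_const _)]
    simp
  rw [h1, h1]
  have hs : IsSymmSndFDerivAt ℝ f x :=
    (hf.contDiffAt).isSymmSndFDerivAt (by
      simp only [minSmoothness_of_isRCLikeNormedField]
      norm_cast)
  exact hs (ev i) (ev j)

section metric

variable {G fr : E N → Matrix (Fin N) (Fin N) ℝ}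

theorem lp_G_smooth (h : IsFrame G fr) (i j : Fin N) : ContDiff ℝ ∞ (fun x => G x i j) :=
  contDiffOn_univ.1 (h.metric.smooth i j)

theorem lp_frinv (h : IsFrame G fr) (x : E N) : (fr x)⁻¹ = (fr x)ᵀ * G x :=
  Matrix.inv_eq_left_inv (h.orth x)

theorem lp_fr_unit (h : IsFrame G fr) (x : E N) : IsUnit (fr x).det := by
  have h1 := congrArg Matrix.det (h.orth x)
  rw [Matrix.det_mul, Matrix.det_one] at h1
  exact IsUnit.of_mul_eq_one_right _ h1

theorem lp_Ginv (h : IsFrame G fr) (x : E N) : (G x)⁻¹ = fr x * (fr x)ᵀ := by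
  have hu := lp_fr_unit h x
  apply Matrix.inv_eq_left_inv
  have h1 : fr x * ((fr x)ᵀ * G x) = 1 := by
    rw [← lp_frinv h, Matrix.mul_nonsing_inv _ hu]
  rw [← h1, Matrix.mul_assoc]

theorem lp_mat_mul {A B : E N → Matrix (Fin N) (Fin N) ℝ}
    (hA : ∀ i j, ContDiff ℝ ∞ (fun x => A x i j)) (hB : ∀ i j, ContDiff ℝ ∞ (fun x => B x i j))
    (i j : Fin N) : ContDiff ℝ ∞ (fun x => (A x * B x) i j) := by
  simp only [Matrix.mul_apply]
  exact ContDiff.sum fun k _ => (hA i k).mul (hB k j)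

theorem lp_frinv_smooth (h : IsFrame G fr) (i j : Fin N) :
    ContDiff ℝ ∞ (fun x => (fr x)⁻¹ i j) := by
  have : (fun x => (fr x)⁻¹ i j) = fun x => ((fr x)ᵀ * G x) i j := by
    funext x
    rw [lp_frinv h]
  rw [this]
  exact lp_mat_mul (fun a b => h.smooth b a) (lp_G_smooth h) i j

theorem lp_Ginv_smooth (h : IsFrame G fr) (i j : Fin N) :
    ContDiff ℝ ∞ (fun x => (G x)⁻¹ i j) := by
  have : (fun x => (G x)⁻¹ i j) = fun x => (fr x * (fr x)ᵀ) i j := by
    funext x
    rw [lp_Ginv h]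
  rw [this]
  exact lp_mat_mul h.smooth (fun a b => h.smooth b a) i j

theorem lp_chr_smooth (h : IsFrame G fr) (i j k : Fin N) :
    ContDiff ℝ ∞ (fun x => chr G x i j k) := by
  unfold chr
  refine contDiff_const.mul (ContDiff.sum fun l _ => (lp_Ginv_smooth h k l).mul ?_)
  exact ((lp_pd_smooth (lp_G_smooth h j l) i).add (lp_pd_smooth (lp_G_smooth h i l) j)).sub
    (lp_pd_smooth (lp_G_smooth h i j) l)

theorem lp_omg_smooth (h : IsFrame G fr) (i a b : Fin N) :
    ContDiff ℝ ∞ (fun x => omg G fr i x a b) := by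
  unfold omg
  refine lp_mat_mul (lp_frinv_smooth h) (fun c d => ?_) a b
  simp only [Matrix.add_apply, Matrix.of_apply]
  exact (lp_pd_smooth (h.smooth c d) i).add
    (lp_mat_mul (fun e f => by simpa [conM] using lp_chr_smooth h i f e) h.smooth c d)

theorem lp_cliff_smooth (h : IsFrame G fr) (i : Fin N) : ContDiff ℝ ∞ (cliff fr i) := by
  unfold cliff
  exact ContDiff.sum fun a _ => (h.smooth i a).smul contDiff_const

theorem lp_op_add_smul (a b : ℝ) (T : Lam N →L[ℝ] Lam N) : (a + b) • T = a • T + b • T :=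
  add_smul a b T

theorem lp_op_smul_add (a : ℝ) (S T : Lam N →L[ℝ] Lam N) : a • (S + T) = a • S + a • T :=
  smul_add a S T

theorem lp_op_neg (T : Lam N →L[ℝ] Lam N) : (-1 : ℝ) • T = - T :=
  neg_one_smul ℝ T

theorem lp_op_smul_sum {ι : Type*} (s : Finset ι) (a : ℝ) (T : ι → Lam N →L[ℝ] Lam N) :
    a • (∑ i ∈ s, T i) = ∑ i ∈ s, a • T i :=
  Finset.smul_sum

theorem lp_op_smul_comm (a b : ℝ) (T : Lam N →L[ℝ] Lam N) : a • b • T = b • a • T :=
  smul_comm a b T

theorem lp_op_mul_smul (a b : ℝ) (T : Lam N →L[ℝ] Lam N) : (a * b) • T = a • b • T :=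
  mul_smul a b T

theorem lp_spin_smooth {W : E N → Matrix (Fin N) (Fin N) ℝ}
    (hW : ∀ a b, ContDiff ℝ ∞ (fun x => W x a b)) : ContDiff ℝ ∞ (fun x => (spinL (W x) :
      Lam N →L[ℝ] Lam N)) := by
  unfold spinL
  exact (ContDiff.sum fun a _ => ContDiff.sum fun b _ =>
    (hW a b).smul contDiff_const).const_smul (-(1 / 4 : ℝ))

theorem lp_spin_add (w z : Matrix (Fin N) (Fin N) ℝ) :
    (spinL (w + z) : Lam N →L[ℝ] Lam N) = spinL w + spinL z := by
  unfold spinL
  simp only [Matrix.add_apply, lp_op_add_smul, Finset.sum_add_distrib, lp_op_smul_add]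

theorem lp_spin_smul (c : ℝ) (w : Matrix (Fin N) (Fin N) ℝ) :
    (spinL (c • w) : Lam N →L[ℝ] Lam N) = c • spinL w := by
  unfold spinL
  simp only [Matrix.smul_apply, smul_eq_mul, lp_op_mul_smul, lp_op_smul_sum]
  refine Finset.sum_congr rfl fun a _ => Finset.sum_congr rfl fun b _ => ?_
  rw [lp_op_smul_comm]

theorem lp_spin_sub (w z : Matrix (Fin N) (Fin N) ℝ) :
    (spinL (w - z) : Lam N →L[ℝ] Lam N) = spinL w - spinL z := by
  have h1 : w - z = w + (-1 : ℝ) • z := by
    rw [neg_one_smul, sub_eq_add_neg]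
  rw [h1, lp_spin_add, lp_spin_smul, lp_op_neg, sub_eq_add_neg]

theorem lp_pd_spin {W : E N → Matrix (Fin N) (Fin N) ℝ}
    (hW : ∀ a b, ContDiff ℝ ∞ (fun x => W x a b)) (i : Fin N) (x : E N) :
    pd i (fun y => (spinL (W y) : Lam N →L[ℝ] Lam N)) x =
      spinL (Matrix.of fun a b => pd i (fun y => W y a b) x) := by
  have hd : ∀ a b, DifferentiableAt ℝ (fun y => W y a b) x := fun a b => lp_diff (hW a b) x
  have h1 : (fun y => (spinL (W y) : Lam N →L[ℝ] Lam N)) = fun y =>
      ∑ a, ∑ b, W y a b • ((-(1 / 4 : ℝ)) • (cl a ∘L cl b) : Lam N →L[ℝ] Lam N) := by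
    funext y
    unfold spinL
    simp only [lp_op_smul_sum]
    refine Finset.sum_congr rfl fun a _ => Finset.sum_congr rfl fun b _ => ?_
    rw [lp_op_smul_comm]
  rw [h1, lp_pd_sum (fun a _ => DifferentiableAt.fun_sum fun b _ => (hd a b).smul_const _)]
  unfold spinL
  simp only [lp_op_smul_sum, Matrix.of_apply]
  refine Finset.sum_congr rfl fun a _ => ?_
  rw [lp_pd_sum (fun b _ => (hd a b).smul_const _)]
  refine Finset.sum_congr rfl fun b _ => ?_
  rw [lp_pd_smul_const (hd a b), lp_op_smul_comm]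

theorem lp_nab_smooth (h : IsFrame G fr) {u : E N → Lam N} (hu : ContDiff ℝ ∞ u) (i : Fin N) :
    ContDiff ℝ ∞ (nab G fr i u) := by
  unfold nab
  exact (lp_pd_smooth hu i).add ((lp_spin_smooth (lp_omg_smooth h i)).clm_apply hu)

theorem lp_nab_sum {ι : Type*} {s : Finset ι} {f : ι → E N → Lam N} {x : E N}
    (hf : ∀ a ∈ s, DifferentiableAt ℝ (f a) x) (i : Fin N) :
    nab G fr i (fun y => ∑ a ∈ s, f a y) x = ∑ a ∈ s, nab G fr i (f a) x := by
  unfold nab
  rw [lp_pd_sum hf, map_sum, ← Finset.sum_add_distrib]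

/-- `∇_i (c^j v) = c^j ∇_i v - ∑_k Γ^j_{ik} c^k v` -/
theorem lp_nab_cliff (h : IsFrame G fr) {v : E N → Lam N} (hv : ContDiff ℝ ∞ v) (i j : Fin N)
    (x : E N) : nab G fr i (fun y => cliff fr j y (v y)) x =
      cliff fr j x (nab G fr i v x) - ∑ k, chr G x i k j • cliff fr k x (v x) := by
  have h1 := congrArg (fun T : Lam N →L[ℝ] Lam N => T (v x)) (nab_cliff h i j x)
  simp only [add_apply, sub_apply,
    ContinuousLinearMap.comp_apply, neg_apply, sum_apply,
    smul_apply] at h1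
  have h2 : pd i (fun y => cliff fr j y (v y)) x = pd i (cliff fr j) x (v x) +
      cliff fr j x (pd i v x) :=
    lp_pd_clm (lp_diff (lp_cliff_smooth h j) x) (lp_diff hv x) i
  unfold nab
  rw [h2, map_add]
  rw [sub_eq_add_neg, ← h1]
  abel

/-- `[∇_i, ∇_j] = σ(Ω_ij)` -/
theorem lp_nab_comm (h : IsFrame G fr) {u : E N → Lam N} (hu : ContDiff ℝ ∞ u) (i j : Fin N)
    (x : E N) : nab G fr i (nab G fr j u) x - nab G fr j (nab G fr i u) x =
      spinL (Omg G fr i j x) (u x) := by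
  have hs : ∀ k : Fin N, ContDiff ℝ ∞ (fun y => (spinL (omg G fr k y) : Lam N →L[ℝ] Lam N)) :=
    fun k => lp_spin_smooth (lp_omg_smooth h k)
  have key : ∀ k l : Fin N, nab G fr k (nab G fr l u) x = pd k (pd l u) x +
      (spinL (Matrix.of fun a b => pd k (fun y => omg G fr l y a b) x) (u x) +
        spinL (omg G fr l x) (pd k u x)) + (spinL (omg G fr k x) (pd l u x) +
          spinL (omg G fr k x) (spinL (omg G fr l x) (u x))) := by
    intro k l
    have e1 : pd k (nab G fr l u) x = pd k (pd l u) x +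
        pd k (fun y => (spinL (omg G fr l y) : Lam N →L[ℝ] Lam N) (u y)) x :=
      lp_pd_add (lp_diff (lp_pd_smooth hu l) x) (lp_diff ((hs l).clm_apply hu) x) k
    have e2 : pd k (fun y => (spinL (omg G fr l y) : Lam N →L[ℝ] Lam N) (u y)) x =
        pd k (fun y => (spinL (omg G fr l y) : Lam N →L[ℝ] Lam N)) x (u x) +
          spinL (omg G fr l x) (pd k u x) :=
      lp_pd_clm (lp_diff (hs l) x) (lp_diff hu x) k
    rw [lp_pd_spin (lp_omg_smooth h l)] at e2
    show pd k (nab G fr l u) x + spinL (omg G fr k x) (nab G fr l u x) = _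
    rw [e1, e2]
    congr 1
    show spinL (omg G fr k x) (pd l u x + spinL (omg G fr l x) (u x)) = _
    rw [map_add]
  rw [key, key, lp_pd_comm hu i j]
  have h3 : Omg G fr i j x = (Matrix.of (fun a b => pd i (fun y => omg G fr j y a b) x) -
      Matrix.of (fun a b => pd j (fun y => omg G fr i y a b) x)) +
      (omg G fr i x * omg G fr j x - omg G fr j x * omg G fr i x) := rfl
  rw [h3, lp_spin_add, lp_spin_sub, ← spin_comm (omg_skew h i x) (omg_skew h j x)]
  simp only [add_apply, sub_apply,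
    ContinuousLinearMap.comp_apply]
  abel

end metric

end
end PS
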