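import Pool.Agent.H96.PS.ADefs
import Pool.Agent.H96.PS.ConAlg
import Pool.Agent.H96.PS.CurvFrame
import Pool.Agent.H96.PS.CliffContr
import Pool.Agent.H96.PS.LichPt_a

/-!
Project PS (MP_b05a29_gt), row A8: the pointwise Lichnerowicz formula in a smooth orthonormal frame.
-/

open scoped ContDiff Matrix
open MeasureTheory Set

namespace PS
noncomputable section
variable {N : ℕ}

theorem lp_sw1 {V : Type*} [AddCommMonoid V] (g : Fin N → Fin N → Fin N → V) :
    ∑ i, ∑ j, ∑ a, g i j a = ∑ a, ∑ i, ∑ j, g i j a := by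
  rw [Finset.sum_comm (f := fun a i => ∑ j, g i j a)]
  exact Finset.sum_congr rfl fun i _ => Finset.sum_comm

theorem lp_sw4 {V : Type*} [AddCommMonoid V]
    (g : Fin N → Fin N → Fin N → Fin N → Fin N → Fin N → V) :
    ∑ i, ∑ j, ∑ a, ∑ b, ∑ c, ∑ d, g i j a b c d = ∑ a, ∑ b, ∑ c, ∑ d, ∑ i, ∑ j, g i j a b c d := by
  rw [lp_sw1]
  refine Finset.sum_congr rfl fun a _ => ?_
  rw [lp_sw1]
  refine Finset.sum_congr rfl fun b _ => ?_
  rw [lp_sw1]
  refine Finset.sum_congr rfl fun c _ => ?_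
  rw [lp_sw1]

theorem lp_rot {V : Type*} [AddCommMonoid V] (g : Fin N → Fin N → Fin N → V) :
    ∑ i, ∑ j, ∑ k, g j k i = ∑ i, ∑ j, ∑ k, g i j k := by
  rw [Finset.sum_comm]
  exact Finset.sum_congr rfl fun i _ => Finset.sum_comm

theorem lp_cl_v {G fr : E N → Matrix (Fin N) (Fin N) ℝ} (h : IsFrame G fr) (i j : Fin N) (x : E N)
    (v : Lam N) : cliff fr i x (cliff fr j x v) + cliff fr j x (cliff fr i x v) =
      (-2 * (G x)⁻¹ i j) • v := by
  have h1 := congrArg (fun T : Lam N →L[ℝ] Lam N => T v) (cliff_mul h i j x)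
  simpa using h1

theorem lp_Ginv_symm {G fr : E N → Matrix (Fin N) (Fin N) ℝ} (h : IsFrame G fr) (i j : Fin N)
    (x : E N) : (G x)⁻¹ i j = (G x)⁻¹ j i := by
  rw [lp_Ginv h]
  simp only [Matrix.mul_apply, Matrix.transpose_apply]
  exact Finset.sum_congr rfl fun k _ => mul_comm _ _

/-- contraction of a symmetric array with `c^i c^k` -/
theorem lp_symm_contr {G fr : E N → Matrix (Fin N) (Fin N) ℝ} (h : IsFrame G fr) (x : E N)
    (s : Fin N → Fin N → ℝ) (hs : ∀ i k, s i k = s k i) (v : Lam N) :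
    ∑ i, ∑ k, s i k • cliff fr i x (cliff fr k x v) =
      - ∑ i, ∑ k, (G x)⁻¹ i k • (s i k • v) := by
  have h1 : ∑ i, ∑ k, s i k • cliff fr k x (cliff fr i x v) =
      ∑ i, ∑ k, s i k • cliff fr i x (cliff fr k x v) := by
    rw [Finset.sum_comm]
    exact Finset.sum_congr rfl fun i _ => Finset.sum_congr rfl fun k _ => by rw [hs i k]
  have h2 : ∑ i, ∑ k, s i k • cliff fr i x (cliff fr k x v) +
      ∑ i, ∑ k, s i k • cliff fr k x (cliff fr i x v) =
      (2 : ℝ) • (- ∑ i, ∑ k, (G x)⁻¹ i k • (s i k • v)) := by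
    rw [← Finset.sum_add_distrib, ← Finset.sum_neg_distrib, Finset.smul_sum]
    refine Finset.sum_congr rfl fun i _ => ?_
    rw [← Finset.sum_add_distrib, ← Finset.sum_neg_distrib, Finset.smul_sum]
    refine Finset.sum_congr rfl fun k _ => ?_
    rw [← smul_add, lp_cl_v h, ← neg_smul, smul_smul, smul_smul, smul_smul]
    congr 1
    ring
  rw [h1, ← two_smul ℝ] at h2
  exact smul_right_injective (Lam N) (two_ne_zero' ℝ) h2

/-- the second order part -/
theorem lp_second {G fr : E N → Matrix (Fin N) (Fin N) ℝ} (h : IsFrame G fr) (x : E N)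
    (M : Fin N → Fin N → Lam N) :
    ∑ i, ∑ j, cliff fr i x (cliff fr j x (M i j)) =
      - ∑ i, ∑ j, (G x)⁻¹ i j • M i j +
        (1 / 2 : ℝ) • ∑ i, ∑ j, cliff fr i x (cliff fr j x (M i j - M j i)) := by
  set S := ∑ i, ∑ j, cliff fr i x (cliff fr j x (M i j)) with hS
  set S' := ∑ i, ∑ j, cliff fr i x (cliff fr j x (M j i)) with hS'
  have h1 : ∑ i, ∑ j, cliff fr i x (cliff fr j x (M i j - M j i)) = S - S' := by
    rw [hS, hS', ← Finset.sum_sub_distrib]
    refine Finset.sum_congr rfl fun i _ => ?_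
    rw [← Finset.sum_sub_distrib]
    refine Finset.sum_congr rfl fun j _ => ?_
    rw [map_sub, map_sub]
  have h2 : S + S' = (2 : ℝ) • (- ∑ i, ∑ j, (G x)⁻¹ i j • M i j) := by
    have h3 : S' = ∑ i, ∑ j, cliff fr j x (cliff fr i x (M i j)) := Finset.sum_comm
    rw [h3, hS, ← Finset.sum_add_distrib, ← Finset.sum_neg_distrib, Finset.smul_sum]
    refine Finset.sum_congr rfl fun i _ => ?_
    rw [← Finset.sum_add_distrib, ← Finset.sum_neg_distrib, Finset.smul_sum]
    refine Finset.sum_congr rfl fun j _ => ?_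
    rw [lp_cl_v h, ← neg_smul, smul_smul]
    congr 1
    ring
  have h4 : S = (1 / 2 : ℝ) • (S + S') + (1 / 2 : ℝ) • (S - S') := by
    module
  rw [h1, h4, h2]
  congr 1
  · rw [smul_smul]
    norm_num
  · congr 1
    rw [← h2]
    module

/-- the frame components of the curvature -/
def lpR (G fr : E N → Matrix (Fin N) (Fin N) ℝ) (x : E N) (a b c d : Fin N) : ℝ :=
  ∑ i, ∑ j, fr x i a * fr x j b * Omg G fr i j x c d

theorem lp_Omg_anti (G fr : E N → Matrix (Fin N) (Fin N) ℝ) (i j : Fin N) (x : E N) :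
    Omg G fr i j x = - Omg G fr j i x := by
  unfold Omg
  ext a b
  simp only [Matrix.add_apply, Matrix.sub_apply, Matrix.neg_apply, Matrix.of_apply]
  ring

theorem lp_R1 (G fr : E N → Matrix (Fin N) (Fin N) ℝ) (x : E N) (a b c d : Fin N) :
    lpR G fr x a b c d = - lpR G fr x b a c d := by
  unfold lpR
  rw [Finset.sum_comm, ← Finset.sum_neg_distrib]
  refine Finset.sum_congr rfl fun i _ => ?_
  rw [← Finset.sum_neg_distrib]
  refine Finset.sum_congr rfl fun j _ => ?_
  rw [lp_Omg_anti G fr j i, Matrix.neg_apply]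
  ring

theorem lp_R2 {G fr : E N → Matrix (Fin N) (Fin N) ℝ} (h : IsFrame G fr) (x : E N)
    (a b c d : Fin N) : lpR G fr x a b c d = - lpR G fr x a b d c := by
  unfold lpR
  rw [← Finset.sum_neg_distrib]
  refine Finset.sum_congr rfl fun i _ => ?_
  rw [← Finset.sum_neg_distrib]
  refine Finset.sum_congr rfl fun j _ => ?_
  have h1 := congrFun (congrFun (Omg_skew h i j x) d) c
  rw [Matrix.transpose_apply, Matrix.neg_apply] at h1
  rw [h1]
  ring

theorem lp_R_eq {G fr : E N → Matrix (Fin N) (Fin N) ℝ} (h : IsFrame G fr) (x : E N)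
    (a b c d : Fin N) : lpR G fr x a b d c =
      ∑ i, ∑ j, ∑ k, fr x i a * fr x j b * fr x k c * ∑ l, (fr x)⁻¹ d l * curv G x i j l k := by
  unfold lpR
  refine Finset.sum_congr rfl fun i _ => Finset.sum_congr rfl fun j _ => ?_
  rw [Omg_eq h, Matrix.mul_apply, Finset.mul_sum]
  refine Finset.sum_congr rfl fun k _ => ?_
  rw [Matrix.mul_apply]
  simp only [Matrix.of_apply]
  ring

theorem lp_R3 {G fr : E N → Matrix (Fin N) (Fin N) ℝ} (h : IsFrame G fr) (x : E N)
    (a b c d : Fin N) :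
    lpR G fr x a b d c + lpR G fr x b c d a + lpR G fr x c a d b = 0 := by
  have e1 : lpR G fr x b c d a = ∑ i, ∑ j, ∑ k, fr x i a * fr x j b * fr x k c *
      ∑ l, (fr x)⁻¹ d l * curv G x j k l i := by
    rw [lp_R_eq h, ← lp_rot]
    refine Finset.sum_congr rfl fun i _ => Finset.sum_congr rfl fun j _ =>
      Finset.sum_congr rfl fun k _ => ?_
    ring
  have e2 : lpR G fr x c a d b = ∑ i, ∑ j, ∑ k, fr x i a * fr x j b * fr x k c *
      ∑ l, (fr x)⁻¹ d l * curv G x k i l j := by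
    rw [lp_R_eq h, ← lp_rot, ← lp_rot]
    refine Finset.sum_congr rfl fun i _ => Finset.sum_congr rfl fun j _ =>
      Finset.sum_congr rfl fun k _ => ?_
    ring
  rw [e1, e2, lp_R_eq h]
  simp only [← Finset.sum_add_distrib, ← mul_add]
  refine Finset.sum_eq_zero fun i _ => Finset.sum_eq_zero fun j _ =>
    Finset.sum_eq_zero fun k _ => ?_
  rw [Finset.sum_eq_zero, mul_zero]
  intro l _
  rw [curv_bianchi h.metric, mul_zero]

theorem lp_R_scal {G fr : E N → Matrix (Fin N) (Fin N) ℝ} (h : IsFrame G fr) (x : E N) :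
    ∑ a, ∑ b, lpR G fr x a b a b = scal G x := by
  have h1 : ∀ i j : Fin N, ∑ a, ∑ b, fr x i a * fr x j b * Omg G fr i j x a b =
      ∑ k, (G x)⁻¹ j k * curv G x i j i k := by
    intro i j
    have h2 : fr x * Omg G fr i j x * (fr x)ᵀ =
        Matrix.of (fun l k => curv G x i j l k) * (G x)⁻¹ := by
      rw [Omg_eq h, lp_Ginv h, ← Matrix.mul_assoc, ← Matrix.mul_assoc,
        Matrix.mul_nonsing_inv _ (lp_fr_unit h x), Matrix.one_mul, Matrix.mul_assoc]
    have h3 := congrFun (congrFun h2 i) j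
    simp only [Matrix.mul_apply, Matrix.transpose_apply, Matrix.of_apply] at h3
    have h4 : ∑ a, ∑ b, fr x i a * fr x j b * Omg G fr i j x a b =
        ∑ b, (∑ a, fr x i a * Omg G fr i j x a b) * fr x j b := by
      rw [Finset.sum_comm]
      refine Finset.sum_congr rfl fun b _ => ?_
      rw [Finset.sum_mul]
      refine Finset.sum_congr rfl fun a _ => ?_
      ring
    rw [h4, h3]
    refine Finset.sum_congr rfl fun k _ => ?_
    rw [lp_Ginv_symm h j k, mul_comm]
  unfold lpR scal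
  have h5 : ∑ a, ∑ b, ∑ i, ∑ j, fr x i a * fr x j b * Omg G fr i j x a b =
      ∑ i, ∑ j, ∑ a, ∑ b, fr x i a * fr x j b * Omg G fr i j x a b := by
    rw [lp_sw1]
    refine Finset.sum_congr rfl fun i _ => ?_
    rw [lp_sw1]
  rw [h5, Finset.sum_comm]
  refine Finset.sum_congr rfl fun j _ => ?_
  simp only [h1, Finset.mul_sum]
  exact Finset.sum_comm

/-- the curvature term -/
theorem lp_curv_term {G fr : E N → Matrix (Fin N) (Fin N) ℝ} (h : IsFrame G fr) (x : E N)
    (v : Lam N) :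
    (1 / 2 : ℝ) • ∑ i, ∑ j, cliff fr i x (cliff fr j x (spinL (Omg G fr i j x) v)) =
      (1 / 4 * scal G x) • v := by
  have h1 := congrArg (fun T : Lam N →L[ℝ] Lam N => T v)
    (cliff_contr (lpR G fr x) (lp_R1 G fr x) (lp_R2 h x) (lp_R3 h x))
  rw [lp_R_scal h] at h1
  have h2 : ∑ i, ∑ j, cliff fr i x (cliff fr j x (spinL (Omg G fr i j x) v)) =
      (-(1 / 4 : ℝ)) • ∑ a, ∑ b, ∑ c, ∑ d, lpR G fr x a b c d • cl a (cl b (cl c (cl d v))) := by
    have h3 : ∀ i j : Fin N, cliff fr i x (cliff fr j x (spinL (Omg G fr i j x) v)) =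
        ∑ a, ∑ b, ∑ c, ∑ d, (-(1 / 4 : ℝ) * (fr x i a * fr x j b * Omg G fr i j x c d)) •
          cl a (cl b (cl c (cl d v))) := by
      intro i j
      have hc : ∀ (k : Fin N) (w : Lam N), cliff fr k x w = ∑ b, fr x k b • cl b w := by
        intro k w
        unfold cliff
        simp only [sum_apply, smul_apply]
      have hs : spinL (Omg G fr i j x) v =
          ∑ c, ∑ d, (-(1 / 4 : ℝ) * Omg G fr i j x c d) • cl c (cl d v) := by
        unfold spinL
        simp only [sum_apply, smul_apply, ContinuousLinearMap.comp_apply, Finset.smul_sum,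
          smul_smul]
      rw [hs, hc, hc]
      refine Finset.sum_congr rfl fun a _ => ?_
      rw [map_sum, Finset.smul_sum]
      refine Finset.sum_congr rfl fun b _ => ?_
      rw [map_smul, map_sum, map_sum, smul_smul, Finset.smul_sum]
      refine Finset.sum_congr rfl fun c _ => ?_
      rw [map_sum, map_sum, Finset.smul_sum]
      refine Finset.sum_congr rfl fun d _ => ?_
      rw [map_smul, map_smul, smul_smul]
      congr 1
      ring
    simp only [h3]
    rw [lp_sw4]
    simp only [Finset.smul_sum, lpR, Finset.sum_smul, smul_smul]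
  have h4 : ∑ a, ∑ b, ∑ c, ∑ d, lpR G fr x a b c d • cl a (cl b (cl c (cl d v))) =
      (-2 * scal G x) • v := by
    simpa using h1
  rw [h2, h4, smul_smul, smul_smul]
  congr 1
  ring

/-! ### row A3-4 (LichPt.lean): pointwise Lichnerowicz -/
theorem lich_pt {G fr : E N → Matrix (Fin N) (Fin N) ℝ} (h : IsFrame G fr) (u : E N → Lam N)
    (hu : ContDiff ℝ ∞ u) (x : E N) :
    dirac G fr (dirac G fr u) x =
      - ∑ i, ∑ j, (G x)⁻¹ i j • (nab G fr i (fun y => nab G fr j u y) x
          - ∑ k, chr G x i j k • nab G fr k u x)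
      + (1 / 4 * scal G x) • u x := by
  have hU : ∀ j, ContDiff ℝ ∞ (nab G fr j u) := fun j => lp_nab_smooth h hu j
  have hcU : ∀ j, ContDiff ℝ ∞ (fun y => cliff fr j y (nab G fr j u y)) := fun j =>
    (lp_cliff_smooth h j).clm_apply (hU j)
  have h1 : dirac G fr (dirac G fr u) x = ∑ i, ∑ j,
      (cliff fr i x (cliff fr j x (nab G fr i (nab G fr j u) x)) -
        ∑ k, chr G x i k j • cliff fr i x (cliff fr k x (nab G fr j u x))) := by
    show ∑ i, cliff fr i x (nab G fr i (fun y => ∑ j, cliff fr j y (nab G fr j u y)) x) = _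
    refine Finset.sum_congr rfl fun i _ => ?_
    rw [lp_nab_sum (fun j _ => lp_diff (hcU j) x), map_sum]
    refine Finset.sum_congr rfl fun j _ => ?_
    rw [lp_nab_cliff h (hU j), map_sub, map_sum]
    simp only [map_smul]
  rw [h1]
  simp only [Finset.sum_sub_distrib]
  rw [lp_second h x (fun i j => nab G fr i (nab G fr j u) x)]
  have h2 : (1 / 2 : ℝ) • ∑ i, ∑ j, cliff fr i x (cliff fr j x
      (nab G fr i (nab G fr j u) x - nab G fr j (nab G fr i u) x)) =
      (1 / 4 * scal G x) • u x := by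
    simp only [lp_nab_comm h hu]
    exact lp_curv_term h x (u x)
  rw [h2]
  have h3 : ∑ i, ∑ j, ∑ k, chr G x i k j • cliff fr i x (cliff fr k x (nab G fr j u x)) =
      - ∑ i, ∑ j, (G x)⁻¹ i j • ∑ k, chr G x i j k • nab G fr k u x := by
    have h4 : ∑ i, ∑ j, ∑ k, chr G x i k j • cliff fr i x (cliff fr k x (nab G fr j u x)) =
        ∑ j, ∑ i, ∑ k, chr G x i k j • cliff fr i x (cliff fr k x (nab G fr j u x)) :=
      Finset.sum_comm
    rw [h4]
    have h5 : ∀ j, ∑ i, ∑ k, chr G x i k j • cliff fr i x (cliff fr k x (nab G fr j u x)) =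
        - ∑ i, ∑ k, (G x)⁻¹ i k • (chr G x i k j • nab G fr j u x) := fun j =>
      lp_symm_contr h x (fun i k => chr G x i k j) (fun i k => chr_symm h.metric x i k j) _
    simp only [h5, Finset.sum_neg_distrib]
    congr 1
    rw [← lp_sw1]
    simp only [Finset.smul_sum]
  rw [h3]
  simp only [smul_sub, Finset.sum_sub_distrib]
  abel

end
end PS
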