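import Pool.Agent.H96.PS.ADefs
import Pool.Agent.H96.PS.Chris
import Pool.Agent.H96.PS.Spin
import Pool.Agent.H96.PS.ConAlg
import Pool.Agent.H96.PS.Cliff
import Pool.Agent.H96.PS.LichPt_a
import Pool.Agent.H96.PS.LichPt

/-!
Project PS (MP_b05a29_gt), row A9: integration by parts for the Dirac operator and the integrated
Lichnerowicz formula.
-/

open scoped ContDiff Matrix
open MeasureTheory Set

namespace PS
noncomputable section
variable {N : ℕ}

/-! ### divergence -/

theorem li_int_pd (i : Fin N) (f : E N → ℝ) (hf : ContDiff ℝ ∞ f)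
    (hc : HasCompactSupport f) : ∫ x, pd i f x = 0 := by
  have hcont : Continuous (fun x => fderiv ℝ f x (ev i)) :=
    (hf.continuous_fderiv (by simp)).clm_apply continuous_const
  have hcs : HasCompactSupport (fun x => fderiv ℝ f x (ev i)) :=
    hc.fderiv_apply ℝ (ev i)
  have h := integral_mul_fderiv_eq_neg_fderiv_mul_of_integrable (μ := (volume : Measure (E N)))
    (f := fun _ => (1 : ℝ)) (g := f) (v := ev i) ?_ ?_ ?_ ?_ ?_
  · simpa [pd] using h
  · simp
  · simpa using hcont.integrable_of_hasCompactSupport hcs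
  · simpa using hf.continuous.integrable_of_hasCompactSupport hc
  · intro x _
    exact differentiableAt_const _
  · intro x _
    exact (hf.differentiable (by simp)) x

theorem li_integrable_pd (i : Fin N) (f : E N → ℝ) (hf : ContDiff ℝ ∞ f)
    (hc : HasCompactSupport f) : Integrable (fun x => pd i f x) := by
  have hcont : Continuous (fun x => fderiv ℝ f x (ev i)) :=
    (hf.continuous_fderiv (by simp)).clm_apply continuous_const
  exact hcont.integrable_of_hasCompactSupport (hc.fderiv_apply ℝ (ev i))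

theorem li_div (W : Fin N → E N → ℝ) (hW : ∀ i, ContDiff ℝ ∞ (W i))
    (hc : ∀ i, HasCompactSupport (W i)) :
    Integrable (fun x => ∑ i, pd i (W i) x) ∧ ∫ x, ∑ i, pd i (W i) x = 0 := by
  refine ⟨integrable_finsetSum _ fun i _ => li_integrable_pd i (W i) (hW i) (hc i), ?_⟩
  rw [integral_finsetSum _ fun i _ => li_integrable_pd i (W i) (hW i) (hc i)]
  exact Finset.sum_eq_zero fun i _ => li_int_pd i (W i) (hW i) (hc i)

theorem li_pd_inner (i : Fin N) (u v : E N → Lam N) (x : E N)
    (hu : DifferentiableAt ℝ u x) (hv : DifferentiableAt ℝ v x) :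
    pd i (fun y => inner ℝ (u y) (v y)) x = inner ℝ (pd i u x) (v x) + inner ℝ (u x) (pd i v x) := by
  have h := fderiv_inner_apply ℝ hu hv (ev i)
  unfold pd
  rw [h, add_comm]

section metric
variable {G fr : E N → Matrix (Fin N) (Fin N) ℝ}

theorem li_dens_smooth (h : IsFrame G fr) : ContDiff ℝ ∞ (dens G) := by
  have hdet : ContDiff ℝ ∞ (fun x => (G x).det) := by
    simp only [Matrix.det_apply']
    refine ContDiff.sum fun σ _ => ?_
    exact contDiff_const.mul (contDiff_prod fun i _ => lp_G_smooth h (σ i) i)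
  rw [contDiff_iff_contDiffAt]
  intro x
  have hpos : 0 < (G x).det := (h.metric.posDef x (mem_univ x)).det_pos
  exact hdet.contDiffAt.sqrt hpos.ne'

/-- `∂_i ⟨u, v⟩ = ⟨∇_i u, v⟩ + ⟨u, ∇_i v⟩` -/
theorem li_metric (h : IsFrame G fr) {u v : E N → Lam N} (hu : ContDiff ℝ ∞ u)
    (hv : ContDiff ℝ ∞ v) (i : Fin N) (x : E N) :
    pd i (fun y => inner ℝ (u y) (v y)) x =
      inner ℝ (nab G fr i u x) (v x) + inner ℝ (u x) (nab G fr i v x) := by
  rw [li_pd_inner i u v x (lp_diff hu x) (lp_diff hv x)]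
  unfold nab
  rw [inner_add_left, inner_add_right, spin_adj (omg_skew h i x)]
  ring

theorem li_cliff_adj (i : Fin N) (x : E N) (u v : Lam N) :
    inner ℝ (cliff fr i x u) v = - inner ℝ u (cliff fr i x v) := by
  unfold cliff
  simp only [sum_apply, smul_apply, sum_inner, inner_sum, real_inner_smul_left,
    real_inner_smul_right, ← Finset.sum_neg_distrib]
  refine Finset.sum_congr rfl fun a _ => ?_
  rw [cl_adj]
  ring

theorem li_nab_supp {u : E N → Lam N} (i : Fin N) {x : E N} (hx : x ∉ tsupport u) :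
    nab G fr i u x = 0 := by
  have h1 : u x = 0 := image_eq_zero_of_notMem_tsupport hx
  have h2 : pd i u x = 0 := by
    unfold pd
    have h3 : x ∉ tsupport (fderiv ℝ u) := fun h => hx (tsupport_fderiv_subset ℝ h)
    rw [image_eq_zero_of_notMem_tsupport h3]
    rfl
  unfold nab
  rw [h1, h2]
  simp

theorem li_dirac_smooth (h : IsFrame G fr) {u : E N → Lam N} (hu : ContDiff ℝ ∞ u) :
    ContDiff ℝ ∞ (dirac G fr u) := by
  unfold dirac
  exact ContDiff.sum fun i _ => (lp_cliff_smooth h i).clm_apply (lp_nab_smooth h hu i)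

theorem li_dirac_supp {u : E N → Lam N} {x : E N} (hx : x ∉ tsupport u) :
    dirac G fr u x = 0 := by
  unfold dirac
  exact Finset.sum_eq_zero fun i _ => by rw [li_nab_supp i hx, map_zero]

/-- the divergence formula behind the symmetry of `D` -/
theorem li_div_dirac (h : IsFrame G fr) {u v : E N → Lam N} (hu : ContDiff ℝ ∞ u)
    (hv : ContDiff ℝ ∞ v) (x : E N) :
    ∑ i, pd i (fun y => dens G y * inner ℝ (u y) (cliff fr i y (v y))) x =
      inner ℝ (u x) (dirac G fr v x) * dens G x - inner ℝ (dirac G fr u x) (v x) * dens G x := by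
  have hcv : ∀ i, ContDiff ℝ ∞ (fun y => cliff fr i y (v y)) := fun i =>
    (lp_cliff_smooth h i).clm_apply hv
  have h1 : ∀ i, pd i (fun y => dens G y * inner ℝ (u y) (cliff fr i y (v y))) x =
      dens G x * (∑ l, chr G x l i l) * inner ℝ (u x) (cliff fr i x (v x)) +
      dens G x * (- inner ℝ (cliff fr i x (nab G fr i u x)) (v x) +
        inner ℝ (u x) (cliff fr i x (nab G fr i v x)) -
        ∑ k, chr G x i k i * inner ℝ (u x) (cliff fr k x (v x))) := by
    intro i
    have hin : ContDiff ℝ ∞ (fun y => inner ℝ (u y) (cliff fr i y (v y))) := hu.inner ℝ (hcv i)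
    rw [lp_pd_mul (lp_diff (li_dens_smooth h) x) (lp_diff hin x), pd_dens h.metric,
      li_metric h hu (hcv i) i x, lp_nab_cliff h hv, inner_sub_right, inner_sum]
    simp only [real_inner_smul_right]
    rw [li_cliff_adj (fr := fr) i x (nab G fr i u x) (v x)]
    ring
  have h2 : inner ℝ (u x) (dirac G fr v x) = ∑ i, inner ℝ (u x) (cliff fr i x (nab G fr i v x)) := by
    unfold dirac
    rw [inner_sum]
  have h3 : inner ℝ (dirac G fr u x) (v x) = ∑ i, inner ℝ (cliff fr i x (nab G fr i u x)) (v x) := by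
    unfold dirac
    rw [sum_inner]
  have h4 : ∑ i, ∑ k, chr G x i k i * inner ℝ (u x) (cliff fr k x (v x)) =
      ∑ i, (∑ l, chr G x l i l) * inner ℝ (u x) (cliff fr i x (v x)) := by
    rw [Finset.sum_comm]
    exact Finset.sum_congr rfl fun k _ => by rw [Finset.sum_mul]
  rw [h2, h3]
  simp only [h1, Finset.sum_add_distrib]
  have h5 : ∑ i, dens G x * (∑ l, chr G x l i l) * inner ℝ (u x) (cliff fr i x (v x)) =
      dens G x * ∑ i, (∑ l, chr G x l i l) * inner ℝ (u x) (cliff fr i x (v x)) := by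
    rw [Finset.mul_sum]
    exact Finset.sum_congr rfl fun i _ => by ring
  rw [h5, ← Finset.mul_sum, Finset.sum_sub_distrib, Finset.sum_add_distrib,
    Finset.sum_neg_distrib, h4]
  ring

end metric

/-! ### row A3-5 (LichInt.lean): integration by parts -/
theorem dirac_symm {G fr : E N → Matrix (Fin N) (Fin N) ℝ} (h : IsFrame G fr)
    (u v : E N → Lam N) (hu : Test u) (hv : ContDiff ℝ ∞ v) :
    ∫ x, inner ℝ (dirac G fr u x) (v x) * dens G x =
      ∫ x, inner ℝ (u x) (dirac G fr v x) * dens G x := by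
  have hd := li_dens_smooth h
  have hW : ∀ i, ContDiff ℝ ∞ (fun y => dens G y * inner ℝ (u y) (cliff fr i y (v y))) := fun i =>
    hd.mul (hu.1.inner ℝ ((lp_cliff_smooth h i).clm_apply hv))
  have hWc : ∀ i, HasCompactSupport (fun y => dens G y * inner ℝ (u y) (cliff fr i y (v y))) := by
    intro i
    refine HasCompactSupport.intro hu.2 fun x hx => ?_
    rw [image_eq_zero_of_notMem_tsupport hx, inner_zero_left, mul_zero]
  obtain ⟨-, h2⟩ := li_div _ hW hWc
  have hI1 : Integrable (fun x => inner ℝ (u x) (dirac G fr v x) * dens G x) := by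
    refine ((hu.1.inner ℝ (li_dirac_smooth h hv)).mul hd).continuous.integrable_of_hasCompactSupport
      (HasCompactSupport.intro hu.2 fun x hx => ?_)
    show inner ℝ (u x) (dirac G fr v x) * dens G x = 0
    rw [image_eq_zero_of_notMem_tsupport hx, inner_zero_left, zero_mul]
  have hI2 : Integrable (fun x => inner ℝ (dirac G fr u x) (v x) * dens G x) := by
    refine (((li_dirac_smooth h hu.1).inner ℝ hv).mul hd).continuous.integrable_of_hasCompactSupport
      (HasCompactSupport.intro hu.2 fun x hx => ?_)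
    show inner ℝ (dirac G fr u x) (v x) * dens G x = 0
    rw [li_dirac_supp hx, inner_zero_left, zero_mul]
  have h3 : ∫ x, (inner ℝ (u x) (dirac G fr v x) * dens G x -
      inner ℝ (dirac G fr u x) (v x) * dens G x) = 0 := by
    rw [← h2]
    exact integral_congr_ae (Filter.Eventually.of_forall fun x => (li_div_dirac h hu.1 hv x).symm)
  rw [integral_sub hI1 hI2] at h3
  linarith

/-- the divergence formula behind the integrated Lichnerowicz formula -/
theorem li_div_lich {G fr : E N → Matrix (Fin N) (Fin N) ℝ} (h : IsFrame G fr) {u : E N → Lam N}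
    (hu : ContDiff ℝ ∞ u) (x : E N) :
    ∑ i, pd i (fun y => dens G y * ∑ j, (G y)⁻¹ i j * inner ℝ (u y) (nab G fr j u y)) x =
      (nabSq G fr u x + 1 / 4 * scal G x * ‖u x‖ ^ 2) * dens G x -
        inner ℝ (u x) (dirac G fr (dirac G fr u) x) * dens G x := by
  have hU : ∀ j, ContDiff ℝ ∞ (nab G fr j u) := fun j => lp_nab_smooth h hu j
  have hin : ∀ j, ContDiff ℝ ∞ (fun y => inner ℝ (u y) (nab G fr j u y)) := fun j =>
    hu.inner ℝ (hU j)
  have hG : ∀ i j, ContDiff ℝ ∞ (fun y => (G y)⁻¹ i j) := fun i j => lp_Ginv_smooth h i j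
  have hprod : ∀ i j, ContDiff ℝ ∞ (fun y => (G y)⁻¹ i j * inner ℝ (u y) (nab G fr j u y)) :=
    fun i j => (hG i j).mul (hin j)
  have hsum : ∀ i, ContDiff ℝ ∞ (fun y => ∑ j, (G y)⁻¹ i j * inner ℝ (u y) (nab G fr j u y)) :=
    fun i => ContDiff.sum fun j _ => hprod i j
  set q : Fin N → ℝ := fun j => inner ℝ (u x) (nab G fr j u x) with hq
  have h1 : ∀ i, pd i (fun y => dens G y * ∑ j, (G y)⁻¹ i j * inner ℝ (u y) (nab G fr j u y)) x =
      dens G x * ((∑ l, chr G x l i l) * ∑ j, (G x)⁻¹ i j * q j +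
        ∑ j, ((- ∑ l, (chr G x i l i * (G x)⁻¹ l j + chr G x i l j * (G x)⁻¹ i l)) * q j +
          (G x)⁻¹ i j * (inner ℝ (nab G fr i u x) (nab G fr j u x) +
            inner ℝ (u x) (nab G fr i (nab G fr j u) x)))) := by
    intro i
    rw [lp_pd_mul (lp_diff (li_dens_smooth h) x) (lp_diff (hsum i) x), pd_dens h.metric,
      lp_pd_sum (fun j _ => lp_diff (hprod i j) x)]
    have h2 : ∀ j, pd i (fun y => (G y)⁻¹ i j * inner ℝ (u y) (nab G fr j u y)) x =
        (- ∑ l, (chr G x i l i * (G x)⁻¹ l j + chr G x i l j * (G x)⁻¹ i l)) * q j +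
          (G x)⁻¹ i j * (inner ℝ (nab G fr i u x) (nab G fr j u x) +
            inner ℝ (u x) (nab G fr i (nab G fr j u) x)) := by
      intro j
      rw [lp_pd_mul (lp_diff (hG i j) x) (lp_diff (hin j) x), pd_inv h.metric,
        li_metric h hu (hU j) i x]
    simp only [h2]
    ring
  have h3 : inner ℝ (u x) (dirac G fr (dirac G fr u) x) =
      - ∑ i, ∑ j, (G x)⁻¹ i j * (inner ℝ (u x) (nab G fr i (nab G fr j u) x) -
        ∑ k, chr G x i j k * q k) + 1 / 4 * scal G x * ‖u x‖ ^ 2 := by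
    rw [lich_pt h u hu x, inner_add_right, inner_neg_right, real_inner_smul_right,
      real_inner_self_eq_norm_sq, inner_sum]
    congr 2
    refine Finset.sum_congr rfl fun i _ => ?_
    rw [inner_sum]
    refine Finset.sum_congr rfl fun j _ => ?_
    rw [real_inner_smul_right, inner_sub_right, inner_sum]
    simp only [real_inner_smul_right, hq]
  have h4 : ∑ i, (∑ l, chr G x l i l) * ∑ j, (G x)⁻¹ i j * q j =
      ∑ i, ∑ j, (∑ l, chr G x i l i * (G x)⁻¹ l j) * q j := by
    have e1 : ∀ i, (∑ l, chr G x l i l) * ∑ j, (G x)⁻¹ i j * q j =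
        ∑ l, ∑ j, chr G x l i l * (G x)⁻¹ i j * q j := by
      intro i
      rw [Finset.sum_mul]
      refine Finset.sum_congr rfl fun l _ => ?_
      rw [Finset.mul_sum]
      exact Finset.sum_congr rfl fun j _ => by ring
    have e2 : ∀ i j, (∑ l, chr G x i l i * (G x)⁻¹ l j) * q j =
        ∑ l, chr G x i l i * (G x)⁻¹ l j * q j := fun i j => by rw [Finset.sum_mul]
    simp only [e1, e2]
    rw [Finset.sum_comm]
    refine Finset.sum_congr rfl fun i _ => ?_
    rw [Finset.sum_comm]
  have h5 : ∑ i, ∑ j, (∑ l, chr G x i l j * (G x)⁻¹ i l) * q j =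
      ∑ i, ∑ j, (G x)⁻¹ i j * ∑ k, chr G x i j k * q k := by
    refine Finset.sum_congr rfl fun i _ => ?_
    have e1 : ∀ j, (∑ l, chr G x i l j * (G x)⁻¹ i l) * q j =
        ∑ l, (G x)⁻¹ i l * (chr G x i l j * q j) := by
      intro j
      rw [Finset.sum_mul]
      exact Finset.sum_congr rfl fun l _ => by ring
    simp only [e1, Finset.mul_sum]
    rw [Finset.sum_comm]
  have h6 : nabSq G fr u x =
      ∑ i, ∑ j, (G x)⁻¹ i j * inner ℝ (nab G fr i u x) (nab G fr j u x) := rfl
  simp only [h1]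
  rw [← Finset.mul_sum, h3, h6, Finset.sum_add_distrib, h4]
  have h7 : ∑ i, ∑ j, ((- ∑ l, (chr G x i l i * (G x)⁻¹ l j + chr G x i l j * (G x)⁻¹ i l)) * q j +
          (G x)⁻¹ i j * (inner ℝ (nab G fr i u x) (nab G fr j u x) +
            inner ℝ (u x) (nab G fr i (nab G fr j u) x))) =
      - (∑ i, ∑ j, (∑ l, chr G x i l i * (G x)⁻¹ l j) * q j)
      - (∑ i, ∑ j, (∑ l, chr G x i l j * (G x)⁻¹ i l) * q j)
      + (∑ i, ∑ j, (G x)⁻¹ i j * inner ℝ (nab G fr i u x) (nab G fr j u x))
      + (∑ i, ∑ j, (G x)⁻¹ i j * inner ℝ (u x) (nab G fr i (nab G fr j u) x)) := by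
    rw [← Finset.sum_neg_distrib, ← Finset.sum_sub_distrib, ← Finset.sum_add_distrib,
      ← Finset.sum_add_distrib]
    refine Finset.sum_congr rfl fun i _ => ?_
    rw [← Finset.sum_neg_distrib, ← Finset.sum_sub_distrib, ← Finset.sum_add_distrib,
      ← Finset.sum_add_distrib]
    refine Finset.sum_congr rfl fun j _ => ?_
    rw [Finset.sum_add_distrib]
    ring
  have h8 : ∑ i, ∑ j, (G x)⁻¹ i j * (inner ℝ (u x) (nab G fr i (nab G fr j u) x) -
        ∑ k, chr G x i j k * q k) =
      (∑ i, ∑ j, (G x)⁻¹ i j * inner ℝ (u x) (nab G fr i (nab G fr j u) x)) -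
      ∑ i, ∑ j, (G x)⁻¹ i j * ∑ k, chr G x i j k * q k := by
    rw [← Finset.sum_sub_distrib]
    refine Finset.sum_congr rfl fun i _ => ?_
    rw [← Finset.sum_sub_distrib]
    exact Finset.sum_congr rfl fun j _ => by ring
  rw [h7, h8, h5]
  ring

theorem lich_int {G fr : E N → Matrix (Fin N) (Fin N) ℝ} (h : IsFrame G fr) (u : E N → Lam N)
    (hu : Test u) :
    ∫ x, ‖dirac G fr u x‖ ^ 2 * dens G x =
      ∫ x, (nabSq G fr u x + 1 / 4 * scal G x * ‖u x‖ ^ 2) * dens G x := by
  have hd := li_dens_smooth h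
  have hD := li_dirac_smooth h hu.1
  have e1 : ∫ x, ‖dirac G fr u x‖ ^ 2 * dens G x =
      ∫ x, inner ℝ (dirac G fr u x) (dirac G fr u x) * dens G x := by
    simp only [real_inner_self_eq_norm_sq]
  rw [e1, dirac_symm h u (dirac G fr u) hu hD]
  have hW : ∀ i, ContDiff ℝ ∞ (fun y => dens G y * ∑ j, (G y)⁻¹ i j *
      inner ℝ (u y) (nab G fr j u y)) := fun i =>
    hd.mul (ContDiff.sum fun j _ => (lp_Ginv_smooth h i j).mul (hu.1.inner ℝ (lp_nab_smooth h hu.1 j)))
  have hWc : ∀ i, HasCompactSupport (fun y => dens G y * ∑ j, (G y)⁻¹ i j *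
      inner ℝ (u y) (nab G fr j u y)) := by
    intro i
    refine HasCompactSupport.intro hu.2 fun x hx => ?_
    simp only [image_eq_zero_of_notMem_tsupport hx, inner_zero_left, mul_zero,
      Finset.sum_const_zero]
  obtain ⟨hI, h2⟩ := li_div _ hW hWc
  have hI1 : Integrable (fun x => inner ℝ (u x) (dirac G fr (dirac G fr u) x) * dens G x) := by
    refine ((hu.1.inner ℝ (li_dirac_smooth h hD)).mul hd).continuous.integrable_of_hasCompactSupport
      (HasCompactSupport.intro hu.2 fun x hx => ?_)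
    show inner ℝ (u x) (dirac G fr (dirac G fr u) x) * dens G x = 0
    rw [image_eq_zero_of_notMem_tsupport hx, inner_zero_left, zero_mul]
  have h3 : ∫ x, (nabSq G fr u x + 1 / 4 * scal G x * ‖u x‖ ^ 2) * dens G x =
      ∫ x, (inner ℝ (u x) (dirac G fr (dirac G fr u) x) * dens G x +
        ∑ i, pd i (fun y => dens G y * ∑ j, (G y)⁻¹ i j * inner ℝ (u y) (nab G fr j u y)) x) := by
    refine integral_congr_ae (Filter.Eventually.of_forall fun x => ?_)
    have e2 := li_div_lich h hu.1 x
    show (nabSq G fr u x + 1 / 4 * scal G x * ‖u x‖ ^ 2) * dens G x =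
      inner ℝ (u x) (dirac G fr (dirac G fr u) x) * dens G x +
        ∑ i, pd i (fun y => dens G y * ∑ j, (G y)⁻¹ i j * inner ℝ (u y) (nab G fr j u y)) x
    linarith
  rw [h3, integral_add hI1 hI, h2, add_zero]

end
end PS
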