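import Pool.Agent.H96.PS.ADefs
import Pool.Agent.H96.PS.LichInt
import Pool.Agent.H96.PS.LichPt_a
import Pool.Agent.H96.PS.ConAlg

/-!
Project PS (MP_b05a29_gt), row A10: the Lichnerowicz formula with a potential.
-/

open scoped ContDiff Matrix
open MeasureTheory Set

namespace PS
noncomputable section
variable {N : ℕ}

namespace LPo

variable {G fr : E N → Matrix (Fin N) (Fin N) ℝ}

theorem smCurv (h : IsFrame G fr) (i j l k : Fin N) :
    ContDiff ℝ ∞ (fun x => curv G x i j l k) := by
  unfold curv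
  refine ((lp_pd_smooth (lp_chr_smooth h j k l) i).sub
    (lp_pd_smooth (lp_chr_smooth h i k l) j)).add ?_
  exact ContDiff.sum fun m _ =>
    ((lp_chr_smooth h i m l).mul (lp_chr_smooth h j k m)).sub
      ((lp_chr_smooth h j m l).mul (lp_chr_smooth h i k m))

theorem smScal (h : IsFrame G fr) : ContDiff ℝ ∞ (fun x => scal G x) := by
  unfold scal
  exact ContDiff.sum fun j _ => ContDiff.sum fun k _ =>
    (lp_Ginv_smooth h j k).mul (ContDiff.sum fun i _ => smCurv h i j i k)

theorem ctGrad (h : IsFrame G fr) {f : E N → ℝ} (hf : ContDiff ℝ ∞ f) :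
    Continuous (fun x => Real.sqrt (gradSq G f x)) := by
  refine Real.continuous_sqrt.comp ?_
  unfold gradSq
  exact continuous_finsetSum _ fun k _ => continuous_finsetSum _ fun l _ =>
    (lp_Ginv_smooth h k l).continuous.mul
      ((lp_pd_smooth hf k).continuous.mul (lp_pd_smooth hf l).continuous)

theorem ctDens (h : IsFrame G fr) : Continuous (fun x => dens G x) := by
  unfold dens
  refine Real.continuous_sqrt.comp ?_
  have h1 : Continuous (fun x => G x) :=
    continuous_pi fun i => continuous_pi fun j => (lp_G_smooth h i j).continuous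
  exact h1.matrix_det

theorem dens_nonneg (x : E N) : 0 ≤ dens G x := Real.sqrt_nonneg _

theorem smDirac (h : IsFrame G fr) {u : E N → Lam N} (hu : ContDiff ℝ ∞ u) :
    ContDiff ℝ ∞ (dirac G fr u) := by
  unfold dirac
  exact ContDiff.sum fun i _ => (lp_cliff_smooth h i).clm_apply (lp_nab_smooth h hu i)

theorem ctNabSq (h : IsFrame G fr) {u : E N → Lam N} (hu : ContDiff ℝ ∞ u) :
    Continuous (fun x => nabSq G fr u x) := by
  unfold nabSq
  exact continuous_finsetSum _ fun i _ => continuous_finsetSum _ fun j _ =>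
    (lp_Ginv_smooth h i j).continuous.mul
      ((lp_nab_smooth h hu i).continuous.inner (lp_nab_smooth h hu j).continuous)

theorem smPot {F : E N → Fin N → ℝ} (hF : ∀ j, ContDiff ℝ ∞ (fun x => F x j)) :
    ContDiff ℝ ∞ (potL F) := by
  unfold potL
  exact ContDiff.sum fun j _ => (hF j).smul contDiff_const

theorem pd_supp {u : E N → Lam N} (i : Fin N) {x : E N} (hx : x ∉ tsupport u) :
    pd i u x = 0 := by
  unfold pd
  have h1 : fderiv ℝ u x = 0 := by
    by_contra h2
    exact hx (support_fderiv_subset ℝ (Function.mem_support.mpr h2))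
  rw [h1]
  simp

theorem u_supp {u : E N → Lam N} {x : E N} (hx : x ∉ tsupport u) : u x = 0 :=
  image_eq_zero_of_notMem_tsupport hx

theorem nab_supp {u : E N → Lam N} (i : Fin N) {x : E N} (hx : x ∉ tsupport u) :
    nab G fr i u x = 0 := by
  unfold nab
  rw [pd_supp i hx, u_supp hx]
  simp

theorem dirac_supp {u : E N → Lam N} {x : E N} (hx : x ∉ tsupport u) :
    dirac G fr u x = 0 := by
  unfold dirac
  exact Finset.sum_eq_zero fun i _ => by rw [nab_supp i hx, map_zero]

theorem int_of {f : E N → ℝ} (hf : Continuous f) {u : E N → Lam N} (hu : Test u)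
    (h0 : ∀ x, x ∉ tsupport u → f x = 0) : Integrable f :=
  hf.integrable_of_hasCompactSupport (HasCompactSupport.intro hu.2 h0)

theorem pot_apply (F : E N → Fin N → ℝ) (x : E N) (v : Lam N) :
    potL F x v = ∑ j, F x j • ep j v := by
  unfold potL
  simp only [sum_apply, smul_apply]

theorem pd_pot {F : E N → Fin N → ℝ} (hF : ∀ j, ContDiff ℝ ∞ (fun x => F x j)) (i : Fin N)
    (x : E N) (v : Lam N) : pd i (potL F) x v = ∑ j, pd i (fun y => F y j) x • ep j v := by
  have h1 : pd i (potL F) x = ∑ j, pd i (fun y => F y j) x • (ep j : Lam N →L[ℝ] Lam N) := by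
    have h2 : potL F = fun y => ∑ j, (fun y => F y j • (ep j : Lam N →L[ℝ] Lam N)) y := rfl
    rw [h2, lp_pd_sum (f := fun j y => F y j • (ep j : Lam N →L[ℝ] Lam N))
      (fun j _ => ((hF j).differentiable (by simp) x).smul_const _)]
    exact Finset.sum_congr rfl fun j _ =>
      lp_pd_smul_const ((hF j).differentiable (by simp) x) _ i
  rw [h1]
  simp only [sum_apply, smul_apply]

theorem spin_pot (w : Matrix (Fin N) (Fin N) ℝ) (F : E N → Fin N → ℝ) (x : E N) (v : Lam N) :
    spinL w (potL F x v) = potL F x (spinL w v) := by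
  rw [pot_apply, pot_apply, map_sum]
  refine Finset.sum_congr rfl fun j _ => ?_
  rw [map_smul]
  have h1 := congrArg (fun T : Lam N →L[ℝ] Lam N => T v) (spin_ep (w := w) j)
  simp only [ContinuousLinearMap.comp_apply] at h1
  rw [h1]

theorem nab_pot {F : E N → Fin N → ℝ} (hF : ∀ j, ContDiff ℝ ∞ (fun x => F x j))
    {u : E N → Lam N} (hu : ContDiff ℝ ∞ u) (i : Fin N) (x : E N) :
    nab G fr i (fun y => potL F y (u y)) x =
      ∑ j, pd i (fun y => F y j) x • ep j (u x) + potL F x (nab G fr i u x) := by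
  unfold nab
  rw [lp_pd_clm ((smPot hF).differentiable (by simp) x) (hu.differentiable (by simp) x),
    pd_pot hF, spin_pot, map_add]
  abel

theorem cl_pot (a : Fin N) (F : E N → Fin N → ℝ) (x : E N) (v : Lam N) :
    cl a (potL F x v) = - potL F x (cl a v) := by
  rw [pot_apply, pot_apply, map_sum, ← Finset.sum_neg_distrib]
  refine Finset.sum_congr rfl fun j _ => ?_
  rw [map_smul, ← smul_neg]
  congr 1
  have h1 := congrArg (fun T : Lam N →L[ℝ] Lam N => T v) (cl_ep a j)
  simp only [add_apply, ContinuousLinearMap.comp_apply, zero_apply] at h1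
  exact eq_neg_of_add_eq_zero_left h1

theorem cliff_apply (i : Fin N) (x : E N) (v : Lam N) :
    cliff fr i x v = ∑ a, fr x i a • cl a v := by
  unfold cliff
  simp only [sum_apply, smul_apply]

theorem cliff_pot (i : Fin N) (F : E N → Fin N → ℝ) (x : E N) (v : Lam N) :
    cliff fr i x (potL F x v) = - potL F x (cliff fr i x v) := by
  rw [cliff_apply, cliff_apply, map_sum, ← Finset.sum_neg_distrib]
  refine Finset.sum_congr rfl fun a _ => ?_
  rw [cl_pot, map_smul, smul_neg]

/-- the zeroth order term -/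
def QQ (fr : E N → Matrix (Fin N) (Fin N) ℝ) (F : E N → Fin N → ℝ) (u : E N → Lam N) (x : E N) :
    Lam N := ∑ i, cliff fr i x (∑ j, pd i (fun y => F y j) x • ep j (u x))

theorem dirac_pot {F : E N → Fin N → ℝ} (hF : ∀ j, ContDiff ℝ ∞ (fun x => F x j))
    {u : E N → Lam N} (hu : ContDiff ℝ ∞ u) (x : E N) :
    dirac G fr (fun y => potL F y (u y)) x = QQ fr F u x - potL F x (dirac G fr u x) := by
  unfold dirac QQ
  rw [map_sum, ← Finset.sum_sub_distrib]
  refine Finset.sum_congr rfl fun i _ => ?_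
  rw [nab_pot hF hu, map_add, cliff_pot, sub_eq_add_neg]

theorem pot_adj (F : E N → Fin N → ℝ) (x : E N) (v w : Lam N) :
    inner ℝ (potL F x v) w = inner ℝ v (potL F x w) := by
  rw [pot_apply, pot_apply, sum_inner, inner_sum]
  refine Finset.sum_congr rfl fun j _ => ?_
  rw [real_inner_smul_left, real_inner_smul_right, ep_adj]

theorem norm_pot (F : E N → Fin N → ℝ) (x : E N) (v : Lam N) :
    ‖potL F x v‖ ^ 2 = (∑ j, F x j ^ 2) * ‖v‖ ^ 2 := by
  rw [pot_apply]
  exact norm_sum_ep (fun j => F x j) v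

theorem norm_ep (j : Fin N) (v : Lam N) : ‖ep j v‖ = ‖v‖ := by
  have h1 := norm_sum_ep (fun i => if i = j then 1 else 0) v
  simp only [ite_smul, one_smul, zero_smul, Finset.sum_ite_eq', Finset.mem_univ, if_true, ite_pow,
    one_pow, ne_eq, OfNat.ofNat_ne_zero, not_false_eq_true, zero_pow, one_mul] at h1
  exact (sq_eq_sq₀ (norm_nonneg _) (norm_nonneg _)).1 h1

theorem norm_grad (h : IsFrame G fr) (f : E N → ℝ) (x : E N) (v : Lam N) :
    ‖∑ i, pd i f x • cliff fr i x v‖ = Real.sqrt (gradSq G f x) * ‖v‖ := by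
  have h1 : ∑ i, pd i f x • cliff fr i x v = ∑ a, (∑ i, pd i f x * fr x i a) • cl a v := by
    simp only [cliff_apply, Finset.smul_sum, Finset.sum_smul, smul_smul]
    exact Finset.sum_comm
  have h2 : ∑ a, (∑ i, pd i f x * fr x i a) ^ 2 = gradSq G f x := by
    have h5 : ∀ a, (∑ i, pd i f x * fr x i a) ^ 2 =
        ∑ k, ∑ l, pd k f x * fr x k a * (pd l f x * fr x l a) := by
      intro a
      rw [sq, Finset.sum_mul_sum]
    have h6 : gradSq G f x = ∑ k, ∑ l, ∑ a, pd k f x * fr x k a * (pd l f x * fr x l a) := by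
      unfold gradSq
      rw [lp_Ginv h x]
      refine Finset.sum_congr rfl fun k _ => Finset.sum_congr rfl fun l _ => ?_
      rw [Matrix.mul_apply, Finset.sum_mul]
      refine Finset.sum_congr rfl fun a _ => ?_
      rw [Matrix.transpose_apply]
      ring
    rw [h6, Finset.sum_congr rfl fun a _ => h5 a, Finset.sum_comm]
    refine Finset.sum_congr rfl fun k _ => ?_
    exact Finset.sum_comm
  have h3 : ‖∑ i, pd i f x • cliff fr i x v‖ ^ 2 = (Real.sqrt (gradSq G f x) * ‖v‖) ^ 2 := by
    rw [h1, norm_sum_cl, h2, mul_pow, Real.sq_sqrt]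
    rw [← h2]
    exact Finset.sum_nonneg fun a _ => sq_nonneg _
  exact (sq_eq_sq₀ (norm_nonneg _) (by positivity)).1 h3

theorem QQ_bound (h : IsFrame G fr) (F : E N → Fin N → ℝ) (u : E N → Lam N) (x : E N) :
    -((∑ j, Real.sqrt (gradSq G (fun y => F y j) x)) * ‖u x‖ ^ 2) ≤
      inner ℝ (u x) (QQ fr F u x) := by
  have h1 : QQ fr F u x = ∑ j, ∑ i, pd i (fun y => F y j) x • cliff fr i x (ep j (u x)) := by
    unfold QQ
    rw [Finset.sum_comm]
    refine Finset.sum_congr rfl fun i _ => ?_
    rw [map_sum]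
    exact Finset.sum_congr rfl fun j _ => by rw [map_smul]
  rw [h1, inner_sum, Finset.sum_mul, ← Finset.sum_neg_distrib]
  refine Finset.sum_le_sum fun j _ => ?_
  have h2 := abs_real_inner_le_norm (u x)
    (∑ i, pd i (fun y => F y j) x • cliff fr i x (ep j (u x)))
  rw [norm_grad h, norm_ep] at h2
  have h3 := (abs_le.1 h2).1
  calc _ = -(‖u x‖ * (Real.sqrt (gradSq G (fun y => F y j) x) * ‖u x‖)) := by ring
    _ ≤ _ := h3

end LPo

open LPo

/-! ### row A3-6 (LichPot.lean) -/
theorem lich_pot {G fr : E N → Matrix (Fin N) (Fin N) ℝ} (h : IsFrame G fr)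
    (F : E N → Fin N → ℝ) (hF : ∀ j, ContDiff ℝ ∞ (fun x => F x j)) (u : E N → Lam N)
    (hu : Test u) :
    ∫ x, (nabSq G fr u x + Ppot G F x * ‖u x‖ ^ 2) * dens G x ≤
      ∫ x, ‖dirac G fr u x + potL F x (u x)‖ ^ 2 * dens G x := by
  have hd := ctDens h
  have hD := (smDirac h hu.1).continuous
  have hP := (smPot hF).continuous
  have hPu : ContDiff ℝ ∞ (fun y => potL F y (u y)) := (smPot hF).clm_apply hu.1
  have hQ : Continuous (QQ fr F u) := by
    have h1 : QQ fr F u = fun x => dirac G fr (fun y => potL F y (u y)) x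
        + potL F x (dirac G fr u x) := by
      funext x
      rw [dirac_pot hF hu.1 x, sub_add_cancel]
    rw [h1]
    exact (smDirac h hPu).continuous.add (hP.clm_apply hD)
  have hS : Continuous (fun x => ∑ j, Real.sqrt (gradSq G (fun y => F y j) x)) :=
    continuous_finsetSum _ fun j _ => ctGrad h (hF j)
  have hF2 : Continuous (fun x => ∑ j, F x j ^ 2) :=
    continuous_finsetSum _ fun j _ => (hF j).continuous.pow 2
  have hu2 : Continuous (fun x => ‖u x‖ ^ 2) := hu.1.continuous.norm.pow 2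
  -- the integrable functions
  have i1 : Integrable (fun x => ‖dirac G fr u x‖ ^ 2 * dens G x) := by
    refine int_of ?_ hu ?_
    · exact (hD.norm.pow 2).mul hd
    · intro x hx
      rw [dirac_supp hx]; simp
  have i2 : Integrable (fun x => inner ℝ (dirac G fr u x) (potL F x (u x)) * dens G x) := by
    refine int_of ?_ hu ?_
    · exact (hD.inner hPu.continuous).mul hd
    · intro x hx
      rw [dirac_supp hx]; simp
  have i3 : Integrable (fun x => (∑ j, F x j ^ 2) * ‖u x‖ ^ 2 * dens G x) := by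
    refine int_of ?_ hu ?_
    · exact (hF2.mul hu2).mul hd
    · intro x hx
      rw [u_supp hx]; simp
  have i4 : Integrable (fun x => inner ℝ (u x) (QQ fr F u x) * dens G x) := by
    refine int_of ?_ hu ?_
    · exact (hu.1.continuous.inner hQ).mul hd
    · intro x hx
      rw [u_supp hx]; simp
  have i5 : Integrable (fun x => (∑ j, Real.sqrt (gradSq G (fun y => F y j) x)) * ‖u x‖ ^ 2
      * dens G x) := by
    refine int_of ?_ hu ?_
    · exact (hS.mul hu2).mul hd
    · intro x hx
      rw [u_supp hx]; simp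
  have i6 : Integrable (fun x => (nabSq G fr u x + 1 / 4 * scal G x * ‖u x‖ ^ 2) * dens G x) := by
    refine int_of ?_ hu ?_
    · exact ((ctNabSq h hu.1).add
        ((continuous_const.mul (smScal h).continuous).mul hu2)).mul hd
    · intro x hx
      unfold nabSq
      rw [u_supp hx]
      simp [nab_supp _ hx]
  -- the cross term
  have c1 : ∫ x, inner ℝ (dirac G fr u x) (potL F x (u x)) * dens G x =
      ∫ x, inner ℝ (u x) (dirac G fr (fun y => potL F y (u y)) x) * dens G x :=
    dirac_symm h u (fun y => potL F y (u y)) hu hPu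
  have c2 : ∫ x, inner ℝ (u x) (dirac G fr (fun y => potL F y (u y)) x) * dens G x =
      (∫ x, inner ℝ (u x) (QQ fr F u x) * dens G x)
        - ∫ x, inner ℝ (dirac G fr u x) (potL F x (u x)) * dens G x := by
    rw [← integral_sub i4 i2]
    congr 1
    funext x
    rw [dirac_pot hF hu.1 x, inner_sub_right, ← pot_adj, real_inner_comm (dirac G fr u x)]
    ring
  have c3 : 2 * ∫ x, inner ℝ (dirac G fr u x) (potL F x (u x)) * dens G x =
      ∫ x, inner ℝ (u x) (QQ fr F u x) * dens G x := by
    rw [c2] at c1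
    linarith
  have c4 : -(∫ x, (∑ j, Real.sqrt (gradSq G (fun y => F y j) x)) * ‖u x‖ ^ 2 * dens G x) ≤
      ∫ x, inner ℝ (u x) (QQ fr F u x) * dens G x := by
    rw [← integral_neg]
    apply integral_mono i5.neg i4
    intro x
    have h1 := QQ_bound h F u x
    have h2 := dens_nonneg (G := G) x
    change -((∑ j, Real.sqrt (gradSq G (fun y => F y j) x)) * ‖u x‖ ^ 2 * dens G x) ≤ _
    calc _ = -((∑ j, Real.sqrt (gradSq G (fun y => F y j) x)) * ‖u x‖ ^ 2) * dens G x := by ring
      _ ≤ _ := mul_le_mul_of_nonneg_right h1 h2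
  -- expansion of the right hand side
  have e1 : ∫ x, ‖dirac G fr u x + potL F x (u x)‖ ^ 2 * dens G x =
      (∫ x, ‖dirac G fr u x‖ ^ 2 * dens G x)
        + 2 * (∫ x, inner ℝ (dirac G fr u x) (potL F x (u x)) * dens G x)
        + ∫ x, (∑ j, F x j ^ 2) * ‖u x‖ ^ 2 * dens G x := by
    have i12 : Integrable (fun x => ‖dirac G fr u x‖ ^ 2 * dens G x +
        2 * (inner ℝ (dirac G fr u x) (potL F x (u x)) * dens G x)) := i1.add (i2.const_mul 2)
    rw [← integral_const_mul, ← integral_add i1 (i2.const_mul 2), ← integral_add i12 i3]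
    congr 1
    funext x
    rw [norm_add_sq_real, norm_pot]
    ring
  have e2 : ∫ x, (nabSq G fr u x + Ppot G F x * ‖u x‖ ^ 2) * dens G x =
      (∫ x, (nabSq G fr u x + 1 / 4 * scal G x * ‖u x‖ ^ 2) * dens G x)
        + (∫ x, (∑ j, F x j ^ 2) * ‖u x‖ ^ 2 * dens G x)
        - ∫ x, (∑ j, Real.sqrt (gradSq G (fun y => F y j) x)) * ‖u x‖ ^ 2 * dens G x := by
    have i63 : Integrable (fun x => (nabSq G fr u x + 1 / 4 * scal G x * ‖u x‖ ^ 2) * dens G x +
        (∑ j, F x j ^ 2) * ‖u x‖ ^ 2 * dens G x) := i6.add i3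
    rw [← integral_add i6 i3, ← integral_sub i63 i5]
    congr 1
    funext x
    unfold Ppot
    ring
  rw [e1, e2, lich_int h u hu, c3]
  linarith

end
end PS
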