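import Pool.Agent.H96.PS.ADefs
import Pool.Agent.H96.PS.LichPot

/-!
Project PS (MP_b05a29_gt), row A11: a priori estimate and positivity.
-/

set_option autoImplicit false

open scoped ContDiff Matrix
open MeasureTheory Set

namespace PS
noncomputable section
variable {N : ℕ}

namespace APri

variable {G fr : E N → Matrix (Fin N) (Fin N) ℝ}

theorem inv_eq (h : IsFrame G fr) (x : E N) : (G x)⁻¹ = fr x * (fr x)ᵀ := by
  have h1 := h.orth x
  have h2 : fr x * ((fr x)ᵀ * G x) = 1 := mul_eq_one_comm.mp h1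
  apply Matrix.inv_eq_left_inv
  rw [Matrix.mul_assoc]
  exact h2

theorem frinv_eq (h : IsFrame G fr) (x : E N) : (fr x)⁻¹ = (fr x)ᵀ * G x :=
  Matrix.inv_eq_left_inv (h.orth x)

theorem fr_mul_inv (h : IsFrame G fr) (x : E N) : fr x * (fr x)⁻¹ = 1 := by
  rw [frinv_eq h x]
  exact mul_eq_one_comm.mp (h.orth x)

theorem smG (h : IsFrame G fr) (i j : Fin N) : ContDiff ℝ ∞ (fun x => G x i j) :=
  contDiffOn_univ.mp (h.metric.smooth i j)

theorem smInv (h : IsFrame G fr) (i j : Fin N) : ContDiff ℝ ∞ (fun x => (G x)⁻¹ i j) := by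
  have h1 : (fun x => (G x)⁻¹ i j) = fun x => ∑ a, fr x i a * fr x j a := by
    funext x
    rw [inv_eq h x, Matrix.mul_apply]
    rfl
  rw [h1]
  exact ContDiff.sum fun a _ => (h.smooth i a).mul (h.smooth j a)

theorem smFrInv (h : IsFrame G fr) (i j : Fin N) : ContDiff ℝ ∞ (fun x => (fr x)⁻¹ i j) := by
  have h1 : (fun x => (fr x)⁻¹ i j) = fun x => ∑ a, fr x a i * G x a j := by
    funext x
    rw [frinv_eq h x, Matrix.mul_apply]
    rfl
  rw [h1]
  exact ContDiff.sum fun a _ => (h.smooth a i).mul (smG h a j)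

theorem smPd {F : Type*} [NormedAddCommGroup F] [NormedSpace ℝ F] {f : E N → F}
    (hf : ContDiff ℝ ∞ f) (i : Fin N) : ContDiff ℝ ∞ (fun x => pd i f x) := by
  unfold pd
  exact (hf.fderiv_right (m := ∞) (by simp)).clm_apply contDiff_const

theorem smChr (h : IsFrame G fr) (i j k : Fin N) : ContDiff ℝ ∞ (fun x => chr G x i j k) := by
  unfold chr
  refine contDiff_const.mul (ContDiff.sum fun l _ => (smInv h k l).mul ?_)
  exact ((smPd (smG h j l) i).add (smPd (smG h i l) j)).sub (smPd (smG h i j) l)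

theorem smCurv (h : IsFrame G fr) (i j l k : Fin N) :
    ContDiff ℝ ∞ (fun x => curv G x i j l k) := by
  unfold curv
  refine ((smPd (smChr h j k l) i).sub (smPd (smChr h i k l) j)).add ?_
  exact ContDiff.sum fun m _ =>
    ((smChr h i m l).mul (smChr h j k m)).sub ((smChr h j m l).mul (smChr h i k m))

theorem smScal (h : IsFrame G fr) : ContDiff ℝ ∞ (fun x => scal G x) := by
  unfold scal
  exact ContDiff.sum fun j _ => ContDiff.sum fun k _ =>
    (smInv h j k).mul (ContDiff.sum fun i _ => smCurv h i j i k)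

theorem ctPpot (h : IsFrame G fr) {F : E N → Fin N → ℝ}
    (hF : ∀ j, ContDiff ℝ ∞ (fun x => F x j)) : Continuous (fun x => Ppot G F x) := by
  unfold Ppot
  refine (((smScal h).continuous.div_const 4).add
    (continuous_finsetSum _ fun j _ => ((hF j).continuous).pow 2)).sub
    (continuous_finsetSum _ fun j _ => ?_)
  refine Real.continuous_sqrt.comp ?_
  unfold gradSq
  exact continuous_finsetSum _ fun k _ => continuous_finsetSum _ fun l _ =>
    (smInv h k l).continuous.mul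
      ((smPd (hF j) k).continuous.mul (smPd (hF j) l).continuous)

theorem ctDens (h : IsFrame G fr) : Continuous (fun x => dens G x) := by
  unfold dens
  refine Real.continuous_sqrt.comp ?_
  have h1 : Continuous (fun x => G x) :=
    continuous_pi fun i => continuous_pi fun j => (smG h i j).continuous
  exact h1.matrix_det

theorem densPos (h : IsFrame G fr) (x : E N) : 0 < dens G x := by
  unfold dens
  exact Real.sqrt_pos.mpr (h.metric.posDef x (mem_univ x)).det_pos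

theorem smOmg (h : IsFrame G fr) (i a b : Fin N) :
    ContDiff ℝ ∞ (fun x => omg G fr i x a b) := by
  have h1 : (fun x => omg G fr i x a b) = fun x => ∑ c, (fr x)⁻¹ a c *
      (pd i (fun y => fr y c b) x + ∑ m, chr G x i m c * fr x m b) := by
    funext x
    unfold omg
    rw [Matrix.mul_apply]
    refine Finset.sum_congr rfl fun c _ => ?_
    rw [Matrix.add_apply, Matrix.mul_apply]
    rfl
  rw [h1]
  exact ContDiff.sum fun c _ => (smFrInv h a c).mul ((smPd (h.smooth c b) i).add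
    (ContDiff.sum fun m _ => (smChr h i m c).mul (h.smooth m b)))

theorem ctSpin (h : IsFrame G fr) (i : Fin N) :
    Continuous (fun x => (spinL (omg G fr i x) : Lam N →L[ℝ] Lam N)) := by
  unfold spinL
  have h1 : Continuous (fun x => (∑ a, ∑ b, omg G fr i x a b • (cl a ∘L cl b) :
      Lam N →L[ℝ] Lam N)) :=
    continuous_finsetSum _ fun a _ => continuous_finsetSum _ fun b _ =>
      (smOmg h i a b).continuous.smul continuous_const
  exact h1.const_smul (-(1 / 4 : ℝ))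

/-! ### the outer region -/

theorem isOpen_out (R : ℝ) : IsOpen {x : E N | R < ‖x‖} :=
  isOpen_lt continuous_const continuous_norm

theorem pd_out {F : Type*} [NormedAddCommGroup F] [NormedSpace ℝ F] {f g : E N → F} {R : ℝ}
    (hfg : ∀ x, R < ‖x‖ → f x = g x) (i : Fin N) {x : E N} (hx : R < ‖x‖) :
    pd i f x = pd i g x := by
  unfold pd
  have h1 : f =ᶠ[nhds x] g :=
    Filter.eventuallyEq_of_mem ((isOpen_out R).mem_nhds hx) (fun y hy => hfg y hy)
  rw [h1.fderiv_eq]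

theorem pd_out_const {F : Type*} [NormedAddCommGroup F] [NormedSpace ℝ F] {f : E N → F} {R : ℝ}
    {c : F} (hfg : ∀ x, R < ‖x‖ → f x = c) (i : Fin N) {x : E N} (hx : R < ‖x‖) :
    pd i f x = 0 := by
  rw [pd_out (g := fun _ => c) hfg i hx]
  unfold pd
  simp

theorem chr_out {R : ℝ} (hG : ∀ x, R < ‖x‖ → G x = 1) (i j k : Fin N) {x : E N}
    (hx : R < ‖x‖) : chr G x i j k = 0 := by
  have h1 : ∀ i j l : Fin N, pd i (fun y => G y j l) x = 0 := by
    intro i j l
    refine pd_out_const (c := (1 : Matrix (Fin N) (Fin N) ℝ) j l) ?_ i hx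
    intro y hy
    rw [hG y hy]
  unfold chr
  simp [h1]

theorem scal_out {R : ℝ} (hG : ∀ x, R < ‖x‖ → G x = 1) {x : E N} (hx : R < ‖x‖) :
    scal G x = 0 := by
  have h1 : ∀ i j l k : Fin N, curv G x i j l k = 0 := by
    intro i j l k
    have h2 : ∀ i j k l : Fin N, pd i (fun y => chr G y j k l) x = 0 := by
      intro i j k l
      exact pd_out_const (c := 0) (fun y hy => chr_out hG j k l hy) i hx
    unfold curv
    simp [h2, chr_out hG _ _ _ hx]
  unfold scal
  simp [h1]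

theorem omg_out {R : ℝ} (hG : ∀ x, R < ‖x‖ → G x = 1 ∧ fr x = 1) (i : Fin N) {x : E N}
    (hx : R < ‖x‖) : omg G fr i x = 0 := by
  have h1 : (Matrix.of (fun j k => pd i (fun y => fr y j k) x) : Matrix (Fin N) (Fin N) ℝ) = 0 := by
    ext j k
    refine pd_out_const (c := (1 : Matrix (Fin N) (Fin N) ℝ) j k) ?_ i hx
    intro y hy
    rw [(hG y hy).2]
  have h2 : conM G i x = 0 := by
    ext j k
    exact chr_out (fun y hy => (hG y hy).1) i k j hx
  unfold omg
  rw [h1, h2]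
  simp

theorem spin_out {R : ℝ} (hG : ∀ x, R < ‖x‖ → G x = 1 ∧ fr x = 1) (i : Fin N) {x : E N}
    (hx : R < ‖x‖) : (spinL (omg G fr i x) : Lam N →L[ℝ] Lam N) = 0 := by
  rw [omg_out hG i hx]
  unfold spinL
  have h1 : ∀ a b : Fin N, (0 : Matrix (Fin N) (Fin N) ℝ) a b • (cl a ∘L cl b :
      Lam N →L[ℝ] Lam N) = 0 := by
    intro a b
    rw [Matrix.zero_apply]
    exact zero_smul ℝ (cl a ∘L cl b : Lam N →L[ℝ] Lam N)
  simp only [h1, Finset.sum_const_zero, smul_zero]

theorem gradSq_out {R lam : ℝ} {F : E N → Fin N → ℝ} (hG : ∀ x, R < ‖x‖ → G x = 1)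
    (hF : ∀ x, R < ‖x‖ → ∀ j, F x j = lam * x j) (j : Fin N) {x : E N} (hx : R < ‖x‖) :
    gradSq G (fun y => F y j) x = lam ^ 2 := by
  have h1 : ∀ k : Fin N, pd k (fun y => F y j) x = if k = j then lam else 0 := by
    intro k
    rw [pd_out (g := fun y : E N => lam * y j) (fun y hy => hF y hy j) k hx]
    unfold pd
    have h2 : HasFDerivAt (fun y : E N => lam * y j)
        (lam • (EuclideanSpace.proj j : E N →L[ℝ] ℝ)) x :=
      ((EuclideanSpace.proj j : E N →L[ℝ] ℝ).hasFDerivAt).const_mul lam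
    rw [h2.fderiv]
    by_cases hkj : k = j
    · subst hkj
      simp [ev]
    · simp [ev, hkj, Ne.symm hkj]
  unfold gradSq
  rw [hG x hx]
  simp only [h1, inv_one]
  rw [Finset.sum_eq_single j]
  · rw [Finset.sum_eq_single j]
    · simp
      ring
    · intro l _ hl
      simp [hl]
    · intro hj
      exact absurd (Finset.mem_univ j) hj
  · intro k _ hk
    simp [hk]
  · intro hj
    exact absurd (Finset.mem_univ j) hj

theorem Ppot_out {R lam : ℝ} (hlam : 0 < lam) {F : E N → Fin N → ℝ}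
    (hG : ∀ x, R < ‖x‖ → G x = 1)
    (hF : ∀ x, R < ‖x‖ → ∀ j, F x j = lam * x j) {x : E N} (hx : R < ‖x‖) :
    Ppot G F x = lam ^ 2 * ‖x‖ ^ 2 - N * lam := by
  unfold Ppot
  rw [scal_out hG hx]
  have h1 : ∀ j : Fin N, Real.sqrt (gradSq G (fun y => F y j) x) = lam := by
    intro j
    rw [gradSq_out hG hF j hx]
    exact Real.sqrt_sq hlam.le
  have h2 : ∑ j, F x j ^ 2 = lam ^ 2 * ‖x‖ ^ 2 := by
    rw [EuclideanSpace.norm_sq_eq, Finset.mul_sum]
    refine Finset.sum_congr rfl fun j _ => ?_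
    rw [hF x hx j, mul_pow, Real.norm_eq_abs, sq_abs]
  rw [h2]
  simp [h1]

/-! ### bounds -/

theorem bdd_of {Y : Type*} [NormedAddCommGroup Y] {f : E N → Y} (hf : Continuous f) {R c : ℝ}
    (hout : ∀ x, R < ‖x‖ → ‖f x‖ ≤ c) : ∃ C : ℝ, 0 < C ∧ ∀ x, ‖f x‖ ≤ C := by
  obtain ⟨C0, hC0⟩ := (isCompact_closedBall (0 : E N) R).exists_bound_of_continuousOn
    hf.continuousOn
  refine ⟨max 1 (max C0 c), lt_of_lt_of_le one_pos (le_max_left _ _), fun x => ?_⟩
  rcases le_or_gt ‖x‖ R with hx | hx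
  · exact (hC0 x (by simpa using hx)).trans ((le_max_left _ _).trans (le_max_right _ _))
  · exact (hout x hx).trans ((le_max_right _ _).trans (le_max_right _ _))

theorem dens_bdd (h : IsFrame G fr) {R : ℝ} (hG : ∀ x, R < ‖x‖ → G x = 1) :
    ∃ m M : ℝ, 0 < m ∧ 0 < M ∧ ∀ x, m ≤ dens G x ∧ dens G x ≤ M := by
  have h1 : ∀ x, R < ‖x‖ → dens G x = 1 := by
    intro x hx
    unfold dens
    rw [hG x hx]
    simp
  obtain ⟨M, hM, hM'⟩ := bdd_of (ctDens h) (R := R) (c := 1) (fun x hx => by rw [h1 x hx]; simp)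
  have hct : Continuous (fun x => (dens G x)⁻¹) := (ctDens h).inv₀ fun x => (densPos h x).ne'
  obtain ⟨C, hC, hC'⟩ := bdd_of hct (R := R) (c := 1)
    (fun x hx => by rw [h1 x hx]; simp)
  refine ⟨C⁻¹, M, inv_pos.mpr hC, hM, fun x => ⟨?_, ?_⟩⟩
  · have h2 := hC' x
    rw [norm_inv, Real.norm_eq_abs, abs_of_pos (densPos h x)] at h2
    exact inv_le_of_inv_le₀ (densPos h x) h2
  · have h2 := hM' x
    rw [Real.norm_eq_abs, abs_of_pos (densPos h x)] at h2
    exact h2

theorem frinv_bdd (h : IsFrame G fr) {R : ℝ} (hG : ∀ x, R < ‖x‖ → G x = 1 ∧ fr x = 1) :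
    ∃ C : ℝ, 0 < C ∧ ∀ x (a i : Fin N), |(fr x)⁻¹ a i| ≤ C := by
  have h1 : ∀ a i : Fin N, ∃ C : ℝ, 0 < C ∧ ∀ x, ‖(fr x)⁻¹ a i‖ ≤ C := by
    intro a i
    refine bdd_of (smFrInv h a i).continuous (R := R)
      (c := ‖((1 : Matrix (Fin N) (Fin N) ℝ)) a i‖) fun x hx => ?_
    rw [(hG x hx).2]
    simp
  choose C hC hC' using h1
  refine ⟨1 + ∑ a, ∑ i, C a i, by
    have : 0 ≤ ∑ a, ∑ i, C a i :=
      Finset.sum_nonneg fun a _ => Finset.sum_nonneg fun i _ => (hC a i).le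
    linarith, fun x a i => ?_⟩
  have h2 : |(fr x)⁻¹ a i| ≤ C a i := hC' a i x
  have h3 : C a i ≤ ∑ i, C a i :=
    Finset.single_le_sum (f := fun i => C a i) (fun i _ => (hC a i).le) (Finset.mem_univ i)
  have h4 : ∑ i, C a i ≤ ∑ a, ∑ i, C a i :=
    Finset.single_le_sum (f := fun a => ∑ i, C a i)
      (fun a _ => Finset.sum_nonneg fun i _ => (hC a i).le) (Finset.mem_univ a)
  linarith

theorem spin_bdd (h : IsFrame G fr) {R : ℝ} (hG : ∀ x, R < ‖x‖ → G x = 1 ∧ fr x = 1) :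
    ∃ S : ℝ, 0 < S ∧ ∀ (i : Fin N) x (v : Lam N), ‖spinL (omg G fr i x) v‖ ≤ S * ‖v‖ := by
  have h1 : ∀ i : Fin N, ∃ C : ℝ, 0 < C ∧
      ∀ x, ‖(spinL (omg G fr i x) : Lam N →L[ℝ] Lam N)‖ ≤ C := by
    intro i
    refine bdd_of (ctSpin h i) (R := R) (c := 0) fun x hx => ?_
    rw [spin_out hG i hx]
    simp
  choose C hC hC' using h1
  refine ⟨1 + ∑ i, C i, by
    have : 0 ≤ ∑ i, C i := Finset.sum_nonneg fun i _ => (hC i).le
    linarith, fun i x v => ?_⟩
  refine ((spinL (omg G fr i x) : Lam N →L[ℝ] Lam N).le_opNorm v).trans ?_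
  refine mul_le_mul_of_nonneg_right ?_ (norm_nonneg v)
  have h3 : C i ≤ ∑ i, C i :=
    Finset.single_le_sum (f := fun i => C i) (fun i _ => (hC i).le) (Finset.mem_univ i)
  have h4 := hC' i x
  linarith

theorem gram_eq (h : IsFrame G fr) (x : E N) (v : Fin N → Lam N) :
    ∑ i, ∑ j, (G x)⁻¹ i j * inner ℝ (v i) (v j) = ∑ a, ‖∑ i, fr x i a • v i‖ ^ 2 := by
  have h1 : ∀ a : Fin N, ‖∑ i, fr x i a • v i‖ ^ 2 =
      ∑ i, ∑ j, fr x i a * fr x j a * inner ℝ (v i) (v j) := by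
    intro a
    rw [← real_inner_self_eq_norm_sq, sum_inner]
    refine Finset.sum_congr rfl fun i _ => ?_
    rw [inner_sum]
    refine Finset.sum_congr rfl fun j _ => ?_
    rw [real_inner_smul_left, real_inner_smul_right]
    ring
  simp only [h1]
  rw [Finset.sum_comm (s := (Finset.univ : Finset (Fin N)))
    (f := fun a i => ∑ j, fr x i a * fr x j a * inner ℝ (v i) (v j))]
  refine Finset.sum_congr rfl fun i _ => ?_
  rw [Finset.sum_comm]
  refine Finset.sum_congr rfl fun j _ => ?_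
  rw [← Finset.sum_mul, inv_eq h x, Matrix.mul_apply]
  rfl

theorem gram_lower (h : IsFrame G fr) {C : ℝ}
    (hC' : ∀ x (a i : Fin N), |(fr x)⁻¹ a i| ≤ C) (x : E N) (v : Fin N → Lam N) :
    ∑ i, ‖v i‖ ^ 2 ≤ (N : ℝ) ^ 2 * C ^ 2 *
      ∑ i, ∑ j, (G x)⁻¹ i j * inner ℝ (v i) (v j) := by
  rw [gram_eq h x v]
  set w : Fin N → Lam N := fun a => ∑ i, fr x i a • v i with hw
  have h1 : ∀ i, v i = ∑ a, (fr x)⁻¹ a i • w a := by
    intro i
    have h2 : ∑ a, (fr x)⁻¹ a i • w a = ∑ k, (∑ a, fr x k a * (fr x)⁻¹ a i) • v k := by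
      simp only [hw, Finset.smul_sum, smul_smul, Finset.sum_smul]
      rw [Finset.sum_comm]
      refine Finset.sum_congr rfl fun k _ => Finset.sum_congr rfl fun a _ => ?_
      rw [mul_comm]
    rw [h2]
    have h3 : ∀ k, ∑ a, fr x k a * (fr x)⁻¹ a i = (1 : Matrix (Fin N) (Fin N) ℝ) k i := by
      intro k
      rw [← fr_mul_inv h x, Matrix.mul_apply]
    simp only [h3, Matrix.one_apply]
    simp
  have h2 : ∀ i, ‖v i‖ ^ 2 ≤ N * C ^ 2 * ∑ a, ‖w a‖ ^ 2 := by
    intro i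
    have h3 : ‖v i‖ ≤ ∑ a, C * ‖w a‖ := by
      rw [h1 i]
      refine (norm_sum_le _ _).trans (Finset.sum_le_sum fun a _ => ?_)
      rw [norm_smul, Real.norm_eq_abs]
      exact mul_le_mul_of_nonneg_right (hC' x a i) (norm_nonneg _)
    have h4 : (∑ a, C * ‖w a‖) ^ 2 ≤ (Finset.univ : Finset (Fin N)).card *
        ∑ a, (C * ‖w a‖) ^ 2 := sq_sum_le_card_mul_sum_sq
    calc ‖v i‖ ^ 2 ≤ (∑ a, C * ‖w a‖) ^ 2 := pow_le_pow_left₀ (norm_nonneg _) h3 2
      _ ≤ _ := h4
      _ = N * C ^ 2 * ∑ a, ‖w a‖ ^ 2 := by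
          simp only [Finset.card_univ, Fintype.card_fin, mul_pow, ← Finset.mul_sum]
          ring
  calc ∑ i, ‖v i‖ ^ 2 ≤ ∑ _i : Fin N, N * C ^ 2 * ∑ a, ‖w a‖ ^ 2 :=
        Finset.sum_le_sum fun i _ => h2 i
    _ = (N : ℝ) ^ 2 * C ^ 2 * ∑ a, ‖w a‖ ^ 2 := by
        simp only [Finset.sum_const, Finset.card_univ, Fintype.card_fin, nsmul_eq_mul]
        ring

theorem nabSq_nonneg (h : IsFrame G fr) (u : E N → Lam N) (x : E N) : 0 ≤ nabSq G fr u x := by
  unfold nabSq
  rw [gram_eq h x]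
  positivity

/-! ### continuity and support -/

theorem ctNab (h : IsFrame G fr) {u : E N → Lam N} (hu : Test u) (i : Fin N) :
    Continuous (fun x => nab G fr i u x) := by
  unfold nab
  exact (smPd hu.1 i).continuous.add ((ctSpin h i).clm_apply hu.1.continuous)

theorem ctNabSq (h : IsFrame G fr) {u : E N → Lam N} (hu : Test u) :
    Continuous (fun x => nabSq G fr u x) := by
  unfold nabSq
  exact continuous_finsetSum _ fun i _ => continuous_finsetSum _ fun j _ =>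
    (smInv h i j).continuous.mul ((ctNab h hu i).inner (ctNab h hu j))

theorem ctB (h : IsFrame G fr) {F : E N → Fin N → ℝ}
    (hF : ∀ j, ContDiff ℝ ∞ (fun x => F x j)) {u : E N → Lam N} (hu : Test u) :
    Continuous (fun x => dirac G fr u x + potL F x (u x)) := by
  refine Continuous.add ?_ ?_
  · unfold dirac
    refine continuous_finsetSum _ fun i _ => ?_
    refine Continuous.clm_apply ?_ (ctNab h hu i)
    unfold cliff
    exact continuous_finsetSum _ fun a _ => (h.smooth i a).continuous.smul continuous_const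
  · refine Continuous.clm_apply ?_ hu.1.continuous
    unfold potL
    exact continuous_finsetSum _ fun a _ => (hF a).continuous.smul continuous_const

theorem pd_supp {u : E N → Lam N} (i : Fin N) {x : E N} (hx : x ∉ tsupport u) :
    pd i u x = 0 := by
  unfold pd
  have h1 : fderiv ℝ u x = 0 := by
    by_contra h2
    exact hx (support_fderiv_subset ℝ (Function.mem_support.mpr h2))
  rw [h1]
  simp

theorem u_supp {u : E N → Lam N} {x : E N} (hx : x ∉ tsupport u) : u x = 0 :=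
  image_eq_zero_of_notMem_tsupport hx

theorem nab_supp {u : E N → Lam N} (i : Fin N) {x : E N} (hx : x ∉ tsupport u) :
    nab G fr i u x = 0 := by
  unfold nab
  rw [pd_supp i hx, u_supp hx]
  simp

theorem int_of {f : E N → ℝ} (hf : Continuous f) {u : E N → Lam N} (hu : Test u)
    (h0 : ∀ x, x ∉ tsupport u → f x = 0) : Integrable f :=
  hf.integrable_of_hasCompactSupport (HasCompactSupport.intro hu.2 h0)

end APri

open APri

/-- a priori estimate -/
theorem apriori {G fr : E N → Matrix (Fin N) (Fin N) ℝ} (h : IsFrame G fr) (F : E N → Fin N → ℝ)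
    (lam R : ℝ) (hlam : 0 < lam) (hGinf : ∀ x, R ≤ ‖x‖ → G x = 1 ∧ fr x = 1)
    (hF : ∀ j, ContDiff ℝ ∞ (fun x => F x j)) (hFinf : ∀ x, R ≤ ‖x‖ → ∀ j, F x j = lam * x j) :
    ∃ C : ℝ, ∀ u : E N → Lam N, Test u →
      wSq u ≤ C * ((∫ x, ‖dirac G fr u x + potL F x (u x)‖ ^ 2) + ∫ x, ‖u x‖ ^ 2) := by
  have hG1 : ∀ x, R < ‖x‖ → G x = 1 ∧ fr x = 1 := fun x hx => hGinf x hx.le
  have hG2 : ∀ x, R < ‖x‖ → G x = 1 := fun x hx => (hGinf x hx.le).1
  have hF2 : ∀ x, R < ‖x‖ → ∀ j, F x j = lam * x j := fun x hx => hFinf x hx.le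
  obtain ⟨m, M, hm, hM, hmM⟩ := dens_bdd h hG2
  obtain ⟨C1, hC1, hC1'⟩ := frinv_bdd h hG1
  obtain ⟨S, hS, hS'⟩ := spin_bdd h hG1
  have hP : ∃ C3 : ℝ, 0 ≤ C3 ∧ ∀ x, lam ^ 2 / 2 * ‖x‖ ^ 2 - C3 ≤ Ppot G F x := by
    have hct : Continuous (fun x => Ppot G F x - lam ^ 2 / 2 * ‖x‖ ^ 2) :=
      (ctPpot h hF).sub (continuous_const.mul (continuous_norm.pow 2))
    obtain ⟨C0, hC0⟩ := (isCompact_closedBall (0 : E N) R).exists_bound_of_continuousOn
      hct.continuousOn
    refine ⟨max 0 (max C0 (N * lam)), le_max_left _ _, fun x => ?_⟩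
    rcases le_or_gt ‖x‖ R with hx | hx
    · have h1 := hC0 x (by simpa using hx)
      rw [Real.norm_eq_abs] at h1
      have h2 := (abs_le.mp h1).1
      have h3 : C0 ≤ max 0 (max C0 (N * lam)) := (le_max_left _ _).trans (le_max_right _ _)
      linarith
    · rw [Ppot_out hlam hG2 hF2 hx]
      have h3 : (N : ℝ) * lam ≤ max 0 (max C0 (N * lam)) :=
        (le_max_right _ _).trans (le_max_right _ _)
      have h4 : 0 ≤ lam ^ 2 / 2 * ‖x‖ ^ 2 := by positivity
      linarith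
  obtain ⟨C3, hC3, hC3'⟩ := hP
  set K : ℝ := (N : ℝ) ^ 2 * C1 ^ 2 with hK
  have hK0 : 0 ≤ K := by positivity
  set A : ℝ := (2 * K + 2 / lam ^ 2) / m with hA
  have hA0 : 0 ≤ A := by positivity
  set B : ℝ := 1 + 2 * N * S ^ 2 + A * (C3 * M) with hB
  have hB0 : 0 ≤ B := by positivity
  refine ⟨max (A * M) B, fun u hu => ?_⟩
  have key : ∀ x, ‖u x‖ ^ 2 + ∑ i, ‖pd i u x‖ ^ 2 + ‖x‖ ^ 2 * ‖u x‖ ^ 2 ≤
      A * ((nabSq G fr u x + Ppot G F x * ‖u x‖ ^ 2) * dens G x) + B * ‖u x‖ ^ 2 := by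
    intro x
    have h1 : ∀ i, ‖pd i u x‖ ^ 2 ≤ 2 * ‖nab G fr i u x‖ ^ 2 + 2 * S ^ 2 * ‖u x‖ ^ 2 := by
      intro i
      have h2 : pd i u x = nab G fr i u x - spinL (omg G fr i x) (u x) := by
        unfold nab
        simp
      have h3 : ‖pd i u x‖ ≤ ‖nab G fr i u x‖ + S * ‖u x‖ := by
        rw [h2]
        exact (norm_sub_le _ _).trans (by gcongr; exact hS' i x (u x))
      have h4 : ‖pd i u x‖ ^ 2 ≤ (‖nab G fr i u x‖ + S * ‖u x‖) ^ 2 :=
        pow_le_pow_left₀ (norm_nonneg _) h3 2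
      nlinarith [sq_nonneg (‖nab G fr i u x‖ - S * ‖u x‖)]
    have h2 : ∑ i, ‖pd i u x‖ ^ 2 ≤ 2 * ∑ i, ‖nab G fr i u x‖ ^ 2 +
        2 * N * S ^ 2 * ‖u x‖ ^ 2 := by
      calc ∑ i, ‖pd i u x‖ ^ 2 ≤ ∑ i, (2 * ‖nab G fr i u x‖ ^ 2 + 2 * S ^ 2 * ‖u x‖ ^ 2) :=
            Finset.sum_le_sum fun i _ => h1 i
        _ = _ := by
            rw [Finset.sum_add_distrib, ← Finset.mul_sum]
            simp
            ring
    have h3 : ∑ i, ‖nab G fr i u x‖ ^ 2 ≤ K * nabSq G fr u x :=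
      gram_lower h hC1' x (fun i => nab G fr i u x)
    have hn := nabSq_nonneg h u x
    obtain ⟨hd1, hd2⟩ := hmM x
    have hp := hC3' x
    have hq : 0 ≤ ‖u x‖ ^ 2 := by positivity
    have hX : 0 ≤ ‖x‖ ^ 2 := by positivity
    generalize ‖u x‖ ^ 2 = q at *
    generalize ‖x‖ ^ 2 = X at *
    generalize nabSq G fr u x = n at *
    generalize Ppot G F x = p at *
    generalize dens G x = D at *
    have h4 : (n + lam ^ 2 / 2 * X * q) * m - C3 * M * q ≤ (n + p * q) * D := by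
      have h5 : 0 ≤ n + lam ^ 2 / 2 * X * q := by positivity
      have h6 : (n + lam ^ 2 / 2 * X * q) * m ≤ (n + lam ^ 2 / 2 * X * q) * D :=
        mul_le_mul_of_nonneg_left hd1 h5
      have hD : 0 ≤ D := hm.le.trans hd1
      have h7 : (lam ^ 2 / 2 * X - C3) * q * D ≤ p * q * D :=
        mul_le_mul_of_nonneg_right (mul_le_mul_of_nonneg_right hp hq) hD
      have h8 : C3 * q * D ≤ C3 * q * M :=
        mul_le_mul_of_nonneg_left hd2 (by positivity)
      nlinarith
    have h9 : A * ((n + lam ^ 2 / 2 * X * q) * m) =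
        (2 * K + 2 / lam ^ 2) * (n + lam ^ 2 / 2 * X * q) := by
      rw [hA]
      field_simp
    have h10 : 2 * K * n + X * q ≤ (2 * K + 2 / lam ^ 2) * (n + lam ^ 2 / 2 * X * q) := by
      have h11 : (2 * K + 2 / lam ^ 2) * (n + lam ^ 2 / 2 * X * q) =
          2 * K * n + X * q + (2 / lam ^ 2 * n + K * lam ^ 2 * X * q) := by
        field_simp
        ring
      rw [h11]
      have : 0 ≤ 2 / lam ^ 2 * n + K * lam ^ 2 * X * q := by positivity
      linarith
    have h12 : A * ((n + lam ^ 2 / 2 * X * q) * m - C3 * M * q) ≤ A * ((n + p * q) * D) :=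
      mul_le_mul_of_nonneg_left h4 hA0
    have h13 : A * ((n + lam ^ 2 / 2 * X * q) * m - C3 * M * q) =
        (2 * K + 2 / lam ^ 2) * (n + lam ^ 2 / 2 * X * q) - A * (C3 * M) * q := by
      rw [← h9]
      ring
    rw [hB]
    nlinarith
  have hI1 : Integrable (fun x => ‖u x‖ ^ 2) := by
    refine int_of (hu.1.continuous.norm.pow 2) hu fun x hx => ?_
    rw [u_supp hx]
    simp
  have hI2 : Integrable (fun x => (nabSq G fr u x + Ppot G F x * ‖u x‖ ^ 2) * dens G x) := by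
    refine int_of (((ctNabSq h hu).add ((ctPpot h hF).mul (hu.1.continuous.norm.pow 2))).mul
      (ctDens h)) hu fun x hx => ?_
    unfold nabSq
    simp [u_supp hx, nab_supp _ hx]
  have hI3 : Integrable (fun x => ‖u x‖ ^ 2 + ∑ i, ‖pd i u x‖ ^ 2 + ‖x‖ ^ 2 * ‖u x‖ ^ 2) := by
    refine int_of (((hu.1.continuous.norm.pow 2).add
      (continuous_finsetSum _ fun i _ => ((smPd hu.1 i).continuous.norm.pow 2))).add
      ((continuous_norm.pow 2).mul (hu.1.continuous.norm.pow 2))) hu fun x hx => ?_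
    simp [u_supp hx, pd_supp _ hx]
  have hI4 : Integrable (fun x => ‖dirac G fr u x + potL F x (u x)‖ ^ 2) := by
    refine int_of ((ctB h hF hu).norm.pow 2) hu fun x hx => ?_
    unfold dirac
    simp [u_supp hx, nab_supp _ hx]
  have hI5 : Integrable (fun x => ‖dirac G fr u x + potL F x (u x)‖ ^ 2 * dens G x) := by
    refine int_of (((ctB h hF hu).norm.pow 2).mul (ctDens h)) hu fun x hx => ?_
    unfold dirac
    simp [u_supp hx, nab_supp _ hx]
  have e1 : wSq u ≤ (A * ∫ x, (nabSq G fr u x + Ppot G F x * ‖u x‖ ^ 2) * dens G x) +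
      B * ∫ x, ‖u x‖ ^ 2 := by
    unfold wSq
    rw [← integral_const_mul, ← integral_const_mul, ← integral_add (hI2.const_mul A)
      (hI1.const_mul B)]
    exact integral_mono hI3 ((hI2.const_mul A).add (hI1.const_mul B)) key
  have e2 := lich_pot h F hF u hu
  have e3 : ∫ x, ‖dirac G fr u x + potL F x (u x)‖ ^ 2 * dens G x ≤
      M * ∫ x, ‖dirac G fr u x + potL F x (u x)‖ ^ 2 := by
    rw [← integral_const_mul]
    refine integral_mono hI5 (hI4.const_mul M) fun x => ?_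
    simp only
    rw [mul_comm M]
    exact mul_le_mul_of_nonneg_left (hmM x).2 (by positivity)
  have p1 : 0 ≤ ∫ x, ‖dirac G fr u x + potL F x (u x)‖ ^ 2 :=
    integral_nonneg fun x => by positivity
  have p2 : 0 ≤ ∫ x, ‖u x‖ ^ 2 := integral_nonneg fun x => by positivity
  have e4 : A * ∫ x, (nabSq G fr u x + Ppot G F x * ‖u x‖ ^ 2) * dens G x ≤
      A * M * ∫ x, ‖dirac G fr u x + potL F x (u x)‖ ^ 2 := by
    rw [mul_assoc]
    exact mul_le_mul_of_nonneg_left (e2.trans e3) hA0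
  have e5 : A * M * ∫ x, ‖dirac G fr u x + potL F x (u x)‖ ^ 2 ≤
      max (A * M) B * ∫ x, ‖dirac G fr u x + potL F x (u x)‖ ^ 2 :=
    mul_le_mul_of_nonneg_right (le_max_left _ _) p1
  have e6 : B * ∫ x, ‖u x‖ ^ 2 ≤ max (A * M) B * ∫ x, ‖u x‖ ^ 2 :=
    mul_le_mul_of_nonneg_right (le_max_right _ _) p2
  rw [mul_add]
  linarith

theorem pos_lower {G fr : E N → Matrix (Fin N) (Fin N) ℝ} (h : IsFrame G fr) (F : E N → Fin N → ℝ)
    (lam R : ℝ) (hGinf : ∀ x, R ≤ ‖x‖ → G x = 1 ∧ fr x = 1)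
    (hF : ∀ j, ContDiff ℝ ∞ (fun x => F x j)) (δ : ℝ) (hδ : 0 < δ) (hP : ∀ x, δ ≤ Ppot G F x) :
    ∃ δ' : ℝ, 0 < δ' ∧ ∀ u : E N → Lam N, Test u →
      δ' * ∫ x, ‖u x‖ ^ 2 ≤ ∫ x, ‖dirac G fr u x + potL F x (u x)‖ ^ 2 := by
  have _ := lam
  have hG2 : ∀ x, R < ‖x‖ → G x = 1 := fun x hx => (hGinf x hx.le).1
  obtain ⟨m, M, hm, hM, hmM⟩ := dens_bdd h hG2
  refine ⟨δ * m / M, by positivity, fun u hu => ?_⟩
  have hI1 : Integrable (fun x => ‖u x‖ ^ 2) := by
    refine int_of (hu.1.continuous.norm.pow 2) hu fun x hx => ?_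
    rw [u_supp hx]
    simp
  have hI2 : Integrable (fun x => (nabSq G fr u x + Ppot G F x * ‖u x‖ ^ 2) * dens G x) := by
    refine int_of (((ctNabSq h hu).add ((ctPpot h hF).mul (hu.1.continuous.norm.pow 2))).mul
      (ctDens h)) hu fun x hx => ?_
    unfold nabSq
    simp [u_supp hx, nab_supp _ hx]
  have hI4 : Integrable (fun x => ‖dirac G fr u x + potL F x (u x)‖ ^ 2) := by
    refine int_of ((ctB h hF hu).norm.pow 2) hu fun x hx => ?_
    unfold dirac
    simp [u_supp hx, nab_supp _ hx]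
  have hI5 : Integrable (fun x => ‖dirac G fr u x + potL F x (u x)‖ ^ 2 * dens G x) := by
    refine int_of (((ctB h hF hu).norm.pow 2).mul (ctDens h)) hu fun x hx => ?_
    unfold dirac
    simp [u_supp hx, nab_supp _ hx]
  have e1 : δ * m * ∫ x, ‖u x‖ ^ 2 ≤
      ∫ x, (nabSq G fr u x + Ppot G F x * ‖u x‖ ^ 2) * dens G x := by
    rw [← integral_const_mul]
    refine integral_mono (hI1.const_mul _) hI2 fun x => ?_
    simp only
    have hn := nabSq_nonneg h u x
    obtain ⟨hd1, hd2⟩ := hmM x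
    have hp := hP x
    have hq : 0 ≤ ‖u x‖ ^ 2 := by positivity
    generalize ‖u x‖ ^ 2 = q at *
    generalize nabSq G fr u x = n at *
    generalize Ppot G F x = p at *
    generalize dens G x = D at *
    have hD : 0 ≤ D := hm.le.trans hd1
    have h1 : δ * q * m ≤ δ * q * D := mul_le_mul_of_nonneg_left hd1 (by positivity)
    have h2 : δ * q * D ≤ p * q * D :=
      mul_le_mul_of_nonneg_right (mul_le_mul_of_nonneg_right hp hq) hD
    have h3 : 0 ≤ n * D := by positivity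
    nlinarith
  have e2 := lich_pot h F hF u hu
  have e3 : ∫ x, ‖dirac G fr u x + potL F x (u x)‖ ^ 2 * dens G x ≤
      M * ∫ x, ‖dirac G fr u x + potL F x (u x)‖ ^ 2 := by
    rw [← integral_const_mul]
    refine integral_mono hI5 (hI4.const_mul M) fun x => ?_
    simp only
    rw [mul_comm M]
    exact mul_le_mul_of_nonneg_left (hmM x).2 (by positivity)
  have e4 : δ * m * ∫ x, ‖u x‖ ^ 2 ≤ M * ∫ x, ‖dirac G fr u x + potL F x (u x)‖ ^ 2 :=
    e1.trans (e2.trans e3)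
  rw [div_mul_eq_mul_div, div_le_iff₀ hM]
  linarith

end
end PS
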