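import Pool.Agent.H96.PS.ADefs
import Pool.Agent.H96.PS.Cliff

/-! # Project PS, row A15: the inequality for the flat model on odd sections -/

open scoped ContDiff Matrix
open MeasureTheory Set

namespace PS
noncomputable section
variable {N : ℕ}

/-! ### calculus of partial derivatives -/

private theorem fo_int_pd (i : Fin N) (f : E N → ℝ) (hf : ContDiff ℝ 1 f)
    (hc : HasCompactSupport f) : ∫ x, pd i f x = 0 := by
  have hcont : Continuous (fun x => fderiv ℝ f x (ev i)) :=
    (hf.continuous_fderiv one_ne_zero).clm_apply continuous_const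
  have hcs : HasCompactSupport (fun x => fderiv ℝ f x (ev i)) :=
    hc.fderiv_apply ℝ (ev i)
  have h := integral_mul_fderiv_eq_neg_fderiv_mul_of_integrable (μ := (volume : Measure (E N)))
    (f := fun _ => (1 : ℝ)) (g := f) (v := ev i) ?_ ?_ ?_ ?_ ?_
  · simpa [pd] using h
  · simp
  · simpa using hcont.integrable_of_hasCompactSupport hcs
  · simpa using hf.continuous.integrable_of_hasCompactSupport hc
  · intro x _
    exact differentiableAt_const _
  · intro x _
    exact (hf.differentiable one_ne_zero) x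

private theorem fo_pd_clm (i : Fin N) (T : Lam N →L[ℝ] Lam N) (u : E N → Lam N) (x : E N)
    (hu : DifferentiableAt ℝ u x) : pd i (fun y => T (u y)) x = T (pd i u x) := by
  have h := (T.hasFDerivAt.comp x hu.hasFDerivAt).fderiv
  unfold pd
  have h2 : (fun y => T (u y)) = T ∘ u := rfl
  rw [h2, h]
  rfl

private theorem fo_pd_inner (i : Fin N) (u v : E N → Lam N) (x : E N)
    (hu : DifferentiableAt ℝ u x) (hv : DifferentiableAt ℝ v x) :
    pd i (fun y => inner ℝ (u y) (v y)) x = inner ℝ (u x) (pd i v x) + inner ℝ (pd i u x) (v x) :=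
  fderiv_inner_apply ℝ hu hv (ev i)

private theorem fo_pd_smooth (i : Fin N) (u : E N → Lam N) (hu : ContDiff ℝ ∞ u) :
    ContDiff ℝ ∞ (pd i u) := by
  have h : ContDiff ℝ ∞ (fderiv ℝ u) := hu.fderiv_right (m := ∞) (by simp)
  exact h.clm_apply contDiff_const

private theorem fo_pd_pd (i j : Fin N) (u : E N → Lam N) (hu : ContDiff ℝ ∞ u) (x : E N) :
    pd i (pd j u) x = pd j (pd i u) x := by
  have h : ContDiff ℝ ∞ (fderiv ℝ u) := hu.fderiv_right (m := ∞) (by simp)
  have key : ∀ a b : Fin N, pd a (pd b u) x = fderiv ℝ (fderiv ℝ u) x (ev a) (ev b) := by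
    intro a b
    have h1 : HasFDerivAt (fderiv ℝ u) (fderiv ℝ (fderiv ℝ u) x) x :=
      ((h.differentiable (by simp)) x).hasFDerivAt
    have h2 := (h1.clm_apply (hasFDerivAt_const (ev b) x)).fderiv
    have h3 : pd a (pd b u) x = fderiv ℝ (fun y => fderiv ℝ u y (ev b)) x (ev a) := rfl
    rw [h3, h2]
    simp
  rw [key, key]
  have hs : IsSymmSndFDerivAt ℝ u x :=
    (hu.contDiffAt (x := x)).isSymmSndFDerivAt (by
      rw [minSmoothness_of_isRCLikeNormedField]
      have h9 : ((2 : ℕ∞) : ℕ∞ω) ≤ ((⊤ : ℕ∞) : ℕ∞ω) := by exact_mod_cast le_top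
      exact h9)
  exact hs (ev i) (ev j)

private theorem fo_pd_coord (i j : Fin N) (x : E N) :
    pd i (fun y : E N => y j) x = if i = j then 1 else 0 := by
  have h : (fun y : E N => y j) = (EuclideanSpace.proj j : E N →L[ℝ] ℝ) := rfl
  unfold pd
  rw [h, ContinuousLinearMap.fderiv]
  have h2 : (EuclideanSpace.proj j : E N →L[ℝ] ℝ) (ev i) = (ev i) j := rfl
  rw [h2, ev]
  by_cases hij : i = j
  · simp [hij]
  · simp [hij, Ne.symm hij]

private theorem fo_coord_smooth (j : Fin N) : ContDiff ℝ ∞ (fun y : E N => y j) := by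
  have h : (fun y : E N => y j) = (EuclideanSpace.proj j : E N →L[ℝ] ℝ) := rfl
  rw [h]
  exact (EuclideanSpace.proj j : E N →L[ℝ] ℝ).contDiff

private theorem fo_pd_mul (i : Fin N) (f g : E N → ℝ) (x : E N)
    (hf : DifferentiableAt ℝ f x) (hg : DifferentiableAt ℝ g x) :
    pd i (fun y => f y * g y) x = f x * pd i g x + pd i f x * g x := by
  unfold pd
  have h := (hf.hasFDerivAt.mul hg.hasFDerivAt).fderiv
  have h2 : (fun y => f y * g y) = f * g := rfl
  rw [h2, h]
  simp [mul_comm]

private theorem fo_pd_sum {ι : Type} (s : Finset ι) (i : Fin N) (f : ι → E N → ℝ) (x : E N)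
    (hf : ∀ j ∈ s, DifferentiableAt ℝ (f j) x) :
    pd i (fun y => ∑ j ∈ s, f j y) x = ∑ j ∈ s, pd i (f j) x := by
  unfold pd
  rw [fderiv_fun_sum hf]
  simp

private theorem fo_pd_add (i : Fin N) (f g : E N → ℝ) (x : E N)
    (hf : DifferentiableAt ℝ f x) (hg : DifferentiableAt ℝ g x) :
    pd i (fun y => f y + g y) x = pd i f x + pd i g x := by
  unfold pd
  have h := (hf.hasFDerivAt.add hg.hasFDerivAt).fderiv
  have h2 : (fun y => f y + g y) = f + g := rfl
  rw [h2, h]
  rfl

private theorem fo_pd_cmul (i : Fin N) (c : ℝ) (f : E N → ℝ) (x : E N)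
    (hf : DifferentiableAt ℝ f x) : pd i (fun y => c * f y) x = c * pd i f x := by
  unfold pd
  have h := (hf.hasFDerivAt.const_mul c).fderiv
  rw [h]
  rfl

private theorem fo_pd_neg (i : Fin N) (f : E N → ℝ) (x : E N)
    (hf : DifferentiableAt ℝ f x) : pd i (fun y => - f y) x = - pd i f x := by
  unfold pd
  have h := (hf.hasFDerivAt.neg).fderiv
  have h2 : (fun y => - f y) = -f := rfl
  rw [h2, h]
  rfl

/-! ### algebra -/

private theorem fo_cl_sq (i : Fin N) (v : Lam N) : cl i (cl i v) = -v := by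
  have h := congrArg (fun T : Lam N →L[ℝ] Lam N => T v) (cl_mul i i)
  simp only [if_true] at h
  have h2 : cl i (cl i v) + cl i (cl i v) = (-2 : ℝ) • v := h
  have h3 : (2 : ℝ) • cl i (cl i v) = (2 : ℝ) • (-v) := by
    rw [two_smul, h2]
    simp
  exact smul_right_injective _ (two_ne_zero) h3

private theorem fo_cl_cl (i j : Fin N) (hij : i ≠ j) (v : Lam N) :
    cl i (cl j v) + cl j (cl i v) = 0 := by
  have h := congrArg (fun T : Lam N →L[ℝ] Lam N => T v) (cl_mul i j)
  simp only [if_neg hij] at h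
  exact h

private theorem fo_cl_ep (i j : Fin N) (v : Lam N) :
    ep j (cl i v) = - cl i (ep j v) := by
  have h := congrArg (fun T : Lam N →L[ℝ] Lam N => T v) (cl_ep i j)
  have h2 : cl i (ep j v) + ep j (cl i v) = 0 := h
  exact eq_neg_of_add_eq_zero_right h2

private theorem fo_cl_ep_num (i : Fin N) (v : Lam N) :
    cl i (ep i v) = (2 : ℝ) • numL i v - v := by
  have h := congrArg (fun T : Lam N →L[ℝ] Lam N => T v) (cl_ep_num i)
  exact h

private theorem fo_symm (i j : Fin N) (u p : Lam N) :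
    inner ℝ u (cl i (ep j p)) = inner ℝ p (cl i (ep j u)) := by
  have h1 : inner ℝ (cl i u) (ep j p) = - inner ℝ u (cl i (ep j p)) := cl_adj i u _
  have h2 : inner ℝ (ep j (cl i u)) p = inner ℝ (cl i u) (ep j p) := ep_adj j _ _
  rw [fo_cl_ep, inner_neg_left] at h2
  have h3 : inner ℝ p (cl i (ep j u)) = inner ℝ (cl i (ep j u)) p := real_inner_comm _ _
  linarith

/-- the pointwise algebraic identity -/
private theorem fo_alg (lam : ℝ) (x : Fin N → ℝ) (u : Lam N) (p : Fin N → Lam N)
    (q : Fin N → Fin N → Lam N) (hq : ∀ i j, q i j = q j i) :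
    ‖∑ i, cl i (p i) + lam • ∑ i, x i • ep i u‖ ^ 2 =
      ∑ i, ‖p i + (lam * x i) • u‖ ^ 2 + 2 * lam * ∑ i, inner ℝ u (numL i u)
      + ∑ i, (∑ j, (if j = i then 0 else
            - (inner ℝ u (cl i (cl j (q i j))) + inner ℝ (p i) (cl i (cl j (p j)))))
          + ∑ j, (-lam) * (x j * (inner ℝ u (cl i (ep j (p i))) + inner ℝ (p i) (cl i (ep j u)))
              + (if i = j then 1 else 0) * inner ℝ u (cl i (ep j u)))
          + (-lam) * (x i * (inner ℝ u (p i) + inner ℝ (p i) u) + inner ℝ u u)) := by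
  classical
  -- second derivatives cancel
  have hS : ∑ i, ∑ j, (if j = i then 0 else inner ℝ u (cl i (cl j (q i j)))) = (0 : ℝ) := by
    have h1 : ∑ i, ∑ j, (if j = i then 0 else inner ℝ u (cl i (cl j (q i j)))) =
        ∑ i, ∑ j, (if j = i then (0 : ℝ) else - inner ℝ u (cl i (cl j (q i j)))) := by
      rw [Finset.sum_comm]
      refine Finset.sum_congr rfl fun i _ => Finset.sum_congr rfl fun j _ => ?_
      by_cases h : j = i
      · simp [h]
      · rw [if_neg h, if_neg (Ne.symm h)]
        have h2 := fo_cl_cl j i h (q i j)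
        have h3 : cl j (cl i (q j i)) = - cl i (cl j (q i j)) := by
          rw [hq j i]
          exact eq_neg_of_add_eq_zero_left h2
        rw [h3, inner_neg_right]
    have h2 : ∑ i, ∑ j, (if j = i then (0 : ℝ) else - inner ℝ u (cl i (cl j (q i j)))) =
        - ∑ i, ∑ j, (if j = i then 0 else inner ℝ u (cl i (cl j (q i j)))) := by
      rw [← Finset.sum_neg_distrib]
      refine Finset.sum_congr rfl fun i _ => ?_
      rw [← Finset.sum_neg_distrib]
      refine Finset.sum_congr rfl fun j _ => ?_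
      by_cases h : j = i <;> simp [h]
    linarith
  -- the first square
  have hA : ‖∑ i, cl i (p i)‖ ^ 2 = ∑ i, ‖p i‖ ^ 2 +
      ∑ i, ∑ j, (if j = i then (0 : ℝ) else - inner ℝ (p i) (cl i (cl j (p j)))) := by
    rw [← real_inner_self_eq_norm_sq, sum_inner]
    rw [← Finset.sum_add_distrib]
    refine Finset.sum_congr rfl fun i _ => ?_
    rw [inner_sum]
    have h1 : ∀ j, inner ℝ (cl i (p i)) (cl j (p j)) =
        (if j = i then ‖p i‖ ^ 2 else 0) +
          (if j = i then (0 : ℝ) else - inner ℝ (p i) (cl i (cl j (p j)))) := by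
      intro j
      rw [cl_adj]
      by_cases h : j = i
      · subst h
        rw [fo_cl_sq, inner_neg_right, neg_neg, real_inner_self_eq_norm_sq]
        simp
      · simp [h]
    rw [Finset.sum_congr rfl fun j _ => h1 j, Finset.sum_add_distrib]
    simp
  have hB : inner ℝ (∑ i, cl i (p i)) (∑ j, x j • ep j u) =
      ∑ i, ∑ j, - (x j * inner ℝ (p i) (cl i (ep j u))) := by
    rw [sum_inner]
    refine Finset.sum_congr rfl fun i _ => ?_
    rw [inner_sum]
    refine Finset.sum_congr rfl fun j _ => ?_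
    rw [inner_smul_right, cl_adj]
    ring
  have hC : ‖∑ i, x i • ep i u‖ ^ 2 = (∑ i, x i ^ 2) * ‖u‖ ^ 2 := norm_sum_ep x u
  have hD : ∀ i, ‖p i + (lam * x i) • u‖ ^ 2 =
      ‖p i‖ ^ 2 + 2 * (lam * x i * inner ℝ (p i) u) + (lam * x i) ^ 2 * ‖u‖ ^ 2 := by
    intro i
    rw [norm_add_sq_real, inner_smul_right, norm_smul, mul_pow, Real.norm_eq_abs, sq_abs]
  have hE : ∀ i, inner ℝ u (cl i (ep i u)) = 2 * inner ℝ u (numL i u) - ‖u‖ ^ 2 := by
    intro i
    rw [fo_cl_ep_num, inner_sub_right, inner_smul_right, real_inner_self_eq_norm_sq]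
  rw [norm_add_sq_real, inner_smul_right, hA, hB, norm_smul, mul_pow, hC, Real.norm_eq_abs, sq_abs]
  -- the sums of the right hand side
  have hF : ∀ i, ∑ j, (if j = i then 0 else
        - (inner ℝ u (cl i (cl j (q i j))) + inner ℝ (p i) (cl i (cl j (p j))))) =
      - ∑ j, (if j = i then 0 else inner ℝ u (cl i (cl j (q i j)))) +
        ∑ j, (if j = i then (0 : ℝ) else - inner ℝ (p i) (cl i (cl j (p j)))) := by
    intro i
    rw [← Finset.sum_neg_distrib, ← Finset.sum_add_distrib]
    refine Finset.sum_congr rfl fun j _ => ?_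
    by_cases h : j = i
    · simp [h]
    · simp only [if_neg h]; ring
  have hG : ∀ i, ∑ j, (-lam) * (x j * (inner ℝ u (cl i (ep j (p i))) +
        inner ℝ (p i) (cl i (ep j u))) + (if i = j then 1 else 0) * inner ℝ u (cl i (ep j u))) =
      2 * lam * ∑ j, - (x j * inner ℝ (p i) (cl i (ep j u))) -
        lam * (2 * inner ℝ u (numL i u) - ‖u‖ ^ 2) := by
    intro i
    have h1 : ∀ j, (-lam) * (x j * (inner ℝ u (cl i (ep j (p i))) +
        inner ℝ (p i) (cl i (ep j u))) + (if i = j then 1 else 0) * inner ℝ u (cl i (ep j u))) =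
        2 * lam * (- (x j * inner ℝ (p i) (cl i (ep j u)))) +
          (if i = j then -lam * inner ℝ u (cl i (ep j u)) else 0) := by
      intro j
      rw [fo_symm i j u (p i)]
      by_cases h : i = j
      · simp only [if_pos h]; ring
      · simp only [if_neg h]; ring
    rw [Finset.sum_congr rfl fun j _ => h1 j, Finset.sum_add_distrib, ← Finset.mul_sum]
    rw [Finset.sum_ite_eq]
    simp only [Finset.mem_univ, if_true]
    rw [hE i]
    ring
  rw [Finset.sum_congr rfl fun i _ => hD i]
  simp only [hF, hG]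
  simp only [Finset.sum_add_distrib, Finset.sum_sub_distrib, Finset.sum_neg_distrib, ← Finset.mul_sum]
  rw [hS]
  have hI : ∀ i, inner ℝ u (p i) = inner ℝ (p i) u := fun i => real_inner_comm _ _
  simp only [hI]
  have e1 : ∑ i, lam * x i * inner ℝ (p i) u = lam * ∑ i, x i * inner ℝ (p i) u := by
    rw [Finset.mul_sum]
    exact Finset.sum_congr rfl fun i _ => by ring
  have e2 : ∑ i, (lam * x i) ^ 2 * ‖u‖ ^ 2 = lam ^ 2 * ((∑ i, x i ^ 2) * ‖u‖ ^ 2) := by
    rw [Finset.sum_mul, Finset.mul_sum]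
    exact Finset.sum_congr rfl fun i _ => by ring
  have e3 : ∑ i, x i * (inner ℝ (p i) u + inner ℝ (p i) u) = 2 * ∑ i, x i * inner ℝ (p i) u := by
    rw [Finset.mul_sum]
    exact Finset.sum_congr rfl fun i _ => by ring
  have e4 : ∑ _i : Fin N, inner ℝ u u = ∑ _i : Fin N, ‖u‖ ^ 2 :=
    Finset.sum_congr rfl fun i _ => real_inner_self_eq_norm_sq u
  rw [e1, e2, e3, e4]
  ring

/-- A7-1 -/
theorem flat_odd (lam : ℝ) (hlam : 0 < lam) (u : E N → Lam N) (hu : Test u)
    (ho : ∀ x, OddV (u x)) : 2 * lam * ∫ x, ‖u x‖ ^ 2 ≤ ∫ x, ‖B0 lam u x‖ ^ 2 := by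
  classical
  obtain ⟨hs, hc⟩ := hu
  have hd : Differentiable ℝ u := hs.differentiable (by simp)
  have hps : ∀ i, ContDiff ℝ ∞ (pd i u) := fun i => fo_pd_smooth i u hs
  have hpd : ∀ i, Differentiable ℝ (pd i u) := fun i => (hps i).differentiable (by simp)
  have hpc : ∀ i, HasCompactSupport (pd i u) := fun i => hc.fderiv_apply ℝ (ev i)
  -- the vector field
  let V1 : Fin N → Fin N → E N → ℝ := fun i j x =>
    if j = i then 0 else - inner ℝ (u x) (cl i (cl j (pd j u x)))
  let V2 : Fin N → Fin N → E N → ℝ := fun i j x =>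
    (-lam) * (x j * inner ℝ (u x) (cl i (ep j (u x))))
  let V3 : Fin N → E N → ℝ := fun i x => (-lam) * (x i * inner ℝ (u x) (u x))
  let V : Fin N → E N → ℝ := fun i x => ∑ j, V1 i j x + ∑ j, V2 i j x + V3 i x
  have s1 : ∀ i j, ContDiff ℝ ∞ (V1 i j) := by
    intro i j
    by_cases h : j = i
    · simp only [V1, if_pos h]
      exact contDiff_const
    · simp only [V1, if_neg h]
      exact (hs.inner ℝ ((cl i).contDiff.comp ((cl j).contDiff.comp (hps j)))).neg
  have s2 : ∀ i j, ContDiff ℝ ∞ (V2 i j) := by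
    intro i j
    exact contDiff_const.mul ((fo_coord_smooth j).mul
      (hs.inner ℝ ((cl i).contDiff.comp ((ep j).contDiff.comp hs))))
  have s3 : ∀ i, ContDiff ℝ ∞ (V3 i) := by
    intro i
    exact contDiff_const.mul ((fo_coord_smooth i).mul (hs.inner ℝ hs))
  have sV : ∀ i, ContDiff ℝ ∞ (V i) := by
    intro i
    exact ((ContDiff.sum fun j _ => s1 i j).add (ContDiff.sum fun j _ => s2 i j)).add (s3 i)
  have cV : ∀ i, HasCompactSupport (V i) := by
    intro i
    refine hc.mono ?_
    intro x hx hx0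
    apply hx
    have hx1 : u x = 0 := hx0
    simp [V, V1, V2, V3, hx1]
  have d1 : ∀ i j x, pd i (V1 i j) x = if j = i then 0 else
      - (inner ℝ (u x) (cl i (cl j (pd i (pd j u) x))) +
        inner ℝ (pd i u x) (cl i (cl j (pd j u x)))) := by
    intro i j x
    by_cases h : j = i
    · simp only [V1, if_pos h]
      unfold pd
      simp
    · simp only [V1, if_neg h]
      have hT : DifferentiableAt ℝ (fun y => cl j (pd j u y)) x :=
        (cl j).differentiableAt.comp x (hpd j x)
      have hT2 : DifferentiableAt ℝ (fun y => cl i (cl j (pd j u y))) x :=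
        (cl i).differentiableAt.comp x hT
      rw [fo_pd_neg i _ x ((hd x).inner ℝ hT2), fo_pd_inner i u _ x (hd x) hT2,
        fo_pd_clm i (cl i) _ x hT, fo_pd_clm i (cl j) _ x (hpd j x)]
  have d2 : ∀ i j x, pd i (V2 i j) x = (-lam) *
      (x j * (inner ℝ (u x) (cl i (ep j (pd i u x))) + inner ℝ (pd i u x) (cl i (ep j (u x))))
        + (if i = j then 1 else 0) * inner ℝ (u x) (cl i (ep j (u x)))) := by
    intro i j x
    have hT : DifferentiableAt ℝ (fun y => ep j (u y)) x :=
      (ep j).differentiableAt.comp x (hd x)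
    have hT2 : DifferentiableAt ℝ (fun y => cl i (ep j (u y))) x :=
      (cl i).differentiableAt.comp x hT
    have hco : DifferentiableAt ℝ (fun y : E N => y j) x :=
      ((fo_coord_smooth j).differentiable (by simp)) x
    have hin : DifferentiableAt ℝ (fun y => inner ℝ (u y) (cl i (ep j (u y)))) x :=
      (hd x).inner ℝ hT2
    simp only [V2]
    rw [fo_pd_cmul i (-lam) (fun y : E N => y j * inner ℝ (u y) (cl i (ep j (u y)))) x
      (hco.mul hin), fo_pd_mul i _ _ x hco hin,
      fo_pd_inner i u _ x (hd x) hT2, fo_pd_clm i (cl i) _ x hT, fo_pd_clm i (ep j) _ x (hd x),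
      fo_pd_coord]
  have d3 : ∀ i x, pd i (V3 i) x = (-lam) *
      (x i * (inner ℝ (u x) (pd i u x) + inner ℝ (pd i u x) (u x)) + inner ℝ (u x) (u x)) := by
    intro i x
    have hco : DifferentiableAt ℝ (fun y : E N => y i) x :=
      ((fo_coord_smooth i).differentiable (by simp)) x
    have hin : DifferentiableAt ℝ (fun y => inner ℝ (u y) (u y)) x := (hd x).inner ℝ (hd x)
    simp only [V3]
    rw [fo_pd_cmul i (-lam) (fun y : E N => y i * inner ℝ (u y) (u y)) x
      (hco.mul hin), fo_pd_mul i _ _ x hco hin,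
      fo_pd_inner i u _ x (hd x) (hd x), fo_pd_coord]
    simp
  have dV : ∀ i x, pd i (V i) x = ∑ j, pd i (V1 i j) x + ∑ j, pd i (V2 i j) x + pd i (V3 i) x := by
    intro i x
    have a1 : ∀ j ∈ (Finset.univ : Finset (Fin N)), DifferentiableAt ℝ (V1 i j) x :=
      fun j _ => ((s1 i j).differentiable (by simp)) x
    have a2 : ∀ j ∈ (Finset.univ : Finset (Fin N)), DifferentiableAt ℝ (V2 i j) x :=
      fun j _ => ((s2 i j).differentiable (by simp)) x
    have a3 : DifferentiableAt ℝ (V3 i) x := ((s3 i).differentiable (by simp)) x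
    have b1 : DifferentiableAt ℝ (fun y => ∑ j, V1 i j y) x :=
      ((ContDiff.sum fun j _ => s1 i j).differentiable (by simp)) x
    have b2 : DifferentiableAt ℝ (fun y => ∑ j, V2 i j y) x :=
      ((ContDiff.sum fun j _ => s2 i j).differentiable (by simp)) x
    simp only [V]
    rw [fo_pd_add i (fun y => ∑ j, V1 i j y + ∑ j, V2 i j y) (V3 i) x (b1.add b2) a3,
      fo_pd_add i _ _ x b1 b2, fo_pd_sum _ i _ x a1, fo_pd_sum _ i _ x a2]
  have key : ∀ x, ‖B0 lam u x‖ ^ 2 = ∑ i, ‖pd i u x + (lam * x i) • u x‖ ^ 2 +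
      2 * lam * ∑ i, inner ℝ (u x) (numL i (u x)) + ∑ i, pd i (V i) x := by
    intro x
    have h := fo_alg lam (fun i => x i) (u x) (fun i => pd i u x) (fun i j => pd i (pd j u) x)
      (fun i j => fo_pd_pd i j u hs x)
    simp only [dV, d1, d2, d3]
    exact h
  have ineq : ∀ x, 2 * lam * ‖u x‖ ^ 2 ≤ ‖B0 lam u x‖ ^ 2 - ∑ i, pd i (V i) x := by
    intro x
    rw [key x]
    have h1 : 0 ≤ ∑ i, ‖pd i u x + (lam * x i) • u x‖ ^ 2 :=
      Finset.sum_nonneg fun i _ => sq_nonneg _
    have h2 := num_odd (u x) (ho x)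
    have h3 : 2 * lam * ‖u x‖ ^ 2 ≤ 2 * lam * ∑ i, inner ℝ (u x) (numL i (u x)) :=
      mul_le_mul_of_nonneg_left h2 (by positivity)
    linarith
  -- integrability
  have hBc : Continuous (B0 lam u) := by
    have h1 : Continuous (fun x => ∑ i, cl i (pd i u x)) :=
      continuous_finsetSum _ fun i _ => (cl i).continuous.comp (hps i).continuous
    have h2 : Continuous (fun x : E N => ∑ i, x i • ep i (u x)) :=
      continuous_finsetSum _ fun i _ => ((fo_coord_smooth i).continuous).smul
        ((ep i).continuous.comp hs.continuous)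
    exact h1.add (h2.const_smul lam)
  have hBs : HasCompactSupport (B0 lam u) := by
    refine HasCompactSupport.intro hc fun x hx => ?_
    have h1 : u x = 0 := image_eq_zero_of_notMem_tsupport hx
    have h2 : fderiv ℝ u x = 0 := fderiv_of_notMem_tsupport ℝ hx
    have h3 : ∀ i, pd i u x = 0 := fun i => by unfold pd; rw [h2]; rfl
    unfold B0
    simp [h1, h3]
  have iB : Integrable (fun x => ‖B0 lam u x‖ ^ 2) := by
    refine (hBc.norm.pow 2).integrable_of_hasCompactSupport ?_
    refine hBs.mono ?_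
    intro x hx hx0
    apply hx
    have : B0 lam u x = 0 := hx0
    simp [this]
  have iU : Integrable (fun x => 2 * lam * ‖u x‖ ^ 2) := by
    refine (continuous_const.mul (hs.continuous.norm.pow 2)).integrable_of_hasCompactSupport ?_
    refine hc.mono ?_
    intro x hx hx0
    apply hx
    have : u x = 0 := hx0
    simp [this]
  have iV : ∀ i, Integrable (fun x => pd i (V i) x) := by
    intro i
    have h1 : ContDiff ℝ 1 (V i) := (sV i).of_le (by exact_mod_cast le_top)
    exact ((h1.continuous_fderiv one_ne_zero).clm_apply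
      continuous_const).integrable_of_hasCompactSupport ((cV i).fderiv_apply ℝ (ev i))
  have iSV : Integrable (fun x => ∑ i, pd i (V i) x) := integrable_finsetSum _ fun i _ => iV i
  have hz : ∫ x, ∑ i, pd i (V i) x = 0 := by
    rw [integral_finsetSum _ fun i _ => iV i]
    refine Finset.sum_eq_zero fun i _ => ?_
    exact fo_int_pd i (V i) ((sV i).of_le (by exact_mod_cast le_top)) (cV i)
  have hm := integral_mono iU (iB.sub iSV) (fun x => ineq x)
  have hm2 : ∫ x, ((fun x => ‖B0 lam u x‖ ^ 2) - fun x => ∑ i, pd i (V i) x) x =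
      ∫ x, ‖B0 lam u x‖ ^ 2 := by
    have := integral_sub iB iSV
    rw [hz, sub_zero] at this
    exact this
  rw [hm2, integral_const_mul] at hm
  exact hm

end
end PS
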