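import Pool.Agent.H96.PS.FlatDense_y
import Pool.Agent.H96.PS.FlatOdd

/-! Project PS: dense range of the flat model, by mollifiers. -/

open scoped ContDiff Matrix Convolution Topology
open MeasureTheory Set Filter

namespace PS
noncomputable section
variable {N : ℕ}

namespace FD

theorem ep_norm (i : Fin N) (w : Lam N) : ‖ep i w‖ = ‖w‖ := by
  have h := ep_mul (N := N) i i
  have h1 : ep i (ep i w) = w := by
    have h2 := congrArg (fun T : Lam N →L[ℝ] Lam N => T w) h
    simp only [ContinuousLinearMap.add_apply, ContinuousLinearMap.comp_apply, if_true,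
      ContinuousLinearMap.smul_apply, ContinuousLinearMap.id_apply] at h2
    rw [← two_smul ℝ] at h2
    exact smul_right_injective _ (two_ne_zero (α := ℝ)) h2
  have h3 : ‖ep i w‖ ^ 2 = ‖w‖ ^ 2 := by
    rw [← real_inner_self_eq_norm_sq, ← real_inner_self_eq_norm_sq, ep_adj, h1]
  exact (pow_left_inj₀ (norm_nonneg _) (norm_nonneg _) two_ne_zero).mp h3

theorem cl_norm (i : Fin N) (w : Lam N) : ‖cl i w‖ = ‖w‖ := by
  have h := cl_mul (N := N) i i
  have h1 : cl i (cl i w) = -w := by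
    have h2 := congrArg (fun T : Lam N →L[ℝ] Lam N => T w) h
    simp only [ContinuousLinearMap.add_apply, ContinuousLinearMap.comp_apply, if_true,
      ContinuousLinearMap.smul_apply, ContinuousLinearMap.id_apply] at h2
    rw [← two_smul ℝ, neg_smul, ← smul_neg] at h2
    exact smul_right_injective _ (two_ne_zero (α := ℝ)) h2
  have h3 : ‖cl i w‖ ^ 2 = ‖w‖ ^ 2 := by
    rw [← real_inner_self_eq_norm_sq, ← real_inner_self_eq_norm_sq, cl_adj, h1, inner_neg_right,
      neg_neg]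
  exact (pow_left_inj₀ (norm_nonneg _) (norm_nonneg _) two_ne_zero).mp h3

theorem li_norm {v : E N → Lam N} (hv : LocallyIntegrable v (volume : Measure (E N))) :
    LocallyIntegrable (fun y => ‖v y‖) (volume : Measure (E N)) := by
  intro x
  obtain ⟨s, hs, h⟩ := hv x
  exact ⟨s, hs, h.norm⟩

/-- scalar mollification of the norm -/
def gg (η : E N → ℝ) (v : E N → Lam N) (x : E N) : ℝ := ∫ t, η t * ‖v (x - t)‖

/-- scalar mollification of the squared norm -/
def hh (η : E N → ℝ) (v : E N → Lam N) (x : E N) : ℝ := ∫ t, η t * ‖v (x - t)‖ ^ 2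

theorem gg_nonneg {η : E N → ℝ} (h0 : ∀ x, 0 ≤ η x) (v : E N → Lam N) (x : E N) : 0 ≤ gg η v x :=
  integral_nonneg fun t => mul_nonneg (h0 t) (norm_nonneg _)

theorem mo_norm {η : E N → ℝ} (h0 : ∀ x, 0 ≤ η x) (v : E N → Lam N) (x : E N) :
    ‖mo η v x‖ ≤ gg η v x := by
  rw [mo_apply]
  refine (norm_integral_le_integral_norm _).trans (le_of_eq ?_)
  unfold gg
  congr 1
  ext t
  rw [norm_smul, Real.norm_of_nonneg (h0 t)]

theorem co_norm {η : E N → ℝ} (hc : Continuous η) (hs : HasCompactSupport η) (h0 : ∀ x, 0 ≤ η x)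
    {v : E N → Lam N} (hv : LocallyIntegrable v (volume : Measure (E N))) {ε : ℝ}
    (hε : ∀ t, η t ≠ 0 → ‖t‖ ≤ ε) (i : Fin N) (x : E N) :
    ‖∫ t, (t i * η t) • v (x - t)‖ ≤ ε * gg η v x := by
  refine (norm_integral_le_integral_norm _).trans ?_
  unfold gg
  rw [← integral_const_mul]
  have hi : Integrable (fun t => η t * ‖v (x - t)‖) (volume : Measure (E N)) :=
    int_smul hc hs (li_norm hv) x
  refine integral_mono_of_nonneg (Filter.Eventually.of_forall fun t => norm_nonneg _)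
    (hi.const_mul ε) (Filter.Eventually.of_forall fun t => ?_)
  show ‖(t i * η t) • v (x - t)‖ ≤ ε * (η t * ‖v (x - t)‖)
  rw [norm_smul, norm_mul, Real.norm_of_nonneg (h0 t), mul_assoc]
  by_cases ht : η t = 0
  · simp [ht]
  · have h1 : ‖t i‖ ≤ ‖t‖ := PiLp.norm_apply_le t i
    exact mul_le_mul_of_nonneg_right (h1.trans (hε t ht))
      (mul_nonneg (h0 t) (norm_nonneg _))

theorem jensen {η : E N → ℝ} (hc : Continuous η) (hs : HasCompactSupport η) (h0 : ∀ x, 0 ≤ η x)
    (h1 : ∫ x, η x = 1) {v : E N → Lam N} (hv : MemLp v 2 (volume : Measure (E N))) (x : E N) :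
    gg η v x ^ 2 ≤ hh η v x := by
  have hl : LocallyIntegrable v (volume : Measure (E N)) := hv.locallyIntegrable (by norm_num)
  have hq : Integrable (fun y => ‖v y‖ ^ 2) (volume : Measure (E N)) :=
    (memLp_two_iff_integrable_sq_norm hv.1).mp hv
  have i1 : Integrable (fun t => η t * ‖v (x - t)‖) (volume : Measure (E N)) :=
    int_smul hc hs (li_norm hl) x
  have i2 : Integrable (fun t => η t * ‖v (x - t)‖ ^ 2) (volume : Measure (E N)) :=
    int_smul hc hs hq.locallyIntegrable x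
  have i0 : Integrable η (volume : Measure (E N)) := hc.integrable_of_hasCompactSupport hs
  have h2 : 0 ≤ ∫ t, (η t * ‖v (x - t)‖ ^ 2 - 2 * gg η v x * (η t * ‖v (x - t)‖)
      + gg η v x ^ 2 * η t) := by
    refine integral_nonneg fun t => ?_
    have : η t * ‖v (x - t)‖ ^ 2 - 2 * gg η v x * (η t * ‖v (x - t)‖) + gg η v x ^ 2 * η t =
      η t * (‖v (x - t)‖ - gg η v x) ^ 2 := by ring
    show 0 ≤ _
    rw [this]
    exact mul_nonneg (h0 t) (sq_nonneg _)
  have i3 : Integrable (fun t => 2 * gg η v x * (η t * ‖v (x - t)‖)) (volume : Measure (E N)) :=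
    i1.const_mul _
  have i4 : Integrable (fun t => gg η v x ^ 2 * η t) (volume : Measure (E N)) := i0.const_mul _
  have i5 : Integrable (fun t => η t * ‖v (x - t)‖ ^ 2 - 2 * gg η v x * (η t * ‖v (x - t)‖))
    (volume : Measure (E N)) := i2.sub i3
  rw [integral_add i5 i4, integral_sub i2 i3, integral_const_mul, integral_const_mul, h1] at h2
  have h3 : (∫ t, η t * ‖v (x - t)‖) = gg η v x := rfl
  have h4 : (∫ t, η t * ‖v (x - t)‖ ^ 2) = hh η v x := rfl
  rw [h3, h4] at h2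
  nlinarith [h2]

theorem hh_int {η : E N → ℝ} (hc : Continuous η) (hs : HasCompactSupport η)
    (h1 : ∫ x, η x = 1) {v : E N → Lam N} (hv : MemLp v 2 (volume : Measure (E N))) :
    Integrable (hh η v) (volume : Measure (E N)) ∧ ∫ x, hh η v x = ∫ x, ‖v x‖ ^ 2 := by
  have hq : Integrable (fun y => ‖v y‖ ^ 2) (volume : Measure (E N)) :=
    (memLp_two_iff_integrable_sq_norm hv.1).mp hv
  have i0 : Integrable η (volume : Measure (E N)) := hc.integrable_of_hasCompactSupport hs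
  refine ⟨i0.integrable_convolution (ContinuousLinearMap.lsmul ℝ ℝ) hq, ?_⟩
  have h2 := integral_convolution (μ := (volume : Measure (E N))) (ν := (volume : Measure (E N)))
    (ContinuousLinearMap.lsmul ℝ ℝ : ℝ →L[ℝ] ℝ →L[ℝ] ℝ) i0 hq
  rw [h1] at h2
  have h3 : (∫ x, (η ⋆[(ContinuousLinearMap.lsmul ℝ ℝ : ℝ →L[ℝ] ℝ →L[ℝ] ℝ),
    (volume : Measure (E N))] fun y => ‖v y‖ ^ 2) x) = ∫ x, hh η v x := rfl
  rw [h3] at h2
  rw [h2]
  simp

/-- the localised mollified function satisfies the a priori bound -/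
theorem loc_bound {lam : ℝ} (hlam : 0 < lam) {v : E N → Lam N}
    (hv : MemLp v 2 (volume : Measure (E N))) (ho : ∀ x, OddV (v x))
    (hperp : ∀ u : E N → Lam N, Test u → (∀ x, EvenV (u x)) →
      ∫ x, inner ℝ (v x) (B0 lam u x) = 0)
    {η : E N → ℝ} (h : ContDiff ℝ ∞ η) (hs : HasCompactSupport η) (h0 : ∀ x, 0 ≤ η x)
    (h1 : ∫ x, η x = 1) {ε : ℝ} (hε : ∀ t, η t ≠ 0 → ‖t‖ ≤ ε)
    {χ : E N → ℝ} (hχ : ContDiff ℝ ∞ χ) (hχs : HasCompactSupport χ) (hχ1 : ∀ x, |χ x| ≤ 1)
    {C : ℝ} (hC : ∀ i x, |pd i χ x| ≤ C) (hC0 : 0 ≤ C) :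
    2 * lam * ∫ x, ‖χ x • mo η v x‖ ^ 2 ≤ (lam * (N * ε) + N * C) ^ 2 * ∫ x, ‖v x‖ ^ 2 := by
  have hl : LocallyIntegrable v (volume : Measure (E N)) := hv.locallyIntegrable (by norm_num)
  have hmo := mo_contDiff h hs hl
  have ht : Test (fun x => χ x • mo η v x) := ⟨hχ.smul hmo, hχs.smul_right⟩
  have hodd : ∀ x, OddV (χ x • mo η v x) := by
    intro x I hI
    have : (χ x • mo η v x) I = χ x * (mo η v x) I := rfl
    rw [this, mo_apply, odd_int hl ho h.continuous hs x I hI, mul_zero]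
  refine (flat_odd lam hlam _ ht hodd).trans ?_
  obtain ⟨g1, g2⟩ := hh_int h.continuous hs h1 hv
  rw [← g2, ← integral_const_mul]
  refine integral_mono_of_nonneg (Filter.Eventually.of_forall fun x => by positivity)
    (g1.const_mul _) (Filter.Eventually.of_forall fun x => ?_)
  show ‖B0 lam (fun x => χ x • mo η v x) x‖ ^ 2 ≤ _
  have hpd : ∀ i : Fin N, pd i (fun x => χ x • mo η v x) x =
      χ x • pd i (mo η v) x + pd i χ x • mo η v x := by
    intro i
    unfold pd
    have a1 : HasFDerivAt χ (fderiv ℝ χ x) x := (hχ.differentiable (by simp) x).hasFDerivAt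
    have a2 : HasFDerivAt (mo η v) (fderiv ℝ (mo η v) x) x :=
      (hmo.differentiable (by simp) x).hasFDerivAt
    have a3 := (a1.smul a2).fderiv
    have a4 : fderiv ℝ (fun x => χ x • mo η v x) x = χ x • fderiv ℝ (mo η v) x +
      (fderiv ℝ χ x).smulRight (mo η v x) := a3
    rw [a4]
    simp
  have hB : B0 lam (fun x => χ x • mo η v x) x =
      χ x • B0 lam (mo η v) x + ∑ i, pd i χ x • cl i (mo η v x) := by
    unfold B0
    simp only [hpd, map_add, map_smul, Finset.sum_add_distrib, smul_add, Finset.smul_sum]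
    have b1 : ∀ i : Fin N, lam • x i • χ x • ep i (mo η v x) =
        χ x • lam • x i • ep i (mo η v x) := by
      intro i
      rw [smul_comm (x i) (χ x), smul_comm lam (χ x)]
    simp only [b1]
    abel
  have hG := gg_nonneg h0 v x
  have n1 : ‖B0 lam (mo η v) x‖ ≤ lam * (N * (ε * gg η v x)) := by
    rw [B0_mo hl ho hperp h hs x, norm_smul, Real.norm_of_nonneg hlam.le]
    refine mul_le_mul_of_nonneg_left ?_ hlam.le
    refine (norm_sum_le _ _).trans ?_
    refine (Finset.sum_le_sum fun i _ => (le_of_eq (ep_norm i _)).trans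
      (co_norm h.continuous hs h0 hl hε i x)).trans ?_
    simp
  have n2 : ‖∑ i, pd i χ x • cl i (mo η v x)‖ ≤ N * (C * gg η v x) := by
    refine (norm_sum_le _ _).trans ?_
    have : ∀ i ∈ (Finset.univ : Finset (Fin N)), ‖pd i χ x • cl i (mo η v x)‖ ≤ C * gg η v x := by
      intro i _
      rw [norm_smul, cl_norm]
      exact mul_le_mul (hC i x) (mo_norm h0 v x) (norm_nonneg _) hC0
    refine (Finset.sum_le_sum this).trans ?_
    simp
  have n3 : ‖χ x • B0 lam (mo η v) x‖ ≤ lam * (N * (ε * gg η v x)) := by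
    rw [norm_smul]
    calc ‖χ x‖ * ‖B0 lam (mo η v) x‖ ≤ 1 * (lam * (N * (ε * gg η v x))) :=
          mul_le_mul (hχ1 x) n1 (norm_nonneg _) zero_le_one
      _ = _ := one_mul _
  have n4 : ‖B0 lam (fun x => χ x • mo η v x) x‖ ≤ (lam * (N * ε) + N * C) * gg η v x := by
    rw [hB]
    refine (norm_add_le _ _).trans ((add_le_add n3 n2).trans (le_of_eq ?_))
    ring
  calc ‖B0 lam (fun x => χ x • mo η v x) x‖ ^ 2 ≤ ((lam * (N * ε) + N * C) * gg η v x) ^ 2 :=
        pow_le_pow_left₀ (norm_nonneg _) n4 2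
    _ = (lam * (N * ε) + N * C) ^ 2 * gg η v x ^ 2 := by ring
    _ ≤ (lam * (N * ε) + N * C) ^ 2 * hh η v x :=
        mul_le_mul_of_nonneg_left (jensen h.continuous hs h0 h1 hv x) (sq_nonneg _)

/-- the mollifiers -/
def phi (N : ℕ) (n : ℕ) : ContDiffBump (0 : E N) where
  rIn := 1 / (2 * ((n : ℝ) + 1))
  rOut := 1 / ((n : ℝ) + 1)
  rIn_pos := by positivity
  rIn_lt_rOut := by
    apply one_div_lt_one_div_of_lt (by positivity)
    have : (0 : ℝ) ≤ n := n.cast_nonneg
    linarith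

/-- the fixed cut-off -/
def psi (N : ℕ) : ContDiffBump (0 : E N) where
  rIn := 1
  rOut := 2
  rIn_pos := one_pos
  rIn_lt_rOut := one_lt_two

/-- the scaled cut-off -/
def chi (N : ℕ) (n : ℕ) (x : E N) : ℝ := psi N (((n : ℝ) + 1)⁻¹ • x)

theorem chi_contDiff (n : ℕ) : ContDiff ℝ ∞ (chi N n) :=
  (psi N).contDiff.comp (contDiff_id.const_smul (((n : ℝ) + 1)⁻¹))

theorem chi_hasCompactSupport (n : ℕ) : HasCompactSupport (chi N n) := by
  have hc : ((n : ℝ) + 1)⁻¹ ≠ 0 := by positivity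
  exact (psi N).hasCompactSupport.comp_homeomorph (Homeomorph.smulOfNeZero _ hc)

theorem chi_abs (n : ℕ) (x : E N) : |chi N n x| ≤ 1 := by
  unfold chi
  rw [abs_of_nonneg (psi N).nonneg]
  exact (psi N).le_one

theorem chi_eq_one (x : E N) : ∀ᶠ n : ℕ in atTop, chi N n x = 1 := by
  obtain ⟨m, hm⟩ := exists_nat_ge ‖x‖
  filter_upwards [eventually_ge_atTop m] with n hn
  unfold chi
  apply (psi N).one_of_mem_closedBall
  rw [Metric.mem_closedBall, dist_zero_right, norm_smul, norm_inv,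
    Real.norm_of_nonneg (by positivity)]
  show ((n : ℝ) + 1)⁻¹ * ‖x‖ ≤ 1
  rw [inv_mul_le_iff₀ (by positivity)]
  have : (m : ℝ) ≤ n := by exact_mod_cast hn
  linarith

theorem psi_bound (N : ℕ) : ∃ C : ℝ, 0 ≤ C ∧ ∀ x, ‖fderiv ℝ (psi N) x‖ ≤ C := by
  have hc : Continuous (fderiv ℝ (psi N)) :=
    ((psi N).contDiff (n := ⊤)).continuous_fderiv (by simp)
  obtain ⟨C, hC⟩ := ((psi N).hasCompactSupport.fderiv ℝ).exists_bound_of_continuous hc
  exact ⟨C, (norm_nonneg _).trans (hC 0), hC⟩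

theorem chi_pd {C : ℝ} (hC : ∀ x, ‖fderiv ℝ (psi N) x‖ ≤ C) (hC0 : 0 ≤ C) (n : ℕ) (i : Fin N)
    (x : E N) : |pd i (chi N n) x| ≤ C / ((n : ℝ) + 1) := by
  have h1 : HasFDerivAt (chi N n) ((fderiv ℝ (psi N) (((n : ℝ) + 1)⁻¹ • x)).comp
      ((((n : ℝ) + 1)⁻¹) • ContinuousLinearMap.id ℝ (E N))) x := by
    have ha : HasFDerivAt (psi N) (fderiv ℝ (psi N) (((n : ℝ) + 1)⁻¹ • x))
        (((n : ℝ) + 1)⁻¹ • x) :=
      (((psi N).contDiff (n := ⊤)).differentiable (by simp) _).hasFDerivAt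
    have hb : HasFDerivAt (fun y : E N => ((n : ℝ) + 1)⁻¹ • y)
        ((((n : ℝ) + 1)⁻¹) • ContinuousLinearMap.id ℝ (E N)) x :=
      ((((n : ℝ) + 1)⁻¹) • ContinuousLinearMap.id ℝ (E N)).hasFDerivAt
    exact ha.comp x hb
  unfold pd
  rw [h1.fderiv]
  have h2 : ((fderiv ℝ (psi N) (((n : ℝ) + 1)⁻¹ • x)).comp
      ((((n : ℝ) + 1)⁻¹) • ContinuousLinearMap.id ℝ (E N))) (ev i) =
      ((n : ℝ) + 1)⁻¹ * (fderiv ℝ (psi N) (((n : ℝ) + 1)⁻¹ • x)) (ev i) := by
    simp
  rw [h2, abs_mul, abs_of_nonneg (by positivity : (0 : ℝ) ≤ ((n : ℝ) + 1)⁻¹), div_eq_inv_mul]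
  refine mul_le_mul_of_nonneg_left ?_ (by positivity)
  have h3 := (fderiv ℝ (psi N) (((n : ℝ) + 1)⁻¹ • x)).le_opNorm (ev i)
  have h4 : ‖(ev i : E N)‖ = 1 := by unfold ev; simp
  rw [h4, mul_one] at h3
  exact h3.trans (hC _)

end FD

open FD in
/-- A7-2 (mollifier argument) -/
theorem flat_dense (lam : ℝ) (hlam : 0 < lam) (v : E N → Lam N)
    (hv : MemLp v 2 (volume : Measure (E N))) (ho : ∀ x, OddV (v x))
    (hperp : ∀ u : E N → Lam N, Test u → (∀ x, EvenV (u x)) →
      ∫ x, inner ℝ (v x) (B0 lam u x) = 0) : v =ᵐ[volume] 0 := by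
  have hl : LocallyIntegrable v (volume : Measure (E N)) := hv.locallyIntegrable (by norm_num)
  obtain ⟨C, hC0, hC⟩ := psi_bound N
  set η : ℕ → E N → ℝ := fun n => (phi N n).normed volume with hη
  have hsm : ∀ n, ContDiff ℝ ∞ (η n) := fun n => (phi N n).contDiff_normed
  have hcs : ∀ n, HasCompactSupport (η n) := fun n => (phi N n).hasCompactSupport_normed
  have h0 : ∀ n x, 0 ≤ η n x := fun n x => (phi N n).nonneg_normed x
  have h1 : ∀ n, ∫ x, η n x = 1 := fun n => (phi N n).integral_normed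
  have hε : ∀ n t, η n t ≠ 0 → ‖t‖ ≤ 1 / ((n : ℝ) + 1) := by
    intro n t ht
    have : t ∈ Function.support ((phi N n).normed (volume : Measure (E N))) := ht
    rw [(phi N n).support_normed_eq, Metric.mem_ball, dist_zero_right] at this
    exact this.le
  set u : ℕ → E N → Lam N := fun n x => chi N n x • mo (η n) v x with hu
  have hbound : ∀ n : ℕ, 2 * lam * ∫ x, ‖u n x‖ ^ 2 ≤
      (lam * (N * (1 / ((n : ℝ) + 1))) + N * (C / ((n : ℝ) + 1))) ^ 2 * ∫ x, ‖v x‖ ^ 2 :=
    fun n => loc_bound hlam hv ho hperp (hsm n) (hcs n) (h0 n) (h1 n) (hε n)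
      (chi_contDiff n) (chi_hasCompactSupport n) (chi_abs n)
      (fun i x => chi_pd hC hC0 n i x) (by positivity)
  have hucont : ∀ n, Continuous (u n) := fun n =>
    (chi_contDiff n).continuous.smul (mo_contDiff (hsm n) (hcs n) hl).continuous
  have hucs : ∀ n, HasCompactSupport (u n) := fun n => (chi_hasCompactSupport n).smul_right
  -- convergence almost everywhere
  have hae : ∀ᵐ x ∂(volume : Measure (E N)), Tendsto (fun n => u n x) atTop (𝓝 (v x)) := by
    have ha := ContDiffBump.ae_convolution_tendsto_right_of_locallyIntegrable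
      (μ := (volume : Measure (E N))) (φ := phi N) (l := atTop) (K := 2) (g := v)
      (by
        show Tendsto (fun n : ℕ => 1 / ((n : ℝ) + 1)) atTop (𝓝 0)
        exact tendsto_one_div_add_atTop_nhds_zero_nat)
      (Filter.Eventually.of_forall fun n => by
        show 1 / ((n : ℝ) + 1) ≤ 2 * (1 / (2 * ((n : ℝ) + 1)))
        apply le_of_eq
        field_simp) hl
    filter_upwards [ha] with x hx
    refine hx.congr' ?_
    filter_upwards [chi_eq_one x] with n hn
    rw [hu]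
    show _ = chi N n x • mo (η n) v x
    rw [hn, one_smul]
    rfl
  -- the integrals tend to zero
  have hlim : Tendsto (fun n => ∫ x, ‖u n x‖ ^ 2) atTop (𝓝 0) := by
    have hup : Tendsto (fun n : ℕ => (2 * lam)⁻¹ * ((lam * (N * (1 / ((n : ℝ) + 1)))
        + N * (C / ((n : ℝ) + 1))) ^ 2 * ∫ x, ‖v x‖ ^ 2)) atTop (𝓝 0) := by
      have e1 : Tendsto (fun n : ℕ => 1 / ((n : ℝ) + 1)) atTop (𝓝 0) :=
        tendsto_one_div_add_atTop_nhds_zero_nat
      have e2 : Tendsto (fun n : ℕ => (2 * lam)⁻¹ * ((lam * (N * (1 / ((n : ℝ) + 1)))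
          + N * (C * (1 / ((n : ℝ) + 1)))) ^ 2 * ∫ x, ‖v x‖ ^ 2)) atTop
          (𝓝 ((2 * lam)⁻¹ * ((lam * (N * 0) + N * (C * 0)) ^ 2 * ∫ x, ‖v x‖ ^ 2))) := by
        refine Tendsto.const_mul _ (Tendsto.mul_const _ (Tendsto.pow (Tendsto.add ?_ ?_) 2))
        · exact (e1.const_mul _).const_mul _
        · exact (e1.const_mul _).const_mul _
      have e3 : ((2 * lam)⁻¹ * ((lam * (N * 0) + N * (C * 0)) ^ 2 * ∫ x, ‖v x‖ ^ 2)) = 0 := by
        simp
      rw [e3] at e2
      refine e2.congr fun n => ?_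
      rw [mul_one_div C]
    refine tendsto_of_tendsto_of_tendsto_of_le_of_le tendsto_const_nhds hup
      (fun n => integral_nonneg fun x => by positivity) (fun n => ?_)
    show ∫ x, ‖u n x‖ ^ 2 ≤ (2 * lam)⁻¹ * _
    rw [le_inv_mul_iff₀ (by positivity)]
    exact hbound n
  -- Fatou
  have hli : ∀ n, ∫⁻ x, ENNReal.ofReal (‖u n x‖ ^ 2) = ENNReal.ofReal (∫ x, ‖u n x‖ ^ 2) := by
    intro n
    rw [ofReal_integral_eq_lintegral_ofReal]
    · have : HasCompactSupport (fun x => ‖u n x‖ ^ 2) :=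
        (hucs n).comp_left (g := fun w : Lam N => ‖w‖ ^ 2) (by simp)
      exact ((hucont n).norm.pow 2).integrable_of_hasCompactSupport this
    · exact Filter.Eventually.of_forall fun x => by positivity
  have hfat : ∫⁻ x, ENNReal.ofReal (‖v x‖ ^ 2) ≤ 0 := by
    have f1 : ∫⁻ x, ENNReal.ofReal (‖v x‖ ^ 2) =
        ∫⁻ x, liminf (fun n => ENNReal.ofReal (‖u n x‖ ^ 2)) atTop := by
      refine lintegral_congr_ae ?_
      filter_upwards [hae] with x hx
      exact ((ENNReal.continuous_ofReal.tendsto _).comp ((hx.norm).pow 2)).liminf_eq.symm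
    rw [f1]
    refine (lintegral_liminf_le fun n => ?_).trans ?_
    · exact (ENNReal.continuous_ofReal.comp ((hucont n).norm.pow 2)).measurable
    · simp only [hli]
      have f2 : Tendsto (fun n => ENNReal.ofReal (∫ x, ‖u n x‖ ^ 2)) atTop (𝓝 0) := by
        have := (ENNReal.continuous_ofReal.tendsto 0).comp hlim
        rwa [ENNReal.ofReal_zero] at this
      exact le_of_eq f2.liminf_eq
  have hz : ∫⁻ x, ENNReal.ofReal (‖v x‖ ^ 2) = 0 := le_antisymm hfat zero_le
  have hm : AEMeasurable (fun x => ENNReal.ofReal (‖v x‖ ^ 2)) (volume : Measure (E N)) :=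
    (hv.1.norm.pow 2).aemeasurable.ennreal_ofReal
  rw [lintegral_eq_zero_iff' hm] at hz
  filter_upwards [hz] with x hx
  have hx2 : ENNReal.ofReal (‖v x‖ ^ 2) = 0 := hx
  rw [ENNReal.ofReal_eq_zero] at hx2
  have hx3 : ‖v x‖ = 0 := by
    have := le_antisymm hx2 (sq_nonneg _)
    exact pow_eq_zero_iff (two_ne_zero) |>.mp this
  exact norm_eq_zero.mp hx3

end
end PS
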