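import Pool.Agent.H96.PS.ADefs

/-!
Project PS (MP_b05a29_gt), row A17: the Gaussian is in the kernel of the flat model operator and
is approximated by test functions in the weighted Sobolev norm.
-/

open scoped ContDiff Matrix
open MeasureTheory Set

namespace PS
noncomputable section
variable {N : ℕ}

namespace FlatGau

/-- the unit vector of degree zero -/
def e0 : Lam N := EuclideanSpace.single (∅ : Finset (Fin N)) (1 : ℝ)

theorem norm_e0 : ‖(e0 : Lam N)‖ = 1 := by simp [e0]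

theorem gau_eq (lam : ℝ) (x : E N) :
    gau lam x = Real.exp (-(lam / 2) * ‖x‖ ^ 2) • (e0 : Lam N) := rfl

theorem hasFDerivAt_gau (lam : ℝ) (x : E N) :
    HasFDerivAt (gau lam : E N → Lam N)
      ((-lam * Real.exp (-(lam / 2) * ‖x‖ ^ 2)) • (innerSL ℝ x).smulRight (e0 : Lam N)) x := by
  have h1 : HasFDerivAt (fun y : E N => ‖y‖ ^ 2) (2 • innerSL ℝ x) x :=
    (hasStrictFDerivAt_norm_sq x).hasFDerivAt
  have h2 := (h1.const_mul (-(lam / 2))).exp
  have h3 := h2.smul_const (e0 : Lam N)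
  refine h3.congr_fderiv ?_
  ext v
  simp
  ring

theorem pd_gau (lam : ℝ) (i : Fin N) (x : E N) :
    pd i (gau lam : E N → Lam N) x = (-lam * x i) • gau lam x := by
  rw [pd, (hasFDerivAt_gau lam x).fderiv, gau_eq, ev]
  simp only [smul_apply, ContinuousLinearMap.smulRight_apply,
    innerSL_apply_apply, EuclideanSpace.inner_single_right, smul_smul]
  congr 1
  simp
  ring

theorem contDiff_gau (lam : ℝ) : ContDiff ℝ ∞ (gau lam : E N → Lam N) := by
  have h : ContDiff ℝ ∞ (fun x : E N => Real.exp (-(lam / 2) * ‖x‖ ^ 2)) :=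
    (contDiff_const.mul (contDiff_norm_sq ℝ)).exp
  exact h.smul contDiff_const

theorem intL_e0 (i : Fin N) : intL i (e0 : Lam N) = 0 := by
  ext I
  change (if i ∈ I then (0 : ℝ) else sgn i I * (e0 : Lam N) (insert i I)) = 0
  by_cases h : i ∈ I
  · simp [h]
  · have : insert i I ≠ (∅ : Finset (Fin N)) := Finset.insert_ne_empty _ _
    simp [h, e0, this]

theorem evenV_smul_e0 (c : ℝ) : EvenV (c • (e0 : Lam N)) := by
  intro I hI
  have : I ≠ ∅ := by
    rintro rfl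
    simp at hI
  simp [e0, this]

end FlatGau

open FlatGau

/-- A7-3 -/
theorem gau_ker (lam : ℝ) (hlam : 0 < lam) (x : E N) : B0 lam (gau lam) x = 0 := by
  have _ := hlam
  rw [B0, Finset.smul_sum, ← Finset.sum_add_distrib]
  refine Finset.sum_eq_zero fun i _ => ?_
  rw [pd_gau, gau_eq]
  have h := intL_e0 i
  simp only [cl, ep, map_smul, sub_apply, add_apply, h,
    sub_zero, add_zero, smul_smul, ← add_smul]
  convert zero_smul ℝ _ using 2
  ring

namespace FlatGau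

theorem norm_gau_sq (lam : ℝ) (x : E N) : ‖gau lam x‖ ^ 2 = Real.exp (-lam * ‖x‖ ^ 2) := by
  rw [gau_eq, norm_smul, norm_e0, mul_one, Real.norm_eq_abs, Real.abs_exp, ← Real.exp_nat_mul]
  congr 1
  push_cast
  ring

theorem integrable_gauss (b : ℝ) (hb : 0 < b) :
    Integrable (fun x : E N => Real.exp (-b * ‖x‖ ^ 2)) := by
  have h := GaussianFourier.integrable_cexp_neg_mul_sq_norm_add (V := E N) (b := (b : ℂ))
    (by simpa using hb) 0 0
  have h2 := h.re
  refine h2.congr (Filter.Eventually.of_forall fun x => ?_)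
  have : (-(b : ℂ) * (‖x‖ : ℂ) ^ 2 + 0 * ((inner ℝ (0 : E N) x : ℝ) : ℂ)) =
      ((-b * ‖x‖ ^ 2 : ℝ) : ℂ) := by
    push_cast
    ring
  simp only [this]
  rw [← Complex.ofReal_exp]
  exact Complex.ofReal_re _

theorem exp_dom (lam : ℝ) (hlam : 0 < lam) (x : E N) :
    (1 + ‖x‖ ^ 2) * Real.exp (-lam * ‖x‖ ^ 2) ≤
      (1 + 2 / lam) * Real.exp (-(lam / 2) * ‖x‖ ^ 2) := by
  have h1 : lam / 2 * ‖x‖ ^ 2 + 1 ≤ Real.exp (lam / 2 * ‖x‖ ^ 2) := Real.add_one_le_exp _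
  have h2 : (1 + ‖x‖ ^ 2) ≤ (1 + 2 / lam) * Real.exp (lam / 2 * ‖x‖ ^ 2) := by
    have h3 : (1 + 2 / lam) * (lam / 2 * ‖x‖ ^ 2 + 1) =
        1 + ‖x‖ ^ 2 + (2 / lam + lam / 2 * ‖x‖ ^ 2) := by
      field_simp
      ring
    have h4 : 0 ≤ 2 / lam + lam / 2 * ‖x‖ ^ 2 := by positivity
    have h5 : (1 + 2 / lam) * (lam / 2 * ‖x‖ ^ 2 + 1) ≤
        (1 + 2 / lam) * Real.exp (lam / 2 * ‖x‖ ^ 2) :=
      mul_le_mul_of_nonneg_left h1 (by positivity)
    linarith
  calc (1 + ‖x‖ ^ 2) * Real.exp (-lam * ‖x‖ ^ 2)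
      ≤ ((1 + 2 / lam) * Real.exp (lam / 2 * ‖x‖ ^ 2)) * Real.exp (-lam * ‖x‖ ^ 2) :=
        mul_le_mul_of_nonneg_right h2 (Real.exp_nonneg _)
    _ = (1 + 2 / lam) * Real.exp (-(lam / 2) * ‖x‖ ^ 2) := by
        rw [mul_assoc, ← Real.exp_add]
        congr 2
        ring

theorem memLp_gau (lam : ℝ) (hlam : 0 < lam) :
    MemLp (gau lam : E N → Lam N) 2 (volume : Measure (E N)) := by
  rw [memLp_two_iff_integrable_sq_norm (contDiff_gau lam).continuous.aestronglyMeasurable]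
  simp only [norm_gau_sq]
  exact integrable_gauss lam hlam

/-- the fixed cut-off -/
def bmp : ContDiffBump (0 : E N) := ⟨1, 2, one_pos, one_lt_two⟩

/-- the cut-off at scale `n + 1` -/
def cut (n : ℕ) (x : E N) : ℝ := (bmp : ContDiffBump (0 : E N)) (((n : ℝ) + 1)⁻¹ • x)

theorem contDiff_cut (n : ℕ) : ContDiff ℝ ∞ (cut n : E N → ℝ) :=
  (bmp.contDiff (n := ⊤)).comp
    ((((n : ℝ) + 1)⁻¹ • ContinuousLinearMap.id ℝ (E N)).contDiff)

theorem cut_nonneg (n : ℕ) (x : E N) : 0 ≤ cut n x := bmp.nonneg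
theorem cut_le_one (n : ℕ) (x : E N) : cut n x ≤ 1 := bmp.le_one

theorem hasCompactSupport_cut (n : ℕ) : HasCompactSupport (cut n : E N → ℝ) := by
  have h : HasCompactSupport (bmp : ContDiffBump (0 : E N)) := bmp.hasCompactSupport
  exact h.comp_smul (inv_ne_zero (by positivity))

/-- the function `(cut n - 1) gau` -/
def dif (lam : ℝ) (n : ℕ) (x : E N) : Lam N := cut n x • gau lam x - gau lam x

theorem contDiff_dif (lam : ℝ) (n : ℕ) : ContDiff ℝ ∞ (dif lam n : E N → Lam N) :=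
  ((contDiff_cut n).smul (contDiff_gau lam)).sub (contDiff_gau lam)

/-- the integrand of the weighted norm -/
def itg (w : E N → Lam N) (x : E N) : ℝ :=
  ‖w x‖ ^ 2 + ∑ i, ‖pd i w x‖ ^ 2 + ‖x‖ ^ 2 * ‖w x‖ ^ 2

theorem continuous_itg (w : E N → Lam N) (hw : ContDiff ℝ ∞ w) : Continuous (itg w) := by
  have h1 : Continuous w := hw.continuous
  have h2 : ∀ i, Continuous (fun x => pd i w x) := fun i =>
    (hw.continuous_fderiv (by simp)).clm_apply continuous_const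
  unfold itg
  exact ((h1.norm.pow 2).add (continuous_finsetSum _ fun i _ => ((h2 i).norm.pow 2))).add
    ((continuous_norm.pow 2).mul (h1.norm.pow 2))

theorem itg_nonneg (w : E N → Lam N) (x : E N) : 0 ≤ itg w x := by
  unfold itg
  positivity

theorem exists_pd_cut : ∃ C : ℝ, 0 ≤ C ∧ ∀ (n : ℕ) (i : Fin N) (x : E N), |pd i (cut n) x| ≤ C := by
  have h1 : HasCompactSupport (fderiv ℝ (bmp : ContDiffBump (0 : E N))) :=
    bmp.hasCompactSupport.fderiv (𝕜 := ℝ)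
  have h2 : Continuous (fderiv ℝ (bmp : ContDiffBump (0 : E N))) :=
    (bmp.contDiff (n := 1)).continuous_fderiv (by simp)
  obtain ⟨C, hC⟩ := h1.exists_bound_of_continuous h2
  have hC0 : 0 ≤ C := le_trans (norm_nonneg _) (hC 0)
  refine ⟨C, hC0, fun n i x => ?_⟩
  have h3 : HasFDerivAt (cut n : E N → ℝ)
      ((fderiv ℝ (bmp : ContDiffBump (0 : E N)) (((n : ℝ) + 1)⁻¹ • x)).comp
        (((n : ℝ) + 1)⁻¹ • ContinuousLinearMap.id ℝ (E N))) x := by
    have h4 : HasFDerivAt (fun y : E N => ((n : ℝ) + 1)⁻¹ • y)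
        (((n : ℝ) + 1)⁻¹ • ContinuousLinearMap.id ℝ (E N)) x := (((n : ℝ) + 1)⁻¹ • ContinuousLinearMap.id ℝ (E N)).hasFDerivAt
    have h5 : HasFDerivAt (bmp : ContDiffBump (0 : E N))
        (fderiv ℝ (bmp : ContDiffBump (0 : E N)) (((n : ℝ) + 1)⁻¹ • x)) (((n : ℝ) + 1)⁻¹ • x) :=
      ((bmp.contDiff (n := 1)).differentiable (by simp)).differentiableAt.hasFDerivAt
    exact h5.comp x h4
  rw [pd, h3.fderiv]
  have h6 : ‖(fderiv ℝ (bmp : ContDiffBump (0 : E N)) (((n : ℝ) + 1)⁻¹ • x))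
      (((n : ℝ) + 1)⁻¹ • (ev i : E N))‖ ≤ C := by
    refine (ContinuousLinearMap.le_opNorm _ _).trans ?_
    have h7 : ‖((n : ℝ) + 1)⁻¹ • (ev i : E N)‖ ≤ 1 := by
      rw [norm_smul, ev, PiLp.norm_single, norm_one, mul_one, norm_inv]
      refine inv_le_one_of_one_le₀ ?_
      rw [Real.norm_eq_abs, abs_of_nonneg (by positivity)]
      have : (0 : ℝ) ≤ n := Nat.cast_nonneg n
      linarith
    calc _ ≤ C * 1 := mul_le_mul (hC _) h7 (norm_nonneg _) hC0
      _ = C := mul_one _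
  simpa using h6

theorem pd_dif (lam : ℝ) (n : ℕ) (i : Fin N) (x : E N) :
    pd i (dif lam n) x = ((cut n x - 1) * (-lam * x i) + pd i (cut n) x) • gau lam x := by
  have h1 : HasFDerivAt (cut n : E N → ℝ) (fderiv ℝ (cut n) x) x :=
    (((contDiff_cut n).differentiable (by simp)) x).hasFDerivAt
  have h2 : HasFDerivAt (gau lam : E N → Lam N) (fderiv ℝ (gau lam) x) x :=
    (((contDiff_gau lam).differentiable (by simp)) x).hasFDerivAt
  have h3 := (h1.smul h2).sub h2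
  have h4 : pd i (dif lam n) x = cut n x • pd i (gau lam) x + pd i (cut n) x • gau lam x
      - pd i (gau lam) x := by
    rw [pd]
    have : fderiv ℝ (dif lam n : E N → Lam N) x = _ := h3.fderiv
    rw [this]
    simp [pd]
  rw [h4, pd_gau]
  module

theorem abs_coord_le (x : E N) (i : Fin N) : |x i| ≤ ‖x‖ := by
  simpa using PiLp.norm_apply_le x i

theorem itg_dif_le (lam : ℝ) (hlam : 0 < lam) : ∃ K : ℝ, 0 ≤ K ∧ ∀ (n : ℕ) (x : E N),
    itg (dif lam n) x ≤ K * ((1 + 2 / lam) * Real.exp (-(lam / 2) * ‖x‖ ^ 2)) := by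
  obtain ⟨C, hC0, hC⟩ := exists_pd_cut (N := N)
  refine ⟨1 + N * (2 * lam ^ 2 + 2 * C ^ 2), by positivity, fun n x => ?_⟩
  have hc0 := cut_nonneg n x
  have hc1 := cut_le_one n x
  have hg := norm_gau_sq lam x
  set g2 : ℝ := Real.exp (-lam * ‖x‖ ^ 2) with hg2
  have hg2p : 0 < g2 := Real.exp_pos _
  have h1 : ‖dif lam n x‖ ^ 2 ≤ g2 := by
    have : dif lam n x = (cut n x - 1) • gau lam x := by rw [dif]; module
    rw [this, norm_smul, mul_pow, hg, Real.norm_eq_abs, sq_abs]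
    have : (cut n x - 1) ^ 2 ≤ 1 := by nlinarith
    nlinarith
  have h2 : ∀ i : Fin N, ‖pd i (dif lam n) x‖ ^ 2 ≤
      (2 * lam ^ 2 + 2 * C ^ 2) * ((1 + ‖x‖ ^ 2) * g2) := by
    intro i
    rw [pd_dif, norm_smul, mul_pow, hg, Real.norm_eq_abs, sq_abs,
      ← mul_assoc (2 * lam ^ 2 + 2 * C ^ 2)]
    refine mul_le_mul_of_nonneg_right ?_ hg2p.le
    have h3 : ((cut n x - 1) * (-lam * x i)) ^ 2 ≤ lam ^ 2 * ‖x‖ ^ 2 := by
      have h4 : (cut n x - 1) ^ 2 ≤ 1 := by nlinarith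
      have h5 : (x i) ^ 2 ≤ ‖x‖ ^ 2 := by
        rw [← sq_abs]
        exact pow_le_pow_left₀ (abs_nonneg _) (abs_coord_le x i) 2
      calc ((cut n x - 1) * (-lam * x i)) ^ 2 = (cut n x - 1) ^ 2 * (lam ^ 2 * (x i) ^ 2) := by
            ring
        _ ≤ 1 * (lam ^ 2 * ‖x‖ ^ 2) := by
            refine mul_le_mul h4 ?_ (by positivity) zero_le_one
            exact mul_le_mul_of_nonneg_left h5 (by positivity)
        _ = lam ^ 2 * ‖x‖ ^ 2 := one_mul _
    have h6 : (pd i (cut n) x) ^ 2 ≤ C ^ 2 := by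
      rw [← sq_abs]
      exact pow_le_pow_left₀ (abs_nonneg _) (hC n i x) 2
    have h7 : ∀ a b : ℝ, (a + b) ^ 2 ≤ 2 * a ^ 2 + 2 * b ^ 2 := fun a b => by
      nlinarith [sq_nonneg (a - b)]
    calc ((cut n x - 1) * (-lam * x i) + pd i (cut n) x) ^ 2
        ≤ 2 * ((cut n x - 1) * (-lam * x i)) ^ 2 + 2 * (pd i (cut n) x) ^ 2 := h7 _ _
      _ ≤ 2 * (lam ^ 2 * ‖x‖ ^ 2) + 2 * C ^ 2 := by linarith
      _ ≤ (2 * lam ^ 2 + 2 * C ^ 2) * (1 + ‖x‖ ^ 2) := by
          nlinarith [sq_nonneg lam, sq_nonneg C, sq_nonneg ‖x‖,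
            mul_nonneg (sq_nonneg C) (sq_nonneg ‖x‖)]
  have h8 : ∑ i, ‖pd i (dif lam n) x‖ ^ 2 ≤
      N * ((2 * lam ^ 2 + 2 * C ^ 2) * ((1 + ‖x‖ ^ 2) * g2)) := by
    refine (Finset.sum_le_sum fun i _ => h2 i).trans ?_
    simp
  have h9 : itg (dif lam n) x ≤ (1 + N * (2 * lam ^ 2 + 2 * C ^ 2)) * ((1 + ‖x‖ ^ 2) * g2) := by
    have h10 : ‖x‖ ^ 2 * ‖dif lam n x‖ ^ 2 ≤ ‖x‖ ^ 2 * g2 :=
      mul_le_mul_of_nonneg_left h1 (by positivity)
    unfold itg
    nlinarith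
  refine h9.trans ?_
  refine mul_le_mul_of_nonneg_left ?_ (by positivity)
  exact exp_dom lam hlam x

theorem itg_dif_eventually (lam : ℝ) (x : E N) :
    ∀ᶠ n : ℕ in Filter.atTop, itg (dif lam n) x = 0 := by
  obtain ⟨m, hm⟩ := exists_nat_gt ‖x‖
  filter_upwards [Filter.eventually_ge_atTop m] with n hn
  have hmn : (m : ℝ) ≤ n := by exact_mod_cast hn
  have h1 : ∀ᶠ y in nhds x, dif lam n y = (0 : Lam N) := by
    have h2 : ∀ᶠ y in nhds x, ‖y‖ < (n : ℝ) + 1 := by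
      refine (isOpen_lt continuous_norm continuous_const).mem_nhds ?_
      show ‖x‖ < (n : ℝ) + 1
      linarith
    filter_upwards [h2] with y hy
    have h3 : cut n y = 1 := by
      refine bmp.one_of_mem_closedBall ?_
      rw [mem_closedBall_zero_iff, norm_smul, norm_inv, Real.norm_eq_abs,
        abs_of_nonneg (by positivity)]
      show _ ≤ (1 : ℝ)
      rw [inv_mul_le_iff₀ (by positivity), mul_one]
      exact hy.le
    rw [dif, h3, one_smul, sub_self]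
  have h4 : dif lam n x = (0 : Lam N) := h1.self_of_nhds
  have h5 : ∀ i, pd i (dif lam n) x = (0 : Lam N) := by
    intro i
    have h6 : fderiv ℝ (dif lam n : E N → Lam N) x = fderiv ℝ (fun _ => (0 : Lam N)) x :=
      Filter.EventuallyEq.fderiv_eq h1
    rw [pd, h6]
    simp
  simp [itg, h4, h5]

end FlatGau

theorem gau_approx (lam : ℝ) (hlam : 0 < lam) (ε : ℝ) (hε : 0 < ε) :
    ∃ u : E N → Lam N, Test u ∧ (∀ x, EvenV (u x)) ∧
      MemLp (gau lam : E N → Lam N) 2 (volume : Measure (E N)) ∧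
      wSq (fun x => u x - gau lam x) < ε ∧
      Integrable (fun x : E N => ‖u x - gau lam x‖ ^ 2 + ∑ i, ‖pd i (fun y => u y - gau lam y) x‖ ^ 2
        + ‖x‖ ^ 2 * ‖u x - gau lam x‖ ^ 2) := by
  obtain ⟨K, hK0, hK⟩ := itg_dif_le (N := N) lam hlam
  have hint : Integrable (fun x : E N => K * ((1 + 2 / lam) * Real.exp (-(lam / 2) * ‖x‖ ^ 2))) :=
    ((integrable_gauss (lam / 2) (by positivity)).const_mul _).const_mul _
  have hmeas : ∀ n, AEStronglyMeasurable (itg (dif lam n : E N → Lam N)) volume := fun n =>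
    (continuous_itg _ (contDiff_dif lam n)).aestronglyMeasurable
  have hbd : ∀ n : ℕ, ∀ᵐ x : E N, ‖itg (dif lam n) x‖ ≤
      K * ((1 + 2 / lam) * Real.exp (-(lam / 2) * ‖x‖ ^ 2)) := fun n =>
    Filter.Eventually.of_forall fun x => by
      rw [Real.norm_eq_abs, abs_of_nonneg (itg_nonneg _ _)]
      exact hK n x
  have hlim : Filter.Tendsto (fun n : ℕ => ∫ x : E N, itg (dif lam n) x) Filter.atTop
      (nhds (∫ _ : E N, (0 : ℝ))) :=
    tendsto_integral_of_dominated_convergence _ hmeas hint hbd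
      (Filter.Eventually.of_forall fun x =>
        tendsto_const_nhds.congr' ((itg_dif_eventually lam x).mono fun n hn => hn.symm))
  rw [integral_zero] at hlim
  obtain ⟨n, hn⟩ := (hlim.eventually (gt_mem_nhds hε)).exists
  refine ⟨fun x => cut n x • gau lam x, ⟨(contDiff_cut n).smul (contDiff_gau lam),
    (hasCompactSupport_cut n).smul_right⟩, fun x => ?_, memLp_gau lam hlam, hn, ?_⟩
  · show EvenV (cut n x • gau lam x)
    rw [gau_eq, smul_smul]
    exact evenV_smul_e0 _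
  · exact hint.mono' (hmeas n) (hbd n)

end
end PS
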