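import Pool.Agent.H96.PS.Rellich_x

/-!
Project PS (MP_b05a29_gt), row A14: compactness by cube averages.
-/

open scoped ContDiff Matrix ENNReal
open MeasureTheory Set

namespace PS

noncomputable section

variable {N : ℕ}

/-- small cubes -/
def rl_Q (K : ℕ) (δ : ℝ) (k : Fin N → Fin (2 * K)) : Set (E N) :=
  {x | ∀ i, (((k i : ℕ) : ℝ) - K) * δ ≤ x i ∧ x i < (((k i : ℕ) : ℝ) - K + 1) * δ}

theorem rl_Q_pre (K : ℕ) (δ : ℝ) (k : Fin N → Fin (2 * K)) :
    rl_Q K δ k = (@WithLp.ofLp 2 (Fin N → ℝ)) ⁻¹' (Set.pi univ fun i =>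
      Ico ((((k i : ℕ) : ℝ) - K) * δ) ((((k i : ℕ) : ℝ) - K + 1) * δ)) := by
  ext x
  simp [rl_Q]

theorem rl_Q_meas (K : ℕ) (δ : ℝ) (k : Fin N → Fin (2 * K)) : MeasurableSet (rl_Q K δ k) := by
  rw [rl_Q_pre]
  exact (PiLp.volume_preserving_ofLp (Fin N)).measurable
    (MeasurableSet.univ_pi fun i => measurableSet_Ico)

theorem rl_Q_vol (K : ℕ) (δ : ℝ) (hδ : 0 < δ) (k : Fin N → Fin (2 * K)) :
    volume (rl_Q K δ k) = ENNReal.ofReal (δ ^ N) := by
  rw [rl_Q_pre, (PiLp.volume_preserving_ofLp (Fin N)).measure_preimage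
    (MeasurableSet.univ_pi fun i => measurableSet_Ico).nullMeasurableSet, Real.volume_pi_Ico]
  have h1 : ∀ i : Fin N, ENNReal.ofReal ((((k i : ℕ) : ℝ) - K + 1) * δ -
      (((k i : ℕ) : ℝ) - K) * δ) = ENNReal.ofReal δ := fun i => by
    congr 1
    ring
  simp_rw [h1]
  rw [Finset.prod_const, Finset.card_univ, Fintype.card_fin, ← ENNReal.ofReal_pow hδ.le]

theorem rl_Q_uniq (K : ℕ) (δ : ℝ) (hδ : 0 < δ) (k k' : Fin N → Fin (2 * K)) (x : E N)
    (h : x ∈ rl_Q K δ k) (h' : x ∈ rl_Q K δ k') : k = k' := by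
  funext i
  apply Fin.ext
  have h1 := h i
  have h2 := h' i
  have h3 : (((k i : ℕ) : ℝ) - K) < (((k' i : ℕ) : ℝ) - K + 1) :=
    lt_of_mul_lt_mul_right (h1.1.trans_lt h2.2) hδ.le
  have h4 : (((k' i : ℕ) : ℝ) - K) < (((k i : ℕ) : ℝ) - K + 1) :=
    lt_of_mul_lt_mul_right (h2.1.trans_lt h1.2) hδ.le
  have h5 : ((k i : ℕ) : ℝ) < ((k' i : ℕ) : ℝ) + 1 := by linarith
  have h6 : ((k' i : ℕ) : ℝ) < ((k i : ℕ) : ℝ) + 1 := by linarith
  norm_cast at h5 h6
  omega

theorem rl_Q_cover (K : ℕ) (δ : ℝ) (hδ : 0 < δ) (x : E N) (hx : ‖x‖ < K * δ) :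
    ∃ k, x ∈ rl_Q K δ k := by
  have h0 : ∀ i, |x i| < K * δ := fun i => by
    have := PiLp.norm_apply_le x i
    rw [Real.norm_eq_abs] at this
    linarith
  have h1 : ∀ i, 0 ≤ ⌊x i / δ⌋ + K ∧ ⌊x i / δ⌋ + K < 2 * K := by
    intro i
    have h2 := abs_lt.1 (h0 i)
    constructor
    · have h3 : (-(K : ℤ)) ≤ ⌊x i / δ⌋ := by
        rw [Int.le_floor]
        push_cast
        rw [le_div_iff₀ hδ]
        linarith
      omega
    · have h3 : ⌊x i / δ⌋ < (K : ℤ) := by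
        rw [Int.floor_lt]
        push_cast
        rw [div_lt_iff₀ hδ]
        linarith
      omega
  refine ⟨fun i => ⟨(⌊x i / δ⌋ + K).toNat, ?_⟩, fun i => ?_⟩
  · have := h1 i
    omega
  · have h2 : (((⌊x i / δ⌋ + K).toNat : ℕ) : ℝ) = (⌊x i / δ⌋ : ℝ) + K := by
      have h3 : (((⌊x i / δ⌋ + K).toNat : ℤ)) = ⌊x i / δ⌋ + K := Int.toNat_of_nonneg (h1 i).1
      have h4 := congrArg (Int.cast : ℤ → ℝ) h3
      push_cast at h4
      exact h4
    simp only [h2]
    constructor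
    · have := Int.floor_le (x i / δ)
      rw [le_div_iff₀ hδ] at this
      linarith
    · have := Int.lt_floor_add_one (x i / δ)
      rw [div_lt_iff₀ hδ] at this
      linarith

theorem rl_Q_diam (K : ℕ) (δ : ℝ) (hδ : 0 < δ) (k : Fin N → Fin (2 * K)) (x y : E N)
    (hx : x ∈ rl_Q K δ k) (hy : y ∈ rl_Q K δ k) : ‖y - x‖ ^ 2 ≤ N * δ ^ 2 := by
  rw [EuclideanSpace.norm_sq_eq]
  have h1 : ∀ i ∈ (Finset.univ : Finset (Fin N)), ‖(y - x) i‖ ^ 2 ≤ δ ^ 2 := by
    intro i _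
    have h2 := hx i
    have h3 := hy i
    rw [Real.norm_eq_abs, sq_abs]
    apply sq_le_sq'
    · simp only [PiLp.sub_apply]
      linarith
    · simp only [PiLp.sub_apply]
      linarith
  refine (Finset.sum_le_sum h1).trans ?_
  simp

/-- step functions -/
def rl_stp (K : ℕ) (δ : ℝ) (c : (Fin N → Fin (2 * K)) → Lam N) (x : E N) : Lam N :=
  ∑ k, (rl_Q K δ k).indicator (fun _ => c k) x

theorem rl_stp_mem (K : ℕ) (δ : ℝ) (hδ : 0 < δ) (c : (Fin N → Fin (2 * K)) → Lam N) :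
    MemLp (rl_stp K δ c) 2 (volume : Measure (E N)) := by
  unfold rl_stp
  apply memLp_finsetSum
  intro k _
  apply memLp_indicator_const _ (rl_Q_meas K δ k)
  right
  rw [rl_Q_vol K δ hδ]
  exact ENNReal.ofReal_ne_top

theorem rl_stp_eq (K : ℕ) (δ : ℝ) (hδ : 0 < δ) (c : (Fin N → Fin (2 * K)) → Lam N) (x : E N)
    (k : Fin N → Fin (2 * K)) (hk : x ∈ rl_Q K δ k) : rl_stp K δ c x = c k := by
  unfold rl_stp
  rw [Finset.sum_eq_single k]
  · exact indicator_of_mem hk _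
  · intro k' _ hne
    apply indicator_of_notMem
    intro h
    exact hne (rl_Q_uniq K δ hδ k' k x h hk)
  · intro h
    exact absurd (Finset.mem_univ _) h

theorem rl_stp_out (K : ℕ) (δ : ℝ) (c : (Fin N → Fin (2 * K)) → Lam N) (x : E N)
    (h : ∀ k, x ∉ rl_Q K δ k) : rl_stp K δ c x = 0 := by
  unfold rl_stp
  exact Finset.sum_eq_zero fun k _ => indicator_of_notMem (h k) _

/-- step functions as a linear map -/
def rl_T (K : ℕ) (δ : ℝ) (hδ : 0 < δ) : ((Fin N → Fin (2 * K)) → Lam N) →ₗ[ℝ] L2 N where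
  toFun c := (rl_stp_mem K δ hδ c).toLp (rl_stp K δ c)
  map_add' c d := by
    rw [← MemLp.toLp_add]
    congr 1
    funext x
    simp only [rl_stp, Pi.add_apply]
    rw [← Finset.sum_add_distrib]
    refine Finset.sum_congr rfl fun k _ => ?_
    by_cases h : x ∈ rl_Q K δ k <;> simp [h]
  map_smul' r c := by
    simp only [RingHom.id_apply]
    rw [← MemLp.toLp_const_smul]
    congr 1
    funext x
    simp only [rl_stp, Pi.smul_apply]
    rw [Finset.smul_sum]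
    refine Finset.sum_congr rfl fun k _ => ?_
    by_cases h : x ∈ rl_Q K δ k <;> simp [h]

theorem rl_norm {f : E N → Lam N} (hf : MemLp f 2 (volume : Measure (E N))) :
    ENNReal.ofReal (‖hf.toLp f‖ ^ 2) = ∫⁻ x, ENNReal.ofReal (‖f x‖ ^ 2) := by
  have h1 := eLpNorm_nnreal_pow_eq_lintegral (f := f) (μ := (volume : Measure (E N)))
    (p := 2) (by norm_num)
  have h2 : ENNReal.ofReal ‖hf.toLp f‖ = eLpNorm f 2 volume := by
    rw [Lp.norm_toLp, ENNReal.ofReal_toReal hf.2.ne]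
  rw [ENNReal.ofReal_pow (norm_nonneg _), h2]
  have h3 : ∀ x, ENNReal.ofReal (‖f x‖ ^ 2) = ‖f x‖ₑ ^ ((2 : NNReal) : ℝ) := by
    intro x
    rw [ENNReal.ofReal_pow (norm_nonneg _), ofReal_norm]
    norm_num
  simp_rw [h3]
  rw [← h1]
  norm_num

theorem rl_cell {u : E N → Lam N} (hu : Test u) (K : ℕ) (δ : ℝ) (hδ : 0 < δ)
    (k : Fin N → Fin (2 * K)) (x : E N) (hx : x ∈ rl_Q K δ k) :
    ENNReal.ofReal (‖u x - (δ ^ N)⁻¹ • ∫ y in rl_Q K δ k, u y‖ ^ 2) ≤
      ENNReal.ofReal (δ ^ N)⁻¹ * ∫⁻ h in Metric.closedBall (0 : E N) (Real.sqrt N * δ),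
        ENNReal.ofReal (‖u (x + h) - u x‖ ^ 2) := by
  have hV : (0 : ℝ) < δ ^ N := pow_pos hδ N
  have hfin : volume (rl_Q K δ k) ≠ ⊤ := by
    rw [rl_Q_vol K δ hδ]
    exact ENNReal.ofReal_ne_top
  have : IsFiniteMeasure (volume.restrict (rl_Q K δ k)) :=
    ⟨by rw [Measure.restrict_apply_univ]; exact lt_top_iff_ne_top.2 hfin⟩
  have hreal : (volume.restrict (rl_Q K δ k)).real univ = δ ^ N := by
    rw [Measure.real, Measure.restrict_apply_univ, rl_Q_vol K δ hδ, ENNReal.toReal_ofReal hV.le]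
  have huc := rl_test_cont hu
  have hui : Integrable u volume := huc.integrable_of_hasCompactSupport hu.2
  obtain ⟨C, hC⟩ := hu.2.exists_bound_of_continuous huc
  have hd : Continuous fun y => ‖u x - u y‖ := (continuous_const.sub huc).norm
  have hdb : ∀ y, ‖u x - u y‖ ≤ 2 * C := fun y => by
    have := norm_sub_le (u x) (u y)
    linarith [hC x, hC y]
  have hI1 : Integrable (fun y => ‖u x - u y‖) (volume.restrict (rl_Q K δ k)) := by
    apply Integrable.of_bound hd.aestronglyMeasurable (2 * C)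
    exact Filter.Eventually.of_forall fun y => by
      rw [Real.norm_eq_abs, abs_of_nonneg (norm_nonneg _)]
      exact hdb y
  have hI2 : Integrable (fun y => ‖u x - u y‖ ^ 2) (volume.restrict (rl_Q K δ k)) := by
    apply Integrable.of_bound (hd.pow 2).aestronglyMeasurable ((2 * C) ^ 2)
    exact Filter.Eventually.of_forall fun y => by
      rw [Real.norm_eq_abs, abs_of_nonneg (sq_nonneg _)]
      exact pow_le_pow_left₀ (norm_nonneg _) (hdb y) 2
  have h1 : u x - (δ ^ N)⁻¹ • ∫ y in rl_Q K δ k, u y =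
      (δ ^ N)⁻¹ • ∫ y in rl_Q K δ k, (u x - u y) := by
    rw [integral_sub (integrable_const _) hui.restrict, integral_const, hreal, smul_sub, smul_smul,
      inv_mul_cancel₀ hV.ne', one_smul]
  have h2 : ‖u x - (δ ^ N)⁻¹ • ∫ y in rl_Q K δ k, u y‖ ^ 2 ≤
      (δ ^ N)⁻¹ * ∫ y in rl_Q K δ k, ‖u x - u y‖ ^ 2 := by
    rw [h1, norm_smul, mul_pow, Real.norm_eq_abs, abs_of_pos (inv_pos.2 hV)]
    have h3 : ‖∫ y in rl_Q K δ k, (u x - u y)‖ ^ 2 ≤
        δ ^ N * ∫ y in rl_Q K δ k, ‖u x - u y‖ ^ 2 := by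
      refine (pow_le_pow_left₀ (norm_nonneg _) (norm_integral_le_integral_norm _) 2).trans ?_
      have := rl_sq_le _ _ hI1 hI2
      rwa [hreal] at this
    calc (δ ^ N)⁻¹ ^ 2 * ‖∫ y in rl_Q K δ k, (u x - u y)‖ ^ 2
        ≤ (δ ^ N)⁻¹ ^ 2 * (δ ^ N * ∫ y in rl_Q K δ k, ‖u x - u y‖ ^ 2) :=
          mul_le_mul_of_nonneg_left h3 (sq_nonneg _)
      _ = (δ ^ N)⁻¹ * ∫ y in rl_Q K δ k, ‖u x - u y‖ ^ 2 := by
          field_simp
  refine (ENNReal.ofReal_le_ofReal h2).trans ?_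
  rw [ENNReal.ofReal_mul (inv_pos.2 hV).le]
  refine mul_le_mul_right ?_ _
  rw [ofReal_integral_eq_lintegral_ofReal hI2 (Filter.Eventually.of_forall fun y => sq_nonneg _),
    ← lintegral_indicator (rl_Q_meas K δ k), ← lintegral_indicator Metric.isClosed_closedBall.measurableSet,
    ← lintegral_add_left_eq_self _ x]
  refine lintegral_mono fun h => ?_
  by_cases hh : x + h ∈ rl_Q K δ k
  · have hb : h ∈ Metric.closedBall (0 : E N) (Real.sqrt N * δ) := by
      rw [mem_closedBall_zero_iff]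
      have h3 := rl_Q_diam K δ hδ k x (x + h) hx hh
      rw [add_sub_cancel_left] at h3
      apply abs_le_of_sq_le_sq' _ (by positivity) |>.2
      rw [mul_pow, Real.sq_sqrt (Nat.cast_nonneg _)]
      exact h3
    rw [indicator_of_mem hh, indicator_of_mem hb, norm_sub_rev]
  · rw [indicator_of_notMem hh]
    exact bot_le

theorem rl_main {u : E N → Lam N} (hu : Test u) (K : ℕ) (δ : ℝ) (hδ : 0 < δ) (hK : 0 < K) :
    ∫⁻ x, ENNReal.ofReal (‖u x - rl_stp K δ (fun k => (δ ^ N)⁻¹ • ∫ y in rl_Q K δ k, u y) x‖ ^ 2) ≤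
      ENNReal.ofReal ((Real.sqrt N) ^ N * (volume (Metric.ball (0 : E N) 1)).toReal * N * δ ^ 2) *
        (∫⁻ x, ENNReal.ofReal (rl_g u x)) +
      ENNReal.ofReal (((K * δ) ^ 2)⁻¹) * ∫⁻ x, ENNReal.ofReal (‖x‖ ^ 2 * ‖u x‖ ^ 2) := by
  have hV : (0 : ℝ) < δ ^ N := pow_pos hδ N
  have huc := rl_test_cont hu
  have hR : (0 : ℝ) < K * δ := by positivity
  set A : E N → ℝ≥0∞ := fun x => ENNReal.ofReal (δ ^ N)⁻¹ *
    ∫⁻ h in Metric.closedBall (0 : E N) (Real.sqrt N * δ),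
        ENNReal.ofReal (‖u (x + h) - u x‖ ^ 2) with hA
  set B : E N → ℝ≥0∞ := fun x => ENNReal.ofReal (((K * δ) ^ 2)⁻¹) *
    ENNReal.ofReal (‖x‖ ^ 2 * ‖u x‖ ^ 2) with hB
  have hpt : ∀ x, ENNReal.ofReal
      (‖u x - rl_stp K δ (fun k => (δ ^ N)⁻¹ • ∫ y in rl_Q K δ k, u y) x‖ ^ 2) ≤ A x + B x := by
    intro x
    by_cases h : ∃ k, x ∈ rl_Q K δ k
    · obtain ⟨k, hk⟩ := h
      rw [rl_stp_eq K δ hδ _ x k hk]
      exact (rl_cell hu K δ hδ k x hk).trans le_self_add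
    · push Not at h
      rw [rl_stp_out K δ _ x h, sub_zero]
      have h1 : K * δ ≤ ‖x‖ := by
        by_contra hc
        obtain ⟨k, hk⟩ := rl_Q_cover K δ hδ x (not_le.1 hc)
        exact h k hk
      refine le_trans ?_ le_add_self
      rw [hB]
      simp only
      rw [← ENNReal.ofReal_mul (by positivity)]
      apply ENNReal.ofReal_le_ofReal
      have h2 : 1 ≤ ((K * δ) ^ 2)⁻¹ * ‖x‖ ^ 2 := by
        rw [inv_mul_eq_div, one_le_div (by positivity)]
        exact pow_le_pow_left₀ hR.le h1 2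
      nlinarith [sq_nonneg ‖u x‖]
  have hm : Measurable fun p : E N × E N => ENNReal.ofReal (‖u (p.1 + p.2) - u p.1‖ ^ 2) := by
    have : Continuous fun p : E N × E N => ‖u (p.1 + p.2) - u p.1‖ ^ 2 := by
      have h1 : Continuous fun p : E N × E N => u (p.1 + p.2) := huc.comp (by fun_prop)
      have h2 : Continuous fun p : E N × E N => u p.1 := huc.comp continuous_fst
      exact (h1.sub h2).norm.pow 2
    exact ENNReal.measurable_ofReal.comp this.measurable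
  have hmB : Measurable B := by
    have : Continuous fun x : E N => ‖x‖ ^ 2 * ‖u x‖ ^ 2 := by fun_prop
    exact (ENNReal.measurable_ofReal.comp this.measurable).const_mul _
  refine (lintegral_mono hpt).trans ?_
  rw [lintegral_add_right _ hmB]
  refine add_le_add ?_ (le_of_eq ?_)
  · rw [hA]
    simp only
    rw [lintegral_const_mul _ hm.lintegral_prod_right', lintegral_lintegral_swap hm.aemeasurable]
    have h1 : ∫⁻ h in Metric.closedBall (0 : E N) (Real.sqrt N * δ),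
        ∫⁻ x, ENNReal.ofReal (‖u (x + h) - u x‖ ^ 2) ≤
        ∫⁻ _ in Metric.closedBall (0 : E N) (Real.sqrt N * δ),
          ENNReal.ofReal (N * δ ^ 2) * ∫⁻ x, ENNReal.ofReal (rl_g u x) := by
      apply setLIntegral_mono measurable_const
      intro h hh
      refine (rl_trans hu h).trans ?_
      refine mul_le_mul_left (ENNReal.ofReal_le_ofReal ?_) _
      rw [mem_closedBall_zero_iff] at hh
      calc ‖h‖ ^ 2 ≤ (Real.sqrt N * δ) ^ 2 := pow_le_pow_left₀ (norm_nonneg _) hh 2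
        _ = N * δ ^ 2 := by rw [mul_pow, Real.sq_sqrt (Nat.cast_nonneg _)]
    refine (mul_le_mul_right h1 _).trans (le_of_eq ?_)
    rw [setLIntegral_const, Measure.addHaar_closedBall _ _ (by positivity), finrank_euclideanSpace,
      Fintype.card_fin]
    have hb : volume (Metric.ball (0 : E N) 1) =
        ENNReal.ofReal (volume (Metric.ball (0 : E N) 1)).toReal :=
      (ENNReal.ofReal_toReal measure_ball_lt_top.ne).symm
    rw [hb]
    set v := (volume (Metric.ball (0 : E N) 1)).toReal with hv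
    have hv0 : 0 ≤ v := ENNReal.toReal_nonneg
    rw [show ENNReal.ofReal (δ ^ N)⁻¹ * (ENNReal.ofReal (↑N * δ ^ 2) *
        (∫⁻ x, ENNReal.ofReal (rl_g u x)) * (ENNReal.ofReal ((Real.sqrt N * δ) ^ N) *
          ENNReal.ofReal v)) =
        (ENNReal.ofReal (δ ^ N)⁻¹ * ENNReal.ofReal (↑N * δ ^ 2) *
          (ENNReal.ofReal ((Real.sqrt N * δ) ^ N) * ENNReal.ofReal v)) *
          ∫⁻ x, ENNReal.ofReal (rl_g u x) by ring]
    congr 1
    rw [← ENNReal.ofReal_mul (by positivity), ← ENNReal.ofReal_mul (by positivity),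
      ← ENNReal.ofReal_mul (by positivity), ENNReal.toReal_ofReal hv0]
    congr 1
    rw [mul_pow]
    field_simp
  · rw [hB]
    simp only
    have : Measurable fun x : E N => ENNReal.ofReal (‖x‖ ^ 2 * ‖u x‖ ^ 2) := by
      have : Continuous fun x : E N => ‖x‖ ^ 2 * ‖u x‖ ^ 2 := by fun_prop
      exact ENNReal.measurable_ofReal.comp this.measurable
    rw [lintegral_const_mul _ this]

theorem rl_wSq {u : E N → Lam N} (hu : Test u) :
    (∫⁻ x, ENNReal.ofReal (rl_g u x)) + ∫⁻ x, ENNReal.ofReal (‖x‖ ^ 2 * ‖u x‖ ^ 2) ≤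
      ENNReal.ofReal (wSq u) := by
  have huc := rl_test_cont hu
  have c1 : Continuous fun x : E N => ‖u x‖ ^ 2 := by fun_prop
  have c3 : Continuous fun x : E N => ‖x‖ ^ 2 * ‖u x‖ ^ 2 := by fun_prop
  have i1 : Integrable (fun x : E N => ‖u x‖ ^ 2) :=
    c1.integrable_of_hasCompactSupport (hu.2.comp_left (g := fun v : Lam N => ‖v‖ ^ 2) (by simp))
  have i2 : Integrable (rl_g u) := (rl_g_cont hu).integrable_of_hasCompactSupport (rl_g_supp hu)
  have i3 : Integrable (fun x : E N => ‖x‖ ^ 2 * ‖u x‖ ^ 2) :=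
    c3.integrable_of_hasCompactSupport
      (hu.2.comp_left (g := fun v : Lam N => ‖v‖ ^ 2) (by simp)).mul_left
  have i12 : Integrable (fun x : E N => ‖u x‖ ^ 2 + rl_g u x) := i1.add i2
  have i4 : Integrable (fun x : E N => ‖u x‖ ^ 2 + rl_g u x + ‖x‖ ^ 2 * ‖u x‖ ^ 2) := i12.add i3
  have h1 : wSq u = ∫ x, (‖u x‖ ^ 2 + rl_g u x + ‖x‖ ^ 2 * ‖u x‖ ^ 2) := rfl
  rw [h1, ofReal_integral_eq_lintegral_ofReal i4 (Filter.Eventually.of_forall fun x => by
    have := rl_g_nonneg u x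
    positivity)]
  have hmg : Measurable fun x => ENNReal.ofReal (rl_g u x) :=
    ENNReal.measurable_ofReal.comp (rl_g_cont hu).measurable
  rw [← lintegral_add_left hmg]
  refine lintegral_mono fun x => ?_
  rw [← ENNReal.ofReal_add (rl_g_nonneg u x) (by positivity)]
  apply ENNReal.ofReal_le_ofReal
  have := sq_nonneg ‖u x‖
  linarith

/-! ### row A5-1 (Rellich.lean) -/
theorem rellich (N : ℕ) (ε : ℝ) (hε : 0 < ε) : ∃ P : L2 N →L[ℝ] L2 N,
    FiniteDimensional ℝ (LinearMap.range (P : L2 N →ₗ[ℝ] L2 N)) ∧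
    ∀ u : E N → Lam N, Test u → ‖tl u - P (tl u)‖ ^ 2 ≤ ε * wSq u := by
  set C : ℝ := (Real.sqrt N) ^ N * (volume (Metric.ball (0 : E N) 1)).toReal * N with hC
  have hC0 : 0 ≤ C := by positivity
  obtain ⟨δ, hδ, hδ2⟩ : ∃ δ : ℝ, 0 < δ ∧ C * δ ^ 2 ≤ ε := by
    refine ⟨Real.sqrt (ε / (C + 1)), by positivity, ?_⟩
    rw [Real.sq_sqrt (by positivity)]
    rw [mul_div_assoc', div_le_iff₀ (by positivity)]
    nlinarith
  obtain ⟨K, hK, hK2⟩ : ∃ K : ℕ, 0 < K ∧ ((K * δ) ^ 2)⁻¹ ≤ ε := by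
    obtain ⟨K, hK⟩ := exists_nat_gt (1 / (δ * Real.sqrt ε))
    have h0 : 0 < 1 / (δ * Real.sqrt ε) := by positivity
    have hK0 : (0 : ℝ) < K := h0.trans hK
    refine ⟨K, by exact_mod_cast hK0, ?_⟩
    rw [inv_le_comm₀ (by positivity) hε]
    rw [div_lt_iff₀ (by positivity)] at hK
    have h1 : 1 < (K * δ) * Real.sqrt ε := by linarith
    have h2 : 1 ≤ ((K * δ) * Real.sqrt ε) ^ 2 := one_le_pow₀ h1.le
    rw [mul_pow, Real.sq_sqrt hε.le] at h2
    rw [inv_le_iff_one_le_mul₀ hε]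
    linarith
  set W : Submodule ℝ (L2 N) := LinearMap.range (rl_T (N := N) K δ hδ) with hW
  have : FiniteDimensional ℝ W := by
    rw [hW]
    infer_instance
  refine ⟨W.starProjection, ?_, fun u hu => ?_⟩
  · have h1 : LinearMap.range (W.starProjection : L2 N →ₗ[ℝ] L2 N) ≤ W := by
      rintro _ ⟨v, rfl⟩
      exact Submodule.starProjection_apply_mem _ _
    exact Submodule.finiteDimensional_of_le h1
  · have hmem : MemLp u 2 (volume : Measure (E N)) :=
      (rl_test_cont hu).memLp_of_hasCompactSupport hu.2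
    set c : (Fin N → Fin (2 * K)) → Lam N := fun k => (δ ^ N)⁻¹ • ∫ y in rl_Q K δ k, u y with hc
    have h1 : ‖tl u - W.starProjection (tl u)‖ ≤ ‖tl u - rl_T K δ hδ c‖ := by
      rw [Submodule.starProjection_minimal]
      exact ciInf_le ⟨0, by rintro _ ⟨x, rfl⟩; exact norm_nonneg _⟩
        (⟨rl_T K δ hδ c, ⟨c, rfl⟩⟩ : W)
    have h2 : ENNReal.ofReal (‖tl u - rl_T K δ hδ c‖ ^ 2) ≤ ENNReal.ofReal (ε * wSq u) := by
      have h3 : tl u - rl_T K δ hδ c =
          (hmem.sub (rl_stp_mem K δ hδ c)).toLp (u - rl_stp K δ c) := by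
        rw [MemLp.toLp_sub hmem (rl_stp_mem K δ hδ c)]
        congr 1
        unfold tl
        rw [dif_pos hmem]
      rw [h3, rl_norm]
      have h4 := rl_main hu K δ hδ hK
      refine h4.trans ?_
      have h5 := rl_wSq hu
      rw [ENNReal.ofReal_mul hε.le]
      refine le_trans ?_ (mul_le_mul_right h5 _)
      rw [mul_add]
      exact add_le_add (mul_le_mul_left (ENNReal.ofReal_le_ofReal hδ2) _)
        (mul_le_mul_left (ENNReal.ofReal_le_ofReal hK2) _)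
    have hw0 : 0 ≤ wSq u := by
      unfold wSq
      exact integral_nonneg fun x => by positivity
    have h3 : ‖tl u - rl_T K δ hδ c‖ ^ 2 ≤ ε * wSq u :=
      (ENNReal.ofReal_le_ofReal_iff (by positivity)).1 h2
    exact (pow_le_pow_left₀ (norm_nonneg _) h1 2).trans h3

end

end PS
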