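import Pool.Agent.H96.PS.IndexObs_b
import Pool.Agent.H96.PS.Rellich
import Pool.Agent.H96.PS.FlatGau
import Pool.Agent.H96.PS.FlatDense

/-!
Project PS (MP_b05a29_gt), row A18, part 3: odd part, estimates on the space of jets, compactness
of the inclusion, the Gaussian.
-/

open scoped ContDiff Matrix ENNReal
open MeasureTheory Set

namespace PS
noncomputable section
variable {N : ℕ}

namespace IOb

/-- the odd part of the fibre -/
abbrev LamO (N : ℕ) := EuclideanSpace ℝ {I : Finset (Fin N) // Odd I.card}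

/-- projection on the odd part -/
def rO (N : ℕ) : Lam N →L[ℝ] LamO N := LinearMap.toContinuousLinearMap
  { toFun := fun v => WithLp.toLp 2 (fun I => v I.1)
    map_add' := by intro u v; ext I; simp
    map_smul' := by intro c u; ext I; simp }

/-- inclusion of the odd part -/
def eO (N : ℕ) : LamO N →L[ℝ] Lam N := LinearMap.toContinuousLinearMap
  { toFun := fun v => WithLp.toLp 2 (fun I => if h : Odd I.card then v ⟨I, h⟩ else 0)
    map_add' := by intro u v; ext I; by_cases h : Odd I.card <;> simp [h]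
    map_smul' := by intro c u; ext I; by_cases h : Odd I.card <;> simp [h] }

theorem rO_apply (v : Lam N) (I : {I : Finset (Fin N) // Odd I.card}) : rO N v I = v I.1 := rfl

theorem eO_apply (v : LamO N) (I : Finset (Fin N)) :
    eO N v I = if h : Odd I.card then v ⟨I, h⟩ else 0 := rfl

theorem eO_odd (v : LamO N) : OddV (eO N v) := by
  intro I hI
  rw [eO_apply, dif_neg (by rwa [Nat.not_odd_iff_even])]

theorem rO_eO (v : LamO N) : rO N (eO N v) = v := by
  ext I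
  rw [rO_apply, eO_apply, dif_pos I.2]

theorem inner_eO (w : LamO N) (z : Lam N) : inner ℝ (eO N w) z = inner ℝ w (rO N z) := by
  rw [PiLp.inner_apply, PiLp.inner_apply]
  have h1 : ∑ I : {I : Finset (Fin N) // Odd I.card}, inner ℝ (w I) (rO N z I)
      = ∑ I : {I : Finset (Fin N) // Odd I.card},
        (fun J : Finset (Fin N) => inner ℝ (eO N w J) (z J)) I.1 := by
    apply Finset.sum_congr rfl
    intro I _
    simp only
    rw [eO_apply, dif_pos I.2, rO_apply]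
  rw [h1, ← Finset.sum_subtype (Finset.univ.filter (fun I : Finset (Fin N) => Odd I.card))
    (fun x => by simp) (fun J : Finset (Fin N) => inner ℝ (eO N w J) (z J))]
  symm
  apply Finset.sum_filter_of_ne
  intro I _ hI
  by_contra h
  apply hI
  rw [eO_apply, dif_neg h, inner_zero_left]

theorem eO_rO {v : Lam N} (hv : OddV v) : eO N (rO N v) = v := by
  ext I
  rw [eO_apply]
  by_cases h : Odd I.card
  · rw [dif_pos h, rO_apply]
  · rw [dif_neg h, hv I (by rwa [← Nat.not_odd_iff_even])]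

theorem norm_rO {v : Lam N} (hv : OddV v) : ‖rO N v‖ = ‖v‖ := by
  have h1 : ‖rO N v‖ ^ 2 = ‖v‖ ^ 2 := by
    rw [← real_inner_self_eq_norm_sq, ← inner_eO, eO_rO hv, real_inner_self_eq_norm_sq]
  exact (sq_eq_sq₀ (norm_nonneg _) (norm_nonneg _)).1 h1

/-- odd square integrable functions -/
abbrev YY (N : ℕ) := Lp (LamO N) 2 (volume : Measure (E N))

/-- projection on odd functions -/
def rL (N : ℕ) : L2 N →L[ℝ] YY N := (rO N).compLpL 2 (volume : Measure (E N))

theorem coe_rL (f : L2 N) : (rL N f : E N → LamO N) =ᵐ[volume] fun x => rO N (f x) :=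
  (rO N).coeFn_compLp f

theorem norm_rL {f : L2 N} {v : E N → Lam N} (h : (f : E N → Lam N) =ᵐ[volume] v)
    (hv : ∀ x, OddV (v x)) : ‖rL N f‖ ^ 2 = ∫ x, ‖v x‖ ^ 2 := by
  rw [← real_inner_self_eq_norm_sq, L2.inner_def]
  apply integral_congr_ae
  filter_upwards [coe_rL f, h] with x hx hy
  rw [hx, hy, real_inner_self_eq_norm_sq, norm_rO (hv x)]

theorem even_pd {u : E N → Lam N} (hu : Differentiable ℝ u) (he : ∀ x, EvenV (u x)) (i : Fin N)
    (x : E N) : EvenV (pd i u x) := by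
  intro I hI
  have h1 : HasFDerivAt (fun y => u y I) ((EuclideanSpace.proj (𝕜 := ℝ) I).comp (fderiv ℝ u x)) x :=
    (EuclideanSpace.proj (𝕜 := ℝ) I).hasFDerivAt.comp x (hu x).hasFDerivAt
  have h2 : (fun y => u y I) = fun _ => (0 : ℝ) := by
    funext y
    exact he y I hI
  rw [h2] at h1
  have h3 := h1.unique (hasFDerivAt_const (0 : ℝ) x)
  have h4 := congrArg (fun T : E N →L[ℝ] ℝ => T (ev i)) h3
  change (fderiv ℝ u x (ev i)) I = 0
  simpa using h4

theorem odd_opB {a : Fin N → E N → Op N} {b : E N → Op N}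
    (hodd : ∀ x, (∀ i, OddOp (a i x)) ∧ OddOp (b x)) {u : E N → Lam N}
    (hu : Differentiable ℝ u) (he : ∀ x, EvenV (u x)) (x : E N) : OddV (opB a b u x) := by
  intro I hI
  have h1 : ∀ i, (a i x (pd i u x)) I = 0 := fun i => ((hodd x).1 i).1 _ (even_pd hu he i x) I hI
  have h2 : (b x (u x)) I = 0 := (hodd x).2.1 _ (he x) I hI
  unfold opB
  rw [PiLp.add_apply, h2, add_zero]
  have h3 : (∑ i, a i x (pd i u x)) I = ∑ i, (a i x (pd i u x)) I := by
    exact map_sum (EuclideanSpace.proj (𝕜 := ℝ) I) (fun i => a i x (pd i u x)) Finset.univ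
  rw [h3]
  exact Finset.sum_eq_zero fun i _ => h1 i

/-- the path of operators on the space of jets -/
def TT (a : Fin N → E N → Op N) (b : E N → Op N) (lam : ℝ) : XX N →L[ℝ] YY N :=
  (rL N ∘L SS a b lam) ∘L (XX N).subtypeL

/-- the inclusion -/
def JJ (N : ℕ) : XX N →L[ℝ] L2 N := pr (Sum.inl ()) ∘L (XX N).subtypeL

theorem norm_TT_jet {a : Fin N → E N → Op N} {b : E N → Op N} {lam : ℝ}
    (ha : ∀ i, MemLp (a i) ∞ (volume : Measure (E N)))
    (hb : MemLp (fun x => b x - pt lam x) ∞ (volume : Measure (E N)))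
    (hodd : ∀ x, (∀ i, OddOp (a i x)) ∧ OddOp (b x)) {u : E N → Lam N} (hu : Test u)
    (he : ∀ x, EvenV (u x)) :
    ‖rL N (SS a b lam (jet u))‖ ^ 2 = ∫ x, ‖opB a b u x‖ ^ 2 :=
  norm_rL (coe_SS ha hb (jf_memLp hu)) (odd_opB hodd (hu.1.differentiable (by simp)) he)

/-- the a priori estimate on the space of jets -/
theorem est {a : Fin N → E N → Op N} {b : E N → Op N} {lam : ℝ}
    (ha : ∀ i, MemLp (a i) ∞ (volume : Measure (E N)))
    (hb : MemLp (fun x => b x - pt lam x) ∞ (volume : Measure (E N)))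
    (hodd : ∀ x, (∀ i, OddOp (a i x)) ∧ OddOp (b x)) (C : ℝ)
    (hap : ∀ u : E N → Lam N, Test u →
      wSq u ≤ C * ((∫ x, ‖opB a b u x‖ ^ 2) + ∫ x, ‖u x‖ ^ 2)) :
    ∃ C' : ℝ, ∀ z : XX N, ‖z‖ ≤ C' * (‖TT a b lam z‖ + ‖JJ N z‖) := by
  have h1 : ∀ z : ZZ N, z ∈ XX N →
      ‖z‖ ^ 2 ≤ C * (‖rL N (SS a b lam z)‖ ^ 2 + ‖pr (Sum.inl ()) z‖ ^ 2) := by
    intro z hz
    refine XX_induction (p := fun z => ‖z‖ ^ 2 ≤ C * (‖rL N (SS a b lam z)‖ ^ 2
      + ‖pr (Sum.inl ()) z‖ ^ 2)) ?_ ?_ z hz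
    · apply isClosed_le
      · fun_prop
      · fun_prop
    · intro u hu he
      rw [norm_jet (jf_memLp hu), norm_TT_jet ha hb hodd hu he, pr_jet,
        norm_tl (jf_memLp hu (Sum.inl ()))]
      exact hap u hu
  refine ⟨Real.sqrt |C|, fun z => ?_⟩
  have h2 := h1 z.1 z.2
  have h3 : ‖z.1‖ ^ 2 ≤ |C| * (‖TT a b lam z‖ + ‖JJ N z‖) ^ 2 := by
    have e1 : ‖TT a b lam z‖ ^ 2 + ‖JJ N z‖ ^ 2 ≤ (‖TT a b lam z‖ + ‖JJ N z‖) ^ 2 := by
      have := mul_nonneg (norm_nonneg (TT a b lam z)) (norm_nonneg (JJ N z))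
      nlinarith
    calc ‖z.1‖ ^ 2 ≤ C * (‖TT a b lam z‖ ^ 2 + ‖JJ N z‖ ^ 2) := h2
      _ ≤ |C| * (‖TT a b lam z‖ ^ 2 + ‖JJ N z‖ ^ 2) :=
        mul_le_mul_of_nonneg_right (le_abs_self C) (by positivity)
      _ ≤ |C| * (‖TT a b lam z‖ + ‖JJ N z‖) ^ 2 := mul_le_mul_of_nonneg_left e1 (abs_nonneg C)
  have h4 := Real.sqrt_le_sqrt h3
  rw [Real.sqrt_sq (norm_nonneg _), Real.sqrt_mul (abs_nonneg C), Real.sqrt_sq (by positivity)] at h4
  exact h4

/-- the lower bound on the space of jets gives injectivity -/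
theorem inj {a : Fin N → E N → Op N} {b : E N → Op N} {lam : ℝ}
    (ha : ∀ i, MemLp (a i) ∞ (volume : Measure (E N)))
    (hb : MemLp (fun x => b x - pt lam x) ∞ (volume : Measure (E N)))
    (hodd : ∀ x, (∀ i, OddOp (a i x)) ∧ OddOp (b x)) (C : ℝ)
    (hap : ∀ u : E N → Lam N, Test u →
      wSq u ≤ C * ((∫ x, ‖opB a b u x‖ ^ 2) + ∫ x, ‖u x‖ ^ 2)) (δ : ℝ) (hδ : 0 < δ)
    (hpos : ∀ u : E N → Lam N, Test u → δ * ∫ x, ‖u x‖ ^ 2 ≤ ∫ x, ‖opB a b u x‖ ^ 2) :
    Function.Injective (TT a b lam) := by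
  have h1 : ∀ z : ZZ N, z ∈ XX N →
      δ * ‖pr (Sum.inl ()) z‖ ^ 2 ≤ ‖rL N (SS a b lam z)‖ ^ 2 := by
    intro z hz
    refine XX_induction (p := fun z => δ * ‖pr (Sum.inl ()) z‖ ^ 2
      ≤ ‖rL N (SS a b lam z)‖ ^ 2) ?_ ?_ z hz
    · apply isClosed_le
      · fun_prop
      · fun_prop
    · intro u hu he
      rw [norm_TT_jet ha hb hodd hu he, pr_jet, norm_tl (jf_memLp hu (Sum.inl ()))]
      exact hpos u hu
  obtain ⟨C', hC'⟩ := est (lam := lam) ha hb hodd C hap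
  rw [injective_iff_map_eq_zero]
  intro z hz
  have h2 : δ * ‖JJ N z‖ ^ 2 ≤ ‖TT a b lam z‖ ^ 2 := h1 z.1 z.2
  rw [hz, norm_zero] at h2
  have h3 : ‖JJ N z‖ = 0 := by
    have h4 : ‖JJ N z‖ ^ 2 ≤ 0 := by
      by_contra h
      push Not at h
      have := mul_pos hδ h
      linarith [show (0 : ℝ) ^ 2 = 0 by norm_num]
    exact pow_eq_zero_iff (two_ne_zero) |>.1 (le_antisymm h4 (sq_nonneg _))
  have h5 := hC' z
  rw [hz, h3, norm_zero, add_zero, mul_zero] at h5
  exact norm_le_zero_iff.1 h5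

/-- the inclusion is compact -/
theorem JJ_compact (N : ℕ) : IsCompactOperator (JJ N) := by
  have h1 : ∀ n : ℕ, ∃ P : L2 N →L[ℝ] L2 N, IsCompactOperator P ∧
      ‖JJ N - P ∘L JJ N‖ ≤ 1 / ((n : ℝ) + 1) := by
    intro n
    obtain ⟨P, hP, hPu⟩ := rellich N ((1 / ((n : ℝ) + 1)) ^ 2) (by positivity)
    refine ⟨P, ?_, ?_⟩
    · have h21 : ProperSpace (LinearMap.range (P : L2 N →ₗ[ℝ] L2 N)) :=
        FiniteDimensional.proper ℝ (LinearMap.range (P : L2 N →ₗ[ℝ] L2 N))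
      have h20 : LocallyCompactSpace (LinearMap.range (P : L2 N →ₗ[ℝ] L2 N)) := inferInstance
      have h2 : IsCompactOperator
          (P.codRestrict (LinearMap.range (P : L2 N →ₗ[ℝ] L2 N)) (fun x => ⟨x, rfl⟩)) :=
        isCompactOperator_of_locallyCompactSpace_dom _
      exact h2.clm_comp (LinearMap.range (P : L2 N →ₗ[ℝ] L2 N)).subtypeL
    · apply ContinuousLinearMap.opNorm_le_bound _ (by positivity)
      intro z
      have h3 : ∀ z : ZZ N, z ∈ XX N →
          ‖pr (Sum.inl ()) z - P (pr (Sum.inl ()) z)‖ ^ 2 ≤ (1 / ((n : ℝ) + 1)) ^ 2 * ‖z‖ ^ 2 := by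
        intro z hz
        refine XX_induction (p := fun z => ‖pr (Sum.inl ()) z - P (pr (Sum.inl ()) z)‖ ^ 2
          ≤ (1 / ((n : ℝ) + 1)) ^ 2 * ‖z‖ ^ 2) ?_ ?_ z hz
        · apply isClosed_le
          · fun_prop
          · fun_prop
        · intro u hu he
          rw [norm_jet (jf_memLp hu), pr_jet]
          exact hPu u hu
      have h4 := h3 z.1 z.2
      rw [← mul_pow] at h4
      exact (sq_le_sq₀ (norm_nonneg _) (by positivity)).1 h4
  choose P hP hPn using h1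
  have h2 : Filter.Tendsto (fun n => P n ∘L JJ N) Filter.atTop (nhds (JJ N)) := by
    refine (tendsto_iff_norm_sub_tendsto_zero (E := XX N →L[ℝ] L2 N)).2 ?_
    have h3 : ∀ n : ℕ, ‖P n ∘L JJ N - JJ N‖ ≤ 1 / ((n : ℝ) + 1) := by
      intro n
      exact (norm_sub_rev (P n ∘L JJ N) (JJ N)).trans_le (hPn n)
    exact squeeze_zero (fun n => norm_nonneg (P n ∘L JJ N - JJ N)) h3
      tendsto_one_div_add_atTop_nhds_zero_nat
  exact isCompactOperator_of_tendsto h2 (Filter.Eventually.of_forall fun n => (hP n).comp_clm (JJ N))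

end IOb

end
end PS
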