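import Pool.Agent.H96.PS.ADefs

/-!
Project PS (MP_b05a29_gt), row A13: an abstract index stability argument for semi-Fredholm
operators from a Banach space to a Hilbert space.
-/

open scoped ContDiff Matrix
open MeasureTheory Set

namespace PS
noncomputable section
variable {N : ℕ}

namespace SemiFred

open Filter Topology

section LinAlg

variable {X Y : Type*} [AddCommGroup X] [Module ℝ X] [AddCommGroup Y] [Module ℝ Y]

/-- `T` has finite dimensional kernel and cokernel, and index `n`. -/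
def IdxEq (T : X →ₗ[ℝ] Y) (n : ℤ) : Prop :=
  FiniteDimensional ℝ (LinearMap.ker T) ∧ FiniteDimensional ℝ (Y ⧸ LinearMap.range T) ∧
    (Module.finrank ℝ (LinearMap.ker T) : ℤ) - Module.finrank ℝ (Y ⧸ LinearMap.range T) = n

lemma idx_iff {X1 K : Submodule ℝ X} (hXK : IsCompl X1 K) (hK : FiniteDimensional ℝ K)
    (T : X →ₗ[ℝ] Y) (hinj : Disjoint (LinearMap.ker T) X1) {V : Submodule ℝ Y}
    (hV : IsCompl (X1.map T) V) (n : ℤ) :
    IdxEq T n ↔ (FiniteDimensional ℝ V ∧ (Module.finrank ℝ K : ℤ) - Module.finrank ℝ V = n) := by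
  set W := X1.map T with hW
  have eX : (X ⧸ X1) ≃ₗ[ℝ] K := Submodule.quotientEquivOfIsCompl X1 K hXK
  have eY : (Y ⧸ W) ≃ₗ[ℝ] V := Submodule.quotientEquivOfIsCompl W V hV
  have hfX : FiniteDimensional ℝ (X ⧸ X1) := eX.symm.finiteDimensional
  let Tb : (X ⧸ X1) →ₗ[ℝ] (Y ⧸ W) := X1.mapQ W T (Submodule.le_comap_map T X1)
  have hTb : ∀ x : X, Tb (X1.mkQ x) = W.mkQ (T x) := fun x => by
    simp [Tb, Submodule.mapQ_apply]
  -- kernels
  let g : LinearMap.ker T →ₗ[ℝ] LinearMap.ker Tb :=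
    LinearMap.codRestrict (LinearMap.ker Tb) (X1.mkQ.comp (LinearMap.ker T).subtype) (by
      intro x
      have hx : T x = 0 := x.2
      simp only [LinearMap.mem_ker, LinearMap.comp_apply, Submodule.subtype_apply]
      rw [hTb, hx, map_zero])
  have hg : Function.Bijective g := by
    constructor
    · rw [injective_iff_map_eq_zero]
      intro x hx
      have h1 : X1.mkQ (x : X) = 0 := congrArg Subtype.val hx
      have h2 : (x : X) ∈ X1 := by simpa using h1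
      have h3 : (x : X) = 0 := Submodule.disjoint_def.1 hinj x x.2 h2
      exact Subtype.ext h3
    · rintro ⟨z, hz⟩
      obtain ⟨x, rfl⟩ := Submodule.mkQ_surjective X1 z
      have h1 : W.mkQ (T x) = 0 := by rw [← hTb]; exact hz
      have h2 : T x ∈ W := by simpa using h1
      obtain ⟨x1, hx1, hx1'⟩ := h2
      refine ⟨⟨x - x1, ?_⟩, ?_⟩
      · simp [LinearMap.mem_ker, hx1']
      · apply Subtype.ext
        change X1.mkQ (x - x1) = X1.mkQ x
        rw [map_sub]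
        have : X1.mkQ x1 = 0 := by simpa using hx1
        rw [this, sub_zero]
  have eK : LinearMap.ker T ≃ₗ[ℝ] LinearMap.ker Tb := LinearEquiv.ofBijective g hg
  have hWle : W ≤ LinearMap.range T := by
    rw [hW]; exact LinearMap.map_le_range
  have hrange : LinearMap.range Tb = (LinearMap.range T).map W.mkQ := by
    ext z
    constructor
    · rintro ⟨q, rfl⟩
      obtain ⟨x, rfl⟩ := Submodule.mkQ_surjective X1 q
      exact ⟨T x, ⟨x, rfl⟩, (hTb x).symm⟩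
    · rintro ⟨_, ⟨x, rfl⟩, rfl⟩
      exact ⟨X1.mkQ x, hTb x⟩
  have eC : ((Y ⧸ W) ⧸ LinearMap.range Tb) ≃ₗ[ℝ] (Y ⧸ LinearMap.range T) := by
    rw [hrange]
    exact Submodule.quotientQuotientEquivQuotient W (LinearMap.range T) hWle
  have hfk : FiniteDimensional ℝ (LinearMap.ker T) := eK.symm.finiteDimensional
  have hfr : FiniteDimensional ℝ (LinearMap.range Tb) := inferInstance
  have hrk := LinearMap.finrank_range_add_finrank_ker Tb
  rw [← eK.finrank_eq, eX.finrank_eq] at hrk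
  constructor
  · rintro ⟨_, h2, h3⟩
    have hfq : FiniteDimensional ℝ ((Y ⧸ W) ⧸ LinearMap.range Tb) := eC.symm.finiteDimensional
    have hfY : FiniteDimensional ℝ (Y ⧸ W) := Module.Finite.of_submodule_quotient (LinearMap.range Tb)
    have hfV : FiniteDimensional ℝ V := eY.finiteDimensional
    refine ⟨hfV, ?_⟩
    have h4 := Submodule.finrank_quotient_add_finrank (LinearMap.range Tb)
    rw [eC.finrank_eq, eY.finrank_eq] at h4
    omega
  · rintro ⟨hfV, h3⟩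
    have hfY : FiniteDimensional ℝ (Y ⧸ W) := eY.symm.finiteDimensional
    have hfq : FiniteDimensional ℝ ((Y ⧸ W) ⧸ LinearMap.range Tb) := inferInstance
    have hfc : FiniteDimensional ℝ (Y ⧸ LinearMap.range T) := eC.finiteDimensional
    refine ⟨hfk, hfc, ?_⟩
    have h4 := Submodule.finrank_quotient_add_finrank (LinearMap.range Tb)
    rw [eC.finrank_eq, eY.finrank_eq] at h4
    omega

end LinAlg

section Analysis

variable {X Y Y' : Type*} [NormedAddCommGroup X] [NormedSpace ℝ X]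
    [CompleteSpace X] [NormedAddCommGroup Y] [InnerProductSpace ℝ Y] [CompleteSpace Y]
    [NormedAddCommGroup Y'] [NormedSpace ℝ Y']

omit [CompleteSpace Y] in
lemma closedEmb (T : X →L[ℝ] Y) (J : X →L[ℝ] Y') (C : ℝ)
    (hap : ∀ x, ‖x‖ ≤ C * (‖T x‖ + ‖J x‖)) : IsClosedEmbedding (T.prod J) := by
  have hanti : AntilipschitzWith (Real.toNNReal (2 * |C|)) (T.prod J) := by
    refine AddMonoidHomClass.antilipschitz_of_bound (T.prod J) ?_
    intro x
    rw [Real.coe_toNNReal _ (by positivity)]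
    have h1 : ‖T x‖ ≤ ‖(T.prod J) x‖ := norm_fst_le ((T.prod J) x)
    have h2 : ‖J x‖ ≤ ‖(T.prod J) x‖ := norm_snd_le ((T.prod J) x)
    calc ‖x‖ ≤ C * (‖T x‖ + ‖J x‖) := hap x
      _ ≤ |C| * (‖T x‖ + ‖J x‖) := by
          gcongr; exact le_abs_self C
      _ ≤ |C| * (‖(T.prod J) x‖ + ‖(T.prod J) x‖) := by gcongr
      _ = 2 * |C| * ‖(T.prod J) x‖ := by ring
  exact hanti.isClosedEmbedding (T.prod J).uniformContinuous

omit [CompleteSpace X] in
lemma compact_J (J : X →L[ℝ] Y') (hJ : IsCompactOperator J) :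
    ∃ Q : Set Y', IsCompact Q ∧ ∀ x : X, ‖x‖ ≤ 1 → J x ∈ Q := by
  obtain ⟨Q, hQ, hsub⟩ := hJ.image_closedBall_subset_compact 1
  refine ⟨Q, hQ, fun x hx => hsub ⟨x, ?_, rfl⟩⟩
  simpa using hx

omit [CompleteSpace Y] in
lemma finDim_ker (T : X →L[ℝ] Y) (J : X →L[ℝ] Y') (hJ : IsCompactOperator J) (C : ℝ)
    (hap : ∀ x, ‖x‖ ≤ C * (‖T x‖ + ‖J x‖)) : FiniteDimensional ℝ (LinearMap.ker (T : X →ₗ[ℝ] Y)) := by
  obtain ⟨Q, hQ, hJQ⟩ := compact_J J hJ
  have hemb := closedEmb T J C hap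
  have hc : IsCompact ((T.prod J) ⁻¹' (({0} : Set Y) ×ˢ Q)) :=
    hemb.isCompact_preimage (isCompact_singleton.prod hQ)
  have hcl : IsClosed ((LinearMap.ker (T : X →ₗ[ℝ] Y) : Submodule ℝ X) : Set X) := T.isClosed_ker
  have hball : IsCompact (Metric.closedBall (0 : LinearMap.ker (T : X →ₗ[ℝ] Y)) 1) := by
    have hval : IsClosedEmbedding ((↑) : LinearMap.ker (T : X →ₗ[ℝ] Y) → X) :=
      hcl.isClosedEmbedding_subtypeVal
    refine (hval.isCompact_preimage hc).of_isClosed_subset Metric.isClosed_closedBall ?_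
    intro x hx
    have hx1 : ‖(x : X)‖ ≤ 1 := by simpa using hx
    have hx0 : T (x : X) = 0 := x.2
    refine ⟨?_, hJQ _ hx1⟩
    simp [hx0]
  exact FiniteDimensional.of_isCompact_closedBall ℝ one_pos hball

omit [CompleteSpace Y] in
lemma bdd_below (T : X →L[ℝ] Y) (J : X →L[ℝ] Y') (hJ : IsCompactOperator J) (C : ℝ)
    (hap : ∀ x, ‖x‖ ≤ C * (‖T x‖ + ‖J x‖)) (X1 : Submodule ℝ X) (hX1 : IsClosed (X1 : Set X))
    (hd : Disjoint (LinearMap.ker (T : X →ₗ[ℝ] Y)) X1) :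
    ∃ c > 0, ∀ x ∈ X1, c * ‖x‖ ≤ ‖T x‖ := by
  by_contra hcon
  push Not at hcon
  have hseq : ∀ n : ℕ, ∃ u ∈ X1, ‖u‖ = 1 ∧ ‖T u‖ ≤ 1 / ((n : ℝ) + 1) := by
    intro n
    obtain ⟨x, hx, hlt⟩ := hcon (1 / ((n : ℝ) + 1)) (by positivity)
    have hx0 : x ≠ 0 := by
      rintro rfl
      simp at hlt
    have hn : 0 < ‖x‖ := norm_pos_iff.2 hx0
    refine ⟨(‖x‖)⁻¹ • x, X1.smul_mem _ hx, ?_, ?_⟩
    · rw [norm_smul, norm_inv, norm_norm, inv_mul_cancel₀ hn.ne']
    · rw [map_smul, norm_smul, norm_inv, norm_norm, inv_mul_le_iff₀ hn]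
      linarith
  choose u hu1 hun hTu using hseq
  obtain ⟨Q, hQ, hJQ⟩ := compact_J J hJ
  obtain ⟨y, -, φ, hφ, hlim⟩ := hQ.tendsto_subseq (x := fun n => J (u n))
    (fun n => hJQ _ (hun n).le)
  have hT0 : Tendsto (fun n => T (u (φ n))) atTop (𝓝 0) := by
    refine squeeze_zero_norm (fun n => hTu (φ n)) ?_
    exact (tendsto_one_div_add_atTop_nhds_zero_nat (𝕜 := ℝ)).comp hφ.tendsto_atTop
  have hemb := closedEmb T J C hap
  have hpair : Tendsto (fun n => (T.prod J) (u (φ n))) atTop (𝓝 ((0 : Y), y)) :=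
    hT0.prodMk_nhds hlim
  have hmem : ((0 : Y), y) ∈ Set.range (T.prod J) :=
    hemb.isClosed_range.mem_of_tendsto hpair (Eventually.of_forall fun n => ⟨_, rfl⟩)
  obtain ⟨x, hx⟩ := hmem
  rw [← hx] at hpair
  have hux : Tendsto (fun n => u (φ n)) atTop (𝓝 x) := by
    rw [hemb.isInducing.tendsto_nhds_iff]
    exact hpair
  have hx1 : x ∈ X1 := hX1.mem_of_tendsto hux (Eventually.of_forall fun n => hu1 _)
  have hxn : ‖x‖ = 1 := by
    have h1 := hux.norm
    have h2 : (fun n => ‖u (φ n)‖) = fun _ => (1 : ℝ) := by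
      funext n; exact hun _
    rw [h2] at h1
    exact (tendsto_nhds_unique h1 tendsto_const_nhds)
  have hTx : T x = 0 := congrArg Prod.fst hx
  have hx0 : x = 0 := Submodule.disjoint_def.1 hd x hTx hx1
  rw [hx0, norm_zero] at hxn
  exact zero_ne_one hxn

theorem exists_good (T : X →L[ℝ] Y) (J : X →L[ℝ] Y') (hJ : IsCompactOperator J) (C : ℝ)
    (hap : ∀ x, ‖x‖ ≤ C * (‖T x‖ + ‖J x‖)) :
    ∃ (K X1 : Submodule ℝ X) (V : Submodule ℝ Y), FiniteDimensional ℝ K ∧ IsCompl X1 K ∧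
      ∀ᶠ S : X →L[ℝ] Y in 𝓝 T, Disjoint (LinearMap.ker (S : X →ₗ[ℝ] Y)) X1 ∧
        IsCompl (X1.map (S : X →ₗ[ℝ] Y)) V := by
  have hK := finDim_ker T J hJ C hap
  obtain ⟨X1, hX1c, hcompl⟩ :=
    (Submodule.ClosedComplemented.of_finiteDimensional
      (LinearMap.ker (T : X →ₗ[ℝ] Y))).exists_isClosed_isCompl
  obtain ⟨c, hc, hcb⟩ := bdd_below T J hJ C hap X1 hX1c hcompl.disjoint
  have : CompleteSpace X1 := hX1c.completeSpace_coe
  let T1 : X1 →L[ℝ] Y := T.comp X1.subtypeL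
  have hT1 : ∀ x : X1, T1 x = T (x : X) := fun _ => rfl
  have hanti : AntilipschitzWith (Real.toNNReal (c⁻¹)) T1 := by
    refine AddMonoidHomClass.antilipschitz_of_bound T1 ?_
    intro x
    rw [Real.coe_toNNReal _ (by positivity)]
    have := hcb x x.2
    rw [hT1]
    have h2 : ‖(x : X)‖ ≤ c⁻¹ * ‖T (x : X)‖ := by
      rw [le_inv_mul_iff₀ hc]; exact this
    exact h2
  let R : Submodule ℝ Y := LinearMap.range (T1 : X1 →ₗ[ℝ] Y)
  have hRc : IsClosed (R : Set Y) := hanti.isClosed_range T1.uniformContinuous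
  have : CompleteSpace R := hRc.completeSpace_coe
  let A0 : X1 →L[ℝ] R := T1.codRestrict R (fun x => ⟨x, rfl⟩)
  have hA0inj : LinearMap.ker (A0 : X1 →ₗ[ℝ] R) = ⊥ := by
    rw [LinearMap.ker_eq_bot']
    intro x hx
    have h1 : T1 x = 0 := congrArg Subtype.val hx
    have := hanti.injective
    exact this (by rw [h1, map_zero])
  have hA0surj : LinearMap.range (A0 : X1 →ₗ[ℝ] R) = ⊤ := by
    rw [LinearMap.range_eq_top]
    rintro ⟨_, ⟨x, rfl⟩⟩
    exact ⟨x, rfl⟩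
  let A : X1 ≃L[ℝ] R := ContinuousLinearEquiv.ofBijective A0 hA0inj hA0surj
  have hA : (A : X1 →L[ℝ] R) = A0 := ContinuousLinearEquiv.coe_ofBijective A0 hA0inj hA0surj
  let P : Y →L[ℝ] R := R.orthogonalProjectionOnto
  let B : (X →L[ℝ] Y) → (X1 →L[ℝ] R) := fun S => P.comp (S.comp X1.subtypeL)
  have hB : ∀ S x, B S x = P (S (x : X)) := fun _ _ => rfl
  have hBc : Continuous B :=
    continuous_const.clm_comp (continuous_id.clm_comp continuous_const)
  have hBT : B T = (A : X1 →L[ℝ] R) := by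
    rw [hA]
    ext x
    rw [hB]
    have hmem : T (x : X) ∈ R := ⟨x, rfl⟩
    exact Submodule.starProjection_eq_self_iff.2 hmem
  have hnh : Set.range ((↑) : (X1 ≃L[ℝ] R) → (X1 →L[ℝ] R)) ∈ 𝓝 (B T) := by
    rw [hBT]; exact A.nhds
  refine ⟨LinearMap.ker (T : X →ₗ[ℝ] Y), X1, Rᗮ, hK, hcompl.symm, ?_⟩
  filter_upwards [hBc.continuousAt.preimage_mem_nhds hnh] with S hS
  obtain ⟨e, he⟩ := hS
  have heS : ∀ x : X1, e x = P (S (x : X)) := by
    intro x
    have : (e : X1 →L[ℝ] R) x = B S x := by rw [he]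
    exact this
  have hperp : ∀ y : Y, P y = 0 ↔ y ∈ Rᗮ := fun y => Submodule.orthogonalProjectionOnto_eq_zero_iff
  refine ⟨?_, ?_⟩
  · rw [Submodule.disjoint_def]
    intro x hx hx1
    have h1 : e ⟨x, hx1⟩ = 0 := by
      rw [heS]
      have : S x = 0 := hx
      simp [this]
    have h2 : (⟨x, hx1⟩ : X1) = 0 := by
      apply e.injective; rw [h1, map_zero]
    exact congrArg Subtype.val h2
  · constructor
    · rw [Submodule.disjoint_def]
      rintro _ ⟨x, hx1, rfl⟩ hy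
      have h1 : e ⟨x, hx1⟩ = 0 := by
        rw [heS]
        exact (hperp _).2 hy
      have h2 : (⟨x, hx1⟩ : X1) = 0 := by
        apply e.injective; rw [h1, map_zero]
      have h3 : x = 0 := congrArg Subtype.val h2
      rw [h3, map_zero]
    · rw [codisjoint_iff, eq_top_iff]
      intro y _
      rw [Submodule.mem_sup]
      refine ⟨S (e.symm (P y) : X1), ⟨_, (e.symm (P y)).2, rfl⟩,
        y - S (e.symm (P y) : X1), ?_, by abel⟩
      rw [← hperp, map_sub, ← heS, e.apply_symm_apply, sub_self]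

end Analysis

end SemiFred

/-! ### row A6 (SemiFred.lean): abstract index stability -/
theorem semiFredholm_obstruction {X Y Y' : Type*} [NormedAddCommGroup X] [NormedSpace ℝ X]
    [CompleteSpace X] [NormedAddCommGroup Y] [InnerProductSpace ℝ Y] [CompleteSpace Y]
    [NormedAddCommGroup Y'] [NormedSpace ℝ Y']
    (T : ℝ → (X →L[ℝ] Y)) (J : X →L[ℝ] Y') (hJ : IsCompactOperator J)
    (hT : ContinuousOn T (Icc 0 1))
    (hap : ∀ t ∈ Icc (0 : ℝ) 1, ∃ C : ℝ, ∀ x, ‖x‖ ≤ C * (‖T t x‖ + ‖J x‖))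
    (h0s : Function.Surjective (T 0)) (h0k : ∃ x, x ≠ 0 ∧ T 0 x = 0)
    (h1 : Function.Injective (T 1)) : False := by
  classical
  open SemiFred Filter Topology in
  have hconst : ∀ n : ℤ, IsLocallyConstant
      (fun t : Icc (0 : ℝ) 1 => IdxEq ((T t : X →L[ℝ] Y) : X →ₗ[ℝ] Y) n) := by
    intro n
    rw [IsLocallyConstant.iff_eventually_eq]
    intro t
    obtain ⟨C, hC⟩ := hap t t.2
    obtain ⟨K, X1, V, hK, hc, hev⟩ := exists_good (T t) J hJ C hC
    have hcont : Continuous (fun s : Icc (0 : ℝ) 1 => T s) := continuousOn_iff_continuous_domRestrict.1 hT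
    have hev' := (hcont.tendsto t).eventually hev
    have ht := hev.self_of_nhds
    filter_upwards [hev'] with s hs
    apply propext
    rw [idx_iff hc hK _ hs.1 hs.2 n, idx_iff hc hK _ ht.1 ht.2 n]
  obtain ⟨C0, hC0⟩ := hap 0 ⟨le_rfl, zero_le_one⟩
  have hfk := SemiFred.finDim_ker (T 0) J hJ C0 hC0
  have hr0 : LinearMap.range ((T 0 : X →L[ℝ] Y) : X →ₗ[ℝ] Y) = ⊤ := LinearMap.range_eq_top.2 h0s
  have hsub : Subsingleton (Y ⧸ LinearMap.range ((T 0 : X →L[ℝ] Y) : X →ₗ[ℝ] Y)) := by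
    rw [hr0]; infer_instance
  have hfin0 : FiniteDimensional ℝ (Y ⧸ LinearMap.range ((T 0 : X →L[ℝ] Y) : X →ₗ[ℝ] Y)) :=
    Module.Finite.of_finite
  have hzero : Module.finrank ℝ (Y ⧸ LinearMap.range ((T 0 : X →L[ℝ] Y) : X →ₗ[ℝ] Y)) = 0 :=
    Module.finrank_zero_of_subsingleton
  have hpos : 0 < Module.finrank ℝ (LinearMap.ker ((T 0 : X →L[ℝ] Y) : X →ₗ[ℝ] Y)) := by
    obtain ⟨x, hx, hTx⟩ := h0k
    have : Nontrivial (LinearMap.ker ((T 0 : X →L[ℝ] Y) : X →ₗ[ℝ] Y)) :=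
      ⟨⟨x, hTx⟩, 0, fun h => hx (congrArg Subtype.val h)⟩
    exact Module.finrank_pos
  set n0 : ℤ := (Module.finrank ℝ (LinearMap.ker ((T 0 : X →L[ℝ] Y) : X →ₗ[ℝ] Y)) : ℤ) with hn0
  have h0 : SemiFred.IdxEq ((T 0 : X →L[ℝ] Y) : X →ₗ[ℝ] Y) n0 :=
    ⟨hfk, hfin0, by rw [hzero, hn0]; simp⟩
  have heq := (hconst n0).apply_eq_of_preconnectedSpace
    (⟨0, ⟨le_rfl, zero_le_one⟩⟩ : Icc (0 : ℝ) 1) (⟨1, ⟨zero_le_one, le_rfl⟩⟩ : Icc (0 : ℝ) 1)
  have h1' : SemiFred.IdxEq ((T 1 : X →L[ℝ] Y) : X →ₗ[ℝ] Y) n0 := by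
    have := heq.mp h0
    exact this
  obtain ⟨_, _, h3⟩ := h1'
  have hker1 : LinearMap.ker ((T 1 : X →L[ℝ] Y) : X →ₗ[ℝ] Y) = ⊥ := LinearMap.ker_eq_bot.2 h1
  rw [hker1, finrank_bot] at h3
  have : (0 : ℤ) < n0 := by rw [hn0]; exact_mod_cast hpos
  omega

end
end PS
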