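import Pool.Agent.H96.PS.ADefs
import Pool.Agent.H96.PS.SemiFred
import Pool.Agent.H96.PS.Rellich
import Pool.Agent.H96.PS.FlatOdd
import Pool.Agent.H96.PS.FlatDense
import Pool.Agent.H96.PS.FlatGau
import Pool.Agent.H96.PS.IndexObs_c
import Pool.Agent.DC.C.Index

/-!
Project PS (MP_b05a29_gt), row A18: the index obstruction.
-/

open scoped ContDiff Matrix ENNReal
open MeasureTheory Set

namespace PS
noncomputable section
variable {N : ℕ}

namespace IOb

theorem contDiff_gau (lam : ℝ) : ContDiff ℝ ∞ (gau lam : E N → Lam N) := by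
  unfold gau
  have h1 : ContDiff ℝ ∞ (fun x : E N => Real.exp (-(lam / 2) * ‖x‖ ^ 2)) :=
    (contDiff_const.mul (contDiff_norm_sq ℝ)).exp
  exact h1.smul contDiff_const

theorem jf_continuous {u : E N → Lam N} (hu : ContDiff ℝ ∞ u) (k : KK N) : Continuous (jf u k) := by
  rcases k with k | (i | i)
  · exact hu.continuous
  · have h1 : Continuous (fderiv ℝ u) := hu.continuous_fderiv (by simp)
    exact h1.clm_apply continuous_const
  · have h1 : Continuous (fun x : E N => x i) := (EuclideanSpace.proj (𝕜 := ℝ) i).continuous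
    exact h1.smul hu.continuous

theorem jf_memLp_of_int {w : E N → Lam N} (hw : ContDiff ℝ ∞ w)
    (hi : Integrable (fun x : E N => ‖w x‖ ^ 2 + ∑ i, ‖pd i w x‖ ^ 2
        + ‖x‖ ^ 2 * ‖w x‖ ^ 2)) (k : KK N) : MemLp (jf w k) 2 (volume : Measure (E N)) := by
  have hc := jf_continuous hw k
  rw [memLp_two_iff_integrable_sq_norm hc.aestronglyMeasurable]
  apply hi.mono' (by fun_prop)
  refine Filter.Eventually.of_forall fun x => ?_
  rw [← sum_jf w x, Real.norm_of_nonneg (by positivity)]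
  exact Finset.single_le_sum (f := fun k => ‖jf w k x‖ ^ 2) (fun k _ => sq_nonneg _)
    (Finset.mem_univ k)

theorem gau_data (lam : ℝ) (hlam : 0 < lam) (ε : ℝ) (hε : 0 < ε) :
    ∃ u : E N → Lam N, Test u ∧ (∀ x, EvenV (u x)) ∧
      (∀ k, MemLp (jf (gau lam : E N → Lam N) k) 2 (volume : Measure (E N))) ∧
      ‖jet u - jet (gau lam : E N → Lam N)‖ ^ 2 < ε := by
  obtain ⟨u, hu, he, -, hw, hi⟩ := gau_approx (N := N) lam hlam ε hε
  have hg := contDiff_gau (N := N) lam
  have h1 : ∀ k, MemLp (jf (fun x => u x - gau lam x) k) 2 (volume : Measure (E N)) :=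
    jf_memLp_of_int (hu.1.sub hg) hi
  have hd : ∀ k, jf (fun x => u x - gau lam x) k = fun x => jf u k x - jf (gau lam) k x :=
    jf_sub (hu.1.differentiable (by simp)) (hg.differentiable (by simp))
  have h2 : ∀ k, MemLp (jf (gau lam : E N → Lam N) k) 2 (volume : Measure (E N)) := by
    intro k
    have h3 : MemLp (fun x => jf u k x - (jf u k x - jf (gau lam) k x)) 2
        (volume : Measure (E N)) := by
      have h6 := (jf_memLp hu k).sub (h1 k)
      rw [hd k] at h6
      exact h6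
    have h5 : (fun x => jf u k x - (jf u k x - jf (gau lam) k x)) = jf (gau lam) k := by
      funext x
      exact sub_sub_cancel _ _
    rw [h5] at h3
    exact h3
  refine ⟨u, hu, he, h2, ?_⟩
  have h4 : jet u - jet (gau lam : E N → Lam N) = jet (fun x => u x - gau lam x) := by
    ext1 k
    change tl (jf u k) - tl (jf (gau lam) k) = tl (jf (fun x => u x - gau lam x) k)
    rw [hd k, tl_sub (jf_memLp hu k) (h2 k)]
  rw [h4, norm_jet h1]
  exact hw

theorem gau_memLp (lam : ℝ) (hlam : 0 < lam) (k : KK N) :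
    MemLp (jf (gau lam : E N → Lam N) k) 2 (volume : Measure (E N)) := by
  obtain ⟨u, -, -, h, -⟩ := gau_data (N := N) lam hlam 1 one_pos
  exact h k

theorem gau_mem (lam : ℝ) (hlam : 0 < lam) : jet (gau lam : E N → Lam N) ∈ XX N := by
  have h1 : jet (gau lam : E N → Lam N) ∈ closure (XX N : Set (ZZ N)) := by
    rw [Metric.mem_closure_iff]
    intro ε hε
    obtain ⟨u, hu, he, -, h⟩ := gau_data (N := N) lam hlam (ε ^ 2) (by positivity)
    refine ⟨jet u, jet_mem hu he, ?_⟩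
    rw [dist_comm, dist_eq_norm]
    exact (sq_lt_sq₀ (norm_nonneg _) hε.le).1 h
  rwa [isClosed_XX.closure_eq] at h1

theorem gau_ne (lam : ℝ) (x : E N) : (gau lam x : Lam N) ≠ 0 := by
  unfold gau
  intro h
  rw [smul_eq_zero] at h
  rcases h with h | h
  · exact (Real.exp_pos _).ne' h
  · have h2 := congrArg (fun v : Lam N => v ∅) h
    simp at h2

theorem jet_gau_ne (lam : ℝ) (hlam : 0 < lam) : jet (gau lam : E N → Lam N) ≠ 0 := by
  intro h
  have h1 : tl (gau lam : E N → Lam N) = 0 := by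
    have := congrArg (pr (Sum.inl ())) h
    rwa [pr_jet, map_zero] at this
  have h2 := coe_tl (gau_memLp (N := N) lam hlam (Sum.inl ()))
  have h3 : (tl (jf (gau lam : E N → Lam N) (Sum.inl ())) : E N → Lam N) =ᵐ[volume] 0 := by
    have h4 : tl (jf (gau lam : E N → Lam N) (Sum.inl ())) = 0 := h1
    rw [h4]
    exact Lp.coeFn_zero _ _ _
  have h5 : ∀ᵐ x : E N, False := by
    filter_upwards [h2, h3] with x e1 e2
    rw [e2] at e1
    exact gau_ne lam x e1.symm
  have h6 : (volume : Measure (E N)) univ = 0 := by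
    have := ae_iff.1 h5
    simpa using this
  have h7 : (volume : Measure (E N)) = 0 := Measure.measure_univ_eq_zero.1 h6
  exact (NeZero.ne (volume : Measure (E N))) h7

theorem dense_range (a : Fin N → E N → Op N) (b : E N → Op N) (lam : ℝ) (hlam : 0 < lam)
    (h0 : ∀ x : E N, (∀ i, a i x = cl i) ∧ b x = lam • ∑ i, x i • ep i)
    (ha : ∀ i, MemLp (a i) ∞ (volume : Measure (E N)))
    (hb : MemLp (fun x => b x - pt lam x) ∞ (volume : Measure (E N))) :
    (TT a b lam).rangeᗮ = ⊥ := by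
  have hB : ∀ (u : E N → Lam N) (x : E N), opB a b u x = B0 lam u x := by
    intro u x
    unfold opB B0
    rw [(h0 x).2]
    simp only [(h0 x).1, smul_apply, sum_apply]
  rw [Submodule.eq_bot_iff]
  intro w hw
  have hw1 : MemLp (w : E N → LamO N) 2 (volume : Measure (E N)) := Lp.memLp w
  have hv : MemLp (fun x => eO N (w x)) 2 (volume : Measure (E N)) := (eO N).comp_memLp' hw1
  have h1 : (fun x => eO N (w x)) =ᵐ[volume] (0 : E N → Lam N) := by
    apply flat_dense lam hlam _ hv (fun x => eO_odd _)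
    intro u hu he
    have h2 := (Submodule.mem_orthogonal' _ _).1 hw (TT a b lam ⟨jet u, jet_mem hu he⟩) ⟨_, rfl⟩
    rw [L2.inner_def] at h2
    rw [← h2]
    apply integral_congr_ae
    have h3 := coe_SS ha hb (jf_memLp hu)
    filter_upwards [h3, coe_rL (SS a b lam (jet u))] with x e1 e2
    have e3 : (TT a b lam ⟨jet u, jet_mem hu he⟩ : E N → LamO N) x = rO N (B0 lam u x) := by
      rw [← hB, ← e1, ← e2]
      rfl
    rw [e3, inner_eO]
  apply Lp.ext
  filter_upwards [h1, Lp.coeFn_zero (LamO N) 2 (volume : Measure (E N))] with x e1 e2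
  rw [e2, ← rO_eO (w x), e1]
  exact map_zero _

end IOb

open PS.IOb

/-! ### row A5-2 (IndexObs.lean): the index obstruction -/
theorem index_obstruction (a : ℝ → Fin N → E N → (Lam N →L[ℝ] Lam N))
    (b : ℝ → E N → (Lam N →L[ℝ] Lam N)) (lam R : ℝ) (hlam : 0 < lam)
    (ha : ∀ i, ContinuousOn (fun q : ℝ × E N => a q.1 i q.2) (Icc 0 1 ×ˢ univ))
    (hb : ContinuousOn (fun q : ℝ × E N => b q.1 q.2) (Icc 0 1 ×ˢ univ))
    (hinf : ∀ t ∈ Icc (0 : ℝ) 1, ∀ x : E N, R ≤ ‖x‖ →
      (∀ i, a t i x = cl i) ∧ b t x = lam • ∑ i, x i • ep i)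
    (h0 : ∀ x : E N, (∀ i, a 0 i x = cl i) ∧ b 0 x = lam • ∑ i, x i • ep i)
    (hodd : ∀ t ∈ Icc (0 : ℝ) 1, ∀ x, (∀ i, OddOp (a t i x)) ∧ OddOp (b t x))
    (hap : ∀ t ∈ Icc (0 : ℝ) 1, ∃ C : ℝ, ∀ u : E N → Lam N, Test u →
      wSq u ≤ C * ((∫ x, ‖opB (a t) (b t) u x‖ ^ 2) + ∫ x, ‖u x‖ ^ 2))
    (δ : ℝ) (hδ : 0 < δ)
    (hpos : ∀ u : E N → Lam N, Test u →
      δ * ∫ x, ‖u x‖ ^ 2 ≤ ∫ x, ‖opB (a 1) (b 1) u x‖ ^ 2) : False := by
  have m0 : (0 : ℝ) ∈ Icc (0 : ℝ) 1 := ⟨le_rfl, zero_le_one⟩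
  have m1 : (1 : ℝ) ∈ Icc (0 : ℝ) 1 := ⟨zero_le_one, le_rfl⟩
  have hm := memLp_coeff a b lam R ha hb hinf
  have hS := continuousOn_SS a b lam R ha hb hinf
  have hT : ContinuousOn (fun t => TT (a t) (b t) lam) (Icc 0 1) := by
    unfold TT
    exact (continuousOn_const.clm_comp hS).clm_comp continuousOn_const
  have hest : ∀ t ∈ Icc (0 : ℝ) 1, ∃ C' : ℝ, ∀ z : XX N,
      ‖z‖ ≤ C' * (‖TT (a t) (b t) lam z‖ + ‖JJ N z‖) := by
    intro t ht
    obtain ⟨C, hC⟩ := hap t ht
    exact est (hm t ht).1 (hm t ht).2.1 (hodd t ht) C hC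
  have hcl : IsClosed ((TT (a 0) (b 0) lam).range : Set (YY N)) := by
    obtain ⟨C', hC'⟩ := hest 0 m0
    exact Pool.Agent.DC.isClosed_range_of_estimate _ (JJ N) (JJ_compact N) C' hC'
  have hsurj : Function.Surjective (TT (a 0) (b 0) lam) := by
    have h1 := dense_range (a 0) (b 0) lam hlam h0 (hm 0 m0).1 (hm 0 m0).2.1
    have h2 : (TT (a 0) (b 0) lam).range.topologicalClosure = ⊤ :=
      Submodule.topologicalClosure_eq_top_iff.2 h1
    have h3 : (TT (a 0) (b 0) lam).range = ⊤ := by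
      rw [← h2, hcl.submodule_topologicalClosure_eq]
    exact LinearMap.range_eq_top.1 h3
  have hker : ∃ z : XX N, z ≠ 0 ∧ TT (a 0) (b 0) lam z = 0 := by
    refine ⟨⟨jet (gau lam), gau_mem lam hlam⟩, ?_, ?_⟩
    · intro h
      exact jet_gau_ne lam hlam (congrArg Subtype.val h)
    · have h1 := coe_SS (hm 0 m0).1 (hm 0 m0).2.1 (gau_memLp (N := N) lam hlam)
      have h2 : SS (a 0) (b 0) lam (jet (gau lam)) = 0 := by
        apply Lp.ext
        filter_upwards [h1, Lp.coeFn_zero (Lam N) 2 (volume : Measure (E N))] with x e1 e2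
        rw [e1, e2, Pi.zero_apply, ← gau_ker lam hlam x]
        unfold opB B0
        rw [(h0 x).2]
        simp only [(h0 x).1, smul_apply, sum_apply]
      change rL N (SS (a 0) (b 0) lam (jet (gau lam))) = 0
      rw [h2, map_zero]
  have hinj : Function.Injective (TT (a 1) (b 1) lam) := by
    obtain ⟨C, hC⟩ := hap 1 m1
    exact inj (hm 1 m1).1 (hm 1 m1).2.1 (hodd 1 m1) C hC δ hδ hpos
  exact semiFredholm_obstruction (fun t => TT (a t) (b t) lam) (JJ N) (JJ_compact N) hT hest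
    hsurj hker hinj

end
end PS
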