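import Pool.Agent.H96.PS.ADefs

/-!
Project PS (MP_b05a29_gt), row A2: smooth Gram-Schmidt.
-/

open scoped ContDiff Matrix
open MeasureTheory Set

namespace PS
noncomputable section
variable {N : ℕ}

namespace FrameAux

/-- the symmetric bilinear form of `(M + Mᵀ)/2` -/
def bil (M : Fin N → Fin N → ℝ) (v w : Fin N → ℝ) : ℝ :=
  ∑ i, ∑ j, v i * ((M i j + M j i) / 2) * w j

theorem bil_comm (M : Fin N → Fin N → ℝ) (v w : Fin N → ℝ) : bil M v w = bil M w v := by
  unfold bil
  rw [Finset.sum_comm]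
  refine Finset.sum_congr rfl fun i _ => Finset.sum_congr rfl fun j _ => ?_
  ring

theorem bil_sub_left (M : Fin N → Fin N → ℝ) (u v w : Fin N → ℝ) :
    bil M (fun i => u i - v i) w = bil M u w - bil M v w := by
  unfold bil
  rw [← Finset.sum_sub_distrib]
  refine Finset.sum_congr rfl fun i _ => ?_
  rw [← Finset.sum_sub_distrib]
  refine Finset.sum_congr rfl fun j _ => ?_
  ring

theorem bil_smul_left (M : Fin N → Fin N → ℝ) (c : ℝ) (v w : Fin N → ℝ) :
    bil M (fun i => c * v i) w = c * bil M v w := by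
  unfold bil
  rw [Finset.mul_sum]
  refine Finset.sum_congr rfl fun i _ => ?_
  rw [Finset.mul_sum]
  refine Finset.sum_congr rfl fun j _ => ?_
  ring

theorem bil_smul_right (M : Fin N → Fin N → ℝ) (c : ℝ) (v w : Fin N → ℝ) :
    bil M v (fun i => c * w i) = c * bil M v w := by
  rw [bil_comm, bil_smul_left, bil_comm]

theorem bil_sum_left {ι : Type*} (s : Finset ι) (M : Fin N → Fin N → ℝ) (f : ι → Fin N → ℝ)
    (w : Fin N → ℝ) :
    bil M (fun i => ∑ b ∈ s, f b i) w = ∑ b ∈ s, bil M (f b) w := by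
  unfold bil
  simp only [Finset.sum_mul]
  rw [Finset.sum_comm' (s := s) (t := fun _ => Finset.univ) (s' := fun _ => s)
    (t' := Finset.univ) (by simp)]
  refine Finset.sum_congr rfl fun i _ => ?_
  exact Finset.sum_comm

theorem bil_pos {M : Fin N → Fin N → ℝ} (hM : (Matrix.of M + (Matrix.of M)ᵀ).PosDef)
    {v : Fin N → ℝ} (hv : v ≠ 0) : 0 < bil M v v := by
  have h := hM.dotProduct_mulVec_pos hv
  have : star v ⬝ᵥ ((Matrix.of M + (Matrix.of M)ᵀ).mulVec v) = 2 * bil M v v := by
    unfold bil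
    simp only [dotProduct, Matrix.mulVec, Pi.star_apply, star_trivial, Finset.mul_sum,
      Matrix.add_apply, Matrix.of_apply, Matrix.transpose_apply]
    refine Finset.sum_congr rfl fun i _ => Finset.sum_congr rfl fun j _ => ?_
    ring
  rw [this] at h
  linarith

/-- the un-normalised Gram-Schmidt vectors -/
def gsU (M : Fin N → Fin N → ℝ) (a : Fin N) : Fin N → ℝ :=
  fun i => (Pi.single a (1 : ℝ) : Fin N → ℝ) i -
    ∑ b : {b : Fin N // b < a}, (bil M (Pi.single a 1) (gsU M b.1) /
      bil M (gsU M b.1) (gsU M b.1)) * gsU M b.1 i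
termination_by a.val
decreasing_by
  all_goals exact b.2

theorem gsU_def (M : Fin N → Fin N → ℝ) (a : Fin N) :
    gsU M a = fun i => (Pi.single a (1 : ℝ) : Fin N → ℝ) i -
    ∑ b ∈ Finset.univ.filter (· < a), (bil M (Pi.single a 1) (gsU M b) /
      bil M (gsU M b) (gsU M b)) * gsU M b i := by
  funext i
  rw [gsU]
  congr 1
  rw [← Finset.sum_subtype_eq_sum_filter]
  simp only [Finset.subtype_univ]

theorem gsU_apply_gt (M : Fin N → Fin N → ℝ) : ∀ n : ℕ, ∀ a i : Fin N, a.val = n → a < i →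
    gsU M a i = 0 := by
  intro n
  induction n using Nat.strong_induction_on with
  | _ n ih =>
    intro a i han hai
    rw [gsU_def]
    simp only
    rw [Pi.single_eq_of_ne (ne_of_gt hai), Finset.sum_eq_zero, sub_zero]
    intro b hb
    rw [Finset.mem_filter] at hb
    rw [ih b.val (by rw [← han]; exact hb.2) b i rfl (lt_trans hb.2 hai), mul_zero]

theorem gsU_apply_self (M : Fin N → Fin N → ℝ) (a : Fin N) : gsU M a a = 1 := by
  rw [gsU_def]
  simp only
  rw [Pi.single_eq_same, Finset.sum_eq_zero, sub_zero]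
  intro b hb
  rw [Finset.mem_filter] at hb
  rw [gsU_apply_gt M b.val b a rfl hb.2, mul_zero]

theorem gsU_ne_zero (M : Fin N → Fin N → ℝ) (a : Fin N) : gsU M a ≠ 0 := by
  intro h
  have := gsU_apply_self M a
  rw [h] at this
  simp at this

theorem bil_gsU_lt {M : Fin N → Fin N → ℝ} (hM : (Matrix.of M + (Matrix.of M)ᵀ).PosDef) :
    ∀ n : ℕ, ∀ a b : Fin N, a.val = n → b < a → bil M (gsU M a) (gsU M b) = 0 := by
  intro n
  induction n using Nat.strong_induction_on with
  | _ n ih =>
    intro a b han hba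
    rw [gsU_def M a, bil_sub_left, bil_sum_left]
    rw [Finset.sum_eq_single_of_mem b (by simp [hba])]
    · rw [bil_smul_left, div_mul_cancel₀ _ (bil_pos hM (gsU_ne_zero M b)).ne', sub_self]
    · intro c hc hcb
      rw [Finset.mem_filter] at hc
      rw [bil_smul_left]
      rcases lt_or_gt_of_ne hcb with h | h
      · rw [bil_comm M (gsU M c) (gsU M b), ih b.val (by rw [← han]; exact hba) b c rfl h,
          mul_zero]
      · rw [ih c.val (by rw [← han]; exact hc.2) c b rfl h, mul_zero]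

theorem bil_gsU_ne {M : Fin N → Fin N → ℝ} (hM : (Matrix.of M + (Matrix.of M)ᵀ).PosDef)
    {a b : Fin N} (hab : a ≠ b) : bil M (gsU M a) (gsU M b) = 0 := by
  rcases lt_or_gt_of_ne hab with h | h
  · rw [bil_comm]
    exact bil_gsU_lt hM b.val b a rfl h
  · exact bil_gsU_lt hM a.val a b rfl h

/-- the open set of matrices with positive definite symmetric part -/
abbrev posSet (N : ℕ) : Set (Fin N → Fin N → ℝ) :=
  {M : Fin N → Fin N → ℝ | (Matrix.of M + (Matrix.of M)ᵀ).PosDef}

theorem contDiff_entry (i j : Fin N) : ContDiff ℝ ∞ (fun M : Fin N → Fin N → ℝ => M i j) :=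
  contDiff_apply_apply ℝ ℝ i j

theorem contDiffOn_bil {v w : (Fin N → Fin N → ℝ) → Fin N → ℝ}
    (hv : ∀ i, ContDiffOn ℝ ∞ (fun M => v M i) (posSet N))
    (hw : ∀ i, ContDiffOn ℝ ∞ (fun M => w M i) (posSet N)) :
    ContDiffOn ℝ ∞ (fun M => bil M (v M) (w M)) (posSet N) := by
  unfold bil
  refine ContDiffOn.sum fun i _ => ContDiffOn.sum fun j _ => ?_
  exact ((hv i).mul ((((contDiff_entry i j).contDiffOn).add
    ((contDiff_entry j i).contDiffOn)).div_const 2)).mul (hw j)

theorem contDiffOn_gsU : ∀ n : ℕ, ∀ a : Fin N, a.val = n → ∀ i : Fin N,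
    ContDiffOn ℝ ∞ (fun M => gsU M a i) (posSet N) := by
  intro n
  induction n using Nat.strong_induction_on with
  | _ n ih =>
    intro a han i
    have h1 : (fun M : Fin N → Fin N → ℝ => gsU M a i) = fun M =>
        (Pi.single a (1 : ℝ) : Fin N → ℝ) i -
        ∑ b ∈ Finset.univ.filter (· < a), (bil M (Pi.single a 1) (gsU M b) /
          bil M (gsU M b) (gsU M b)) * gsU M b i := by
      funext M
      rw [gsU_def]
    rw [h1]
    refine contDiffOn_const.sub (ContDiffOn.sum fun b hb => ?_)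
    rw [Finset.mem_filter] at hb
    have ihb := ih b.val (by rw [← han]; exact hb.2) b rfl
    refine ContDiffOn.mul (ContDiffOn.div ?_ ?_ ?_) (ihb i)
    · exact contDiffOn_bil (v := fun _ => Pi.single a 1) (fun _ => contDiffOn_const) ihb
    · exact contDiffOn_bil ihb ihb
    · intro M hM
      exact (bil_pos hM (gsU_ne_zero M b)).ne'

/-- the normalised frame -/
def gsM (M : Fin N → Fin N → ℝ) : Matrix (Fin N) (Fin N) ℝ :=
  Matrix.of fun i a => (Real.sqrt (bil M (gsU M a) (gsU M a)))⁻¹ * gsU M a i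

theorem contDiffOn_gsM (i j : Fin N) : ContDiffOn ℝ ∞ (fun M => gsM M i j) (posSet N) := by
  unfold gsM
  simp only [Matrix.of_apply]
  have hU := contDiffOn_gsU (N := N) j.val j rfl
  refine ContDiffOn.mul (ContDiffOn.inv (ContDiffOn.sqrt (contDiffOn_bil hU hU) ?_) ?_) (hU i)
  · intro M hM
    exact (bil_pos hM (gsU_ne_zero M j)).ne'
  · intro M hM
    exact (Real.sqrt_pos.2 (bil_pos hM (gsU_ne_zero M j))).ne'

theorem bil_gsM {M : Fin N → Fin N → ℝ} (hM : (Matrix.of M + (Matrix.of M)ᵀ).PosDef)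
    (a b : Fin N) : bil M (fun i => gsM M i a) (fun i => gsM M i b) = if a = b then 1 else 0 := by
  unfold gsM
  simp only [Matrix.of_apply]
  rw [bil_smul_left, bil_smul_right]
  split_ifs with h
  · subst h
    have hp := bil_pos hM (gsU_ne_zero M a)
    have hs := Real.sqrt_pos.2 hp
    have h2 := Real.mul_self_sqrt hp.le
    field_simp
    rw [sq, h2]
  · rw [bil_gsU_ne hM h]
    simp

theorem bil_one (v w : Fin N → ℝ) :
    bil (fun i j => (1 : Matrix (Fin N) (Fin N) ℝ) i j) v w = ∑ i, v i * w i := by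
  unfold bil
  refine Finset.sum_congr rfl fun i _ => ?_
  rw [Finset.sum_eq_single i]
  · simp
  · intro j _ hj
    simp [hj, hj.symm]
  · simp

theorem gsU_one : ∀ n : ℕ, ∀ a : Fin N, a.val = n →
    gsU (fun i j => (1 : Matrix (Fin N) (Fin N) ℝ) i j) a = Pi.single a 1 := by
  intro n
  induction n using Nat.strong_induction_on with
  | _ n ih =>
    intro a han
    rw [gsU_def]
    funext i
    rw [Finset.sum_eq_zero, sub_zero]
    intro b hb
    rw [Finset.mem_filter] at hb
    rw [ih b.val (by rw [← han]; exact hb.2) b rfl, bil_one]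
    rw [Finset.sum_eq_zero (s := Finset.univ) (f := fun i => (Pi.single a (1 : ℝ) : Fin N → ℝ) i *
      (Pi.single b (1 : ℝ) : Fin N → ℝ) i), zero_div, zero_mul]
    intro k _
    by_cases hk : k = a
    · subst hk
      rw [Pi.single_eq_of_ne (ne_of_gt hb.2), mul_zero]
    · rw [Pi.single_eq_of_ne hk, zero_mul]

end FrameAux

open FrameAux

/-! ### row A2 (Frame.lean) -/
theorem isOpen_posSet (N : ℕ) :
    IsOpen {M : Fin N → Fin N → ℝ | (Matrix.of M + (Matrix.of M)ᵀ).PosDef} := by
  rw [isOpen_iff_eventually]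
  intro M0 hM0
  have hK : IsCompact (Metric.sphere (0 : Fin N → ℝ) 1) := isCompact_sphere _ _
  have hcont : Continuous (fun p : (Fin N → Fin N → ℝ) × (Fin N → ℝ) => bil p.1 p.2 p.2) := by
    unfold bil
    fun_prop
  have hev : ∀ᶠ M in nhds M0, ∀ v ∈ Metric.sphere (0 : Fin N → ℝ) 1, 0 < bil M v v := by
    refine hK.eventually_forall_of_forall_eventually ?_
    intro v hv
    have hv0 : v ≠ 0 := by
      rintro rfl
      simp at hv
    exact hcont.continuousAt.eventually (lt_mem_nhds (bil_pos hM0 hv0))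
  filter_upwards [hev] with M hM
  refine Matrix.PosDef.of_dotProduct_mulVec_pos ?_ ?_
  · rw [Matrix.IsHermitian, Matrix.conjTranspose_eq_transpose_of_trivial, Matrix.transpose_add,
      Matrix.transpose_transpose, add_comm]
  · intro v hv
    have hn : 0 < ‖v‖ := norm_pos_iff.2 hv
    have h1 : 0 < bil M (fun i => ‖v‖⁻¹ * v i) (fun i => ‖v‖⁻¹ * v i) := by
      apply hM
      have : (fun i => ‖v‖⁻¹ * v i) = ‖v‖⁻¹ • v := rfl
      rw [this, mem_sphere_zero_iff_norm, norm_smul, norm_inv, norm_norm,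
        inv_mul_cancel₀ hn.ne']
    rw [bil_smul_left, bil_smul_right] at h1
    have h2 : 0 < bil M v v := by
      have h3 : 0 < ‖v‖⁻¹ := inv_pos.2 hn
      by_contra hneg
      have : ‖v‖⁻¹ * (‖v‖⁻¹ * bil M v v) ≤ 0 := by
        have := not_lt.1 hneg
        exact mul_nonpos_of_nonneg_of_nonpos h3.le (mul_nonpos_of_nonneg_of_nonpos h3.le this)
      linarith
    have : star v ⬝ᵥ ((Matrix.of M + (Matrix.of M)ᵀ).mulVec v) = 2 * bil M v v := by
      unfold bil
      simp only [dotProduct, Matrix.mulVec, Pi.star_apply, star_trivial, Finset.mul_sum,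
        Matrix.add_apply, Matrix.of_apply, Matrix.transpose_apply]
      refine Finset.sum_congr rfl fun i _ => Finset.sum_congr rfl fun j _ => ?_
      ring
    rw [this]
    linarith

theorem exists_frame (N : ℕ) : ∃ gs : (Fin N → Fin N → ℝ) → Matrix (Fin N) (Fin N) ℝ,
    (∀ i j, ContDiffOn ℝ ∞ (fun M => gs M i j)
      {M : Fin N → Fin N → ℝ | (Matrix.of M + (Matrix.of M)ᵀ).PosDef}) ∧
    (∀ M : Fin N → Fin N → ℝ, (Matrix.of M).PosDef → (gs M)ᵀ * Matrix.of M * gs M = 1) ∧
    gs (fun i j => (1 : Matrix (Fin N) (Fin N) ℝ) i j) = 1 := by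
  refine ⟨gsM, contDiffOn_gsM, ?_, ?_⟩
  · intro M hM
    have hsym : ∀ i j, M i j = M j i := by
      intro i j
      have := hM.isHermitian.apply i j
      simpa using this.symm
    have hM2 : (Matrix.of M + (Matrix.of M)ᵀ).PosDef := by
      have : (Matrix.of M)ᵀ = Matrix.of M := by
        ext i j
        simp only [Matrix.transpose_apply, Matrix.of_apply]
        exact hsym j i
      rw [this]
      exact hM.add hM
    ext a b
    have h1 := bil_gsM hM2 a b
    rw [Matrix.one_apply, ← h1]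
    unfold bil
    rw [Matrix.mul_assoc, Matrix.mul_apply]
    refine Finset.sum_congr rfl fun i _ => ?_
    rw [Matrix.transpose_apply, Matrix.mul_apply, Finset.mul_sum]
    refine Finset.sum_congr rfl fun j _ => ?_
    rw [Matrix.of_apply, hsym j i]
    ring
  · ext i a
    simp only [gsM, Matrix.of_apply]
    rw [gsU_one a.val a rfl, bil_one]
    have : ∑ k, (Pi.single a (1 : ℝ) : Fin N → ℝ) k * (Pi.single a (1 : ℝ) : Fin N → ℝ) k = 1 := by
      rw [Finset.sum_eq_single a]
      · simp
      · intro b _ hb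
        rw [Pi.single_eq_of_ne hb, zero_mul]
      · simp
    rw [this, Real.sqrt_one, inv_one, one_mul, Matrix.one_apply, Pi.single_apply]

end
end PS
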