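import Pool.Agent.H96.PS.ADefs
import Pool.Agent.H96.PS.Cliff
import Pool.Agent.H96.PS.Frame
import Pool.Agent.H96.PS.Chris

/-!
Project PS (MP_b05a29_gt), row A12: the straight line path of metrics and potentials.
-/

open scoped ContDiff Matrix
open MeasureTheory Set

namespace PS
noncomputable section
variable {N : ℕ}

namespace PathGeo

/-- the straight line from the flat metric to `G` -/
def Gp (G : E N → Matrix (Fin N) (Fin N) ℝ) (t : ℝ) (x : E N) : Matrix (Fin N) (Fin N) ℝ :=
  (1 - t) • (1 : Matrix (Fin N) (Fin N) ℝ) + t • G x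

/-- the same, as a function of two indices -/
def Mp (G : E N → Matrix (Fin N) (Fin N) ℝ) (t : ℝ) (x : E N) : Fin N → Fin N → ℝ :=
  fun i j => Gp G t x i j

/-- the straight line of potentials -/
def Fp (lam : ℝ) (F : E N → Fin N → ℝ) (t : ℝ) (x : E N) (j : Fin N) : ℝ :=
  (1 - t) * (lam * x j) + t * F x j

theorem Gp_apply (G : E N → Matrix (Fin N) (Fin N) ℝ) (t : ℝ) (x : E N) (i j : Fin N) :
    Gp G t x i j = (1 - t) * (1 : Matrix (Fin N) (Fin N) ℝ) i j + t * G x i j := rfl

theorem Gp_posDef {G : E N → Matrix (Fin N) (Fin N) ℝ} (hG : IsMetricOn G univ) {t : ℝ}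
    (ht : t ∈ Icc (0 : ℝ) 1) (x : E N) : (Gp G t x).PosDef := by
  unfold Gp
  rcases eq_or_lt_of_le ht.1 with h0 | h0
  · rw [← h0, sub_zero, one_smul, zero_smul, add_zero]
    exact Matrix.PosDef.one
  · refine Matrix.PosDef.posSemidef_add ?_ ?_
    · exact (Matrix.PosSemidef.one).smul (sub_nonneg.2 ht.2)
    · exact (hG.posDef x (mem_univ x)).smul h0

theorem Mp_mem {G : E N → Matrix (Fin N) (Fin N) ℝ} (hG : IsMetricOn G univ) {t : ℝ}
    (ht : t ∈ Icc (0 : ℝ) 1) (x : E N) :
    Mp G t x ∈ {M : Fin N → Fin N → ℝ | (Matrix.of M + (Matrix.of M)ᵀ).PosDef} := by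
  have h1 : Matrix.of (Mp G t x) = Gp G t x := rfl
  have h2 : (Gp G t x)ᵀ = Gp G t x := by
    have := (Gp_posDef hG ht x).isHermitian
    rw [Matrix.IsHermitian, Matrix.conjTranspose_eq_transpose_of_trivial] at this
    exact this
  show (Matrix.of (Mp G t x) + (Matrix.of (Mp G t x))ᵀ).PosDef
  rw [h1, h2]
  exact (Gp_posDef hG ht x).add (Gp_posDef hG ht x)

theorem contDiff_Gp {G : E N → Matrix (Fin N) (Fin N) ℝ} (hG : IsMetricOn G univ) (t : ℝ)
    (i j : Fin N) : ContDiff ℝ ∞ (fun x => Gp G t x i j) := by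
  simp only [Gp_apply]
  exact contDiff_const.add (contDiff_const.mul (Chris.contDiff_entry hG i j))

theorem contDiff_Mp {G : E N → Matrix (Fin N) (Fin N) ℝ} (hG : IsMetricOn G univ) (t : ℝ) :
    ContDiff ℝ ∞ (fun x => Mp G t x) :=
  contDiff_pi.2 fun i => contDiff_pi.2 fun j => contDiff_Gp hG t i j

theorem cont_Gp {G : E N → Matrix (Fin N) (Fin N) ℝ} (hG : IsMetricOn G univ) (i j : Fin N) :
    Continuous (fun q : ℝ × E N => Gp G q.1 q.2 i j) := by
  simp only [Gp_apply]
  exact ((continuous_const.sub continuous_fst).mul continuous_const).add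
    (continuous_fst.mul ((Chris.contDiff_entry hG i j).continuous.comp continuous_snd))

theorem cont_GpM {G : E N → Matrix (Fin N) (Fin N) ℝ} (hG : IsMetricOn G univ) :
    Continuous (fun q : ℝ × E N => Gp G q.1 q.2) :=
  continuous_matrix fun i j => cont_Gp hG i j

theorem cont_Mp {G : E N → Matrix (Fin N) (Fin N) ℝ} (hG : IsMetricOn G univ) :
    Continuous (fun q : ℝ × E N => Mp G q.1 q.2) :=
  continuous_pi fun i => continuous_pi fun j => cont_Gp hG i j

theorem cont_pdG {G : E N → Matrix (Fin N) (Fin N) ℝ} (hG : IsMetricOn G univ) (k i j : Fin N) :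
    Continuous (fun x => pd k (fun y => G y i j) x) := by
  unfold pd
  exact ((Chris.contDiff_entry hG i j).continuous_fderiv (by simp)).clm_apply continuous_const

theorem hasFDeriv_Gp {G : E N → Matrix (Fin N) (Fin N) ℝ} (hG : IsMetricOn G univ) (t : ℝ)
    (x : E N) (i j : Fin N) : HasFDerivAt (fun y => Gp G t y i j)
      (t • fderiv ℝ (fun y => G y i j) x) x := by
  simp only [Gp_apply]
  exact ((Chris.diff_entry hG x i j).hasFDerivAt.const_mul t).const_add _

theorem pd_Gp {G : E N → Matrix (Fin N) (Fin N) ℝ} (hG : IsMetricOn G univ) (t : ℝ)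
    (x : E N) (k i j : Fin N) :
    pd k (fun y => Gp G t y i j) x = t * pd k (fun y => G y i j) x := by
  unfold pd
  rw [(hasFDeriv_Gp hG t x i j).fderiv]
  rfl

theorem hasFDeriv_Mp {G : E N → Matrix (Fin N) (Fin N) ℝ} (hG : IsMetricOn G univ) (t : ℝ)
    (x : E N) : HasFDerivAt (fun y => Mp G t y)
      (ContinuousLinearMap.pi fun i => ContinuousLinearMap.pi fun j =>
        t • fderiv ℝ (fun y => G y i j) x) x :=
  hasFDerivAt_pi.2 fun i => hasFDerivAt_pi.2 fun j => hasFDeriv_Gp hG t x i j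

/-- a smooth function which is constant outside a ball has zero derivative there, including the
boundary of the ball -/
theorem pd_zero {f : E N → ℝ} (hf : ContDiff ℝ ∞ f) {R c : ℝ} (hc : ∀ x, R ≤ ‖x‖ → f x = c)
    (k : Fin N) {x : E N} (hx : R ≤ ‖x‖) : pd k f x = 0 := by
  have hout : ∀ y : E N, R < ‖y‖ → fderiv ℝ f y = 0 := by
    intro y hy
    have h1 : f =ᶠ[nhds y] fun _ => c :=
      Filter.eventuallyEq_of_mem ((isOpen_lt continuous_const continuous_norm).mem_nhds hy)
        (fun z (hz : R < ‖z‖) => hc z hz.le)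
    rw [h1.fderiv_eq]
    simp
  have h0 : fderiv ℝ f x = 0 := by
    rcases eq_or_lt_of_le hx with h | h
    · by_cases hx0 : x = 0
      · have hR : R = 0 := by rw [h, hx0, norm_zero]
        have : f = fun _ => c := funext fun y => hc y (by rw [hR]; exact norm_nonneg y)
        rw [this]; simp
      · have hpos : 0 < ‖x‖ := norm_pos_iff.2 hx0
        have hcont : Continuous (fun y => fderiv ℝ f y) := hf.continuous_fderiv (by simp)
        have hlim : Filter.Tendsto (fun n : ℕ => (1 + 1 / ((n : ℝ) + 1)) • x) Filter.atTop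
            (nhds x) := by
          have h1 : Filter.Tendsto (fun n : ℕ => (1 + 1 / ((n : ℝ) + 1))) Filter.atTop
              (nhds (1 + 0)) := tendsto_const_nhds.add tendsto_one_div_add_atTop_nhds_zero_nat
          have h2 := h1.smul_const x
          rw [add_zero, one_smul] at h2
          exact h2
        have h3 : Filter.Tendsto (fun n : ℕ => fderiv ℝ f ((1 + 1 / ((n : ℝ) + 1)) • x))
            Filter.atTop (nhds (fderiv ℝ f x)) := (hcont.tendsto x).comp hlim
        have h4 : (fun n : ℕ => fderiv ℝ f ((1 + 1 / ((n : ℝ) + 1)) • x)) = fun _ => 0 := by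
          funext n
          refine hout _ ?_
          have hn : (0 : ℝ) < 1 / ((n : ℝ) + 1) := by positivity
          rw [norm_smul, Real.norm_of_nonneg (by linarith), h]
          nlinarith
        rw [h4] at h3
        exact (tendsto_nhds_unique h3 tendsto_const_nhds)
    · exact hout x h
  unfold pd
  rw [h0]
  rfl

theorem contOn_inv {X : Type*} [TopologicalSpace X] {s : Set X}
    {A : X → Matrix (Fin N) (Fin N) ℝ} (hA : ContinuousOn A s) (hdet : ∀ q ∈ s, (A q).det ≠ 0) :
    ContinuousOn (fun q => (A q)⁻¹) s := by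
  have e : (fun q => (A q)⁻¹) = fun q => ((A q).det)⁻¹ • (A q).adjugate := by
    funext q
    rw [Matrix.inv_def, Ring.inverse_eq_inv]
  rw [e]
  have h1 : ContinuousOn (fun q => ((A q).det)⁻¹) s :=
    ((continuous_id.matrix_det).comp_continuousOn hA).inv₀ hdet
  have h2 : ContinuousOn (fun q => (A q).adjugate) s :=
    (continuous_id.matrix_adjugate).comp_continuousOn hA
  exact h1.smul h2

theorem spinL_zero : (spinL (0 : Matrix (Fin N) (Fin N) ℝ) : Lam N →L[ℝ] Lam N) = 0 := by
  unfold spinL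
  have h1 : ∀ a b : Fin N, (0 : Matrix (Fin N) (Fin N) ℝ) a b • (cl a ∘L cl b :
      Lam N →L[ℝ] Lam N) = 0 := by
    intro a b
    rw [Matrix.zero_apply]
    exact zero_smul ℝ (cl a ∘L cl b : Lam N →L[ℝ] Lam N)
  simp only [h1, Finset.sum_const_zero, smul_zero]

theorem cont_spinL : Continuous (fun w : Matrix (Fin N) (Fin N) ℝ => (spinL w :
    Lam N →L[ℝ] Lam N)) := by
  have h1 : ∀ a b : Fin N, Continuous (fun w : Matrix (Fin N) (Fin N) ℝ =>
      w a b • (cl a ∘L cl b : Lam N →L[ℝ] Lam N)) := by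
    intro a b
    have h2 : Continuous (fun w : Matrix (Fin N) (Fin N) ℝ => w a b) :=
      (continuous_id (X := Matrix (Fin N) (Fin N) ℝ)).matrix_elem a b
    exact h2.smul continuous_const
  have h3 : Continuous (fun w : Matrix (Fin N) (Fin N) ℝ =>
      ∑ a, ∑ b, w a b • (cl a ∘L cl b : Lam N →L[ℝ] Lam N)) :=
    continuous_finsetSum _ fun a _ => continuous_finsetSum _ fun b _ => h1 a b
  exact h3.const_smul (-(1 / 4 : ℝ))

/-! ### parity -/

theorem EvenV.add {u v : Lam N} (hu : EvenV u) (hv : EvenV v) : EvenV (u + v) := by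
  intro I hI
  have : (u + v) I = u I + v I := rfl
  rw [this, hu I hI, hv I hI, add_zero]

theorem OddV.add {u v : Lam N} (hu : OddV u) (hv : OddV v) : OddV (u + v) := by
  intro I hI
  have : (u + v) I = u I + v I := rfl
  rw [this, hu I hI, hv I hI, add_zero]

theorem EvenV.smul {u : Lam N} (c : ℝ) (hu : EvenV u) : EvenV (c • u) := by
  intro I hI
  have : (c • u) I = c * u I := rfl
  rw [this, hu I hI, mul_zero]

theorem OddV.smul {u : Lam N} (c : ℝ) (hu : OddV u) : OddV (c • u) := by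
  intro I hI
  have : (c • u) I = c * u I := rfl
  rw [this, hu I hI, mul_zero]

theorem odd_zero : OddOp (0 : Lam N →L[ℝ] Lam N) :=
  ⟨fun _ _ _ _ => rfl, fun _ _ _ _ => rfl⟩

theorem odd_add {S T : Lam N →L[ℝ] Lam N} (hS : OddOp S) (hT : OddOp T) : OddOp (S + T) :=
  ⟨fun v hv => OddV.add (hS.1 v hv) (hT.1 v hv), fun v hv => EvenV.add (hS.2 v hv) (hT.2 v hv)⟩

theorem odd_smul {S : Lam N →L[ℝ] Lam N} (c : ℝ) (hS : OddOp S) : OddOp (c • S) :=
  ⟨fun v hv => OddV.smul c (hS.1 v hv), fun v hv => EvenV.smul c (hS.2 v hv)⟩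

theorem odd_sum {ι : Type*} (s : Finset ι) {S : ι → Lam N →L[ℝ] Lam N}
    (hS : ∀ i ∈ s, OddOp (S i)) : OddOp (∑ i ∈ s, S i) := by
  classical
  induction s using Finset.induction_on with
  | empty => rw [Finset.sum_empty]; exact odd_zero
  | insert a s ha ih =>
    rw [Finset.sum_insert ha]
    exact odd_add (hS a (Finset.mem_insert_self a s))
      (ih fun i hi => hS i (Finset.mem_insert_of_mem hi))

/-- parity preserving operators -/
def EvOp (T : Lam N →L[ℝ] Lam N) : Prop :=
  (∀ v, EvenV v → EvenV (T v)) ∧ (∀ v, OddV v → OddV (T v))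

theorem ev_add {S T : Lam N →L[ℝ] Lam N} (hS : EvOp S) (hT : EvOp T) : EvOp (S + T) :=
  ⟨fun v hv => EvenV.add (hS.1 v hv) (hT.1 v hv), fun v hv => OddV.add (hS.2 v hv) (hT.2 v hv)⟩

theorem ev_smul {S : Lam N →L[ℝ] Lam N} (c : ℝ) (hS : EvOp S) : EvOp (c • S) :=
  ⟨fun v hv => EvenV.smul c (hS.1 v hv), fun v hv => OddV.smul c (hS.2 v hv)⟩

theorem ev_sum {ι : Type*} (s : Finset ι) {S : ι → Lam N →L[ℝ] Lam N}
    (hS : ∀ i ∈ s, EvOp (S i)) : EvOp (∑ i ∈ s, S i) := by
  classical
  induction s using Finset.induction_on with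
  | empty => rw [Finset.sum_empty]; exact ⟨fun _ _ _ _ => rfl, fun _ _ _ _ => rfl⟩
  | insert a s ha ih =>
    rw [Finset.sum_insert ha]
    exact ev_add (hS a (Finset.mem_insert_self a s))
      (ih fun i hi => hS i (Finset.mem_insert_of_mem hi))

theorem ev_spinL (w : Matrix (Fin N) (Fin N) ℝ) : EvOp (spinL w : Lam N →L[ℝ] Lam N) := by
  unfold spinL
  refine ev_smul _ (ev_sum _ fun a _ => ev_sum _ fun b _ => ev_smul _ ?_)
  exact ⟨fun v hv => (cl_odd a).2 _ ((cl_odd b).1 v hv),
    fun v hv => (cl_odd a).1 _ ((cl_odd b).2 v hv)⟩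

theorem odd_comp {S T : Lam N →L[ℝ] Lam N} (hS : OddOp S) (hT : EvOp T) : OddOp (S ∘L T) :=
  ⟨fun v hv => hS.1 _ (hT.1 v hv), fun v hv => hS.2 _ (hT.2 v hv)⟩

theorem odd_cliff (fr : E N → Matrix (Fin N) (Fin N) ℝ) (i : Fin N) (x : E N) :
    OddOp (cliff fr i x) := by
  unfold cliff
  exact odd_sum _ fun a _ => odd_smul _ (cl_odd a)

theorem odd_potL (F : E N → Fin N → ℝ) (x : E N) : OddOp (potL F x) := by
  unfold potL
  exact odd_sum _ fun a _ => odd_smul _ (ep_odd a)

theorem cliff_one {fr : E N → Matrix (Fin N) (Fin N) ℝ} {x : E N} (h : fr x = 1) (i : Fin N) :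
    cliff fr i x = cl i := by
  unfold cliff
  rw [h, Finset.sum_eq_single i]
  · rw [Matrix.one_apply_eq, one_smul]
  · intro b _ hb
    rw [Matrix.one_apply_ne (Ne.symm hb)]
    exact zero_smul ℝ (cl b : Lam N →L[ℝ] Lam N)
  · intro h; exact absurd (Finset.mem_univ i) h

end PathGeo

open PathGeo

/-- the straight-line path from the flat model to `(G, F)` -/
theorem path_geo (G : E N → Matrix (Fin N) (Fin N) ℝ) (F : E N → Fin N → ℝ) (lam R : ℝ)
    (hG : IsMetricOn G univ) (hGinf : ∀ x, R ≤ ‖x‖ → G x = 1)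
    (hF : ∀ j, ContDiff ℝ ∞ (fun x => F x j)) (hFinf : ∀ x, R ≤ ‖x‖ → ∀ j, F x j = lam * x j) :
    ∃ (a : ℝ → Fin N → E N → (Lam N →L[ℝ] Lam N)) (b : ℝ → E N → (Lam N →L[ℝ] Lam N))
      (Gt frt : ℝ → E N → Matrix (Fin N) (Fin N) ℝ) (Ft : ℝ → E N → Fin N → ℝ),
      (∀ i, ContinuousOn (fun q : ℝ × E N => a q.1 i q.2) (Icc 0 1 ×ˢ univ)) ∧
      ContinuousOn (fun q : ℝ × E N => b q.1 q.2) (Icc 0 1 ×ˢ univ) ∧
      (∀ t ∈ Icc (0 : ℝ) 1, ∀ x : E N, R ≤ ‖x‖ →
        (∀ i, a t i x = cl i) ∧ b t x = lam • ∑ i, x i • ep i) ∧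
      (∀ x : E N, (∀ i, a 0 i x = cl i) ∧ b 0 x = lam • ∑ i, x i • ep i) ∧
      (∀ t ∈ Icc (0 : ℝ) 1, ∀ x, (∀ i, OddOp (a t i x)) ∧ OddOp (b t x)) ∧
      (∀ t ∈ Icc (0 : ℝ) 1, IsFrame (Gt t) (frt t) ∧
        (∀ x, R ≤ ‖x‖ → Gt t x = 1 ∧ frt t x = 1) ∧
        (∀ j, ContDiff ℝ ∞ (fun x => Ft t x j)) ∧
        (∀ x, R ≤ ‖x‖ → ∀ j, Ft t x j = lam * x j) ∧
        (∀ u : E N → Lam N, ∀ x, opB (a t) (b t) u x =
          dirac (Gt t) (frt t) u x + potL (Ft t) x (u x))) ∧
      Gt 1 = G ∧ Ft 1 = F := by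
  obtain ⟨gs, hgs, hgsorth, hgs1⟩ := exists_frame N
  set K : Set (ℝ × E N) := Icc (0 : ℝ) 1 ×ˢ univ with hK
  set fr : ℝ → E N → Matrix (Fin N) (Fin N) ℝ := fun t x => gs (Mp G t x) with hfr
  have hmem : ∀ q ∈ K, Mp G q.1 q.2 ∈
      {M : Fin N → Fin N → ℝ | (Matrix.of M + (Matrix.of M)ᵀ).PosDef} :=
    fun q hq => Mp_mem hG hq.1 q.2
  -- frame facts
  have horth : ∀ t ∈ Icc (0 : ℝ) 1, ∀ x, (fr t x)ᵀ * Gp G t x * fr t x = 1 := by
    intro t ht x
    exact hgsorth (Mp G t x) (Gp_posDef hG ht x)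
  have hdetfr : ∀ t ∈ Icc (0 : ℝ) 1, ∀ x, (fr t x).det ≠ 0 := by
    intro t ht x h0
    have h1 := congrArg Matrix.det (horth t ht x)
    rw [Matrix.det_mul, h0, mul_zero, Matrix.det_one] at h1
    exact zero_ne_one h1
  have hGdet : ∀ t ∈ Icc (0 : ℝ) 1, ∀ x, (Gp G t x).det ≠ 0 := fun t ht x =>
    (Gp_posDef hG ht x).det_pos.ne'
  have hfrone : ∀ t x, Gp G t x = 1 → fr t x = 1 := by
    intro t x h
    have : Mp G t x = fun i j => (1 : Matrix (Fin N) (Fin N) ℝ) i j := by
      funext i j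
      show Gp G t x i j = _
      rw [h]
    show gs (Mp G t x) = 1
    rw [this, hgs1]
  have hGp1 : ∀ t x, R ≤ ‖x‖ → Gp G t x = 1 := by
    intro t x hx
    unfold Gp
    rw [hGinf x hx, ← add_smul]
    simp
  have hGp0 : ∀ x, Gp G 0 x = 1 := by
    intro x
    unfold Gp
    simp
  have hfrsm : ∀ t ∈ Icc (0 : ℝ) 1, ∀ i j, ContDiff ℝ ∞ (fun x => fr t x i j) := by
    intro t ht i j
    exact (hgs i j).comp_contDiff (contDiff_Mp hG t) (fun x => Mp_mem hG ht x)
  have hfrd : ∀ t ∈ Icc (0 : ℝ) 1, ∀ x k i j, pd k (fun y => fr t y i j) x =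
      fderiv ℝ (fun M => gs M i j) (Mp G t x) (fun a b => t * pd k (fun y => G y a b) x) := by
    intro t ht x k i j
    have h1 : DifferentiableAt ℝ (fun M => gs M i j) (Mp G t x) :=
      (((hgs i j).contDiffAt ((isOpen_posSet N).mem_nhds (Mp_mem hG ht x))).differentiableAt
        (by simp))
    have h2 := h1.hasFDerivAt.comp x (hasFDeriv_Mp hG t x)
    have h3 : pd k (fun y => fr t y i j) x = fderiv ℝ ((fun M => gs M i j) ∘ fun y => Mp G t y) x
        (ev k) := rfl
    rw [h3, h2.fderiv]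
    rfl
  -- continuity
  have cfr : ∀ i j, ContinuousOn (fun q : ℝ × E N => fr q.1 q.2 i j) K := by
    intro i j
    exact (hgs i j).continuousOn.comp (cont_Mp hG).continuousOn hmem
  have cfrM : ContinuousOn (fun q : ℝ × E N => fr q.1 q.2) K := by
    refine continuousOn_pi.2 fun i => continuousOn_pi.2 fun j => cfr i j
  have cdfr : ∀ k i j, ContinuousOn (fun q : ℝ × E N => pd k (fun y => fr q.1 y i j) q.2) K := by
    intro k i j
    have h1 : ContinuousOn (fun q : ℝ × E N => fderiv ℝ (fun M => gs M i j) (Mp G q.1 q.2)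
        (fun a b => q.1 * pd k (fun y => G y a b) q.2)) K := by
      refine ContinuousOn.clm_apply ?_ ?_
      · exact ((hgs i j).continuousOn_fderiv_of_isOpen (isOpen_posSet N) (by simp)).comp
          (cont_Mp hG).continuousOn hmem
      · refine Continuous.continuousOn ?_
        exact continuous_pi fun a => continuous_pi fun b =>
          continuous_fst.mul ((cont_pdG hG k a b).comp continuous_snd)
    refine h1.congr ?_
    intro q hq
    exact hfrd q.1 hq.1 q.2 k i j
  have hchr : ∀ t x i j k, chr (Gp G t) x i j k = (1 / 2 : ℝ) * ∑ l, (Gp G t x)⁻¹ k l *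
      (t * pd i (fun y => G y j l) x + t * pd j (fun y => G y i l) x -
        t * pd l (fun y => G y i j) x) := by
    intro t x i j k
    unfold chr
    simp only [pd_Gp hG]
  have cGi : ContinuousOn (fun q : ℝ × E N => (Gp G q.1 q.2)⁻¹) K :=
    contOn_inv (cont_GpM hG).continuousOn (fun q hq => hGdet q.1 hq.1 q.2)
  have cchr : ∀ i j k, ContinuousOn (fun q : ℝ × E N => chr (Gp G q.1) q.2 i j k) K := by
    intro i j k
    simp only [hchr]
    refine ContinuousOn.mul continuousOn_const ?_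
    refine continuousOn_finsetSum _ fun l _ => ContinuousOn.mul ?_ ?_
    · exact (continuous_id.matrix_elem k l).comp_continuousOn cGi
    · refine Continuous.continuousOn ?_
      exact ((continuous_fst.mul ((cont_pdG hG i j l).comp continuous_snd)).add
        (continuous_fst.mul ((cont_pdG hG j i l).comp continuous_snd))).sub
        (continuous_fst.mul ((cont_pdG hG l i j).comp continuous_snd))
  have comg : ∀ i, ContinuousOn (fun q : ℝ × E N => omg (Gp G q.1) (fr q.1) i q.2) K := by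
    intro i
    unfold omg
    have c1 : ContinuousOn (fun q : ℝ × E N => (fr q.1 q.2)⁻¹) K :=
      contOn_inv cfrM (fun q hq => hdetfr q.1 hq.1 q.2)
    have c2 : ContinuousOn (fun q : ℝ × E N =>
        (Matrix.of (fun j k => pd i (fun y => fr q.1 y j k) q.2) :
          Matrix (Fin N) (Fin N) ℝ)) K :=
      continuousOn_pi.2 fun j => continuousOn_pi.2 fun k => cdfr i j k
    have c3 : ContinuousOn (fun q : ℝ × E N => conM (Gp G q.1) i q.2) K :=
      continuousOn_pi.2 fun j => continuousOn_pi.2 fun k => cchr i k j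
    have cm : ∀ A B : ℝ × E N → Matrix (Fin N) (Fin N) ℝ, ContinuousOn A K → ContinuousOn B K →
        ContinuousOn (fun q => A q * B q) K := by
      intro A B hA hB
      exact (continuous_fst.matrix_mul continuous_snd).comp_continuousOn (hA.prodMk hB)
    exact cm _ _ c1 (c2.add (cm _ _ c3 cfrM))
  have ccl : ∀ i, ContinuousOn (fun q : ℝ × E N => cliff (fr q.1) i q.2) K := by
    intro i
    unfold cliff
    exact continuousOn_finsetSum _ fun a _ => (cfr i a).smul continuousOn_const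
  have cpot : Continuous (fun q : ℝ × E N => potL (Fp lam F q.1) q.2) := by
    unfold potL Fp
    refine continuous_finsetSum _ fun a _ => ?_
    have h1 : Continuous (fun q : ℝ × E N => q.2 a) :=
      (EuclideanSpace.proj a : E N →L[ℝ] ℝ).continuous.comp continuous_snd
    have h2 : Continuous (fun q : ℝ × E N => (1 - q.1) * (lam * q.2 a) + q.1 * F q.2 a) :=
      ((continuous_const.sub continuous_fst).mul (continuous_const.mul h1)).add
      (continuous_fst.mul ((hF a).continuous.comp continuous_snd))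
    exact h2.smul continuous_const
  -- vanishing of the connection
  have homg : ∀ t ∈ Icc (0 : ℝ) 1, ∀ x, Gp G t x = 1 →
      (∀ k i j, t * pd k (fun y => G y i j) x = 0) → ∀ i, omg (Gp G t) (fr t) i x = 0 := by
    intro t ht x _ h0 i
    unfold omg
    have h1 : (Matrix.of (fun j k => pd i (fun y => fr t y j k) x) :
        Matrix (Fin N) (Fin N) ℝ) = 0 := by
      ext j k
      show pd i (fun y => fr t y j k) x = 0
      rw [hfrd t ht x i j k]
      have : (fun a b => t * pd i (fun y => G y a b) x) = (0 : Fin N → Fin N → ℝ) := by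
        funext a b
        exact h0 i a b
      rw [this, map_zero]
    have h2 : conM (Gp G t) i x = 0 := by
      ext j k
      show chr (Gp G t) x i k j = 0
      rw [hchr]
      simp only [h0]
      simp
    rw [h1, h2]
    simp
  have hb : ∀ t ∈ Icc (0 : ℝ) 1, ∀ x, Gp G t x = 1 →
      (∀ k i j, t * pd k (fun y => G y i j) x = 0) → (∀ j, Fp lam F t x j = lam * x j) →
      (∑ i, cliff (fr t) i x ∘L spinL (omg (Gp G t) (fr t) i x)) + potL (Fp lam F t) x
        = lam • ∑ i, x i • ep i := by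
    intro t ht x h1 h0 h2
    have h3 : ∑ i, cliff (fr t) i x ∘L spinL (omg (Gp G t) (fr t) i x) = 0 := by
      refine Finset.sum_eq_zero fun i _ => ?_
      rw [homg t ht x h1 h0 i, spinL_zero, ContinuousLinearMap.comp_zero]
    rw [h3, zero_add]
    unfold potL
    rw [Finset.smul_sum]
    refine Finset.sum_congr rfl fun i _ => ?_
    rw [h2 i, mul_smul]
  have hpd0 : ∀ t : ℝ, ∀ x, R ≤ ‖x‖ → ∀ k i j, t * pd k (fun y => G y i j) x = 0 := by
    intro t x hx k i j
    rw [pd_zero (Chris.contDiff_entry hG i j) (c := (1 : Matrix (Fin N) (Fin N) ℝ) i j)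
      (fun y hy => by rw [hGinf y hy]) k hx, mul_zero]
  have hFp1 : ∀ t x, R ≤ ‖x‖ → ∀ j, Fp lam F t x j = lam * x j := by
    intro t x hx j
    unfold Fp
    rw [hFinf x hx j]
    ring
  refine ⟨fun t i x => cliff (fr t) i x,
    fun t x => (∑ i, cliff (fr t) i x ∘L spinL (omg (Gp G t) (fr t) i x)) + potL (Fp lam F t) x,
    Gp G, fr, Fp lam F, ccl, ?_, ?_, ?_, ?_, ?_, ?_, ?_⟩
  · refine ContinuousOn.add ?_ cpot.continuousOn
    refine continuousOn_finsetSum _ fun i _ => ?_
    exact (ccl i).clm_comp (cont_spinL.comp_continuousOn (comg i))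
  · intro t ht x hx
    exact ⟨fun i => cliff_one (hfrone t x (hGp1 t x hx)) i,
      hb t ht x (hGp1 t x hx) (hpd0 t x hx) (hFp1 t x hx)⟩
  · intro x
    refine ⟨fun i => cliff_one (hfrone 0 x (hGp0 x)) i,
      hb 0 ⟨le_refl 0, zero_le_one⟩ x (hGp0 x) (fun k i j => by rw [zero_mul]) (fun j => ?_)⟩
    unfold Fp
    ring
  · intro t _ x
    refine ⟨fun i => odd_cliff _ i x, odd_add (odd_sum _ fun i _ => ?_) (odd_potL _ x)⟩
    exact odd_comp (odd_cliff _ i x) (ev_spinL _)
  · intro t ht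
    refine ⟨⟨⟨fun i j => (contDiff_Gp hG t i j).contDiffOn, fun x _ => Gp_posDef hG ht x⟩,
      hfrsm t ht, horth t ht⟩, fun x hx => ⟨hGp1 t x hx, hfrone t x (hGp1 t x hx)⟩, ?_,
      fun x hx => hFp1 t x hx, ?_⟩
    · intro j
      unfold Fp
      exact (contDiff_const.mul (contDiff_const.mul
        (EuclideanSpace.proj j : E N →L[ℝ] ℝ).contDiff)).add (contDiff_const.mul (hF j))
    · intro u x
      unfold opB dirac nab
      simp only [map_add, ContinuousLinearMap.add_apply, ContinuousLinearMap.sum_apply,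
        ContinuousLinearMap.comp_apply, Finset.sum_add_distrib, add_assoc]
  · funext x
    unfold Gp
    simp
  · funext x j
    unfold Fp
    ring

end
end PS
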