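import Pool.Agent.H96.PS.ADefs
import Pool.Agent.H96.PS.PathGeo
import Pool.Agent.H96.PS.APriori
import Pool.Agent.H96.PS.IndexObs

/-!
Project PS (MP_b05a29_gt), row A19: theorem A. There is no metric on `ℝ^N`, standard outside a
ball, together with a potential that is linear outside the ball, with positive total potential.
-/

set_option autoImplicit false

open scoped ContDiff Matrix
open MeasureTheory Set

namespace PS
noncomputable section
variable {N : ℕ}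

theorem thmA (G : E N → Matrix (Fin N) (Fin N) ℝ) (F : E N → Fin N → ℝ) (lam R : ℝ)
    (hlam : 0 < lam) (hG : IsMetricOn G univ) (hGinf : ∀ x, R ≤ ‖x‖ → G x = 1)
    (hF : ∀ j, ContDiff ℝ ∞ (fun x => F x j)) (hFinf : ∀ x, R ≤ ‖x‖ → ∀ j, F x j = lam * x j)
    (δ : ℝ) (hδ : 0 < δ) (hP : ∀ x, δ ≤ Ppot G F x) : False := by
  obtain ⟨a, b, Gt, frt, Ft, ha, hb, hinf, h0, hodd, hfr, hG1, hF1⟩ :=
    path_geo G F lam R hG hGinf hF hFinf
  have hap : ∀ t ∈ Icc (0 : ℝ) 1, ∃ C : ℝ, ∀ u : E N → Lam N, Test u →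
      wSq u ≤ C * ((∫ x, ‖opB (a t) (b t) u x‖ ^ 2) + ∫ x, ‖u x‖ ^ 2) := by
    intro t ht
    obtain ⟨hf, hout, hFt, hFtinf, hop⟩ := hfr t ht
    obtain ⟨C, hC⟩ := apriori hf (Ft t) lam R hlam hout hFt hFtinf
    refine ⟨C, fun u hu => ?_⟩
    have h1 := hC u hu
    have h2 : (∫ x, ‖opB (a t) (b t) u x‖ ^ 2) =
        ∫ x, ‖dirac (Gt t) (frt t) u x + potL (Ft t) x (u x)‖ ^ 2 := by
      refine integral_congr_ae (Filter.Eventually.of_forall fun x => ?_)
      simp only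
      rw [hop u x]
    rw [h2]
    exact h1
  have h1mem : (1 : ℝ) ∈ Icc (0 : ℝ) 1 := by
    constructor <;> norm_num
  obtain ⟨hf, hout, hFt, hFtinf, hop⟩ := hfr 1 h1mem
  have hP1 : ∀ x, δ ≤ Ppot (Gt 1) (Ft 1) x := by
    intro x
    rw [hG1, hF1]
    exact hP x
  obtain ⟨δ', hδ', hpos⟩ := pos_lower hf (Ft 1) lam R hout hFt δ hδ hP1
  refine index_obstruction a b lam R hlam ha hb hinf h0 hodd hap δ' hδ' ?_
  intro u hu
  have h2 : (∫ x, ‖opB (a 1) (b 1) u x‖ ^ 2) =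
      ∫ x, ‖dirac (Gt 1) (frt 1) u x + potL (Ft 1) x (u x)‖ ^ 2 := by
    refine integral_congr_ae (Filter.Eventually.of_forall fun x => ?_)
    simp only
    rw [hop u x]
  rw [h2]
  exact hpos u hu

end
end PS
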