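import Pool.Agent.H96.PS.ADefs
import Pool.Agent.H96.PS.ThmA
import Pool.Agent.H96.PS.Cube_y

/-!
Project PS (MP_b05a29_gt), row A20: the smooth cube inequality. The proof is in `Cube_x.lean`
(pointwise estimates) and `Cube_y.lean` (metric and potential).
-/

open scoped ContDiff Matrix
open MeasureTheory Set

namespace PS
noncomputable section
variable {N : ℕ}

/-! ### row A8 (Cube.lean): smooth cube inequality -/
theorem cube_smooth (N : ℕ) (c : ℝ) (hc : 0 < c) : ∃ ρ : ℝ, 0 < ρ ∧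
    ∀ (U : Set (E N)) (G : E N → Matrix (Fin N) (Fin N) ℝ) (r : Fin N → ℝ) (f : Fin N → E N → ℝ),
      IsOpen U → (∀ j, 0 < r j) → box r ⊆ U → IsMetricOn G U → (∀ x ∈ box r, c ≤ scal G x) →
      (∀ j, ContDiffOn ℝ ∞ (f j) U) → (∀ j, ∀ x ∈ box r, gradSq G (f j) x ≤ 1) →
      (∀ j, ∀ x ∈ box r, x j = - r j → f j x ≤ -ρ) → (∀ j, ∀ x ∈ box r, x j = r j → ρ ≤ f j x) →
      False :=
  cy_cube N (fun G F lam R h1 h2 h3 h4 h5 δ h6 h7 => thmA G F lam R h1 h2 h3 h4 h5 δ h6 h7) c hc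

end
end PS
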