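import Pool.Agent.H96.PS.ADefs

/-!
Project PS (MP_b05a29_gt), row A21: auxiliary lemmas for the mollification of functions which are
Lipschitz for a Riemannian metric on an open set of `ℝ^N`.
-/

open scoped ContDiff Matrix
open MeasureTheory Set

namespace PS
noncomputable section
variable {N : ℕ}

theorem lx_q_pos {G : E N → Matrix (Fin N) (Fin N) ℝ} {U : Set (E N)} (hG : IsMetricOn G U)
    {x : E N} (hx : x ∈ U) {v : E N} (hv : v ≠ 0) : 0 < ∑ i, ∑ j, G x i j * v i * v j := by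
  have h0 : (fun i => v i) ≠ (0 : Fin N → ℝ) := by
    intro h
    apply hv
    ext i
    exact congrFun h i
  have h1 := (hG.posDef x hx).dotProduct_mulVec_pos h0
  have h2 : star (fun i => v i) ⬝ᵥ (G x).mulVec (fun i => v i)
      = ∑ i, ∑ j, G x i j * v i * v j := by
    simp only [dotProduct, Matrix.mulVec, Pi.star_apply, star_trivial]
    refine Finset.sum_congr rfl (fun i _ => ?_)
    rw [Finset.mul_sum]
    refine Finset.sum_congr rfl (fun j _ => ?_)
    ring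
  rw [h2] at h1
  exact h1

theorem lx_q_zero (G : E N → Matrix (Fin N) (Fin N) ℝ) (x : E N) :
    ∑ i, ∑ j, G x i j * (0 : E N) i * (0 : E N) j = 0 := by
  simp

theorem lx_q_smul (G : E N → Matrix (Fin N) (Fin N) ℝ) (x v : E N) (h : ℝ) :
    ∑ i, ∑ j, G x i j * (h • v) i * (h • v) j = h ^ 2 * ∑ i, ∑ j, G x i j * v i * v j := by
  rw [Finset.mul_sum]
  refine Finset.sum_congr rfl (fun i _ => ?_)
  rw [Finset.mul_sum]
  refine Finset.sum_congr rfl (fun j _ => ?_)
  simp only [PiLp.smul_apply, smul_eq_mul]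
  ring

theorem lx_vn_smul (G : E N → Matrix (Fin N) (Fin N) ℝ) (x v : E N) (h : ℝ) :
    vnorm G x (h • v) = |h| * vnorm G x v := by
  unfold vnorm
  rw [lx_q_smul, Real.sqrt_mul (sq_nonneg h), Real.sqrt_sq_eq_abs]

theorem lx_vn_nonneg (G : E N → Matrix (Fin N) (Fin N) ℝ) (x v : E N) : 0 ≤ vnorm G x v :=
  Real.sqrt_nonneg _

/-- entries of the metric as a function to a finite product -/
def lxH (G : E N → Matrix (Fin N) (Fin N) ℝ) (x : E N) : Fin N → Fin N → ℝ := fun i j => G x i j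

theorem lx_contH {G : E N → Matrix (Fin N) (Fin N) ℝ} {U : Set (E N)} (hG : IsMetricOn G U) :
    ContinuousOn (lxH G) U := by
  refine continuousOn_pi.2 (fun i => ?_)
  refine continuousOn_pi.2 (fun j => ?_)
  exact (hG.smooth i j).continuousOn

theorem lx_sum_le (M : Fin N → Fin N → ℝ) (B : ℝ) (hB : ∀ i j, |M i j| ≤ B) (v : E N) :
    |∑ i, ∑ j, M i j * v i * v j| ≤ (N : ℝ) ^ 2 * B * ‖v‖ ^ 2 := by
  have h1 : ∀ i j, |M i j * v i * v j| ≤ B * ‖v‖ ^ 2 := by
    intro i j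
    have hi : |v i| ≤ ‖v‖ := by
      have := PiLp.norm_apply_le v i
      rwa [Real.norm_eq_abs] at this
    have hj : |v j| ≤ ‖v‖ := by
      have := PiLp.norm_apply_le v j
      rwa [Real.norm_eq_abs] at this
    have hB0 : 0 ≤ B := le_trans (abs_nonneg _) (hB i j)
    rw [abs_mul, abs_mul]
    calc |M i j| * |v i| * |v j| ≤ B * ‖v‖ * ‖v‖ := by
          apply mul_le_mul _ hj (abs_nonneg _) (mul_nonneg hB0 (norm_nonneg _))
          exact mul_le_mul (hB i j) hi (abs_nonneg _) hB0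
      _ = B * ‖v‖ ^ 2 := by ring
  calc |∑ i, ∑ j, M i j * v i * v j| ≤ ∑ i, |∑ j, M i j * v i * v j| :=
        Finset.abs_sum_le_sum_abs _ _
    _ ≤ ∑ i : Fin N, ∑ j : Fin N, |M i j * v i * v j| :=
        Finset.sum_le_sum (fun i _ => Finset.abs_sum_le_sum_abs _ _)
    _ ≤ ∑ i : Fin N, ∑ j : Fin N, B * ‖v‖ ^ 2 :=
        Finset.sum_le_sum (fun i _ => Finset.sum_le_sum (fun j _ => h1 i j))
    _ = (N : ℝ) ^ 2 * B * ‖v‖ ^ 2 := by
        simp only [Finset.sum_const, Finset.card_univ, Fintype.card_fin, nsmul_eq_mul]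
        ring

theorem lx_exists_bound {G : E N → Matrix (Fin N) (Fin N) ℝ} {U K : Set (E N)}
    (hG : IsMetricOn G U) (hK : IsCompact K) (hKU : K ⊆ U) :
    ∃ C : ℝ, 0 ≤ C ∧ ∀ x ∈ K, ∀ v, vnorm G x v ≤ C * ‖v‖ := by
  obtain ⟨B, hB⟩ := hK.exists_bound_of_continuousOn ((lx_contH hG).mono hKU)
  refine ⟨Real.sqrt ((N : ℝ) ^ 2 * B), Real.sqrt_nonneg _, fun x hx v => ?_⟩
  have h1 : ∀ i j, |lxH G x i j| ≤ B := by
    intro i j
    have h2 : ‖lxH G x i j‖ ≤ ‖lxH G x‖ :=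
      le_trans (norm_le_pi_norm (lxH G x i) j) (norm_le_pi_norm (lxH G x) i)
    rw [Real.norm_eq_abs] at h2
    exact le_trans h2 (hB x hx)
  have h3 := lx_sum_le (lxH G x) B h1 v
  unfold vnorm
  have h4 : ∑ i, ∑ j, G x i j * v i * v j ≤ (N : ℝ) ^ 2 * B * ‖v‖ ^ 2 := le_trans (le_abs_self _) h3
  calc Real.sqrt (∑ i, ∑ j, G x i j * v i * v j) ≤ Real.sqrt ((N : ℝ) ^ 2 * B * ‖v‖ ^ 2) :=
        Real.sqrt_le_sqrt h4
    _ = Real.sqrt ((N : ℝ) ^ 2 * B) * ‖v‖ := by
        rw [Real.sqrt_mul' _ (sq_nonneg _), Real.sqrt_sq (norm_nonneg _)]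

theorem lx_exists_lower {G : E N → Matrix (Fin N) (Fin N) ℝ} {U K : Set (E N)}
    (hG : IsMetricOn G U) (hK : IsCompact K) (hKU : K ⊆ U) :
    ∃ m : ℝ, 0 < m ∧ ∀ x ∈ K, ∀ v : E N, m * ‖v‖ ^ 2 ≤ ∑ i, ∑ j, G x i j * v i * v j := by
  have hcomp : IsCompact (K ×ˢ Metric.sphere (0 : E N) 1) := hK.prod (isCompact_sphere _ _)
  have hcont : ContinuousOn (fun p : E N × E N => ∑ i, ∑ j, G p.1 i j * p.2 i * p.2 j)
      (K ×ˢ Metric.sphere (0 : E N) 1) := by
    refine continuousOn_finsetSum _ (fun i _ => ?_)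
    refine continuousOn_finsetSum _ (fun j _ => ?_)
    refine ContinuousOn.mul (ContinuousOn.mul ?_ ?_) ?_
    · exact ContinuousOn.comp (t := K) ((hG.smooth i j).continuousOn.mono hKU)
        continuous_fst.continuousOn (fun p hp => hp.1)
    · exact Continuous.continuousOn (by fun_prop)
    · exact Continuous.continuousOn (by fun_prop)
  rcases (K ×ˢ Metric.sphere (0 : E N) 1).eq_empty_or_nonempty with he | hne
  · refine ⟨1, one_pos, fun x hx v => ?_⟩
    by_cases hv : v = 0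
    · subst hv
      rw [lx_q_zero]
      simp
    · exfalso
      have hm : (x, (‖v‖)⁻¹ • v) ∈ K ×ˢ Metric.sphere (0 : E N) 1 := by
        refine ⟨hx, ?_⟩
        simp only [mem_sphere_iff_norm, sub_zero]
        rw [norm_smul, norm_inv, norm_norm, inv_mul_cancel₀ (norm_ne_zero_iff.2 hv)]
      rw [he] at hm
      exact hm
  · obtain ⟨p, hp, hmin⟩ := hcomp.exists_isMinOn hne hcont
    have hp2 : p.2 ≠ 0 := by
      intro h0
      have h1 : ‖p.2‖ = 1 := by
        have := hp.2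
        simpa using this
      rw [h0, norm_zero] at h1
      exact zero_ne_one h1
    refine ⟨∑ i, ∑ j, G p.1 i j * p.2 i * p.2 j, lx_q_pos hG (hKU hp.1) hp2, fun x hx v => ?_⟩
    by_cases hv : v = 0
    · subst hv
      rw [lx_q_zero]
      simp
    · have hn : ‖v‖ ≠ 0 := norm_ne_zero_iff.2 hv
      have hm : (x, (‖v‖)⁻¹ • v) ∈ K ×ˢ Metric.sphere (0 : E N) 1 := by
        refine ⟨hx, ?_⟩
        simp only [mem_sphere_iff_norm, sub_zero]
        rw [norm_smul, norm_inv, norm_norm, inv_mul_cancel₀ hn]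
      have h2 : (∑ i, ∑ j, G p.1 i j * p.2 i * p.2 j)
          ≤ ∑ i, ∑ j, G x i j * ((‖v‖)⁻¹ • v) i * ((‖v‖)⁻¹ • v) j := hmin hm
      rw [lx_q_smul] at h2
      have h3 := mul_le_mul_of_nonneg_right h2 (sq_nonneg ‖v‖)
      have h4 : ((‖v‖)⁻¹ ^ 2 * ∑ i, ∑ j, G x i j * v i * v j) * ‖v‖ ^ 2
          = ∑ i, ∑ j, G x i j * v i * v j := by
        rw [mul_comm ((‖v‖)⁻¹ ^ 2), mul_assoc, ← mul_pow, inv_mul_cancel₀ hn, one_pow, mul_one]
      rw [h4] at h3
      exact h3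

theorem lx_compare {G : E N → Matrix (Fin N) (Fin N) ℝ} {U K : Set (E N)}
    (hG : IsMetricOn G U) (hK : IsCompact K) (hKU : K ⊆ U) :
    ∃ δ : ℝ, 0 < δ ∧ ∀ x ∈ K, ∀ z ∈ K, dist z x < δ → ∀ v, vnorm G z v ≤ 2 * vnorm G x v := by
  obtain ⟨m, hm, hml⟩ := lx_exists_lower hG hK hKU
  have hu := hK.uniformContinuousOn_of_continuous ((lx_contH hG).mono hKU)
  rw [Metric.uniformContinuousOn_iff] at hu
  have hη : 0 < 3 * m / ((N : ℝ) ^ 2 + 1) := by positivity
  obtain ⟨δ, hδ, h⟩ := hu _ hη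
  refine ⟨δ, hδ, fun x hx z hz hd v => ?_⟩
  have h1 := h z hz x hx hd
  have h2 : ∀ i j, |lxH G z i j - lxH G x i j| ≤ 3 * m / ((N : ℝ) ^ 2 + 1) := by
    intro i j
    have h3 : dist (lxH G z i j) (lxH G x i j) ≤ dist (lxH G z) (lxH G x) :=
      le_trans (dist_le_pi_dist (lxH G z i) (lxH G x i) j) (dist_le_pi_dist (lxH G z) (lxH G x) i)
    rw [Real.dist_eq] at h3
    exact le_trans h3 h1.le
  have h4 := lx_sum_le (fun i j => lxH G z i j - lxH G x i j) _ h2 v
  have h5 : ∑ i, ∑ j, (lxH G z i j - lxH G x i j) * v i * v j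
      = ∑ i, ∑ j, G z i j * v i * v j - ∑ i, ∑ j, G x i j * v i * v j := by
    rw [← Finset.sum_sub_distrib]
    refine Finset.sum_congr rfl (fun i _ => ?_)
    rw [← Finset.sum_sub_distrib]
    refine Finset.sum_congr rfl (fun j _ => ?_)
    simp only [lxH]
    ring
  rw [h5] at h4
  have h6 := le_trans (le_abs_self _) h4
  have h7 : (N : ℝ) ^ 2 * (3 * m / ((N : ℝ) ^ 2 + 1)) * ‖v‖ ^ 2 ≤ 3 * (m * ‖v‖ ^ 2) := by
    have h8 : (N : ℝ) ^ 2 * (3 * m / ((N : ℝ) ^ 2 + 1)) ≤ 3 * m := by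
      rw [← mul_div_assoc, div_le_iff₀ (by positivity)]
      nlinarith [sq_nonneg (N : ℝ)]
    have h9 := mul_le_mul_of_nonneg_right h8 (sq_nonneg ‖v‖)
    linarith
  have h10 := hml x hx v
  have h11 : ∑ i, ∑ j, G z i j * v i * v j ≤ 2 ^ 2 * ∑ i, ∑ j, G x i j * v i * v j := by
    linarith
  unfold vnorm
  calc Real.sqrt (∑ i, ∑ j, G z i j * v i * v j)
      ≤ Real.sqrt (2 ^ 2 * ∑ i, ∑ j, G x i j * v i * v j) := Real.sqrt_le_sqrt h11
    _ = 2 * Real.sqrt (∑ i, ∑ j, G x i j * v i * v j) := by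
        rw [Real.sqrt_mul (by norm_num), Real.sqrt_sq (by norm_num)]

/-- the length of a segment is bounded by the supremum of the norms -/
theorem lx_segLen_le (G : E N → Matrix (Fin N) (Fin N) ℝ) (a b : E N) (C : ℝ)
    (h : ∀ z ∈ segment ℝ a b, vnorm G z (b - a) ≤ C) : segLen G a b ≤ C := by
  unfold segLen
  have h1 : ‖∫ s in (0 : ℝ)..1, vnorm G (a + s • (b - a)) (b - a)‖ ≤ C * |1 - 0| := by
    apply intervalIntegral.norm_integral_le_of_norm_le_const
    intro s hs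
    rw [uIoc_of_le zero_le_one] at hs
    rw [Real.norm_eq_abs, abs_of_nonneg (lx_vn_nonneg _ _ _)]
    apply h
    rw [segment_eq_image']
    exact ⟨s, ⟨hs.1.le, hs.2⟩, rfl⟩
  rw [sub_zero, abs_one, mul_one, Real.norm_eq_abs] at h1
  exact le_trans (le_abs_self _) h1

/-- continuity of metric Lipschitz functions -/
theorem lx_cont {G : E N → Matrix (Fin N) (Fin N) ℝ} {U : Set (E N)} (hU : IsOpen U)
    (hG : IsMetricOn G U) {f : E N → ℝ}
    (hf : ∀ x y, segment ℝ x y ⊆ U → |f x - f y| ≤ segLen G x y) : ContinuousOn f U := by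
  intro z hz
  apply ContinuousAt.continuousWithinAt
  obtain ⟨ε, hε, hb⟩ := Metric.nhds_basis_closedBall.mem_iff.1 (hU.mem_nhds hz)
  obtain ⟨C, hC, hCb⟩ := lx_exists_bound hG (isCompact_closedBall z ε) hb
  apply continuousAt_of_locally_lipschitz hε C
  intro y hy
  have hseg : segment ℝ y z ⊆ Metric.closedBall z ε :=
    (convex_closedBall z ε).segment_subset (Metric.mem_closedBall.2 hy.le)
      (Metric.mem_closedBall_self hε.le)
  have h1 := hf y z (hseg.trans hb)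
  rw [Real.dist_eq]
  refine le_trans h1 ?_
  apply lx_segLen_le
  intro w hw
  refine le_trans (hCb w (hseg hw) (z - y)) ?_
  rw [← dist_eq_norm, dist_comm]

/-- from a directional derivative bound to the bound of the gradient -/
theorem lx_grad_le {G : E N → Matrix (Fin N) (Fin N) ℝ} {x : E N} (hP : (G x).PosDef) (F : E N → ℝ)
    (hd : ∀ v, |fderiv ℝ F x v| ≤ 2 * vnorm G x v) : gradSq G F x ≤ 4 := by
  set p : Fin N → ℝ := fun k => pd k F x with hp
  set w : Fin N → ℝ := (G x)⁻¹.mulVec p with hw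
  set v : E N := WithLp.toLp 2 w with hv
  have hvi : ∀ i, v i = w i := fun i => rfl
  have hunit : IsUnit (G x).det := (Matrix.isUnit_iff_isUnit_det _).1 hP.isUnit
  have hGw : (G x).mulVec w = p := by
    rw [hw, Matrix.mulVec_mulVec, Matrix.mul_nonsing_inv _ hunit, Matrix.one_mulVec]
  have h1 : gradSq G F x = ∑ k, p k * w k := by
    unfold gradSq
    refine Finset.sum_congr rfl (fun k _ => ?_)
    simp only [hw, Matrix.mulVec, dotProduct]
    rw [Finset.mul_sum]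
    refine Finset.sum_congr rfl (fun l _ => ?_)
    simp only [hp]
    ring
  have h2 : fderiv ℝ F x v = ∑ k, p k * w k := by
    have hsum : v = ∑ k, w k • (ev k : E N) := by
      ext i
      simp [hvi, ev, Finset.sum_apply, Pi.single_apply]
    rw [hsum, map_sum]
    refine Finset.sum_congr rfl (fun k _ => ?_)
    rw [map_smul, smul_eq_mul, mul_comm]
    rfl
  have h3 : ∑ i, ∑ j, G x i j * v i * v j = ∑ k, p k * w k := by
    refine Finset.sum_congr rfl (fun i _ => ?_)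
    have h4 : p i = ∑ j, G x i j * w j := by
      rw [← hGw]
      rfl
    rw [h4, Finset.sum_mul]
    refine Finset.sum_congr rfl (fun j _ => ?_)
    simp only [hvi]
    ring
  have h5 : 0 ≤ ∑ k, p k * w k := by
    rw [← h3]
    by_cases hv0 : v = 0
    · rw [hv0, lx_q_zero]
    · have hm : IsMetricOn (fun _ : E N => G x) univ :=
        ⟨fun i j => contDiffOn_const, fun _ _ => hP⟩
      exact (lx_q_pos hm (mem_univ x) hv0).le
  have h6 := hd v
  rw [h2] at h6
  unfold vnorm at h6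
  rw [h3, abs_of_nonneg h5] at h6
  rw [h1]
  set q := ∑ k, p k * w k with hq
  have h7 : Real.sqrt q * Real.sqrt q = q := Real.mul_self_sqrt h5
  have h8 : 0 ≤ Real.sqrt q := Real.sqrt_nonneg q
  nlinarith

end
end PS
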