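import Pool.Agent.H96.PS.ADefs
import Pool.Agent.H96.PS.Cube
import Pool.Agent.H96.PS.CubeLip_x

/-!
Project PS (MP_b05a29_gt), row A21: the cube inequality for functions which are `1`-Lipschitz for
the metric (no smoothness), by mollification in the coordinates.
-/

open scoped ContDiff Matrix
open MeasureTheory Set

namespace PS
noncomputable section
variable {N : ℕ}

theorem lx_isCompact_box (r : Fin N → ℝ) : IsCompact (box r) := by
  have hclosed : IsClosed (box r) := by
    have h : box r = ⋂ j, {x : E N | |x j| ≤ r j} := by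
      ext x
      simp [box]
    rw [h]
    refine isClosed_iInter (fun j => ?_)
    exact isClosed_le (by fun_prop) continuous_const
  have hb : Bornology.IsBounded (box r) := by
    refine (Metric.isBounded_iff_subset_closedBall (0 : E N)).2
      ⟨Real.sqrt (∑ j, r j ^ 2), fun x hx => ?_⟩
    rw [mem_closedBall_zero_iff, EuclideanSpace.norm_eq]
    apply Real.sqrt_le_sqrt
    refine Finset.sum_le_sum (fun j _ => ?_)
    rw [Real.norm_eq_abs]
    exact pow_le_pow_left₀ (abs_nonneg _) (hx j) 2
  exact Metric.isCompact_of_isClosed_isBounded hclosed hb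

/-- mollification of one function -/
theorem lx_mollify {U : Set (E N)} {G : E N → Matrix (Fin N) (Fin N) ℝ} {r : Fin N → ℝ}
    {f : E N → ℝ} (hU : IsOpen U) (hbU : box r ⊆ U) (hG : IsMetricOn G U)
    (hf : ∀ x y, segment ℝ x y ⊆ U → |f x - f y| ≤ segLen G x y) :
    ∃ F : E N → ℝ, ContDiff ℝ ∞ F ∧ (∀ x ∈ box r, |F x - f x| ≤ 1) ∧
      ∀ x ∈ box r, gradSq G F x ≤ 4 := by
  obtain ⟨δ0, hδ0, hsub⟩ := (lx_isCompact_box r).exists_cthickening_subset_open hU hbU
  set K : Set (E N) := Metric.cthickening δ0 (box r) with hKdef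
  have hK : IsCompact K := (lx_isCompact_box r).cthickening
  have hbK : ∀ x ∈ box r, Metric.closedBall x δ0 ⊆ K := fun x hx =>
    Metric.closedBall_subset_cthickening hx δ0
  have hxK : ∀ x ∈ box r, x ∈ K := fun x hx => hbK x hx (Metric.mem_closedBall_self hδ0.le)
  have hcont : ContinuousOn f U := lx_cont hU hG hf
  obtain ⟨δ1, hδ1, hcmp⟩ := lx_compare hG hK hsub
  have hu := hK.uniformContinuousOn_of_continuous (hcont.mono hsub)
  rw [Metric.uniformContinuousOn_iff] at hu
  obtain ⟨δ2, hδ2, hunif⟩ := hu 1 one_pos
  -- the radius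
  set ε : ℝ := min (min δ0 δ1) δ2 / 4 with hεdef
  have hmin : 0 < min (min δ0 δ1) δ2 := lt_min (lt_min hδ0 hδ1) hδ2
  have hε : 0 < ε := by positivity
  have hε0 : 4 * ε ≤ δ0 := by
    have : min (min δ0 δ1) δ2 ≤ δ0 := le_trans (min_le_left _ _) (min_le_left _ _)
    rw [hεdef]; linarith
  have hε1 : 4 * ε ≤ δ1 := by
    have : min (min δ0 δ1) δ2 ≤ δ1 := le_trans (min_le_left _ _) (min_le_right _ _)
    rw [hεdef]; linarith
  have hε2 : 4 * ε ≤ δ2 := by
    have : min (min δ0 δ1) δ2 ≤ δ2 := min_le_right _ _
    rw [hεdef]; linarith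
  let φ : ContDiffBump (0 : E N) := ⟨ε / 2, ε, by positivity, by linarith⟩
  have hφ : φ.rOut = ε := rfl
  set g : E N → ℝ := K.indicator f with hg
  have hgint : Integrable g := by
    rw [hg, integrable_indicator_iff hK.measurableSet]
    exact (hcont.mono hsub).integrableOn_compact hK
  set F : E N → ℝ := MeasureTheory.convolution (φ.normed volume) g
    (ContinuousLinearMap.lsmul ℝ ℝ) volume with hF
  have hgK : ∀ z ∈ K, g z = f z := fun z hz => by rw [hg, indicator_of_mem hz]
  refine ⟨F, ?_, ?_, ?_⟩
  · have h := φ.hasCompactSupport_normed (μ := volume).contDiff_convolution_left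
      (ContinuousLinearMap.lsmul ℝ ℝ) (n := (⊤ : ℕ∞)) (φ.contDiff_normed (μ := volume))
      hgint.locallyIntegrable
    exact h
  · intro x hx
    have h1 : dist (F x) (g x) ≤ 1 := by
      rw [hF]
      apply φ.dist_normed_convolution_le hgint.aestronglyMeasurable
      intro z hz
      rw [hφ] at hz
      have hzK : z ∈ K := hbK x hx (Metric.mem_closedBall.2 (by
        have := Metric.mem_ball.1 hz
        linarith))
      rw [hgK z hzK, hgK x (hxK x hx)]
      apply le_of_lt
      apply hunif z hzK x (hxK x hx)
      have := Metric.mem_ball.1 hz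
      linarith
    rw [hgK x (hxK x hx), Real.dist_eq] at h1
    exact h1
  · intro x hx
    have hFd : DifferentiableAt ℝ F x := by
      have h := φ.hasCompactSupport_normed (μ := volume).contDiff_convolution_left
        (ContinuousLinearMap.lsmul ℝ ℝ) (n := (⊤ : ℕ∞)) (φ.contDiff_normed (μ := volume))
        hgint.locallyIntegrable
      exact (h.differentiable (by simp)).differentiableAt
    apply lx_grad_le (hG.posDef x (hbU hx)) F
    intro v
    -- the derivative along the line
    have hline : HasDerivAt (fun h : ℝ => F (x + h • v)) (fderiv ℝ F x v) 0 := by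
      have h1 : HasDerivAt (fun h : ℝ => x + h • v) v 0 := by
        have h2 : HasDerivAt (fun h : ℝ => h • v) ((1 : ℝ) • v) 0 :=
          (hasDerivAt_id (0 : ℝ)).smul_const v
        rw [one_smul] at h2
        exact h2.const_add x
      have h3 : HasFDerivAt F (fderiv ℝ F x) (x + (0 : ℝ) • v) := by
        rw [zero_smul, add_zero]
        exact hFd.hasFDerivAt
      exact h3.comp_hasDerivAt (0 : ℝ) h1
    have hkey : ‖fderiv ℝ F x v‖ ≤ 2 * vnorm G x v := by
      apply hline.le_of_lip' (by positivity [lx_vn_nonneg G x v])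
      -- small h
      have hev : ∀ᶠ h : ℝ in nhds 0, ‖h • v‖ < ε := by
        have hc : Continuous fun h : ℝ => ‖h • v‖ := by fun_prop
        have h0 : ‖(0 : ℝ) • v‖ < ε := by rw [zero_smul, norm_zero]; exact hε
        exact hc.continuousAt.eventually_lt continuousAt_const h0
      filter_upwards [hev] with h hh
      rw [zero_smul, add_zero, sub_zero]
      -- difference of the convolutions
      have hball : ∀ t ∈ Metric.ball (0 : E N) ε, ∀ w : E N, ‖w‖ ≤ ε →
          x + w - t ∈ Metric.closedBall x (2 * ε) := by
        intro t ht w hw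
        rw [Metric.mem_closedBall, dist_eq_norm]
        have h1 : x + w - t - x = w - t := by abel
        rw [h1]
        have h2 := norm_sub_le w t
        have h3 := mem_ball_zero_iff.1 ht
        linarith
      have hclK : Metric.closedBall x (2 * ε) ⊆ K := fun z hz => hbK x hx (by
        rw [Metric.mem_closedBall] at hz ⊢
        linarith)
      have hpt : ∀ t ∈ Metric.ball (0 : E N) ε,
          |g (x + h • v - t) - g (x - t)| ≤ |h| * (2 * vnorm G x v) := by
        intro t ht
        have ha := hball t ht (h • v) hh.le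
        have hb := hball t ht 0 (by rw [norm_zero]; exact hε.le)
        rw [add_zero] at hb
        rw [hgK _ (hclK ha), hgK _ (hclK hb)]
        have hseg : segment ℝ (x + h • v - t) (x - t) ⊆ Metric.closedBall x (2 * ε) :=
          (convex_closedBall x _).segment_subset ha hb
        refine le_trans (hf _ _ ((hseg.trans hclK).trans hsub)) ?_
        apply lx_segLen_le
        intro z hz
        have h1 : x - t - (x + h • v - t) = (-h) • v := by
          rw [neg_smul]; abel
        rw [h1, lx_vn_smul, abs_neg]
        apply mul_le_mul_of_nonneg_left _ (abs_nonneg h)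
        apply hcmp x (hxK x hx) z (hclK (hseg hz))
        have h2 := Metric.mem_closedBall.1 (hseg hz)
        linarith
      -- integrate
      have hint1 : ∀ y : E N, Integrable (fun t => φ.normed volume t * g (y - t)) := by
        intro y
        have hex : MeasureTheory.ConvolutionExistsAt (φ.normed volume) g y
            (ContinuousLinearMap.lsmul ℝ ℝ) volume :=
          (φ.hasCompactSupport_normed (μ := volume)).convolutionExists_left
            (ContinuousLinearMap.lsmul ℝ ℝ) φ.continuous_normed hgint.locallyIntegrable y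
        exact hex
      have hFy : ∀ y : E N, F y = ∫ t, φ.normed volume t * g (y - t) := by
        intro y
        rfl
      rw [hFy, hFy, ← integral_sub (hint1 _) (hint1 _)]
      have hbound : ∀ t, ‖φ.normed volume t * g (x + h • v - t) - φ.normed volume t * g (x - t)‖
          ≤ φ.normed volume t * (|h| * (2 * vnorm G x v)) := by
        intro t
        rw [← mul_sub, norm_mul, Real.norm_of_nonneg (φ.nonneg_normed t)]
        by_cases ht : t ∈ Metric.ball (0 : E N) ε
        · apply mul_le_mul_of_nonneg_left _ (φ.nonneg_normed t)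
          exact hpt t ht
        · have h0 : φ.normed volume t = 0 := by
            by_contra hne
            apply ht
            have hs : t ∈ Function.support (φ.normed volume) := hne
            rw [φ.support_normed_eq] at hs
            exact hs
          rw [h0, zero_mul, zero_mul]
      refine le_trans (norm_integral_le_of_norm_le
        (g := fun t => φ.normed volume t * (|h| * (2 * vnorm G x v))) ?_
        (Filter.Eventually.of_forall hbound)) ?_
      · exact φ.integrable_normed.mul_const _
      · rw [integral_mul_const, φ.integral_normed, one_mul, Real.norm_eq_abs, mul_comm]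
    rw [Real.norm_eq_abs] at hkey
    exact hkey

/-! ### row A9 (CubeLip.lean): Lipschitz version, by mollification -/
theorem cube_lip (N : ℕ) (c : ℝ) (hc : 0 < c) : ∃ ρ : ℝ, 0 < ρ ∧
    ∀ (U : Set (E N)) (G : E N → Matrix (Fin N) (Fin N) ℝ) (r : Fin N → ℝ) (f : Fin N → E N → ℝ),
      IsOpen U → (∀ j, 0 < r j) → box r ⊆ U → IsMetricOn G U → (∀ x ∈ box r, c ≤ scal G x) →
      (∀ j, ∀ x y, segment ℝ x y ⊆ U → |f j x - f j y| ≤ segLen G x y) →
      (∀ j, ∀ x ∈ box r, x j = - r j → f j x ≤ -ρ) → (∀ j, ∀ x ∈ box r, x j = r j → ρ ≤ f j x) →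
      False := by
  obtain ⟨ρ0, hρ0, hcube⟩ := cube_smooth N c hc
  refine ⟨2 * ρ0 + 1, by positivity, ?_⟩
  intro U G r f hU hr hbU hG hsc hf hlo hhi
  have hm : ∀ j, ∃ F : E N → ℝ, ContDiff ℝ ∞ F ∧ (∀ x ∈ box r, |F x - f j x| ≤ 1) ∧
      ∀ x ∈ box r, gradSq G F x ≤ 4 := fun j => lx_mollify hU hbU hG (hf j)
  choose F hFs hFc hFg using hm
  refine hcube U G r (fun j x => (1 / 2 : ℝ) * F j x) hU hr hbU hG hsc ?_ ?_ ?_ ?_
  · intro j
    exact (contDiff_const.mul (hFs j)).contDiffOn
  · intro j x hx
    have hd : DifferentiableAt ℝ (F j) x := ((hFs j).differentiable (by simp)).differentiableAt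
    have h1 : gradSq G (fun x => (1 / 2 : ℝ) * F j x) x = (1 / 4 : ℝ) * gradSq G (F j) x := by
      have h2 : ∀ k, pd k (fun x => (1 / 2 : ℝ) * F j x) x = (1 / 2 : ℝ) * pd k (F j) x := by
        intro k
        unfold pd
        rw [fderiv_const_mul hd]
        rfl
      unfold gradSq
      rw [Finset.mul_sum]
      refine Finset.sum_congr rfl (fun k _ => ?_)
      rw [Finset.mul_sum]
      refine Finset.sum_congr rfl (fun l _ => ?_)
      rw [h2, h2]
      ring
    rw [h1]
    have h3 := hFg j x hx
    linarith
  · intro j x hx hxj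
    have h1 := hFc j x hx
    have h2 := hlo j x hx hxj
    have h3 := (abs_le.1 h1).2
    show (1 / 2 : ℝ) * F j x ≤ -ρ0
    linarith
  · intro j x hx hxj
    have h1 := hFc j x hx
    have h2 := hhi j x hx hxj
    have h3 := (abs_le.1 h1).1
    show ρ0 ≤ (1 / 2 : ℝ) * F j x
    linarith

end
end PS
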