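import Pool.Agent.H96.PS.OfRep
import Pool.Agent.DC.D.Wolpert

/-!
Project PS / DC (MP_b05a29_gt), row C9 (helper6): lower bound of the Teichmueller distance in
the moduli space, by Wolpert's lemma and the pigeonhole principle for short curves.
-/

open scoped ENNReal UpperHalfPlane ContDiff Matrix
open MeasureTheory Set

namespace PS
noncomputable section

theorem cosh_displ (T : ℍ ≃ᵢ ℍ) (A : SL2R) (hT : ∀ z : ℍ, T z = A • z) :
    Real.cosh (displ T / 2) = max 1 (|tr A| / 2) := by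
  rw [displ_eq_dispA T A hT]
  exact Pool.Agent.DC.cosh_dispA A

/-- equal displacement, one matrix hyperbolic: equal absolute traces -/
theorem abs_tr_eq_of_displ {T T' : ℍ ≃ᵢ ℍ} {A A' : SL2R} (hT : ∀ z : ℍ, T z = A • z)
    (hT' : ∀ z : ℍ, T' z = A' • z) (h : displ T = displ T') (h2 : 2 < |tr A|) :
    |tr A'| = |tr A| := by
  have h1 := cosh_displ T A hT
  have h3 := cosh_displ T' A' hT'
  rw [h, h3, max_eq_right (b := |tr A| / 2) (by linarith)] at h1
  rcases le_total 1 (|tr A'| / 2) with h4 | h4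
  · rw [max_eq_right h4] at h1
    linarith
  · rw [max_eq_left h4] at h1
    linarith

theorem tl_congr {A A' : SL2R} (h : |tr A'| = |tr A|) :
    Pool.Agent.DC.tl A' = Pool.Agent.DC.tl A := by
  unfold Pool.Agent.DC.tl
  have h' : |(A' : Matrix (Fin 2) (Fin 2) ℝ).trace| = |(A : Matrix (Fin 2) (Fin 2) ℝ).trace| := h
  rw [h']

theorem displ_eq_of_cls {g n : ℕ} {ρ σ : HypStr g n} (h : ρ.cls = σ.cls) (γ : SurfaceGroup g n) :
    displ (ρ.hol γ) = displ (σ.hol γ) := by
  obtain ⟨T, hT⟩ := Quotient.exact h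
  rw [hT γ, displ_conj]

theorem teich_lower {g n : ℕ} (M : FNModel g n) (x y : E (dimT g n)) (hx : x ∈ M.V) (hy : y ∈ M.V)
    (i : Fin M.d) (L : ℝ)
    (hxi : ∀ j, j < i → x (M.idx (Sum.inl i)) ≤ x (M.idx (Sum.inl j)))
    (hyi : ∀ j, i < j → y (M.idx (Sum.inl j)) ≤ y (M.idx (Sum.inl i)))
    (hxy : 2 * L + y (M.idx (Sum.inl i)) = x (M.idx (Sum.inl i))) (φ : autStar g n) :
    ENNReal.ofReal L ≤ teichDist (M.str x hx).cls (act φ (M.str y hy).cls) := by
  unfold teichDist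
  refine le_iInf fun K => le_iInf fun hK => ?_
  obtain ⟨hK1, ρ, σ, f, hρ, hσ, hf, hc⟩ := hK
  apply ENNReal.ofReal_le_ofReal
  have hσ' : σ.cls = (HypStr.twist φ (M.str y hy)).cls := hσ
  have key : Real.exp (2 * L) ≤ K := by
    refine M.faces x y hx i L hxi hyi hxy (φ : MulAut (SurfaceGroup g n))⁻¹ K hK1 ?_
    intro γ hγ
    obtain ⟨A, hA⟩ := ρ.orient γ
    obtain ⟨B, hB⟩ := σ.orient γ
    have hdB : displ ((M.str y hy).hol ((φ : MulAut (SurfaceGroup g n))⁻¹ γ)) = displ (σ.hol γ) :=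
      (displ_eq_of_cls hσ' γ).symm
    have htB : |tr B| = |tr (M.rep y ((φ : MulAut (SurfaceGroup g n))⁻¹ γ))| :=
      abs_tr_eq_of_displ (fun z => M.str_hol y hy _ z) hB hdB hγ
    have hB2 : 2 < |tr B| := by rw [htB]; exact hγ
    have hconj : ∀ z : ℍ, f (A • z) = B • f z := by
      intro z
      rw [← hA, ← hB]
      exact hc γ z
    obtain ⟨hA2, hle⟩ := Pool.Agent.DC.wolpert f hK1 hf A B hconj hB2
    have hdA : displ (ρ.hol γ) = displ ((M.str x hx).hol γ) := displ_eq_of_cls hρ γ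
    have htA : |tr (M.rep x γ)| = |tr A| :=
      abs_tr_eq_of_displ hA (fun z => M.str_hol x hx γ z) hdA hA2
    refine ⟨by rw [htA]; exact hA2, ?_⟩
    rw [tl_congr htA, ← tl_congr htB]
    exact hle
  have h1 : 2 * L ≤ Real.log K := (Real.le_log_iff_exp_le (by linarith)).2 key
  linarith

end
end PS
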