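import Pool.Agent.H96.PS.ChartSmooth

/-!
Project PS / DC (MP_b05a29_gt), row C5 (helper6): the mapping class group acts smoothly on
Teichmueller space, and its elements in `Λ` are isometries of an invariant metric.
-/

open scoped ENNReal UpperHalfPlane ContDiff Matrix
open MeasureTheory Set

namespace PS
noncomputable section

variable {g n : ℕ} {Ψ : Teich g n ≃ E (dimT g n)}

theorem act_one (X : Teich g n) : act 1 X = X := by
  obtain ⟨ρ, rfl⟩ := Quotient.exists_rep X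
  refine Quotient.sound ?_
  refine ⟨1, fun γ => ?_⟩
  have h : (HypStr.twist 1 ρ).hol γ = ρ.hol γ := by
    show ρ.hol ((((1 : autStar g n) : MulAut (SurfaceGroup g n))⁻¹ :
      MulAut (SurfaceGroup g n)) γ) = ρ.hol γ
    rw [OneMemClass.coe_one, inv_one, MulAut.one_apply]
  rw [h]
  group

theorem act_mul (φ ψ : autStar g n) (X : Teich g n) : act (φ * ψ) X = act φ (act ψ X) := by
  obtain ⟨ρ, rfl⟩ := Quotient.exists_rep X
  refine Quotient.sound ?_
  refine ⟨1, fun γ => ?_⟩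
  have h : (HypStr.twist (φ * ψ) ρ).hol γ = (HypStr.twist φ (HypStr.twist ψ ρ)).hol γ := by
    show ρ.hol ((((φ * ψ : autStar g n) : MulAut (SurfaceGroup g n))⁻¹ :
      MulAut (SurfaceGroup g n)) γ) = ρ.hol (((ψ : MulAut (SurfaceGroup g n))⁻¹ :
      MulAut (SurfaceGroup g n)) (((φ : MulAut (SurfaceGroup g n))⁻¹ :
      MulAut (SurfaceGroup g n)) γ))
    rw [Subgroup.coe_mul, mul_inv_rev, MulAut.mul_apply]
  rw [h]
  group

theorem len_act (φ : autStar g n) (X : Teich g n) (γ : SurfaceGroup g n) :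
    len (act φ X) γ = len X (((φ : MulAut (SurfaceGroup g n))⁻¹ : MulAut (SurfaceGroup g n)) γ) := by
  obtain ⟨ρ, rfl⟩ := Quotient.exists_rep X
  rfl

theorem trc_actC (φ : autStar g n) (γ : SurfaceGroup g n) (p : E (dimT g n)) :
    trc Ψ γ (actC Ψ φ p) =
      trc Ψ (((φ : MulAut (SurfaceGroup g n))⁻¹ : MulAut (SurfaceGroup g n)) γ) p := by
  unfold trc actC
  rw [Equiv.symm_apply_apply, len_act]

theorem actC_smooth (hΨ : IsSmoothChart Ψ) (φ : autStar g n) : ContDiff ℝ ∞ (actC Ψ φ) := by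
  rw [← contDiffOn_univ]
  apply contDiffOn_of_trc hΨ isOpen_univ
  intro γ
  simp only [trc_actC]
  exact (hΨ.smooth _).contDiffOn

theorem actC_mul (φ ψ : autStar g n) (p : E (dimT g n)) :
    actC Ψ (φ * ψ) p = actC Ψ φ (actC Ψ ψ p) := by
  unfold actC
  rw [Equiv.symm_apply_apply, act_mul]

theorem actC_one (p : E (dimT g n)) : actC Ψ 1 p = p := by
  unfold actC
  rw [act_one, Equiv.apply_symm_apply]

theorem curveLen_act (hΨ : IsSmoothChart Ψ) {Λ : Subgroup (autStar g n)}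
    {h : E (dimT g n) → Matrix (Fin (dimT g n)) (Fin (dimT g n)) ℝ} (hinv : Invariant Ψ Λ h)
    (φ : autStar g n) (hφ : φ ∈ Λ) (γ : ℝ → E (dimT g n)) (hγ : ContDiffOn ℝ 1 γ (Icc 0 1)) :
    curveLen h (fun t => actC Ψ φ (γ t)) = curveLen h γ := by
  unfold curveLen
  refine setLIntegral_congr_fun measurableSet_Icc fun t ht => ?_
  have hd : DifferentiableWithinAt ℝ γ (Icc 0 1) t :=
    (hγ.differentiableOn (by norm_num)) t ht
  have ha : DifferentiableAt ℝ (actC Ψ φ) (γ t) :=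
    ((actC_smooth hΨ φ).differentiable (by simp)).differentiableAt
  have hu : UniqueDiffWithinAt ℝ (Icc (0 : ℝ) 1) t := uniqueDiffOn_Icc zero_lt_one t ht
  have h1 : derivWithin (fun t => actC Ψ φ (γ t)) (Icc 0 1) t =
      fderiv ℝ (actC Ψ φ) (γ t) (derivWithin γ (Icc 0 1) t) := by
    have h2 := ha.hasFDerivAt.comp_hasDerivWithinAt t hd.hasDerivWithinAt
    exact h2.derivWithin hu
  show ENNReal.ofReal (vnorm h (actC Ψ φ (γ t)) (derivWithin (fun t => actC Ψ φ (γ t)) (Icc 0 1) t))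
    = ENNReal.ofReal (vnorm h (γ t) (derivWithin γ (Icc 0 1) t))
  rw [h1, hinv φ hφ]

theorem brokenPath_act (hΨ : IsSmoothChart Ψ) {Λ : Subgroup (autStar g n)}
    {h : E (dimT g n) → Matrix (Fin (dimT g n)) (Fin (dimT g n)) ℝ} (hinv : Invariant Ψ Λ h)
    (φ : autStar g n) (hφ : φ ∈ Λ) {p q : E (dimT g n)} {L : ℝ≥0∞} (hb : BrokenPath h p q L) :
    BrokenPath h (actC Ψ φ p) (actC Ψ φ q) L := by
  induction hb with
  | nil p => exact BrokenPath.nil _
  | cons γ q L hγ _ ih =>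
    have h1 := BrokenPath.cons (h := h) (fun t => actC Ψ φ (γ t)) (actC Ψ φ q) L
      (((actC_smooth hΨ φ).of_le (by simp)).comp_contDiffOn hγ) ih
    rwa [curveLen_act hΨ hinv φ hφ γ hγ] at h1

theorem riemDist_act_le (hΨ : IsSmoothChart Ψ) {Λ : Subgroup (autStar g n)}
    {h : E (dimT g n) → Matrix (Fin (dimT g n)) (Fin (dimT g n)) ℝ} (hinv : Invariant Ψ Λ h)
    (φ : autStar g n) (hφ : φ ∈ Λ) (p q : E (dimT g n)) :
    riemDist h (actC Ψ φ p) (actC Ψ φ q) ≤ riemDist h p q := by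
  unfold riemDist
  refine le_iInf fun L => le_iInf fun hL => ?_
  exact iInf_le_of_le L (iInf_le_of_le (brokenPath_act hΨ hinv φ hφ hL) le_rfl)

theorem riemDist_act (hΨ : IsSmoothChart Ψ) {Λ : Subgroup (autStar g n)}
    {h : E (dimT g n) → Matrix (Fin (dimT g n)) (Fin (dimT g n)) ℝ} (hinv : Invariant Ψ Λ h)
    (φ : autStar g n) (hφ : φ ∈ Λ) (p q : E (dimT g n)) :
    riemDist h (actC Ψ φ p) (actC Ψ φ q) = riemDist h p q := by
  apply le_antisymm (riemDist_act_le hΨ hinv φ hφ p q)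
  have h1 := riemDist_act_le hΨ hinv φ⁻¹ (Λ.inv_mem hφ) (actC Ψ φ p) (actC Ψ φ q)
  rwa [← actC_mul, ← actC_mul, inv_mul_cancel, actC_one, actC_one] at h1

end
end PS
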