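import Pool.Agent.H96.PS.BDefs

/-!
Project PS / DC (MP_b05a29_gt), row C3 (helper6): a map into Teichmueller space is smooth if the
length functions along it are (inverse function theorem).
-/

open scoped ENNReal UpperHalfPlane ContDiff Matrix Topology
open MeasureTheory Set

namespace PS
noncomputable section

variable {g n : ℕ} {Ψ : Teich g n ≃ E (dimT g n)}

/-- finitely many length functions have no common tangent vector in their kernels -/
theorem exists_finset_imm (hΨ : IsSmoothChart Ψ) (p : E (dimT g n)) :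
    ∃ S : Finset (SurfaceGroup g n), ∀ v, (∀ γ ∈ S, fderiv ℝ (trc Ψ γ) p v = 0) → v = 0 := by
  classical
  have hK : IsCompact (Metric.sphere (0 : E (dimT g n)) 1) := isCompact_sphere _ _
  obtain ⟨S, hS⟩ := hK.elim_finite_subcover
    (fun γ : SurfaceGroup g n => {v : E (dimT g n) | fderiv ℝ (trc Ψ γ) p v ≠ 0})
    (fun γ => isOpen_ne_fun (fderiv ℝ (trc Ψ γ) p).continuous continuous_const) (by
      intro v hv
      rw [mem_iUnion]
      by_contra hcon
      push Not at hcon
      have h0 : v = 0 := hΨ.imm p v (fun γ => by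
        have := hcon γ
        simpa using this)
      rw [h0] at hv
      simp at hv)
  refine ⟨S, fun v hv => ?_⟩
  by_contra hne
  have h1 : (‖v‖⁻¹ • v) ∈ Metric.sphere (0 : E (dimT g n)) 1 := by
    rw [mem_sphere_zero_iff_norm, norm_smul, norm_inv, norm_norm,
      inv_mul_cancel₀ (norm_ne_zero_iff.2 hne)]
  have h2 := hS h1
  simp only [mem_iUnion, mem_ofPred_eq, map_smul, smul_eq_mul] at h2
  obtain ⟨γ, hγ, h3⟩ := h2
  rw [hv γ hγ] at h3
  simp at h3

/-- A map into Teichmueller space is smooth if all length functions along it are smooth. -/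
theorem contDiffOn_of_trc_gen (hΨ : IsSmoothChart Ψ) {W : Type*} [NormedAddCommGroup W]
    [NormedSpace ℝ W] {U : Set W} (hU : IsOpen U) {u : W → E (dimT g n)}
    (hu : ∀ γ, ContDiffOn ℝ ∞ (fun x => trc Ψ γ (u x)) U) : ContDiffOn ℝ ∞ u U := by
  classical
  have hcont : ContinuousOn u U := by
    rw [hΨ.emb.toIsInducing.continuousOn_iff, continuousOn_pi]
    intro γ
    exact (hu γ).continuousOn
  intro x0 hx0
  apply ContDiffAt.contDiffWithinAt
  have hx0U : U ∈ 𝓝 x0 := hU.mem_nhds hx0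
  obtain ⟨S, hS⟩ := exists_finset_imm hΨ (u x0)
  -- the finite family
  let T : E (dimT g n) → (S → ℝ) := fun p γ => trc Ψ γ.1 p
  have hT : ContDiff ℝ ∞ T := contDiff_pi.2 fun γ => hΨ.smooth γ.1
  have hTd : DifferentiableAt ℝ T (u x0) := (hT.differentiable (by simp)).differentiableAt
  have hfd : ∀ v γ, fderiv ℝ T (u x0) v γ = fderiv ℝ (trc Ψ γ.1) (u x0) v := by
    intro v γ
    have h1 : HasFDerivAt T (ContinuousLinearMap.pi fun γ : S => fderiv ℝ (trc Ψ γ.1) (u x0))
        (u x0) := by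
      rw [hasFDerivAt_pi]
      intro γ
      exact ((hΨ.smooth γ.1).differentiable (by simp)).differentiableAt.hasFDerivAt
    rw [h1.fderiv]
    rfl
  have hinj : LinearMap.ker (fderiv ℝ T (u x0)).toLinearMap = ⊥ := by
    rw [LinearMap.ker_eq_bot']
    intro v hv
    apply hS v
    intro γ hγ
    have h1 := hfd v ⟨γ, hγ⟩
    rw [← h1]
    have h2 : fderiv ℝ T (u x0) v = 0 := hv
    rw [h2]
    rfl
  obtain ⟨B, hB⟩ := (fderiv ℝ T (u x0)).toLinearMap.exists_leftInverse_of_injective hinj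
  let B' : (S → ℝ) →L[ℝ] E (dimT g n) := LinearMap.toContinuousLinearMap B
  let Q : E (dimT g n) → E (dimT g n) := fun p => B' (T p)
  have hQ : ContDiff ℝ ∞ Q := B'.contDiff.comp hT
  have hQ' : HasFDerivAt Q ((ContinuousLinearEquiv.refl ℝ (E (dimT g n)) :
      E (dimT g n) ≃L[ℝ] E (dimT g n)) : E (dimT g n) →L[ℝ] E (dimT g n)) (u x0) := by
    have h1 : HasFDerivAt Q (B'.comp (fderiv ℝ T (u x0))) (u x0) :=
      B'.hasFDerivAt.comp (u x0) hTd.hasFDerivAt
    convert h1 using 1
    ext v : 1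
    have h2 := LinearMap.congr_fun hB v
    exact h2.symm
  have hne : (∞ : WithTop ℕ∞) ≠ 0 := by simp
  have hstrict := (hQ.contDiffAt (x := u x0)).hasStrictFDerivAt' hQ' hne
  have hinvs := (hQ.contDiffAt (x := u x0)).to_localInverse hQ' hne
  have hev : ∀ᶠ x in 𝓝 x0, (hQ.contDiffAt (x := u x0)).localInverse hQ' hne (Q (u x)) = u x := by
    have h1 := hstrict.eventually_left_inverse
    exact (hcont.continuousAt hx0U).eventually h1
  have hQu : ContDiffAt ℝ ∞ (fun x => Q (u x)) x0 := by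
    have h1 : ContDiffAt ℝ ∞ (fun x => T (u x)) x0 := by
      rw [contDiffAt_pi]
      intro γ
      exact (hu γ.1).contDiffAt hx0U
    exact B'.contDiff.contDiffAt.comp x0 h1
  have hcomp : ContDiffAt ℝ ∞ (fun x => (hQ.contDiffAt (x := u x0)).localInverse hQ' hne (Q (u x)))
      x0 := hinvs.comp x0 hQu
  exact hcomp.congr_of_eventuallyEq (hev.mono fun x hx => hx.symm)

theorem contDiffOn_of_trc {g n : ℕ} {Ψ : Teich g n ≃ E (dimT g n)} (hΨ : IsSmoothChart Ψ) {m : ℕ}
    {U : Set (E m)} (hU : IsOpen U) (G : E m → E (dimT g n))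
    (hG : ∀ γ, ContDiffOn ℝ ∞ (fun x => trc Ψ γ (G x)) U) : ContDiffOn ℝ ∞ G U :=
  contDiffOn_of_trc_gen hΨ hU hG

end
end PS
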