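import Pool.Agent.H96.PS.OfRep
import Pool.Agent.H96.PS.ChartSmooth

/-!
Project PS / DC (MP_b05a29_gt), row C7 (helper6): the map from the Fenchel-Nielsen model to
Teichmueller space is smooth and immersive.
-/

open scoped ENNReal UpperHalfPlane ContDiff Matrix Topology
open MeasureTheory Set

namespace PS
noncomputable section

open Classical in
/-- the map from the model to Teichmueller space, in the coordinates `Ψ` -/
def phi {g n : ℕ} (M : FNModel g n) (Ψ : Teich g n ≃ E (dimT g n)) (x : E (dimT g n)) :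
    E (dimT g n) := if hx : x ∈ M.V then Ψ (M.str x hx).cls else 0

theorem phi_of_mem {g n : ℕ} (M : FNModel g n) (Ψ : Teich g n ≃ E (dimT g n))
    {x : E (dimT g n)} (hx : x ∈ M.V) : phi M Ψ x = Ψ (M.str x hx).cls := by
  unfold phi
  rw [dif_pos hx]

theorem trc_phi {g n : ℕ} (M : FNModel g n) (Ψ : Teich g n ≃ E (dimT g n))
    {x : E (dimT g n)} (hx : x ∈ M.V) (γ : SurfaceGroup g n) :
    trc Ψ γ (phi M Ψ x) = |tr (M.rep x γ)| / 2 := by
  rw [phi_of_mem M Ψ hx, trc, Equiv.symm_apply_apply, ← M.cosh_len_str x hx γ]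
  rfl

theorem isOpen_V {g n : ℕ} (M : FNModel g n) : IsOpen M.V := by
  have h : M.V = ⋂ e : Fin M.d, {x : E (dimT g n) | x (M.idx (Sum.inl e)) < 0} := by
    ext x
    simp [FNModel.V]
  rw [h]
  refine isOpen_iInter_of_finite fun e => ?_
  exact isOpen_lt (by fun_prop) continuous_const

theorem contDiff_tr {g n : ℕ} (M : FNModel g n) (γ : SurfaceGroup g n) :
    ContDiff ℝ ∞ (fun x => tr (M.rep x γ)) := by
  have h : (fun x => tr (M.rep x γ)) = fun x =>
      (M.rep x γ : Matrix (Fin 2) (Fin 2) ℝ) 0 0 + (M.rep x γ : Matrix (Fin 2) (Fin 2) ℝ) 1 1 := by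
    funext x
    exact Matrix.trace_fin_two _
  rw [h]
  exact (M.smooth γ 0 0).add (M.smooth γ 1 1)

theorem tr_ne_zero {g n : ℕ} (M : FNModel g n) {x : E (dimT g n)} (hx : x ∈ M.V)
    (γ : SurfaceGroup g n) : tr (M.rep x γ) ≠ 0 := by
  intro h
  have := M.two_le x hx γ
  rw [h, abs_zero] at this
  linarith

theorem contDiffAt_abs_tr {g n : ℕ} (M : FNModel g n) {x : E (dimT g n)} (hx : x ∈ M.V)
    (γ : SurfaceGroup g n) : ContDiffAt ℝ ∞ (fun y => |tr (M.rep y γ)| / 2) x :=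
  ((contDiffAt_abs (tr_ne_zero M hx γ)).comp x (contDiff_tr M γ).contDiffAt).div_const 2

theorem phi_smooth {g n : ℕ} (M : FNModel g n) {Ψ : Teich g n ≃ E (dimT g n)}
    (hΨ : IsSmoothChart Ψ) : ContDiffOn ℝ ∞ (phi M Ψ) M.V := by
  apply contDiffOn_of_trc hΨ (isOpen_V M)
  intro γ
  have h1 : ContDiffOn ℝ ∞ (fun y => |tr (M.rep y γ)| / 2) M.V :=
    fun x hx => (contDiffAt_abs_tr M hx γ).contDiffWithinAt
  exact h1.congr fun x hx => trc_phi M Ψ hx γ

theorem phi_imm {g n : ℕ} (M : FNModel g n) {Ψ : Teich g n ≃ E (dimT g n)}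
    (hΨ : IsSmoothChart Ψ) (x : E (dimT g n)) (hx : x ∈ M.V) :
    Function.Injective (fderiv ℝ (phi M Ψ) x) := by
  have hV : M.V ∈ 𝓝 x := (isOpen_V M).mem_nhds hx
  rw [injective_iff_map_eq_zero]
  intro v hv
  apply M.rank x hx v
  intro γ
  -- derivative of the length function along `phi`
  have h1 : fderiv ℝ (fun y => |tr (M.rep y γ)| / 2) x v = 0 := by
    have hphi : DifferentiableAt ℝ (phi M Ψ) x :=
      ((phi_smooth M hΨ).contDiffAt hV).differentiableAt (by simp)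
    have htrc : DifferentiableAt ℝ (trc Ψ γ) (phi M Ψ x) :=
      ((hΨ.smooth γ).differentiable (by simp)).differentiableAt
    have h2 : fderiv ℝ (fun y => trc Ψ γ (phi M Ψ y)) x v = 0 := by
      have h3 : HasFDerivAt (fun y => trc Ψ γ (phi M Ψ y))
          ((fderiv ℝ (trc Ψ γ) (phi M Ψ x)).comp (fderiv ℝ (phi M Ψ) x)) x :=
        htrc.hasFDerivAt.comp x hphi.hasFDerivAt
      rw [h3.fderiv, ContinuousLinearMap.comp_apply, hv, map_zero]
    have h4 : (fun y => |tr (M.rep y γ)| / 2) =ᶠ[𝓝 x] (fun y => trc Ψ γ (phi M Ψ y)) := by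
      filter_upwards [hV] with y hy
      exact (trc_phi M Ψ hy γ).symm
    rw [h4.fderiv_eq]
    exact h2
  have h5 : (fun y => tr (M.rep y γ) ^ 2) = fun y => 4 * (|tr (M.rep y γ)| / 2) ^ 2 := by
    funext y
    rw [div_pow, sq_abs]
    ring
  have h6 : HasFDerivAt (fun y => |tr (M.rep y γ)| / 2)
      (fderiv ℝ (fun y => |tr (M.rep y γ)| / 2) x) x :=
    ((contDiffAt_abs_tr M hx γ).differentiableAt (by simp)).hasFDerivAt
  have h7 := (h6.pow 2).const_mul 4
  rw [h5, h7.fderiv]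
  simp [h1]

end
end PS
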