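import Pool.Agent.H96.PS.ADefs

/-!
Project PS (MP_b05a29_gt), row A22: the scalar curvature is invariant under local
diffeomorphisms.
-/

open scoped ContDiff Matrix
open MeasureTheory Set

namespace PS
noncomputable section
variable {N : ℕ}

namespace SI

/-! ### calculus in coordinates -/

theorem pd_mul' {f g : E N → ℝ} {x : E N} (i : Fin N) (hf : DifferentiableAt ℝ f x)
    (hg : DifferentiableAt ℝ g x) :
    pd i (fun y => f y * g y) x = pd i f x * g x + f x * pd i g x := by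
  unfold pd
  rw [fderiv_fun_mul hf hg]
  simp only [add_apply, smul_apply, smul_eq_mul]
  ring

theorem pd_add' {f g : E N → ℝ} {x : E N} (i : Fin N) (hf : DifferentiableAt ℝ f x)
    (hg : DifferentiableAt ℝ g x) :
    pd i (fun y => f y + g y) x = pd i f x + pd i g x := by
  unfold pd
  rw [fderiv_fun_add hf hg]
  simp only [add_apply]

theorem pd_sum' {ι : Type*} {s : Finset ι} {f : ι → E N → ℝ} {x : E N} (i : Fin N)
    (hf : ∀ a ∈ s, DifferentiableAt ℝ (f a) x) :
    pd i (fun y => ∑ a ∈ s, f a y) x = ∑ a ∈ s, pd i (f a) x := by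
  unfold pd
  rw [fderiv_fun_sum hf]
  simp only [sum_apply]

theorem eq_sum_ev (v : E N) : v = ∑ a, v a • (ev a : E N) := by
  ext b
  simp [ev, Finset.sum_apply, Pi.single_apply]

theorem pd_comp' {g : E N → ℝ} {φ : E N → E N} {x : E N} (i : Fin N)
    (hg : DifferentiableAt ℝ g (φ x)) (hφ : DifferentiableAt ℝ φ x) :
    pd i (fun y => g (φ y)) x = ∑ a, pd i (fun y => φ y a) x * pd a g (φ x) := by
  have h1 : fderiv ℝ (fun y => g (φ y)) x = (fderiv ℝ g (φ x)).comp (fderiv ℝ φ x) :=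
    fderiv_fun_comp x hg hφ
  have h2 : ∀ a : Fin N, pd i (fun y => φ y a) x = (fderiv ℝ φ x (ev i)) a := by
    intro a
    unfold pd
    have h3 : HasFDerivAt (fun y => φ y a)
        ((EuclideanSpace.proj a : E N →L[ℝ] ℝ).comp (fderiv ℝ φ x)) x :=
      (EuclideanSpace.proj a : E N →L[ℝ] ℝ).hasFDerivAt.comp x hφ.hasFDerivAt
    rw [h3.fderiv]
    rfl
  unfold pd at *
  rw [h1]
  simp only [ContinuousLinearMap.comp_apply]
  conv_lhs => rw [eq_sum_ev (fderiv ℝ φ x (ev i))]
  rw [map_sum]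
  refine Finset.sum_congr rfl fun a _ => ?_
  rw [map_smul, smul_eq_mul, h2 a]

theorem comp_coord {φ : E N → E N} {U : Set (E N)} (hφ : ContDiffOn ℝ ∞ φ U) (a : Fin N) :
    ContDiffOn ℝ ∞ (fun y => φ y a) U :=
  (EuclideanSpace.proj a : E N →L[ℝ] ℝ).contDiff.comp_contDiffOn hφ

theorem pd_smooth {f : E N → ℝ} {U : Set (E N)} (hU : IsOpen U) (hf : ContDiffOn ℝ ∞ f U)
    (i : Fin N) : ContDiffOn ℝ ∞ (fun y => pd i f y) U := by
  have h := hf.fderiv_of_isOpen hU (m := ∞) (by simp)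
  exact h.clm_apply contDiffOn_const

theorem dAt {f : E N → ℝ} {U : Set (E N)} (hU : IsOpen U) (hf : ContDiffOn ℝ ∞ f U) {x : E N}
    (hx : x ∈ U) : DifferentiableAt ℝ f x :=
  (hf.contDiffAt (hU.mem_nhds hx)).differentiableAt (by simp)

theorem dAtV {φ : E N → E N} {U : Set (E N)} (hU : IsOpen U) (hf : ContDiffOn ℝ ∞ φ U) {x : E N}
    (hx : x ∈ U) : DifferentiableAt ℝ φ x :=
  (hf.contDiffAt (hU.mem_nhds hx)).differentiableAt (by simp)

theorem pd_comm {f : E N → ℝ} {U : Set (E N)} (hU : IsOpen U) (hf : ContDiffOn ℝ ∞ f U)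
    {x : E N} (hx : x ∈ U) (i j : Fin N) :
    pd i (fun y => pd j f y) x = pd j (fun y => pd i f y) x := by
  have hc : ContDiffAt ℝ ∞ f x := hf.contDiffAt (hU.mem_nhds hx)
  have hs : IsSymmSndFDerivAt ℝ f x := by
    apply hc.isSymmSndFDerivAt
    simp only [minSmoothness_of_isRCLikeNormedField]
    exact WithTop.coe_le_coe.2 le_top
  have hd : DifferentiableAt ℝ (fderiv ℝ f) x :=
    ((hf.fderiv_of_isOpen hU (m := ∞) (by simp)).contDiffAt (hU.mem_nhds hx)).differentiableAt
      (by simp)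
  have key : ∀ i j : Fin N, pd i (fun y => pd j f y) x = fderiv ℝ (fderiv ℝ f) x (ev i) (ev j) := by
    intro i j
    unfold pd
    rw [fderiv_clm_apply hd (differentiableAt_const _)]
    simp
  rw [key, key]
  exact hs.eq _ _

/-- entrywise partial derivative of a matrix valued function -/
def mpd (i : Fin N) (M : E N → Matrix (Fin N) (Fin N) ℝ) (x : E N) : Matrix (Fin N) (Fin N) ℝ :=
  Matrix.of fun a b => pd i (fun y => M y a b) x

/-- Jacobian matrix -/
def Jm (φ : E N → E N) (x : E N) : Matrix (Fin N) (Fin N) ℝ :=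
  Matrix.of fun a i => pd i (fun y => φ y a) x

theorem mpd_mul {M P : E N → Matrix (Fin N) (Fin N) ℝ} {x : E N} (i : Fin N)
    (hM : ∀ a b, DifferentiableAt ℝ (fun y => M y a b) x)
    (hP : ∀ a b, DifferentiableAt ℝ (fun y => P y a b) x) :
    mpd i (fun y => M y * P y) x = mpd i M x * P x + M x * mpd i P x := by
  ext a b
  simp only [mpd, Matrix.of_apply, Matrix.mul_apply, Matrix.add_apply]
  rw [pd_sum' (f := fun c y => M y a c * P y c b) i
    (fun c _ => (hM a c).fun_mul (hP c b)), ← Finset.sum_add_distrib]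
  refine Finset.sum_congr rfl fun c _ => ?_
  rw [pd_mul' i (hM a c) (hP c b)]

theorem mpd_add {M P : E N → Matrix (Fin N) (Fin N) ℝ} {x : E N} (i : Fin N)
    (hM : ∀ a b, DifferentiableAt ℝ (fun y => M y a b) x)
    (hP : ∀ a b, DifferentiableAt ℝ (fun y => P y a b) x) :
    mpd i (fun y => M y + P y) x = mpd i M x + mpd i P x := by
  ext a b
  simp only [mpd, Matrix.of_apply, Matrix.add_apply]
  rw [pd_add' i (hM a b) (hP a b)]

/-! ### the Jacobian -/

theorem fderiv_mulVec {φ : E N → E N} {x : E N} (hφ : DifferentiableAt ℝ φ x) (v : E N)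
    (a : Fin N) : (fderiv ℝ φ x v) a = ∑ i, Jm φ x a i * v i := by
  have h2 : ∀ i : Fin N, pd i (fun y => φ y a) x = (fderiv ℝ φ x (ev i)) a := by
    intro i
    unfold pd
    have h3 : HasFDerivAt (fun y => φ y a)
        ((EuclideanSpace.proj a : E N →L[ℝ] ℝ).comp (fderiv ℝ φ x)) x :=
      (EuclideanSpace.proj a : E N →L[ℝ] ℝ).hasFDerivAt.comp x hφ.hasFDerivAt
    rw [h3.fderiv]
    rfl
  conv_lhs => rw [eq_sum_ev v]
  rw [map_sum]
  simp only [map_smul, Jm, Matrix.of_apply, h2]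
  simp [Finset.sum_apply, mul_comm]

theorem Jm_unit {φ : E N → E N} {x : E N} (hφ : DifferentiableAt ℝ φ x)
    (hi : Function.Injective (fderiv ℝ φ x)) : IsUnit (Jm φ x) := by
  rw [← Matrix.mulVec_injective_iff_isUnit]
  intro v w hvw
  have h : fderiv ℝ φ x (WithLp.toLp 2 v) = fderiv ℝ φ x (WithLp.toLp 2 w) := by
    ext a
    rw [fderiv_mulVec hφ, fderiv_mulVec hφ]
    exact congrFun hvw a
  have h2 := hi h
  exact congrArg WithLp.ofLp h2

theorem pull_eq (φ : E N → E N) (G : E N → Matrix (Fin N) (Fin N) ℝ) (x : E N) :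
    pull φ G x = (Jm φ x)ᵀ * G (φ x) * Jm φ x := by
  ext i j
  simp only [pull, Matrix.of_apply, Matrix.mul_apply, Matrix.transpose_apply, Jm]
  rw [Finset.sum_comm]
  refine Finset.sum_congr rfl fun b _ => ?_
  rw [Finset.sum_mul]
  refine Finset.sum_congr rfl fun a _ => ?_
  ring

theorem posDef_unit {g : Matrix (Fin N) (Fin N) ℝ} (hg : g.PosDef) : IsUnit g := by
  rw [Matrix.isUnit_iff_isUnit_det]
  exact (hg.det_pos).ne'.isUnit


/-! ### the algebra of the transformation law -/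

theorem sandwich {g J : Matrix (Fin N) (Fin N) ℝ} (hg : IsUnit g) (hJ : IsUnit J) :
    J * (Jᵀ * g * J)⁻¹ * Jᵀ = g⁻¹ := by
  have hg' := (Matrix.isUnit_iff_isUnit_det _).1 hg
  have hJ' := (Matrix.isUnit_iff_isUnit_det _).1 hJ
  have hJt : IsUnit (Jᵀ).det := by rwa [Matrix.det_transpose]
  rw [Matrix.mul_inv_rev, Matrix.mul_inv_rev]
  have e1 : J * (J⁻¹ * (g⁻¹ * Jᵀ⁻¹)) * Jᵀ = (J * J⁻¹) * g⁻¹ * (Jᵀ⁻¹ * Jᵀ) := by
    simp only [Matrix.mul_assoc]
  rw [e1, Matrix.mul_nonsing_inv _ hJ', Matrix.nonsing_inv_mul _ hJt]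
  simp

theorem T_alg (g J : Matrix (Fin N) (Fin N) ℝ) (hgs : ∀ a b, g a b = g b a)
    (dG : Fin N → Fin N → Fin N → ℝ)
    (dJ : Fin N → Fin N → Fin N → ℝ) (hdJ : ∀ i a k, dJ i a k = dJ k a i)
    (D : Fin N → Fin N → Fin N → ℝ)
    (hD : ∀ i k l, D i k l = ∑ a, ∑ b, ((∑ c, J c i * dG c a b) * J a k * J b l
      + g a b * dJ i a k * J b l + g a b * J a k * dJ i b l)) (i k l : Fin N) :
    D i k l + D k i l - D l i k
      = ∑ b, J b l * ((∑ a, ∑ c, J c i * J a k * (dG c a b + dG a c b - dG b c a))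
          + 2 * ∑ a, g a b * dJ i a k) := by
  set P : Fin N → Fin N → Fin N → ℝ := fun i k l =>
    ∑ a, ∑ b, (∑ c, J c i * dG c a b) * J a k * J b l with hP
  set Q : Fin N → Fin N → Fin N → ℝ := fun i k l => ∑ a, ∑ b, g a b * dJ i a k * J b l with hQ
  have hDPQ : ∀ i k l, D i k l = P i k l + Q i k l + Q i l k := by
    intro i k l
    rw [hD]
    simp only [Finset.sum_add_distrib, hP, hQ]
    congr 1
    rw [Finset.sum_comm]
    refine Finset.sum_congr rfl fun b _ => Finset.sum_congr rfl fun a _ => ?_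
    rw [hgs a b]; ring
  have hQs : ∀ i k l, Q i k l = Q k i l := by
    intro i k l
    simp only [hQ]
    refine Finset.sum_congr rfl fun a _ => Finset.sum_congr rfl fun b _ => ?_
    rw [hdJ i a k]
  have hQ2 : Q i k l = ∑ b, J b l * ∑ a, g a b * dJ i a k := by
    simp only [hQ]
    rw [Finset.sum_comm]
    refine Finset.sum_congr rfl fun b _ => ?_
    rw [Finset.mul_sum]
    refine Finset.sum_congr rfl fun a _ => ?_
    ring
  have hP1 : P i k l = ∑ b, J b l * ∑ a, ∑ c, J c i * J a k * dG c a b := by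
    simp only [hP]
    rw [Finset.sum_comm]
    refine Finset.sum_congr rfl fun b _ => ?_
    rw [Finset.mul_sum]
    refine Finset.sum_congr rfl fun a _ => ?_
    rw [Finset.sum_mul, Finset.sum_mul, Finset.mul_sum]
    refine Finset.sum_congr rfl fun c _ => ?_
    ring
  have hP2 : P k i l = ∑ b, J b l * ∑ a, ∑ c, J c i * J a k * dG a c b := by
    simp only [hP]
    rw [Finset.sum_comm]
    refine Finset.sum_congr rfl fun b _ => ?_
    have e1 : (∑ a, (∑ c, J c k * dG c a b) * J a i * J b l)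
        = ∑ a, ∑ c, J c k * dG c a b * J a i * J b l := by
      refine Finset.sum_congr rfl fun a _ => ?_
      rw [Finset.sum_mul, Finset.sum_mul]
    rw [e1, Finset.sum_comm, Finset.mul_sum]
    refine Finset.sum_congr rfl fun a _ => ?_
    rw [Finset.mul_sum]
    refine Finset.sum_congr rfl fun c _ => ?_
    ring
  have hP3 : P l i k = ∑ b, J b l * ∑ a, ∑ c, J c i * J a k * dG b c a := by
    simp only [hP]
    have e1 : (∑ a, ∑ b, (∑ c, J c l * dG c a b) * J a i * J b k)
        = ∑ a, ∑ c, ∑ b, J c l * dG c a b * J a i * J b k := by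
      refine Finset.sum_congr rfl fun a _ => ?_
      rw [Finset.sum_comm]
      refine Finset.sum_congr rfl fun b _ => ?_
      rw [Finset.sum_mul, Finset.sum_mul]
    rw [e1, Finset.sum_comm]
    refine Finset.sum_congr rfl fun c _ => ?_
    rw [Finset.sum_comm, Finset.mul_sum]
    refine Finset.sum_congr rfl fun b _ => ?_
    rw [Finset.mul_sum]
    refine Finset.sum_congr rfl fun a _ => ?_
    ring
  have hR : ∑ b, J b l * ((∑ a, ∑ c, J c i * J a k * (dG c a b + dG a c b - dG b c a))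
          + 2 * ∑ a, g a b * dJ i a k)
      = P i k l + P k i l - P l i k + 2 * Q i k l := by
    rw [hP1, hP2, hP3, hQ2, ← Finset.sum_add_distrib, ← Finset.sum_sub_distrib, Finset.mul_sum,
      ← Finset.sum_add_distrib]
    refine Finset.sum_congr rfl fun b _ => ?_
    have e1 : (∑ a, ∑ c, J c i * J a k * (dG c a b + dG a c b - dG b c a))
        = (∑ a, ∑ c, J c i * J a k * dG c a b) + (∑ a, ∑ c, J c i * J a k * dG a c b)
          - (∑ a, ∑ c, J c i * J a k * dG b c a) := by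
      simp only [mul_sub, mul_add, Finset.sum_add_distrib, Finset.sum_sub_distrib]
    rw [e1]
    ring
  rw [hR, hDPQ i k l, hDPQ k i l, hDPQ l i k, hQs k i l, hQs k l i, hQs l i k]
  ring

theorem star_alg (g J : Matrix (Fin N) (Fin N) ℝ) (hgs : ∀ a b, g a b = g b a)
    (hg : IsUnit g) (hJ : IsUnit J)
    (dG : Fin N → Fin N → Fin N → ℝ)
    (dJ : Fin N → Fin N → Fin N → ℝ) (hdJ : ∀ i a k, dJ i a k = dJ k a i)
    (D : Fin N → Fin N → Fin N → ℝ)
    (hD : ∀ i k l, D i k l = ∑ a, ∑ b, ((∑ c, J c i * dG c a b) * J a k * J b l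
      + g a b * dJ i a k * J b l + g a b * J a k * dJ i b l)) (i k d : Fin N) :
    ∑ j, J d j * ((1 / 2 : ℝ) * ∑ l, (Jᵀ * g * J)⁻¹ j l * (D i k l + D k i l - D l i k))
      = (∑ a, ∑ c, J c i * J a k
          * ((1 / 2 : ℝ) * ∑ b, g⁻¹ d b * (dG c a b + dG a c b - dG b c a))) + dJ i d k := by
  set W : Fin N → ℝ := fun b => (∑ a, ∑ c, J c i * J a k * (dG c a b + dG a c b - dG b c a))
          + 2 * ∑ a, g a b * dJ i a k with hW
  have hT : ∀ l, D i k l + D k i l - D l i k = ∑ b, J b l * W b := fun l =>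
    T_alg g J hgs dG dJ hdJ D hD i k l
  have hs := sandwich hg hJ
  have e1 : ∑ j, J d j * ((1 / 2 : ℝ) * ∑ l, (Jᵀ * g * J)⁻¹ j l * (D i k l + D k i l - D l i k))
      = (1 / 2 : ℝ) * ∑ b, g⁻¹ d b * W b := by
    have e2 : ∀ b, g⁻¹ d b = ∑ l, (∑ j, J d j * (Jᵀ * g * J)⁻¹ j l) * J b l := by
      intro b
      rw [← hs]
      simp only [Matrix.mul_apply (M := J * (Jᵀ * g * J)⁻¹), Matrix.mul_apply (M := J),
        Matrix.transpose_apply]
    simp only [hT, e2]
    rw [Finset.mul_sum]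
    have e3 : ∀ b, (1 / 2 : ℝ) * ((∑ l, (∑ j, J d j * (Jᵀ * g * J)⁻¹ j l) * J b l) * W b)
        = ∑ j, ∑ l, (1 / 2 : ℝ) * (J d j * (Jᵀ * g * J)⁻¹ j l * J b l * W b) := by
      intro b
      rw [Finset.sum_mul, Finset.mul_sum, Finset.sum_comm]
      refine Finset.sum_congr rfl fun l _ => ?_
      rw [Finset.sum_mul, Finset.sum_mul, Finset.mul_sum]
    simp only [e3]
    rw [Finset.sum_comm]
    refine Finset.sum_congr rfl fun j _ => ?_
    rw [Finset.sum_comm, Finset.mul_sum, Finset.mul_sum]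
    refine Finset.sum_congr rfl fun l _ => ?_
    rw [Finset.mul_sum, Finset.mul_sum, Finset.mul_sum]
    refine Finset.sum_congr rfl fun b _ => ?_
    ring
  rw [e1]
  have e4 : ∀ a, ∑ b, g⁻¹ d b * g a b = if d = a then 1 else 0 := by
    intro a
    have h := Matrix.nonsing_inv_mul g ((Matrix.isUnit_iff_isUnit_det _).1 hg)
    have h2 := congrFun (congrFun h d) a
    rw [Matrix.mul_apply, Matrix.one_apply] at h2
    rw [← h2]
    refine Finset.sum_congr rfl fun b _ => ?_
    rw [hgs a b]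
  have e5 : (1 / 2 : ℝ) * ∑ b, g⁻¹ d b * W b
      = (1 / 2 : ℝ) * (∑ b, g⁻¹ d b * ∑ a, ∑ c, J c i * J a k * (dG c a b + dG a c b - dG b c a))
        + ∑ b, g⁻¹ d b * ∑ a, g a b * dJ i a k := by
    simp only [hW, mul_add, Finset.sum_add_distrib]
    congr 1
    rw [Finset.mul_sum]
    refine Finset.sum_congr rfl fun b _ => ?_
    ring
  have e6 : ∑ b, g⁻¹ d b * ∑ a, g a b * dJ i a k = dJ i d k := by
    simp only [Finset.mul_sum]
    rw [Finset.sum_comm]
    have : ∀ a, ∑ b, g⁻¹ d b * (g a b * dJ i a k) = if d = a then dJ i a k else 0 := by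
      intro a
      have h := e4 a
      simp only [← mul_assoc, ← Finset.sum_mul, h]
      split_ifs <;> simp
    simp only [this]
    simp
  rw [e5, e6]
  congr 1
  simp only [Finset.mul_sum]
  rw [Finset.sum_comm]
  refine Finset.sum_congr rfl fun a _ => ?_
  rw [Finset.sum_comm]
  refine Finset.sum_congr rfl fun c _ => ?_
  refine Finset.sum_congr rfl fun b _ => ?_
  ring

/-- algebra of the contraction -/
theorem scal_alg (g J : Matrix (Fin N) (Fin N) ℝ) (hg : IsUnit g) (hJ : IsUnit J)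
    (F : Fin N → Fin N → Matrix (Fin N) (Fin N) ℝ)
    (F' : Fin N → Fin N → Matrix (Fin N) (Fin N) ℝ)
    (h : ∀ i j, J * F' i j = (∑ a, ∑ b, (J a i * J b j) • F a b) * J) :
    ∑ j, ∑ k, (Jᵀ * g * J)⁻¹ j k * ∑ i, F' i j i k = ∑ j, ∑ k, g⁻¹ j k * ∑ i, F i j i k := by
  have hJ' := (Matrix.isUnit_iff_isUnit_det _).1 hJ
  have hs := sandwich hg hJ
  set R : Matrix (Fin N) (Fin N) ℝ := Matrix.of fun b e => ∑ a, F a b a e with hR
  have hF' : ∀ i j, F' i j = J⁻¹ * ((∑ a, ∑ b, (J a i * J b j) • F a b) * J) := by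
    intro i j
    rw [← h, ← Matrix.mul_assoc, Matrix.nonsing_inv_mul _ hJ', Matrix.one_mul]
  have key2 : ∀ j e, ∑ i, (J⁻¹ * (∑ a, ∑ b, (J a i * J b j) • F a b)) i e = ∑ b, J b j * R b e := by
    intro j e
    have e1 : ∀ i, (J⁻¹ * (∑ a, ∑ b, (J a i * J b j) • F a b)) i e
        = ∑ a, ∑ b, J b j * (J a i * (J⁻¹ * F a b) i e) := by
      intro i
      rw [Matrix.mul_sum, Matrix.sum_apply]
      refine Finset.sum_congr rfl fun a _ => ?_
      rw [Matrix.mul_sum, Matrix.sum_apply]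
      refine Finset.sum_congr rfl fun b _ => ?_
      rw [Matrix.mul_smul, Matrix.smul_apply, smul_eq_mul]
      ring
    simp only [e1]
    rw [Finset.sum_comm]
    have e2 : ∀ a b, ∑ i, J b j * (J a i * (J⁻¹ * F a b) i e) = J b j * F a b a e := by
      intro a b
      rw [← Finset.mul_sum]
      congr 1
      have := congrFun (congrFun (show J * (J⁻¹ * F a b) = F a b by
        rw [← Matrix.mul_assoc, Matrix.mul_nonsing_inv _ hJ', Matrix.one_mul]) a) e
      rw [Matrix.mul_apply] at this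
      exact this
    have e3 : ∀ a, ∑ i, ∑ b, J b j * (J a i * (J⁻¹ * F a b) i e) = ∑ b, J b j * F a b a e := by
      intro a
      rw [Finset.sum_comm]
      exact Finset.sum_congr rfl fun b _ => e2 a b
    simp only [e3]
    rw [Finset.sum_comm]
    refine Finset.sum_congr rfl fun b _ => ?_
    rw [hR, Matrix.of_apply, Finset.mul_sum]
  have key : ∀ j k, ∑ i, F' i j i k = (Jᵀ * R * J) j k := by
    intro j k
    have e1 : ∀ i, F' i j i k = ∑ e, (J⁻¹ * (∑ a, ∑ b, (J a i * J b j) • F a b)) i e * J e k := by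
      intro i
      rw [hF', ← Matrix.mul_assoc, Matrix.mul_apply]
    simp only [e1]
    rw [Finset.sum_comm, Matrix.mul_apply]
    refine Finset.sum_congr rfl fun e _ => ?_
    rw [← Finset.sum_mul, key2, Matrix.mul_apply]
    rfl
  have tr : ∀ A B : Matrix (Fin N) (Fin N) ℝ, ∑ j, ∑ k, A j k * B j k = (A * Bᵀ).trace := by
    intro A B
    simp only [Matrix.trace, Matrix.diag_apply, Matrix.mul_apply, Matrix.transpose_apply]
  have hR2 : ∀ j k, ∑ i, F i j i k = R j k := fun j k => rfl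
  simp only [key, hR2]
  rw [tr, tr, ← hs, Matrix.transpose_mul, Matrix.transpose_mul, Matrix.transpose_transpose]
  have e1 : (Jᵀ * g * J)⁻¹ * (Jᵀ * (Rᵀ * J)) = ((Jᵀ * g * J)⁻¹ * Jᵀ * Rᵀ) * J := by
    simp only [Matrix.mul_assoc]
  rw [e1, Matrix.trace_mul_comm]
  simp only [Matrix.mul_assoc]

/-! ### smoothness of inverse, Christoffel symbols, connection matrices -/

theorem det_smooth {M : E N → Matrix (Fin N) (Fin N) ℝ} {U : Set (E N)}
    (hM : ∀ i j, ContDiffOn ℝ ∞ (fun x => M x i j) U) :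
    ContDiffOn ℝ ∞ (fun x => (M x).det) U := by
  simp only [Matrix.det_apply]
  refine ContDiffOn.sum fun σ _ => ?_
  refine ContDiffOn.const_smul _ ?_
  exact contDiffOn_prod fun i _ => hM _ _

theorem adj_smooth {M : E N → Matrix (Fin N) (Fin N) ℝ} {U : Set (E N)}
    (hM : ∀ i j, ContDiffOn ℝ ∞ (fun x => M x i j) U) (i j : Fin N) :
    ContDiffOn ℝ ∞ (fun x => (M x).adjugate i j) U := by
  simp only [Matrix.adjugate_apply]
  refine det_smooth fun a b => ?_
  simp only [Matrix.updateRow_apply]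
  split_ifs
  · exact contDiffOn_const
  · exact hM a b

theorem inv_smooth {M : E N → Matrix (Fin N) (Fin N) ℝ} {U : Set (E N)}
    (hM : ∀ i j, ContDiffOn ℝ ∞ (fun x => M x i j) U) (hu : ∀ x ∈ U, (M x).det ≠ 0)
    (i j : Fin N) : ContDiffOn ℝ ∞ (fun x => (M x)⁻¹ i j) U := by
  have h : ContDiffOn ℝ ∞ (fun x => ((M x).det)⁻¹ * (M x).adjugate i j) U :=
    ((det_smooth hM).inv hu).mul (adj_smooth hM i j)
  refine h.congr fun x _ => ?_
  rw [Matrix.inv_def, Matrix.smul_apply, Ring.inverse_eq_inv', smul_eq_mul]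

theorem chr_smooth {G : E N → Matrix (Fin N) (Fin N) ℝ} {U : Set (E N)} (hU : IsOpen U)
    (hG : IsMetricOn G U) (i j k : Fin N) : ContDiffOn ℝ ∞ (fun x => chr G x i j k) U := by
  simp only [chr]
  refine contDiffOn_const.mul (ContDiffOn.sum fun l _ => ?_)
  refine (inv_smooth hG.smooth (fun x hx => ((hG.posDef x hx).det_pos).ne') k l).mul ?_
  exact ((pd_smooth hU (hG.smooth _ _) _).add (pd_smooth hU (hG.smooth _ _) _)).sub
    (pd_smooth hU (hG.smooth _ _) _)

theorem conM_smooth {G : E N → Matrix (Fin N) (Fin N) ℝ} {U : Set (E N)} (hU : IsOpen U)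
    (hG : IsMetricOn G U) (i j k : Fin N) : ContDiffOn ℝ ∞ (fun x => conM G i x j k) U := by
  simp only [conM, Matrix.of_apply]
  exact chr_smooth hU hG _ _ _

theorem Jm_smooth {φ : E N → E N} {U : Set (E N)} (hU : IsOpen U) (hφ : ContDiffOn ℝ ∞ φ U)
    (a i : Fin N) : ContDiffOn ℝ ∞ (fun x => Jm φ x a i) U := by
  simp only [Jm, Matrix.of_apply]
  exact pd_smooth hU (comp_coord hφ a) i

theorem ring_alg {R : Type*} [Ring R] (J Ai Aj Hi Hj dAij dAji dHij dHji X : R)
    (D1 : (J * Ai - Hi * J) * Aj + J * dAij = dHij * J + Hj * (J * Ai - Hi * J) + X)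
    (D2 : (J * Aj - Hj * J) * Ai + J * dAji = dHji * J + Hi * (J * Aj - Hj * J) + X) :
    J * (dAij - dAji + (Ai * Aj - Aj * Ai)) = (dHij - dHji + (Hi * Hj - Hj * Hi)) * J := by
  have e1 := eq_sub_of_add_eq' D1
  have e2 := eq_sub_of_add_eq' D2
  rw [mul_add, mul_sub, e1, e2]
  noncomm_ring

/-! ### the transformation law of the connection matrices -/

theorem dpull {φ : E N → E N} {G : E N → Matrix (Fin N) (Fin N) ℝ} {U : Set (E N)}
    (hU : IsOpen U) (hφ : ContDiffOn ℝ ∞ φ U) (hG : IsMetricOn G univ) {x : E N} (hx : x ∈ U)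
    (i k l : Fin N) :
    pd i (fun y => pull φ G y k l) x
      = ∑ a, ∑ b, ((∑ c, Jm φ x c i * pd c (fun y => G y a b) (φ x)) * Jm φ x a k * Jm φ x b l
        + G (φ x) a b * pd i (fun y => Jm φ y a k) x * Jm φ x b l
        + G (φ x) a b * Jm φ x a k * pd i (fun y => Jm φ y b l) x) := by
  have hφx := dAtV hU hφ hx
  have hGd : ∀ a b, DifferentiableAt ℝ (fun y => G y a b) (φ x) := fun a b =>
    dAt isOpen_univ (hG.smooth a b) (mem_univ _)
  have hGc : ∀ a b, DifferentiableAt ℝ (fun y => G (φ y) a b) x := fun a b =>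
    (hGd a b).fun_comp' x hφx
  have hJd : ∀ a k, DifferentiableAt ℝ (fun y => Jm φ y a k) x := fun a k =>
    dAt hU (Jm_smooth hU hφ a k) hx
  have e0 : (fun y => pull φ G y k l)
      = fun y => ∑ a, ∑ b, G (φ y) a b * Jm φ y a k * Jm φ y b l := by
    funext y
    simp only [pull, Matrix.of_apply, Jm]
  rw [e0]
  rw [pd_sum' (f := fun a y => ∑ b, G (φ y) a b * Jm φ y a k * Jm φ y b l) i
    (fun a _ => DifferentiableAt.fun_sum fun b _ => ((hGc a b).fun_mul (hJd a k)).fun_mul (hJd b l))]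
  refine Finset.sum_congr rfl fun a _ => ?_
  rw [pd_sum' (f := fun b y => G (φ y) a b * Jm φ y a k * Jm φ y b l) i
    (fun b _ => ((hGc a b).fun_mul (hJd a k)).fun_mul (hJd b l))]
  refine Finset.sum_congr rfl fun b _ => ?_
  rw [pd_mul' i ((hGc a b).fun_mul (hJd a k)) (hJd b l), pd_mul' i (hGc a b) (hJd a k),
    pd_comp' i (hGd a b) hφx]
  simp only [Jm, Matrix.of_apply]
  ring

theorem dJ_symm {φ : E N → E N} {U : Set (E N)} (hU : IsOpen U) (hφ : ContDiffOn ℝ ∞ φ U)
    {x : E N} (hx : x ∈ U) (i a k : Fin N) :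
    pd i (fun y => Jm φ y a k) x = pd k (fun y => Jm φ y a i) x := by
  simp only [Jm, Matrix.of_apply]
  exact pd_comm hU (comp_coord hφ a) hx i k

/-- pulled back connection matrix -/
def hA (φ : E N → E N) (G : E N → Matrix (Fin N) (Fin N) ℝ) (i : Fin N) (x : E N) :
    Matrix (Fin N) (Fin N) ℝ :=
  ∑ c, Jm φ x c i • conM G c (φ x)

theorem G_symm {G : E N → Matrix (Fin N) (Fin N) ℝ} {U : Set (E N)} (hG : IsMetricOn G U)
    {x : E N} (hx : x ∈ U) (a b : Fin N) : G x a b = G x b a := by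
  have h := (hG.posDef x hx).isHermitian
  have h2 := congrFun (congrFun h a) b
  simpa using h2.symm

theorem star {φ : E N → E N} {G : E N → Matrix (Fin N) (Fin N) ℝ} {U : Set (E N)}
    (hU : IsOpen U) (hφ : ContDiffOn ℝ ∞ φ U) (hd : ∀ x ∈ U, Function.Injective (fderiv ℝ φ x))
    (hG : IsMetricOn G univ) {x : E N} (hx : x ∈ U) (i : Fin N) :
    Jm φ x * conM (pull φ G) i x = hA φ G i x * Jm φ x + mpd i (Jm φ) x := by
  have hJ := Jm_unit (dAtV hU hφ hx) (hd x hx)
  have hg := posDef_unit (hG.posDef (φ x) (mem_univ _))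
  ext d k
  have h := star_alg (G (φ x)) (Jm φ x) (fun a b => G_symm hG (mem_univ _) a b) hg hJ
    (fun c a b => pd c (fun y => G y a b) (φ x))
    (fun i a k => pd i (fun y => Jm φ y a k) x) (fun i a k => dJ_symm hU hφ hx i a k)
    (fun i k l => pd i (fun y => pull φ G y k l) x) (fun i k l => dpull hU hφ hG hx i k l) i k d
  rw [← pull_eq] at h
  rw [Matrix.mul_apply, Matrix.add_apply, Matrix.mul_apply]
  have e1 : ∑ j, Jm φ x d j * conM (pull φ G) i x j k
      = ∑ j, Jm φ x d j * ((1 / 2 : ℝ) * ∑ l, (pull φ G x)⁻¹ j l *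
        (pd i (fun y => pull φ G y k l) x + pd k (fun y => pull φ G y i l) x
          - pd l (fun y => pull φ G y i k) x)) := by
    simp only [conM, Matrix.of_apply, chr]
  rw [e1, h]
  congr 1
  refine Finset.sum_congr rfl fun a _ => ?_
  rw [hA, Matrix.sum_apply, Finset.sum_mul]
  refine Finset.sum_congr rfl fun c _ => ?_
  rw [Matrix.smul_apply, smul_eq_mul]
  simp only [conM, Matrix.of_apply, chr]
  ring

/-- curvature matrix -/
def curvM (G : E N → Matrix (Fin N) (Fin N) ℝ) (i j : Fin N) (x : E N) :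
    Matrix (Fin N) (Fin N) ℝ :=
  mpd i (conM G j) x - mpd j (conM G i) x + (conM G i x * conM G j x - conM G j x * conM G i x)

theorem curvM_apply (G : E N → Matrix (Fin N) (Fin N) ℝ) (i j : Fin N) (x : E N) (l k : Fin N) :
    curvM G i j x l k = curv G x i j l k := by
  simp only [curvM, curv, mpd, conM, Matrix.add_apply, Matrix.sub_apply, Matrix.mul_apply,
    Matrix.of_apply, Finset.sum_sub_distrib]

theorem mpd_congr {M P : E N → Matrix (Fin N) (Fin N) ℝ} {U : Set (E N)} (hU : IsOpen U)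
    {x : E N} (hx : x ∈ U) (h : ∀ y ∈ U, M y = P y) (i : Fin N) : mpd i M x = mpd i P x := by
  ext a b
  simp only [mpd, Matrix.of_apply, pd]
  have : (fun y => M y a b) =ᶠ[nhds x] (fun y => P y a b) := by
    filter_upwards [hU.mem_nhds hx] with y hy
    rw [h y hy]
  rw [this.fderiv_eq]

theorem mpd_hA {φ : E N → E N} {G : E N → Matrix (Fin N) (Fin N) ℝ} {U : Set (E N)}
    (hU : IsOpen U) (hφ : ContDiffOn ℝ ∞ φ U) (hG : IsMetricOn G univ) {x : E N} (hx : x ∈ U)
    (i j : Fin N) :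
    mpd i (hA φ G j) x = (∑ b, pd i (fun y => Jm φ y b j) x • conM G b (φ x))
      + ∑ a, ∑ b, (Jm φ x a i * Jm φ x b j) • mpd a (conM G b) (φ x) := by
  have hφx := dAtV hU hφ hx
  have hCd : ∀ c a b, DifferentiableAt ℝ (fun y => conM G c y a b) (φ x) := fun c a b =>
    dAt isOpen_univ (conM_smooth isOpen_univ hG c a b) (mem_univ _)
  have hCc : ∀ c a b, DifferentiableAt ℝ (fun y => conM G c (φ y) a b) x := fun c a b =>
    (hCd c a b).fun_comp' x hφx
  have hJd : ∀ a k, DifferentiableAt ℝ (fun y => Jm φ y a k) x := fun a k =>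
    dAt hU (Jm_smooth hU hφ a k) hx
  ext p q
  have e0 : (fun y => hA φ G j y p q) = fun y => ∑ b, Jm φ y b j * conM G b (φ y) p q := by
    funext y
    simp only [hA, Matrix.sum_apply, Matrix.smul_apply, smul_eq_mul]
  simp only [mpd, Matrix.of_apply, Matrix.add_apply, Matrix.sum_apply, Matrix.smul_apply,
    smul_eq_mul]
  rw [e0]
  rw [pd_sum' (f := fun b y => Jm φ y b j * conM G b (φ y) p q) i
    (fun b _ => (hJd b j).fun_mul (hCc b p q))]
  have e1 : ∀ b, pd i (fun y => Jm φ y b j * conM G b (φ y) p q) x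
      = pd i (fun y => Jm φ y b j) x * conM G b (φ x) p q
        + ∑ a, Jm φ x a i * Jm φ x b j * pd a (fun y => conM G b y p q) (φ x) := by
    intro b
    rw [pd_mul' i (hJd b j) (hCc b p q), pd_comp' i (hCd b p q) hφx, Finset.mul_sum]
    congr 1
    refine Finset.sum_congr rfl fun a _ => ?_
    simp only [Jm, Matrix.of_apply]
    ring
  simp only [e1]
  rw [Finset.sum_add_distrib]
  congr 1
  rw [Finset.sum_comm]

theorem curv_tr {φ : E N → E N} {G : E N → Matrix (Fin N) (Fin N) ℝ} {U : Set (E N)}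
    (hU : IsOpen U) (hφ : ContDiffOn ℝ ∞ φ U) (hd : ∀ x ∈ U, Function.Injective (fderiv ℝ φ x))
    (hG : IsMetricOn G univ) (hG' : IsMetricOn (pull φ G) U) {x : E N} (hx : x ∈ U)
    (i j : Fin N) :
    Jm φ x * curvM (pull φ G) i j x
      = (∑ a, ∑ b, (Jm φ x a i * Jm φ x b j) • curvM G a b (φ x)) * Jm φ x := by
  have hφx := dAtV hU hφ hx
  have hCd : ∀ c a b, DifferentiableAt ℝ (fun y => conM G c y a b) (φ x) := fun c a b =>
    dAt isOpen_univ (conM_smooth isOpen_univ hG c a b) (mem_univ _)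
  have hCc : ∀ c a b, DifferentiableAt ℝ (fun y => conM G c (φ y) a b) x := fun c a b =>
    (hCd c a b).fun_comp' x hφx
  have hCd' : ∀ c a b, DifferentiableAt ℝ (fun y => conM (pull φ G) c y a b) x := fun c a b =>
    dAt hU (conM_smooth hU hG' c a b) hx
  have hJd : ∀ a k, DifferentiableAt ℝ (fun y => Jm φ y a k) x := fun a k =>
    dAt hU (Jm_smooth hU hφ a k) hx
  have hJJd : ∀ i a k, DifferentiableAt ℝ (fun y => mpd i (Jm φ) y a k) x := fun i a k => by
    simp only [mpd, Matrix.of_apply]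
    exact dAt hU (pd_smooth hU (Jm_smooth hU hφ a k) i) hx
  have hAd : ∀ c a b, DifferentiableAt ℝ (fun y => hA φ G c y a b) x := fun c a b => by
    simp only [hA, Matrix.sum_apply, Matrix.smul_apply, smul_eq_mul]
    exact DifferentiableAt.fun_sum fun e _ => (hJd e c).fun_mul (hCc e a b)
  -- differentiate the transformation law
  have D : ∀ i j, mpd i (Jm φ) x * conM (pull φ G) j x + Jm φ x * mpd i (conM (pull φ G) j) x
      = (mpd i (hA φ G j) x * Jm φ x + hA φ G j x * mpd i (Jm φ) x)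
        + mpd i (mpd j (Jm φ)) x := by
    intro i j
    have h1 := mpd_congr (M := fun y => Jm φ y * conM (pull φ G) j y)
      (P := fun y => hA φ G j y * Jm φ y + mpd j (Jm φ) y) hU hx
      (fun y hy => star hU hφ hd hG hy j) i
    rw [mpd_mul i hJd (hCd' j), mpd_add (M := fun y => hA φ G j y * Jm φ y) i ?_ (hJJd j),
      mpd_mul i (hAd j) hJd] at h1
    · exact h1
    · intro a b
      simp only [Matrix.mul_apply]
      exact DifferentiableAt.fun_sum fun c _ => (hAd j a c).fun_mul (hJd c b)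
  have S : ∀ i, mpd i (Jm φ) x = Jm φ x * conM (pull φ G) i x - hA φ G i x * Jm φ x := by
    intro i
    rw [star hU hφ hd hG hx i]
    abel
  have hcomm : mpd i (mpd j (Jm φ)) x = mpd j (mpd i (Jm φ)) x := by
    ext a b
    simp only [mpd, Matrix.of_apply]
    exact pd_comm hU (Jm_smooth hU hφ a b) hx i j
  -- the antisymmetrised derivative of `hA`
  have hF : mpd i (hA φ G j) x - mpd j (hA φ G i) x
      + (hA φ G i x * hA φ G j x - hA φ G j x * hA φ G i x)
      = ∑ a, ∑ b, (Jm φ x a i * Jm φ x b j) • curvM G a b (φ x) := by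
    rw [mpd_hA hU hφ hG hx, mpd_hA hU hφ hG hx]
    have e1 : (∑ b, pd i (fun y => Jm φ y b j) x • conM G b (φ x))
        = ∑ b, pd j (fun y => Jm φ y b i) x • conM G b (φ x) := by
      refine Finset.sum_congr rfl fun b _ => ?_
      rw [dJ_symm hU hφ hx]
    have e2 : (∑ a, ∑ b, (Jm φ x a j * Jm φ x b i) • mpd a (conM G b) (φ x))
        = ∑ a, ∑ b, (Jm φ x a i * Jm φ x b j) • mpd b (conM G a) (φ x) := by
      rw [Finset.sum_comm]
      refine Finset.sum_congr rfl fun a _ => Finset.sum_congr rfl fun b _ => ?_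
      rw [mul_comm]
    have e3 : hA φ G i x * hA φ G j x
        = ∑ a, ∑ b, (Jm φ x a i * Jm φ x b j) • (conM G a (φ x) * conM G b (φ x)) := by
      rw [hA, hA, Finset.sum_mul]
      refine Finset.sum_congr rfl fun a _ => ?_
      rw [Finset.mul_sum]
      refine Finset.sum_congr rfl fun b _ => ?_
      rw [Matrix.smul_mul, Matrix.mul_smul, smul_smul]
    have e4 : hA φ G j x * hA φ G i x
        = ∑ a, ∑ b, (Jm φ x a i * Jm φ x b j) • (conM G b (φ x) * conM G a (φ x)) := by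
      rw [hA, hA, Finset.sum_mul, Finset.sum_congr rfl (fun a _ => Finset.mul_sum _ _ _),
        Finset.sum_comm]
      refine Finset.sum_congr rfl fun a _ => Finset.sum_congr rfl fun b _ => ?_
      rw [Matrix.smul_mul, Matrix.mul_smul, smul_smul, mul_comm]
    rw [e1, e2, e3, e4]
    have e5 : ∀ a b, (Jm φ x a i * Jm φ x b j) • curvM G a b (φ x)
        = (Jm φ x a i * Jm φ x b j) • mpd a (conM G b) (φ x)
          - (Jm φ x a i * Jm φ x b j) • mpd b (conM G a) (φ x)
          + ((Jm φ x a i * Jm φ x b j) • (conM G a (φ x) * conM G b (φ x))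
            - (Jm φ x a i * Jm φ x b j) • (conM G b (φ x) * conM G a (φ x))) := by
      intro a b
      rw [curvM, smul_add, smul_sub, smul_sub]
    simp only [e5, Finset.sum_add_distrib, Finset.sum_sub_distrib]
    abel
  rw [← hF, curvM]
  have D1 := D i j
  have D2 := D j i
  rw [← hcomm] at D2
  rw [S i] at D1
  rw [S j] at D2
  exact ring_alg _ _ _ _ _ _ _ _ _ _ D1 D2

end SI

theorem pull_metric (φ : E N → E N) (G : E N → Matrix (Fin N) (Fin N) ℝ) (U : Set (E N))
    (hU : IsOpen U) (hφ : ContDiffOn ℝ ∞ φ U) (hd : ∀ x ∈ U, Function.Injective (fderiv ℝ φ x))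
    (hG : IsMetricOn G univ) : IsMetricOn (pull φ G) U := by
  refine ⟨?_, ?_⟩
  · intro i j
    simp only [pull, Matrix.of_apply]
    refine ContDiffOn.sum fun a _ => ContDiffOn.sum fun b _ => ?_
    have h1 : ContDiffOn ℝ ∞ (fun x => G (φ x) a b) U := by
      have := (hG.smooth a b).comp hφ (fun _ _ => mem_univ _)
      exact this
    exact (h1.mul (SI.pd_smooth hU (SI.comp_coord hφ a) i)).mul
      (SI.pd_smooth hU (SI.comp_coord hφ b) j)
  · intro x hx
    rw [SI.pull_eq]
    have hJ := SI.Jm_unit (SI.dAtV hU hφ hx) (hd x hx)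
    have h := (hG.posDef (φ x) (mem_univ _)).conjTranspose_mul_mul_same
      (B := SI.Jm φ x) (Matrix.mulVec_injective_iff_isUnit.mpr hJ)
    simpa [Matrix.conjTranspose_eq_transpose_of_trivial] using h

theorem scal_pull (φ : E N → E N) (G : E N → Matrix (Fin N) (Fin N) ℝ) (U : Set (E N))
    (hU : IsOpen U) (hφ : ContDiffOn ℝ ∞ φ U) (hd : ∀ x ∈ U, Function.Injective (fderiv ℝ φ x))
    (hG : IsMetricOn G univ) (x : E N) (hx : x ∈ U) : scal (pull φ G) x = scal G (φ x) := by
  have hG' := pull_metric φ G U hU hφ hd hG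
  have hJ := SI.Jm_unit (SI.dAtV hU hφ hx) (hd x hx)
  have hg := SI.posDef_unit (hG.posDef (φ x) (mem_univ _))
  have h := SI.scal_alg (G (φ x)) (SI.Jm φ x) hg hJ (fun a b => SI.curvM G a b (φ x))
    (fun i j => SI.curvM (pull φ G) i j x) (fun i j => SI.curv_tr hU hφ hd hG hG' hx i j)
  rw [← SI.pull_eq] at h
  simp only [SI.curvM_apply] at h
  exact h

end
end PS
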