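import Pool.Agent.H96.PS.BDefs
import Pool.Agent.H96.PS.Phi
import Pool.Agent.H96.PS.ActSmooth
import Pool.Agent.H96.PS.ScalInv

/-!
Project PS (MP_b05a29_gt), row C8: the metric pulled back to the Fenchel-Nielsen model is periodic
in the twists, hence bounded below where the lengths are bounded.
-/

open scoped ENNReal UpperHalfPlane ContDiff Matrix
open MeasureTheory Set

namespace PS
noncomputable section

namespace PP

theorem form_eq {N : ℕ} (A : Matrix (Fin N) (Fin N) ℝ) (w : E N) :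
    ∑ i, ∑ j, A i j * w i * w j = (fun i => w i) ⬝ᵥ (A *ᵥ fun i => w i) := by
  simp only [dotProduct, Matrix.mulVec, Finset.mul_sum]
  refine Finset.sum_congr rfl fun i _ => Finset.sum_congr rfl fun j _ => ?_
  ring

/-- norm of a vector for a pulled back metric -/
theorem vnorm_pull {N : ℕ} {φ : E N → E N} (G : E N → Matrix (Fin N) (Fin N) ℝ) {x : E N}
    (hφ : DifferentiableAt ℝ φ x) (v : E N) :
    vnorm (pull φ G) x v = vnorm G (φ x) (fderiv ℝ φ x v) := by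
  unfold vnorm
  congr 1
  have h2 : (fun a => (fderiv ℝ φ x v) a) = SI.Jm φ x *ᵥ (fun i => v i) := by
    funext a
    rw [SI.fderiv_mulVec hφ]
    rfl
  rw [form_eq, form_eq, SI.pull_eq, h2, ← Matrix.mulVec_mulVec, ← Matrix.mulVec_mulVec,
    Matrix.dotProduct_mulVec, Matrix.vecMul_transpose]

theorem form_pos {N : ℕ} {A : Matrix (Fin N) (Fin N) ℝ} (hA : A.PosDef) {v : E N}
    (hv : v ≠ 0) : 0 < ∑ i, ∑ j, A i j * v i * v j := by
  have h0 : (fun i => v i) ≠ 0 := by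
    intro h
    apply hv
    ext i
    exact congrFun h i
  have h1 := hA.dotProduct_mulVec_pos h0
  rw [form_eq]
  exact h1

theorem vnorm_pos {N : ℕ} {G : E N → Matrix (Fin N) (Fin N) ℝ} {x v : E N} (hA : (G x).PosDef)
    (hv : v ≠ 0) : 0 < vnorm G x v := Real.sqrt_pos.2 (form_pos hA hv)

theorem vnorm_cont {N : ℕ} {G : E N → Matrix (Fin N) (Fin N) ℝ} {U : Set (E N)}
    (hm : IsMetricOn G U) : ContinuousOn (fun p : E N × E N => vnorm G p.1 p.2) (U ×ˢ univ) := by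
  unfold vnorm
  refine Real.continuous_sqrt.comp_continuousOn ?_
  refine continuousOn_finsetSum _ fun i _ => continuousOn_finsetSum _ fun j _ => ?_
  have h1 : ContinuousOn (fun p : E N × E N => G p.1 i j) (U ×ˢ univ) :=
    (hm.smooth i j).continuousOn.comp continuousOn_fst (fun p hp => hp.1)
  have h2 : Continuous (fun p : E N × E N => p.2 i) := by fun_prop
  have h3 : Continuous (fun p : E N × E N => p.2 j) := by fun_prop
  exact (h1.mul h2.continuousOn).mul h3.continuousOn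

theorem vnorm_smul {N : ℕ} {G : E N → Matrix (Fin N) (Fin N) ℝ} (x v : E N) {t : ℝ} (ht : 0 ≤ t) :
    vnorm G x (t • v) = t * vnorm G x v := by
  unfold vnorm
  have h : ∑ i, ∑ j, G x i j * (t • v) i * (t • v) j = t ^ 2 * ∑ i, ∑ j, G x i j * v i * v j := by
    simp only [Finset.mul_sum, PiLp.smul_apply, smul_eq_mul]
    refine Finset.sum_congr rfl fun i _ => Finset.sum_congr rfl fun j _ => ?_
    ring
  rw [h, Real.sqrt_mul (by positivity), Real.sqrt_sq ht]

theorem neg_smul' (A : SL2R) (z : ℍ) : (-A) • z = A • z := by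
  have h : ((-A : SL2R) : Matrix.GeneralLinearGroup (Fin 2) ℝ) =
      -(A : Matrix.GeneralLinearGroup (Fin 2) ℝ) := by
    ext i j
    simp
  show ((-A : SL2R) : Matrix.GeneralLinearGroup (Fin 2) ℝ) • z =
    (A : Matrix.GeneralLinearGroup (Fin 2) ℝ) • z
  rw [h, UpperHalfPlane.neg_smul]

variable {g n : ℕ} (M : FNModel g n)

theorem ev_inl (e e' : Fin M.d) : (ev (M.idx (Sum.inr e)) : E (dimT g n)) (M.idx (Sum.inl e')) =
    0 := by
  unfold ev
  rw [PiLp.single_apply, if_neg]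
  intro h
  have := M.idx.injective h
  simp at this

theorem ev_inr (e e' : Fin M.d) : (ev (M.idx (Sum.inr e)) : E (dimT g n)) (M.idx (Sum.inr e')) =
    if e' = e then 1 else 0 := by
  unfold ev
  rw [PiLp.single_apply]
  by_cases h : e' = e
  · rw [if_pos h, if_pos (by rw [h])]
  · rw [if_neg h, if_neg]
    intro h2
    exact h (Sum.inr.inj (M.idx.injective h2))

theorem add_inl (x : E (dimT g n)) (t : ℝ) (e e' : Fin M.d) :
    (x + t • ev (M.idx (Sum.inr e)) : E (dimT g n)) (M.idx (Sum.inl e')) =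
      x (M.idx (Sum.inl e')) := by
  simp [ev_inl]

theorem V_add {x : E (dimT g n)} (hx : x ∈ M.V) (t : ℝ) (e : Fin M.d) :
    x + t • ev (M.idx (Sum.inr e)) ∈ M.V := by
  intro e'
  rw [add_inl]
  exact hx e'

/-- powers of a twist -/
theorem twist_pow (e : Fin M.d) (τ : autStar g n)
    (hτ : ∀ x γ,
      M.rep (x + (2 * Real.pi) • ev (M.idx (Sum.inr e))) γ =
        M.rep x ((τ : MulAut (SurfaceGroup g n)) γ) ∨
      M.rep (x + (2 * Real.pi) • ev (M.idx (Sum.inr e))) γ =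
        -M.rep x ((τ : MulAut (SurfaceGroup g n)) γ)) (k : ℕ) :
    ∀ x γ,
      M.rep (x + (2 * Real.pi * k) • ev (M.idx (Sum.inr e))) γ =
        M.rep x (((τ ^ k : autStar g n) : MulAut (SurfaceGroup g n)) γ) ∨
      M.rep (x + (2 * Real.pi * k) • ev (M.idx (Sum.inr e))) γ =
        -M.rep x (((τ ^ k : autStar g n) : MulAut (SurfaceGroup g n)) γ) := by
  induction k with
  | zero =>
    intro x γ
    left
    simp
  | succ k ih =>
    intro x γ
    have h1 : x + (2 * Real.pi * ((k + 1 : ℕ) : ℝ)) • ev (M.idx (Sum.inr e)) =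
        (x + (2 * Real.pi * (k : ℝ)) • ev (M.idx (Sum.inr e))) +
          (2 * Real.pi) • ev (M.idx (Sum.inr e)) := by
      push_cast
      rw [add_assoc, ← add_smul]
      congr 2
      ring
    have h2 : ((τ ^ (k + 1) : autStar g n) : MulAut (SurfaceGroup g n)) γ =
        ((τ ^ k : autStar g n) : MulAut (SurfaceGroup g n))
          ((τ : MulAut (SurfaceGroup g n)) γ) := by
      rw [pow_succ, Subgroup.coe_mul, MulAut.mul_apply]
    rw [h1, h2]
    rcases hτ (x + (2 * Real.pi * (k : ℝ)) • ev (M.idx (Sum.inr e))) γ with h3 | h3 <;>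
    rcases ih x ((τ : MulAut (SurfaceGroup g n)) γ) with h4 | h4
    · left; rw [h3, h4]
    · right; rw [h3, h4]
    · right; rw [h3, h4]
    · left; rw [h3, h4, neg_neg]

/-- points of the model with the same representation up to an automorphism -/
theorem cls_twist {x x' : E (dimT g n)} (hx : x ∈ M.V) (hx' : x' ∈ M.V) (σ : autStar g n)
    (h : ∀ γ, M.rep x' γ = M.rep x ((σ : MulAut (SurfaceGroup g n)) γ) ∨
      M.rep x' γ = -M.rep x ((σ : MulAut (SurfaceGroup g n)) γ)) :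
    (M.str x' hx').cls = act σ⁻¹ (M.str x hx).cls := by
  have h0 : act σ⁻¹ (M.str x hx).cls = (HypStr.twist σ⁻¹ (M.str x hx)).cls := rfl
  rw [h0]
  refine Quotient.sound (s := HypStr.setoid g n) ⟨1, fun γ => ?_⟩
  ext z : 1
  have h1 : (HypStr.twist σ⁻¹ (M.str x hx)).hol γ =
      (M.str x hx).hol ((σ : MulAut (SurfaceGroup g n)) γ) := by
    show (M.str x hx).hol ((((σ⁻¹ : autStar g n) : MulAut (SurfaceGroup g n))⁻¹ :
      MulAut (SurfaceGroup g n)) γ) = _
    rw [Subgroup.coe_inv, inv_inv]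
  rw [one_mul, inv_one, mul_one, h1, M.str_hol, M.str_hol]
  rcases h γ with h2 | h2
  · rw [h2]
  · rw [h2, neg_smul']

theorem phi_twist {x x' : E (dimT g n)} (Ψ : Teich g n ≃ E (dimT g n)) (hx : x ∈ M.V)
    (hx' : x' ∈ M.V) (σ : autStar g n)
    (h : ∀ γ, M.rep x' γ = M.rep x ((σ : MulAut (SurfaceGroup g n)) γ) ∨
      M.rep x' γ = -M.rep x ((σ : MulAut (SurfaceGroup g n)) γ)) :
    phi M Ψ x' = actC Ψ σ⁻¹ (phi M Ψ x) := by
  rw [phi, dif_pos hx', phi, dif_pos hx, actC, Equiv.symm_apply_apply, cls_twist M hx hx' σ h]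

end PP

variable {g n : ℕ} (M : FNModel g n) {Ψ : Teich g n ≃ E (dimT g n)}

open PP

theorem pull_periodic (hΨ : IsSmoothChart Ψ) (Λ : Subgroup (autStar g n)) (hΛ : Λ.FiniteIndex)
    {h : E (dimT g n) → Matrix (Fin (dimT g n)) (Fin (dimT g n)) ℝ} (hinv : Invariant Ψ Λ h) :
    ∃ k : ℕ, 0 < k ∧ ∀ e, ∀ x ∈ M.V, ∀ v,
      vnorm (pull (phi M Ψ) h) (x + (2 * Real.pi * k) • ev (M.idx (Sum.inr e))) v =
        vnorm (pull (phi M Ψ) h) x v := by
  refine ⟨Λ.index.factorial, Nat.factorial_pos _, fun e x hx v => ?_⟩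
  set k := Λ.index.factorial with hk
  obtain ⟨τ, hτ⟩ := M.twist e
  have hσ : τ ^ k ∈ Λ := by
    refine Subgroup.pow_mem_of_index_ne_zero_of_dvd hΛ.index_ne_zero τ fun m hm hm2 => ?_
    exact Nat.dvd_factorial hm hm2
  set c : E (dimT g n) := (2 * Real.pi * (k : ℝ)) • ev (M.idx (Sum.inr e)) with hc
  have hV : ∀ y ∈ M.V, y + c ∈ M.V := fun y hy => V_add M hy _ _
  have hphi : ∀ y ∈ M.V, phi M Ψ (y + c) = actC Ψ (τ ^ k)⁻¹ (phi M Ψ y) := fun y hy =>
    phi_twist M Ψ hy (hV y hy) (τ ^ k) (twist_pow M e τ hτ k y)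
  have hU := isOpen_V M
  have hd : ∀ y ∈ M.V, DifferentiableAt ℝ (phi M Ψ) y := fun y hy =>
    SI.dAtV hU (phi_smooth M hΨ) hy
  have hA : Differentiable ℝ (actC Ψ (τ ^ k)⁻¹) := (actC_smooth hΨ _).differentiable (by simp)
  rw [vnorm_pull h (hd _ (hV x hx)), vnorm_pull h (hd x hx)]
  have h1 : fderiv ℝ (phi M Ψ) (x + c) =
      (fderiv ℝ (actC Ψ (τ ^ k)⁻¹) (phi M Ψ x)).comp (fderiv ℝ (phi M Ψ) x) := by
    rw [← fderiv_comp_add_right]
    have h2 : (fun y => phi M Ψ (y + c)) =ᶠ[nhds x] (actC Ψ (τ ^ k)⁻¹) ∘ (phi M Ψ) := by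
      filter_upwards [hU.mem_nhds hx] with y hy using hphi y hy
    rw [h2.fderiv_eq, fderiv_comp x (hA _) (hd x hx)]
  rw [h1, hphi x hx]
  exact hinv _ (Λ.inv_mem hσ) (phi M Ψ x) _

namespace PP

/-- integer multiples of the period -/
theorem per_int {G : E (dimT g n) → Matrix (Fin (dimT g n)) (Fin (dimT g n)) ℝ} {P : ℝ}
    (hper : ∀ e, ∀ x ∈ M.V, ∀ v, vnorm G (x + P • ev (M.idx (Sum.inr e))) v = vnorm G x v)
    (e : Fin M.d) (m : ℤ) : ∀ x ∈ M.V, ∀ v,
      vnorm G (x + ((m : ℝ) * P) • ev (M.idx (Sum.inr e))) v = vnorm G x v := by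
  induction m using Int.induction_on with
  | zero => intro x _ v; simp
  | succ i ih =>
    intro x hx v
    have h1 : x + (((i : ℤ) + 1 : ℤ) * P : ℝ) • ev (M.idx (Sum.inr e)) =
        (x + (((i : ℤ) : ℝ) * P) • ev (M.idx (Sum.inr e))) + P • ev (M.idx (Sum.inr e)) := by
      push_cast
      rw [add_assoc, ← add_smul]; congr 2; ring
    rw [h1, hper e _ (V_add M hx _ e) v, ih x hx v]
  | pred i ih =>
    intro x hx v
    have h1 : x + (((-(i : ℤ) : ℤ) : ℝ) * P) • ev (M.idx (Sum.inr e)) =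
        (x + (((-(i : ℤ) - 1 : ℤ) : ℝ) * P) • ev (M.idx (Sum.inr e))) +
          P • ev (M.idx (Sum.inr e)) := by
      push_cast
      rw [add_assoc, ← add_smul]; congr 2; ring
    have h2 := ih x hx v
    rw [h1, hper e _ (V_add M hx _ e) v] at h2
    exact h2

theorem per_sum {G : E (dimT g n) → Matrix (Fin (dimT g n)) (Fin (dimT g n)) ℝ} {P : ℝ}
    (hper : ∀ e, ∀ x ∈ M.V, ∀ v, vnorm G (x + P • ev (M.idx (Sum.inr e))) v = vnorm G x v)
    (m : Fin M.d → ℤ) (s : Finset (Fin M.d)) : ∀ x ∈ M.V,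
      x + ∑ e ∈ s, ((m e : ℝ) * P) • ev (M.idx (Sum.inr e)) ∈ M.V ∧ ∀ v,
      vnorm G (x + ∑ e ∈ s, ((m e : ℝ) * P) • ev (M.idx (Sum.inr e))) v = vnorm G x v := by
  classical
  induction s using Finset.induction_on with
  | empty => intro x hx; simpa using hx
  | insert a s ha ih =>
    intro x hx
    rw [Finset.sum_insert ha, ← add_assoc]
    obtain ⟨h1, h2⟩ := ih _ (V_add M hx ((m a : ℝ) * P) a)
    exact ⟨h1, fun v => by rw [h2 v, per_int M hper a (m a) x hx v]⟩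

/-- the compact fundamental box -/
def Kc (A B : Fin M.d → ℝ) (P : ℝ) : Set (E (dimT g n)) :=
  {x | ∀ e : Fin M.d, (A e ≤ x (M.idx (Sum.inl e)) ∧ x (M.idx (Sum.inl e)) ≤ B e) ∧
    (0 ≤ x (M.idx (Sum.inr e)) ∧ x (M.idx (Sum.inr e)) ≤ P)}

theorem isCompact_Kc (A B : Fin M.d → ℝ) (P : ℝ) : IsCompact (Kc M A B P) := by
  have h1 : Kc M A B P = (EuclideanSpace.equiv (Fin (dimT g n)) ℝ).toHomeomorph ⁻¹'
      (Icc (fun i => Sum.elim A (fun _ => 0) (M.idx.symm i))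
        (fun i => Sum.elim B (fun _ => P) (M.idx.symm i))) := by
    ext x
    simp only [Kc, Set.mem_ofPred_eq, mem_preimage, mem_Icc, Pi.le_def]
    constructor
    · intro hx
      constructor
      · intro i
        obtain ⟨j, rfl⟩ := M.idx.surjective i
        rw [Equiv.symm_apply_apply]
        rcases j with e | e
        · exact (hx e).1.1
        · exact (hx e).2.1
      · intro i
        obtain ⟨j, rfl⟩ := M.idx.surjective i
        rw [Equiv.symm_apply_apply]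
        rcases j with e | e
        · exact (hx e).1.2
        · exact (hx e).2.2
    · rintro ⟨hx1, hx2⟩ e
      have a1 := hx1 (M.idx (Sum.inl e))
      have a2 := hx2 (M.idx (Sum.inl e))
      have a3 := hx1 (M.idx (Sum.inr e))
      have a4 := hx2 (M.idx (Sum.inr e))
      rw [Equiv.symm_apply_apply] at a1 a2 a3 a4
      exact ⟨⟨a1, a2⟩, ⟨a3, a4⟩⟩
  rw [h1]
  exact (Homeomorph.isCompact_preimage _).2 isCompact_Icc

theorem Kc_sub {A B : Fin M.d → ℝ} {P : ℝ} (hB : ∀ e, B e < 0) : Kc M A B P ⊆ M.V :=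
  fun _ hx e => lt_of_le_of_lt (hx e).1.2 (hB e)

theorem reduce {G : E (dimT g n) → Matrix (Fin (dimT g n)) (Fin (dimT g n)) ℝ} {P : ℝ}
    {A B : Fin M.d → ℝ} (hP : 0 < P) (hB : ∀ e, B e < 0)
    (hper : ∀ e, ∀ x ∈ M.V, ∀ v, vnorm G (x + P • ev (M.idx (Sum.inr e))) v = vnorm G x v)
    {x : E (dimT g n)}
    (hx : ∀ e, A e ≤ x (M.idx (Sum.inl e)) ∧ x (M.idx (Sum.inl e)) ≤ B e) :
    ∃ y ∈ Kc M A B P, ∀ v, vnorm G y v = vnorm G x v := by
  have hxs : x ∈ M.V := fun e => lt_of_le_of_lt (hx e).2 (hB e)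
  set m : Fin M.d → ℤ := fun e => - ⌊x (M.idx (Sum.inr e)) / P⌋ with hm
  obtain ⟨_, h2⟩ := per_sum M hper m Finset.univ x hxs
  refine ⟨_, ?_, h2⟩
  intro e
  have c1 : (x + ∑ e, ((m e : ℝ) * P) • ev (M.idx (Sum.inr e)) : E (dimT g n))
      (M.idx (Sum.inl e)) = x (M.idx (Sum.inl e)) := by
    simp [ev_inl]
  have c2 : (x + ∑ e, ((m e : ℝ) * P) • ev (M.idx (Sum.inr e)) : E (dimT g n))
      (M.idx (Sum.inr e)) = x (M.idx (Sum.inr e)) + (m e : ℝ) * P := by
    simp [ev_inr]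
  rw [c1, c2]
  refine ⟨hx e, ?_⟩
  have f1 := Int.floor_le (x (M.idx (Sum.inr e)) / P)
  have f2 := Int.lt_floor_add_one (x (M.idx (Sum.inr e)) / P)
  rw [le_div_iff₀ hP] at f1
  rw [div_lt_iff₀ hP] at f2
  simp only [hm, Int.cast_neg]
  constructor <;> nlinarith

end PP

theorem pull_lower (hΨ : IsSmoothChart Ψ) (Λ : Subgroup (autStar g n)) (hΛ : Λ.FiniteIndex)
    {h : E (dimT g n) → Matrix (Fin (dimT g n)) (Fin (dimT g n)) ℝ} (hh : IsMetricOn h univ)
    (hinv : Invariant Ψ Λ h) (a b : Fin M.d → ℝ) (hb : ∀ e, b e < 0) :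
    ∃ κ : ℝ, 0 < κ ∧ ∀ x, (∀ e, a e ≤ x (M.idx (Sum.inl e)) ∧ x (M.idx (Sum.inl e)) ≤ b e) →
      ∀ v, κ * ‖v‖ ≤ vnorm (pull (phi M Ψ) h) x v := by
  obtain ⟨k, hk, hper⟩ := pull_periodic M hΨ Λ hΛ hinv
  set P : ℝ := 2 * Real.pi * (k : ℝ) with hPdef
  have hP : 0 < P := by
    have : (0 : ℝ) < (k : ℝ) := by exact_mod_cast hk
    positivity
  set G := pull (phi M Ψ) h with hG
  have hm : IsMetricOn G M.V :=
    pull_metric (phi M Ψ) h M.V (isOpen_V M) (phi_smooth M hΨ) (phi_imm M hΨ) hh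
  set S : Set (E (dimT g n) × E (dimT g n)) :=
    Kc M a b P ×ˢ Metric.sphere (0 : E (dimT g n)) 1 with hS
  have hK : IsCompact S := (isCompact_Kc M a b P).prod (isCompact_sphere _ _)
  have hc : ContinuousOn (fun p : E (dimT g n) × E (dimT g n) => vnorm G p.1 p.2) S :=
    (vnorm_cont hm).mono (prod_mono (Kc_sub M hb) (subset_univ _))
  have main : ∀ κ : ℝ, (∀ p ∈ S, κ ≤ vnorm G p.1 p.2) →
      ∀ x, (∀ e, a e ≤ x (M.idx (Sum.inl e)) ∧ x (M.idx (Sum.inl e)) ≤ b e) →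
      ∀ v, κ * ‖v‖ ≤ vnorm G x v := by
    intro κ hκ x hx v
    by_cases hv : v = 0
    · subst hv
      simp [vnorm]
    have hvn : 0 < ‖v‖ := norm_pos_iff.2 hv
    obtain ⟨y, hy, hyx⟩ := reduce M hP hb hper hx
    have h1 := hκ (y, ‖v‖⁻¹ • v) ⟨hy, by
      simp only [mem_sphere_iff_norm, sub_zero, norm_smul, norm_inv, norm_norm]
      exact inv_mul_cancel₀ hvn.ne'⟩
    have h2 : κ ≤ ‖v‖⁻¹ * vnorm G x v := by
      have h3 := vnorm_smul (G := G) y v (inv_nonneg.2 hvn.le)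
      have h4 : κ ≤ vnorm G y (‖v‖⁻¹ • v) := h1
      rw [h3, hyx] at h4
      exact h4
    calc κ * ‖v‖ ≤ (‖v‖⁻¹ * vnorm G x v) * ‖v‖ := mul_le_mul_of_nonneg_right h2 hvn.le
      _ = vnorm G x v := by
        rw [mul_comm, ← mul_assoc, mul_inv_cancel₀ hvn.ne', one_mul]
  rcases S.eq_empty_or_nonempty with he | hne
  · exact ⟨1, one_pos, main 1 (by rw [he]; simp)⟩
  · obtain ⟨p, hp, hmin⟩ := hK.exists_isMinOn hne hc
    refine ⟨vnorm G p.1 p.2, ?_, main _ fun q hq => hmin hq⟩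
    refine vnorm_pos (hm.posDef _ (Kc_sub M hb hp.1)) ?_
    intro h0
    have := hp.2
    rw [h0] at this
    simp at this

end
end PS
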