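import Pool.Agent.H96.PS.BDefs
import Pool.Agent.H96.PS.ScalInv

/-!
Project PS (MP_b05a29_gt), row C4: Riemannian distance by broken paths.
-/

open scoped ENNReal UpperHalfPlane ContDiff Matrix
open MeasureTheory Set

namespace PS
noncomputable section

namespace DB

theorem form_eq {N : ℕ} (A : Matrix (Fin N) (Fin N) ℝ) (w : E N) :
    ∑ i, ∑ j, A i j * w i * w j = (fun i => w i) ⬝ᵥ (A *ᵥ fun i => w i) := by
  simp only [dotProduct, Matrix.mulVec, Finset.mul_sum]
  refine Finset.sum_congr rfl fun i _ => Finset.sum_congr rfl fun j _ => ?_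
  ring

/-- norm of a vector for a pulled back metric -/
theorem vnorm_pull {N : ℕ} {φ : E N → E N} (G : E N → Matrix (Fin N) (Fin N) ℝ) {x : E N}
    (hφ : DifferentiableAt ℝ φ x) (v : E N) :
    vnorm (pull φ G) x v = vnorm G (φ x) (fderiv ℝ φ x v) := by
  unfold vnorm
  congr 1
  have h2 : (fun a => (fderiv ℝ φ x v) a) = SI.Jm φ x *ᵥ (fun i => v i) := by
    funext a
    rw [SI.fderiv_mulVec hφ]
    rfl
  rw [form_eq, form_eq, SI.pull_eq, h2, ← Matrix.mulVec_mulVec, ← Matrix.mulVec_mulVec,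
    Matrix.dotProduct_mulVec, Matrix.vecMul_transpose]

theorem vnorm_cont {N : ℕ} {G : E N → Matrix (Fin N) (Fin N) ℝ} (hm : IsMetricOn G univ) :
    Continuous (fun p : E N × E N => vnorm G p.1 p.2) := by
  unfold vnorm
  refine Real.continuous_sqrt.comp ?_
  refine continuous_finsetSum _ fun i _ => continuous_finsetSum _ fun j _ => ?_
  have h0 : Continuous (fun x => G x i j) := continuousOn_univ.1 (hm.smooth i j).continuousOn
  have h1 : Continuous (fun p : E N × E N => G p.1 i j) := h0.comp continuous_fst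
  have h2 : Continuous (fun p : E N × E N => p.2 i) := by fun_prop
  have h3 : Continuous (fun p : E N × E N => p.2 j) := by fun_prop
  exact (h1.mul h2).mul h3

variable {N : ℕ} {h : E N → Matrix (Fin N) (Fin N) ℝ}

theorem vnorm_neg (x v : E N) : vnorm h x (-v) = vnorm h x v := by
  unfold vnorm
  congr 1
  refine Finset.sum_congr rfl fun i _ => Finset.sum_congr rfl fun j _ => ?_
  simp

theorem append {p q r : E N} {L L' : ℝ≥0∞} (h1 : BrokenPath h p q L) (h2 : BrokenPath h q r L') :
    BrokenPath h p r (L + L') := by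
  induction h1 with
  | nil p => rw [zero_add]; exact h2
  | cons γ q L hγ _ ih =>
    rw [add_assoc]
    exact BrokenPath.cons γ r (L + L') hγ (ih h2)

theorem single (γ : ℝ → E N) (hγ : ContDiffOn ℝ 1 γ (Icc 0 1)) :
    BrokenPath h (γ 0) (γ 1) (curveLen h γ) := by
  have := BrokenPath.cons (h := h) γ (γ 1) 0 hγ (BrokenPath.nil _)
  rwa [add_zero] at this

theorem rev_mem {t : ℝ} : 1 - t ∈ Icc (0 : ℝ) 1 ↔ t ∈ Icc (0 : ℝ) 1 := by
  constructor
  · rintro ⟨h1, h2⟩
    exact ⟨by linarith, by linarith⟩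
  · rintro ⟨h1, h2⟩
    exact ⟨by linarith, by linarith⟩

theorem rev_contDiffOn {γ : ℝ → E N} (hγ : ContDiffOn ℝ 1 γ (Icc 0 1)) :
    ContDiffOn ℝ 1 (fun t => γ (1 - t)) (Icc 0 1) := by
  have h1 : ContDiffOn ℝ 1 (fun t : ℝ => 1 - t) (Icc 0 1) := (contDiff_const.sub contDiff_id).contDiffOn
  exact hγ.comp h1 (fun t ht => rev_mem.2 ht)

theorem rev_deriv {γ : ℝ → E N} (hγ : ContDiffOn ℝ 1 γ (Icc 0 1)) {t : ℝ} (ht : t ∈ Icc (0 : ℝ) 1) :
    derivWithin (fun t => γ (1 - t)) (Icc 0 1) t = -derivWithin γ (Icc 0 1) (1 - t) := by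
  have h1 : HasDerivWithinAt γ (derivWithin γ (Icc 0 1) (1 - t)) (Icc 0 1) (1 - t) :=
    ((hγ.differentiableOn (by simp)) (1 - t) (rev_mem.2 ht)).hasDerivWithinAt
  have h2 : HasDerivWithinAt (fun s : ℝ => 1 - s) (-1) (Icc 0 1) t := by
    simpa using ((hasDerivAt_id t).const_sub 1).hasDerivWithinAt
  have h3 := HasDerivWithinAt.scomp t h1 h2 (fun s hs => rev_mem.2 hs)
  have h4 := h3.derivWithin (uniqueDiffOn_Icc (zero_lt_one' ℝ) t ht)
  have h5 : (fun t => γ (1 - t)) = γ ∘ fun s : ℝ => 1 - s := rfl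
  rw [h5, h4]
  simp

theorem rev_len {γ : ℝ → E N} (hγ : ContDiffOn ℝ 1 γ (Icc 0 1)) :
    curveLen h (fun t => γ (1 - t)) = curveLen h γ := by
  unfold curveLen
  rw [← lintegral_indicator measurableSet_Icc, ← lintegral_indicator measurableSet_Icc]
  rw [← lintegral_sub_left_eq_self _ (1 : ℝ)]
  refine lintegral_congr fun t => ?_
  by_cases ht : t ∈ Icc (0 : ℝ) 1
  · rw [indicator_of_mem ht, indicator_of_mem (rev_mem.2 ht)]
    have h1 : (fun t => γ (1 - t)) (1 - t) = γ t := by
      show γ (1 - (1 - t)) = γ t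
      congr 1
      ring
    have h2 := rev_deriv hγ (rev_mem.2 ht)
    have h3 : (1 : ℝ) - (1 - t) = t := by ring
    rw [h3] at h2
    rw [h2, vnorm_neg, h1]
  · rw [indicator_of_notMem ht, indicator_of_notMem (fun h => ht (rev_mem.1 h))]

theorem reverse {p q : E N} {L : ℝ≥0∞} (h1 : BrokenPath h p q L) : BrokenPath h q p L := by
  induction h1 with
  | nil p => exact BrokenPath.nil p
  | cons γ q L hγ _ ih =>
    have h2 := single (h := h) (fun t => γ (1 - t)) (rev_contDiffOn hγ)
    simp only [sub_zero, sub_self, rev_len hγ] at h2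
    have h3 := append ih h2
    rwa [add_comm] at h3

end DB

variable {N : ℕ} {h : E N → Matrix (Fin N) (Fin N) ℝ}

open DB

theorem riemDist_self (p : E N) : riemDist h p p = 0 :=
  le_antisymm (iInf₂_le 0 (BrokenPath.nil p)) bot_le

theorem riemDist_triangle (p q r : E N) : riemDist h p r ≤ riemDist h p q + riemDist h q r := by
  unfold riemDist
  simp only [ENNReal.iInf_add, ENNReal.add_iInf]
  exact le_iInf fun L' => le_iInf fun h2 => le_iInf fun L => le_iInf fun h1 =>
    iInf₂_le (L + L') (append h1 h2)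

theorem riemDist_symm (hh : IsMetricOn h univ) (p q : E N) : riemDist h p q = riemDist h q p := by
  have key : ∀ p q : E N, riemDist h p q ≤ riemDist h q p := fun p q =>
    le_iInf fun L => le_iInf fun h1 => iInf₂_le L (reverse h1)
  exact le_antisymm (key p q) (key q p)

/-- images of segments -/
theorem riemDist_le_seg (hh : IsMetricOn h univ) {U : Set (E N)} (hU : IsOpen U) {G : E N → E N}
    (hG : ContDiffOn ℝ ∞ G U) (x y : E N) (hxy : segment ℝ x y ⊆ U) :
    riemDist h (G x) (G y) ≤ ENNReal.ofReal (segLen (pull G h) x y) := by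
  have hseg : ∀ s ∈ Icc (0 : ℝ) 1, x + s • (y - x) ∈ U := by
    intro s hs
    apply hxy
    rw [segment_eq_image']
    exact ⟨s, hs, rfl⟩
  set c : ℝ → E N := fun t => x + t • (y - x) with hc
  have hc1 : ∀ t, HasDerivAt c (y - x) t := by
    intro t
    have := ((hasDerivAt_id t).smul_const (y - x)).const_add x
    rw [one_smul] at this
    exact this
  have hcs : ContDiff ℝ 1 c := contDiff_const.add (contDiff_id.smul contDiff_const)
  set γ : ℝ → E N := fun t => G (c t) with hγdef
  have hγ : ContDiffOn ℝ 1 γ (Icc 0 1) :=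
    (hG.of_le (by exact_mod_cast le_top)).comp hcs.contDiffOn (fun t ht => hseg t ht)
  have hp := single (h := h) γ hγ
  have h0 : γ 0 = G x := by simp [hγdef, hc]
  have h1 : γ 1 = G y := by simp [hγdef, hc]
  rw [h0, h1] at hp
  refine (iInf₂_le _ hp).trans (le_of_eq ?_)
  have hdG : ∀ t ∈ Icc (0 : ℝ) 1, DifferentiableAt ℝ G (c t) := fun t ht =>
    SI.dAtV hU hG (hseg t ht)
  have hder : ∀ t ∈ Icc (0 : ℝ) 1, derivWithin γ (Icc 0 1) t = fderiv ℝ G (c t) (y - x) := by
    intro t ht
    have h2 : HasDerivAt γ (fderiv ℝ G (c t) (y - x)) t :=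
      (hdG t ht).hasFDerivAt.comp_hasDerivAt t (hc1 t)
    exact h2.hasDerivWithinAt.derivWithin (uniqueDiffOn_Icc (zero_lt_one' ℝ) t ht)
  set F : ℝ → ℝ := fun t => vnorm (pull G h) (x + t • (y - x)) (y - x) with hF
  have hFeq : ∀ t ∈ Icc (0 : ℝ) 1, F t = vnorm h (γ t) (derivWithin γ (Icc 0 1) t) := by
    intro t ht
    rw [hder t ht]
    exact vnorm_pull h (hdG t ht) (y - x)
  have hcont : ContinuousOn F (Icc 0 1) := by
    have h3 : ContinuousOn (fun t => vnorm h (G (c t)) (fderiv ℝ G (c t) (y - x))) (Icc 0 1) := by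
      have h4 : ContinuousOn (fun t => ((G (c t), fderiv ℝ G (c t) (y - x)) : E N × E N))
          (Icc 0 1) := by
        refine ContinuousOn.prodMk ?_ ?_
        · exact hG.continuousOn.comp hcs.continuous.continuousOn (fun t ht => hseg t ht)
        · have h5 : ContinuousOn (fun t => fderiv ℝ G (c t)) (Icc 0 1) :=
            ContinuousOn.comp (g := fderiv ℝ G) (t := U)
              (hG.continuousOn_fderiv_of_isOpen hU (by simp))
              hcs.continuous.continuousOn (fun t ht => hseg t ht)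
          exact h5.clm_apply continuousOn_const
      have h6 : ContinuousOn ((fun p : E N × E N => vnorm h p.1 p.2) ∘
          (fun t => ((G (c t), fderiv ℝ G (c t) (y - x)) : E N × E N))) (Icc 0 1) :=
        (vnorm_cont hh).comp_continuousOn h4
      exact h6
    refine h3.congr fun t ht => ?_
    exact vnorm_pull h (hdG t ht) (y - x)
  have hint : IntegrableOn F (Icc 0 1) volume := hcont.integrableOn_Icc
  have e1 : curveLen h γ = ∫⁻ t in Icc (0 : ℝ) 1, ENNReal.ofReal (F t) := by
    unfold curveLen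
    refine setLIntegral_congr_fun measurableSet_Icc fun t ht => ?_
    rw [hFeq t ht]
  have hF0 : ∀ t, 0 ≤ F t := fun t => Real.sqrt_nonneg _
  have e2 : ENNReal.ofReal (∫ t in Icc (0 : ℝ) 1, F t) =
      ∫⁻ t in Icc (0 : ℝ) 1, ENNReal.ofReal (F t) := by
    refine ofReal_integral_eq_lintegral_ofReal ?_ (Filter.Eventually.of_forall hF0)
    exact hint
  rw [e1, ← e2]
  congr 1
  unfold segLen
  rw [intervalIntegral.integral_of_le zero_le_one, integral_Icc_eq_integral_Ioc]

theorem riemDist_ne_top (hh : IsMetricOn h univ) (p q : E N) : riemDist h p q ≠ (⊤ : ℝ≥0∞) := by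
  have h1 := riemDist_le_seg (G := id) hh isOpen_univ contDiffOn_id p q (subset_univ _)
  exact (lt_of_le_of_lt h1 ENNReal.ofReal_lt_top).ne

end
end PS
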