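import Pool.Agent.H96.PS.BDefs
import Pool.Agent.H96.PS.ActSmooth
import Pool.Agent.H96.PS.DistBasic

/-!
Project PS (MP_b05a29_gt), row C6: the distance of the quotient by the mapping class group.
-/

open scoped ENNReal UpperHalfPlane ContDiff Matrix
open MeasureTheory Set

namespace PS
noncomputable section

variable {g n : ℕ} {Ψ : Teich g n ≃ E (dimT g n)} {Λ : Subgroup (autStar g n)}
  {h : E (dimT g n) → Matrix (Fin (dimT g n)) (Fin (dimT g n)) ℝ}

namespace QD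

theorem actC_psi (φ : autStar g n) (X : Teich g n) : actC Ψ φ (Ψ X) = Ψ (act φ X) := by
  rw [actC, Equiv.symm_apply_apply]

theorem actC_mul (φ ψ : autStar g n) (p : E (dimT g n)) :
    actC Ψ (φ * ψ) p = actC Ψ φ (actC Ψ ψ p) := by
  unfold actC
  rw [act_mul, Equiv.symm_apply_apply]

theorem actC_one (p : E (dimT g n)) : actC Ψ 1 p = p := by
  unfold actC
  rw [act_one, Equiv.apply_symm_apply]

end QD

open QD

theorem qRiemDist_le (X Y : Teich g n) : qRiemDist Ψ Λ h X Y ≤ riemDist h (Ψ X) (Ψ Y) := by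
  unfold qRiemDist
  refine (iInf_le _ (1 : Λ)).trans (le_of_eq ?_)
  rw [Subgroup.coe_one, actC_one]

theorem qRiemDist_triangle (hΨ : IsSmoothChart Ψ) (hh : IsMetricOn h univ) (hinv : Invariant Ψ Λ h)
    (X Y Z : Teich g n) :
    qRiemDist Ψ Λ h X Z ≤ qRiemDist Ψ Λ h X Y + qRiemDist Ψ Λ h Y Z := by
  unfold qRiemDist
  simp only [ENNReal.iInf_add, ENNReal.add_iInf]
  refine le_iInf fun ψ => le_iInf fun φ => ?_
  refine (iInf_le _ (φ * ψ)).trans ?_
  rw [Subgroup.coe_mul, actC_mul]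
  refine (riemDist_triangle _ (actC Ψ (φ : autStar g n) (Ψ Y)) _).trans ?_
  rw [riemDist_act hΨ hinv (φ : autStar g n) φ.2]

theorem qRiemDist_symm (hΨ : IsSmoothChart Ψ) (hh : IsMetricOn h univ) (hinv : Invariant Ψ Λ h)
    (X Y : Teich g n) : qRiemDist Ψ Λ h X Y = qRiemDist Ψ Λ h Y X := by
  have key : ∀ X Y : Teich g n, qRiemDist Ψ Λ h X Y ≤ qRiemDist Ψ Λ h Y X := by
    intro X Y
    unfold qRiemDist
    refine le_iInf fun φ => ?_
    refine (iInf_le _ (φ⁻¹)).trans (le_of_eq ?_)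
    rw [Subgroup.coe_inv, ← riemDist_act hΨ hinv (φ : autStar g n) φ.2, ← actC_mul,
      mul_inv_cancel, actC_one, riemDist_symm hh]
  exact le_antisymm (key X Y) (key Y X)

theorem qRiemDist_ne_top (hh : IsMetricOn h univ) (X Y : Teich g n) :
    qRiemDist Ψ Λ h X Y ≠ (⊤ : ℝ≥0∞) :=
  (lt_of_le_of_lt (qRiemDist_le X Y) (riemDist_ne_top hh _ _).lt_top).ne

end
end PS
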