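import Pool.Agent.H96.PS.BDefs
import Pool.Agent.H96.PS.PhiPer
import Pool.Agent.H96.PS.QDist
import Pool.Agent.H96.PS.Lower
import Pool.Agent.H96.PS.CubeLip

/-! Project PS (MP_b05a29_gt): the intrinsic theorem from the Fenchel-Nielsen models. -/

open scoped ENNReal UpperHalfPlane ContDiff Matrix
open MeasureTheory Set

namespace PS
noncomputable section

namespace BR

theorem pull_trans {N : ℕ} (φ : E N → E N) (h : E N → Matrix (Fin N) (Fin N) ℝ) (ctr y : E N) :
    pull (fun y => φ (ctr + y)) h y = pull φ h (ctr + y) := by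
  have hp : ∀ (i a : Fin N), pd i (fun z => φ (ctr + z) a) y = pd i (fun z => φ z a) (ctr + y) := by
    intro i a
    unfold pd
    have := fderiv_comp_add_left (𝕜 := ℝ) (f := fun z : E N => φ z a) (x := y) ctr
    rw [this]
  ext i j
  simp only [pull, Matrix.of_apply, hp]

theorem continuousOn_vnorm {N : ℕ} {G : E N → Matrix (Fin N) (Fin N) ℝ} {U : Set (E N)}
    (hG : IsMetricOn G U) (v : E N) : ContinuousOn (fun x => vnorm G x v) U := by
  unfold vnorm
  refine Real.continuous_sqrt.comp_continuousOn ?_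
  refine continuousOn_finset_sum _ (fun i _ => continuousOn_finset_sum _ (fun j _ => ?_))
  exact (((hG.smooth i j).continuousOn).mul continuousOn_const).mul continuousOn_const

theorem seg_ge {N : ℕ} {G : E N → Matrix (Fin N) (Fin N) ℝ} {U : Set (E N)}
    (hG : IsMetricOn G U) {κ : ℝ} (hκ : ∀ x ∈ U, ∀ v, κ * ‖v‖ ≤ vnorm G x v) (x y : E N)
    (hxy : segment ℝ x y ⊆ U) : κ * ‖y - x‖ ≤ segLen G x y := by
  unfold segLen
  have hmem : ∀ s ∈ Icc (0 : ℝ) 1, x + s • (y - x) ∈ U := by
    intro s hs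
    apply hxy
    rw [segment_eq_image']
    exact ⟨s, hs, rfl⟩
  have hc : ContinuousOn (fun s : ℝ => vnorm G (x + s • (y - x)) (y - x)) (uIcc (0 : ℝ) 1) := by
    rw [uIcc_of_le zero_le_one]
    exact (continuousOn_vnorm hG (y - x)).comp (by fun_prop) hmem
  have h1 : ∫ _s in (0 : ℝ)..1, κ * ‖y - x‖ = κ * ‖y - x‖ := by simp
  rw [← h1]
  refine intervalIntegral.integral_mono_on zero_le_one (by simp) hc.intervalIntegrable ?_
  intro s hs
  exact hκ _ (hmem s hs) _

theorem segLen_nonneg {N : ℕ} (G : E N → Matrix (Fin N) (Fin N) ℝ) (x y : E N) :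
    0 ≤ segLen G x y := by
  unfold segLen
  exact intervalIntegral.integral_nonneg zero_le_one (fun s _ => Real.sqrt_nonneg _)

end BR

open BR

/-- the intrinsic theorem from the Fenchel-Nielsen models -/
theorem main_of_model (hM : ∀ g n : ℕ, 4 ≤ 3 * g + n → Nonempty (FNModel g n)) :
    MainStatement := by
  intro g n hgn Λ hΛ Ψ hΨ h hh hinv c hc0 hc
  rintro ⟨K, hK⟩
  obtain ⟨M⟩ := hM g n hgn
  classical
  obtain ⟨ρ, hρ, hcube⟩ := cube_lip (dimT g n) c hc0
  -- constants
  set K1 : ℝ := max K 1 with hK1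
  have hK1pos : 0 < K1 := lt_of_lt_of_le one_pos (le_max_right _ _)
  have hK' : ∀ X Y : Teich g n,
      qTeichDist Λ X Y ≤ ENNReal.ofReal K1 * qRiemDist Ψ Λ h X Y + ENNReal.ofReal K1 := by
    intro X Y
    refine (hK X Y).trans ?_
    have : ENNReal.ofReal K ≤ ENNReal.ofReal K1 := ENNReal.ofReal_le_ofReal (le_max_left _ _)
    gcongr
  set L : ℝ := K1 * (2 * ρ) + K1 with hL
  have hLpos : 0 < L := by positivity
  let top : Fin M.d → ℝ := fun e => -1 - (3 * L + 1) * (e : ℕ)
  have htop : ∀ e, top e ≤ -1 := by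
    intro e
    have : 0 ≤ (3 * L + 1) * ((e : ℕ) : ℝ) := by positivity
    show -1 - (3 * L + 1) * ((e : ℕ) : ℝ) ≤ -1
    linarith
  have htop2 : ∀ i j : Fin M.d, i < j → top j ≤ top i - 2 * L := by
    intro i j hij
    have h1 : ((i : ℕ) : ℝ) + 1 ≤ ((j : ℕ) : ℝ) := by exact_mod_cast hij
    show -1 - (3 * L + 1) * ((j : ℕ) : ℝ) ≤ -1 - (3 * L + 1) * ((i : ℕ) : ℝ) - 2 * L
    nlinarith
  let ctr : E (dimT g n) := WithLp.toLp 2 (fun k => Sum.elim (fun e => top e - L) (fun _ => 0) (M.idx.symm k))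
  have hctr : ∀ e, ctr (M.idx (Sum.inl e)) = top e - L := by
    intro e
    simp [ctr]
  let U : Set (E (dimT g n)) := {y | ∀ e, |y (M.idx (Sum.inl e))| < L + 1 / 2}
  have hUo : IsOpen U := by
    have : U = ⋂ e, {y : E (dimT g n) | |y (M.idx (Sum.inl e))| < L + 1 / 2} := by
      ext y; simp [U]
    rw [this]
    exact isOpen_iInter_of_finite (fun e => isOpen_lt (by fun_prop) continuous_const)
  have hUV : ∀ y ∈ U, ctr + y ∈ M.V := by
    intro y hy e
    have h1 := (abs_lt.1 (hy e)).2
    have h2 := htop e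
    show (ctr + y) (M.idx (Sum.inl e)) < 0
    rw [PiLp.add_apply, hctr]
    linarith
  let φ0 : E (dimT g n) → E (dimT g n) := fun y => phi M Ψ (ctr + y)
  have hφs : ContDiffOn ℝ ∞ φ0 U := by
    refine (phi_smooth M hΨ).comp (by fun_prop) ?_
    intro y hy
    exact hUV y hy
  have hφd : ∀ x ∈ U, Function.Injective (fderiv ℝ φ0 x) := by
    intro x hx
    have h1 : fderiv ℝ φ0 x = fderiv ℝ (phi M Ψ) (ctr + x) := fderiv_comp_add_left ctr
    rw [h1]
    exact phi_imm M hΨ _ (hUV x hx)
  let H : E (dimT g n) → Matrix (Fin (dimT g n)) (Fin (dimT g n)) ℝ := pull φ0 h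
  have hHm : IsMetricOn H U := pull_metric φ0 h U hUo hφs hφd hh
  have hHs : ∀ x ∈ U, c ≤ scal H x := by
    intro x hx
    have := scal_pull φ0 h U hUo hφs hφd hh x hx
    show c ≤ scal (pull φ0 h) x
    rw [this]
    exact hc _
  obtain ⟨κ, hκ, hκl⟩ := pull_lower M hΨ Λ hΛ hh hinv (fun e => top e - 2 * L - 1 / 2)
    (fun e => top e + 1 / 2) (fun e => by have := htop e; linarith)
  have hHl : ∀ x ∈ U, ∀ v, κ * ‖v‖ ≤ vnorm H x v := by
    intro x hx v
    have h1 := hκl (ctr + x) (fun e => by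
      have h2 := abs_lt.1 (hx e)
      rw [PiLp.add_apply, hctr]
      constructor <;> linarith [h2.1, h2.2]) v
    have h3 : vnorm H x v = vnorm (pull (phi M Ψ) h) (ctr + x) v := by
      unfold vnorm
      rw [show H x = pull (phi M Ψ) h (ctr + x) from pull_trans (phi M Ψ) h ctr x]
    rw [h3]
    exact h1
  let pt : E (dimT g n) → Teich g n := fun y => Ψ.symm (φ0 y)
  have hpt : ∀ y, ∀ hy : y ∈ U, pt y = (M.str (ctr + y) (hUV y hy)).cls := by
    intro y hy
    show Ψ.symm (phi M Ψ (ctr + y)) = _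
    unfold phi
    rw [dif_pos (hUV y hy), Equiv.symm_apply_apply]
  have hΨpt : ∀ y, Ψ (pt y) = φ0 y := fun y => Ψ.apply_symm_apply _
  -- the box
  let r : Fin (dimT g n) → ℝ := fun k => Sum.elim (fun _ => L) (fun _ => ρ / κ) (M.idx.symm k)
  have hr1 : ∀ e, r (M.idx (Sum.inl e)) = L := by intro e; simp [r]
  have hr2 : ∀ e, r (M.idx (Sum.inr e)) = ρ / κ := by intro e; simp [r]
  have hcases : ∀ k : Fin (dimT g n), (∃ e, k = M.idx (Sum.inl e)) ∨ (∃ e, k = M.idx (Sum.inr e)) := by
    intro k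
    rcases hs : M.idx.symm k with e | e
    · left; exact ⟨e, by rw [← hs, Equiv.apply_symm_apply]⟩
    · right; exact ⟨e, by rw [← hs, Equiv.apply_symm_apply]⟩
  have hrpos : ∀ j, 0 < r j := by
    intro j
    rcases hcases j with ⟨e, rfl⟩ | ⟨e, rfl⟩
    · rw [hr1]; exact hLpos
    · rw [hr2]; positivity
  have hbox : box r ⊆ U := by
    intro y hy e
    have := hy (M.idx (Sum.inl e))
    rw [hr1] at this
    linarith
  -- the faces
  let Face : Fin M.d → Set (E (dimT g n)) := fun e => {z | z ∈ box r ∧ z (M.idx (Sum.inl e)) = -L}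
  let De : Fin M.d → E (dimT g n) → ℝ≥0∞ := fun e y =>
    ⨅ (z : E (dimT g n)) (_ : z ∈ Face e), qRiemDist Ψ Λ h (pt y) (pt z)
  have hFne : ∀ e, ∃ z, z ∈ Face e := by
    intro e
    refine ⟨EuclideanSpace.single (M.idx (Sum.inl e)) (-L), ?_, ?_⟩
    · intro j
      by_cases hj : j = M.idx (Sum.inl e)
      · subst hj
        rw [hr1]
        simp [abs_of_pos hLpos]
      · have h0 : (EuclideanSpace.single (M.idx (Sum.inl e)) (-L) : E (dimT g n)) j = 0 := by
          simp [hj]
        rw [h0, abs_zero]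
        exact (hrpos j).le
    · simp
  have hDtop : ∀ e y, De e y ≠ ⊤ := by
    intro e y
    obtain ⟨z, hz⟩ := hFne e
    have h1 : De e y ≤ qRiemDist Ψ Λ h (pt y) (pt z) := iInf₂_le z hz
    exact ne_top_of_le_ne_top (qRiemDist_ne_top hh (pt y) (pt z)) h1
  have hDlip : ∀ e x y, De e x ≤ qRiemDist Ψ Λ h (pt x) (pt y) + De e y := by
    intro e x y
    rw [ENNReal.add_iInf]
    refine le_iInf fun z => ?_
    by_cases hz : z ∈ Face e
    · rw [iInf_pos hz]
      refine (iInf₂_le z hz).trans ?_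
      exact qRiemDist_triangle hΨ hh hinv _ _ _
    · rw [iInf_neg hz]
      simp
  let f : Fin (dimT g n) → E (dimT g n) → ℝ := fun k y =>
    Sum.elim (fun e => (De e y).toReal - ρ) (fun _ => κ * y k) (M.idx.symm k)
  have hf1 : ∀ e y, f (M.idx (Sum.inl e)) y = (De e y).toReal - ρ := by intro e y; simp [f]
  have hf2 : ∀ e y, f (M.idx (Sum.inr e)) y = κ * y (M.idx (Sum.inr e)) := by intro e y; simp [f]
  -- bound of the quotient distance by the length of the segment
  have hseg : ∀ x y, segment ℝ x y ⊆ U →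
      (qRiemDist Ψ Λ h (pt x) (pt y)).toReal ≤ segLen H x y := by
    intro x y hxy
    have h1 : qRiemDist Ψ Λ h (pt x) (pt y) ≤ ENNReal.ofReal (segLen H x y) := by
      refine (qRiemDist_le (pt x) (pt y)).trans ?_
      rw [hΨpt, hΨpt]
      exact riemDist_le_seg hh hUo hφs x y hxy
    exact ENNReal.toReal_le_of_le_ofReal (segLen_nonneg H x y) h1
  have hone : ∀ e x y, segment ℝ x y ⊆ U → (De e x).toReal - (De e y).toReal ≤ segLen H x y := by
    intro e x y hxy
    have h1 := ENNReal.toReal_mono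
      (ENNReal.add_ne_top.2 ⟨qRiemDist_ne_top hh (pt x) (pt y), hDtop e y⟩) (hDlip e x y)
    rw [ENNReal.toReal_add (qRiemDist_ne_top hh (pt x) (pt y)) (hDtop e y)] at h1
    have h2 := hseg x y hxy
    linarith
  refine hcube U H r f hUo hrpos hbox hHm (fun x hx => hHs x (hbox hx)) ?_ ?_ ?_
  · intro j x y hxy
    rcases hcases j with ⟨e, rfl⟩ | ⟨e, rfl⟩
    · rw [hf1, hf1, abs_le]
      have h1 := hone e x y hxy
      have h2 : (De e y).toReal - (De e x).toReal ≤ segLen H x y := by
        have h3 := ENNReal.toReal_mono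
          (ENNReal.add_ne_top.2 ⟨qRiemDist_ne_top hh (pt y) (pt x), hDtop e x⟩) (hDlip e y x)
        rw [ENNReal.toReal_add (qRiemDist_ne_top hh (pt y) (pt x)) (hDtop e x),
          qRiemDist_symm hΨ hh hinv (pt y) (pt x)] at h3
        have h4 := hseg x y hxy
        linarith
      constructor <;> linarith
    · rw [hf2, hf2, ← mul_sub, abs_mul, abs_of_pos hκ]
      refine le_trans ?_ (seg_ge hHm hHl x y hxy)
      refine mul_le_mul_of_nonneg_left ?_ hκ.le
      have h1 : |x (M.idx (Sum.inr e)) - y (M.idx (Sum.inr e))| = ‖(y - x) (M.idx (Sum.inr e))‖ := by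
        rw [PiLp.sub_apply, Real.norm_eq_abs, abs_sub_comm]
      rw [h1]
      exact PiLp.norm_apply_le (y - x) _
  · intro j x hx hxj
    rcases hcases j with ⟨e, rfl⟩ | ⟨e, rfl⟩
    · rw [hf1]
      rw [hr1] at hxj
      have h0 : De e x = 0 := by
        refine le_antisymm ?_ bot_le
        refine (iInf₂_le x ⟨hx, hxj⟩).trans ?_
        refine (qRiemDist_le _ _).trans ?_
        rw [riemDist_self]
      rw [h0]
      simp
    · rw [hf2, hxj, hr2]
      have : κ * -(ρ / κ) = -ρ := by field_simp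
      rw [this]
  · intro j x hx hxj
    rcases hcases j with ⟨e, rfl⟩ | ⟨e, rfl⟩
    · rw [hf1]
      rw [hr1] at hxj
      have hxU := hbox hx
      have key : ENNReal.ofReal (2 * ρ) ≤ De e x := by
        refine le_iInf₂ fun z hz => ?_
        obtain ⟨hzb, hze⟩ := hz
        have hzU := hbox hzb
        have hT : ENNReal.ofReal L ≤ qTeichDist Λ (pt x) (pt z) := by
          refine le_iInf fun φ => ?_
          rw [hpt x hxU, hpt z hzU]
          refine teich_lower M (ctr + x) (ctr + z) (hUV x hxU) (hUV z hzU) e L ?_ ?_ ?_ _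
          · intro j hj
            rw [PiLp.add_apply, PiLp.add_apply, hctr, hctr, hxj]
            have h1 := htop2 j e hj
            have h2 := hx (M.idx (Sum.inl j))
            rw [hr1] at h2
            have h3 := (abs_le.1 h2).1
            linarith
          · intro j hj
            rw [PiLp.add_apply, PiLp.add_apply, hctr, hctr, hze]
            have h1 := htop2 e j hj
            have h2 := hzb (M.idx (Sum.inl j))
            rw [hr1] at h2
            have h3 := (abs_le.1 h2).2
            linarith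
          · rw [PiLp.add_apply, PiLp.add_apply, hctr, hxj, hze]
            ring
        have h5 := hT.trans (hK' (pt x) (pt z))
        rw [hL, ENNReal.ofReal_add (by positivity) hK1pos.le] at h5
        have h6 := (ENNReal.add_le_add_iff_right ENNReal.ofReal_ne_top).1 h5
        rw [ENNReal.ofReal_mul hK1pos.le] at h6
        exact (ENNReal.mul_le_mul_iff_right (by simpa using hK1pos) ENNReal.ofReal_ne_top).1 h6
      have h7 := ENNReal.toReal_mono (hDtop e x) key
      rw [ENNReal.toReal_ofReal (by positivity)] at h7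
      linarith
    · rw [hf2, hxj, hr2]
      have : κ * (ρ / κ) = ρ := by field_simp
      rw [this]

end
end PS
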