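import Pool.Agent.H96.PS.BDefs
import Pool.Agent.DC.Iso.Aut
import Pool.Agent.DC.D.FNExists
import Pool.Agent.DC.D.Immersion
import Pool.Agent.DC.D.Faces
import Pool.Agent.DC.E.Twist
import Pool.Agent.DC.Hyp

/-!
Project PS (MP_b05a29_gt), row C11: the Fenchel-Nielsen model of the surface of genus `g` with `n`
punctures.
-/

open scoped ENNReal UpperHalfPlane ContDiff Matrix
open MeasureTheory Set

namespace PS
noncomputable section

open Pool.Agent.DC Pool.Agent.DC.PantsGraph

namespace Mo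

/-- automorphisms preserving the simple loops around punctures preserve the peripheral elements -/
theorem isPer_iff {g n : ℕ} (γ : SurfaceGroup g n) :
    IsPer γ ↔ γ = 1 ∨ ∃ (δ : SurfaceGroup g n) (k : ℤ), SPeripheral δ ∧ γ = δ ^ k := by
  constructor
  · rintro (h | ⟨j, k, w, h⟩)
    · exact Or.inl h
    · refine Or.inr ⟨w * sc j * w⁻¹, k, ⟨j, w, Or.inl rfl⟩, ?_⟩
      rw [h, conj_zpow]
  · rintro (h | ⟨δ, k, ⟨j, w, h1 | h1⟩, h2⟩)
    · exact Or.inl h
    · exact Or.inr ⟨j, k, w, by rw [h2, h1, conj_zpow]⟩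
    · refine Or.inr ⟨j, -k, w, ?_⟩
      rw [h2, h1, conj_zpow, inv_zpow, zpow_neg]

theorem isPer_map {g n : ℕ} {φ : MulAut (SurfaceGroup g n)} (hφ : φ ∈ sAutStar g n)
    {γ : SurfaceGroup g n} (h : IsPer γ) : IsPer (φ γ) := by
  rw [isPer_iff] at h ⊢
  rcases h with h | ⟨δ, k, h1, h2⟩
  · left
    rw [h, map_one]
  · exact Or.inr ⟨φ δ, k, (hφ δ).2 h1, by rw [h2, map_zpow]⟩

theorem mem_autStar {g n : ℕ} {φ : MulAut (SurfaceGroup g n)} (hφ : φ ∈ sAutStar g n) :
    φ ∈ autStar g n := by
  intro γ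
  constructor
  · intro h
    have h1 := isPer_map ((sAutStar g n).inv_mem hφ) h
    rwa [MulAut.inv_apply_self] at h1
  · exact isPer_map hφ

variable {G : PantsGraph} {g n : ℕ} (hN : G.d + G.d = dimT g n)

/-- reindexing of the coordinates -/
def R : E (dimT g n) ≃L[ℝ] G.Teich :=
  (LinearIsometryEquiv.piLpCongrLeft 2 ℝ ℝ (finCongr hN.symm)).toContinuousLinearEquiv

theorem R_apply (x : E (dimT g n)) (i : Fin (G.d + G.d)) : R hN x i = x (Fin.cast hN i) := rfl

/-- the indices -/
def idx : Fin G.d ⊕ Fin G.d ≃ Fin (dimT g n) := finSumFinEquiv.trans (finCongr hN)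

theorem idx_inl (e : Fin G.d) : idx hN (Sum.inl e) = Fin.cast hN (Fin.castAdd G.d e) := rfl

theorem idx_inr (e : Fin G.d) : idx hN (Sum.inr e) = Fin.cast hN (Fin.natAdd G.d e) := rfl

theorem len_R (x : E (dimT g n)) (e : Fin G.d) :
    PantsGraph.len (R hN x) e = Real.exp (x (idx hN (Sum.inl e))) := rfl

theorem R_add (x : E (dimT g n)) (t : ℝ) (e : Fin G.d) :
    R hN (x + t • ev (idx hN (Sum.inr e))) =
      R hN x + t • EuclideanSpace.single (Fin.natAdd G.d e) (1 : ℝ) := by
  rw [map_add, map_smul]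
  congr 2
  ext i
  rw [R_apply, idx_inr, ev, PiLp.single_apply, PiLp.single_apply]
  by_cases h : i = Fin.natAdd G.d e
  · rw [if_pos h, if_pos (by rw [h])]
  · rw [if_neg h, if_neg]
    intro h2
    exact h (Fin.cast_injective hN h2)

end Mo

open Mo

theorem exists_model (g n : ℕ) (h : 4 ≤ 3 * g + n) : Nonempty (FNModel g n) := by
  obtain ⟨G, hn, hd, Φ, hΦ⟩ := Pool.Agent.DC.Iso.exists_pantsGraph g n h
  obtain ⟨F, hF1, hF2⟩ := exists_FN_smooth G
  have hN : G.d + G.d = dimT g n := by
    show G.d + G.d = 2 * (3 * g + n - 3)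
    omega
  set ι : SurfaceGroup g n →* G.PathGroup := G.pi1.subtype.comp Φ.toMonoidHom with hι
  have hιm : ∀ γ, ι γ = ((Φ γ : G.pi1) : G.PathGroup) := fun γ => rfl
  have hlen : ∀ x : E (dimT g n), (∀ e, x (idx hN (Sum.inl e)) < 0) →
      ∀ e, PantsGraph.len (R hN x) e ≤ 1 := by
    intro x hx e
    rw [len_R]
    exact Real.exp_le_one_iff.2 (hx e).le
  have hsame : ∀ (x : E (dimT g n)) (t : ℝ) (e : Fin G.d),
      (F (R hN (x + t • ev (idx hN (Sum.inr e))))).s = (F (R hN x)).s ∧
      (F (R hN (x + t • ev (idx hN (Sum.inr e))))).N = (F (R hN x)).N := by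
    intro x t e
    refine hF2 _ _ fun e' => ?_
    rw [R_add]
    have : (EuclideanSpace.single (Fin.natAdd G.d e) (1 : ℝ) : G.Teich) (Fin.castAdd G.d e') = 0 := by
      rw [PiLp.single_apply, if_neg]
      intro h2
      have := congrArg Fin.val h2
      simp only [Fin.val_castAdd, Fin.val_natAdd] at this
      omega
    rw [PiLp.add_apply, PiLp.smul_apply, this, smul_zero, add_zero]
  refine ⟨{
    d := G.d
    idx := idx hN
    rep := fun x => (F (R hN x)).hol.comp ι
    smooth := fun γ i j => ?_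
    disc := fun x hx => ?_
    hyp := fun x hx γ hγ => ?_
    par := fun x hx γ hγ => ?_
    rank := fun x hx v hv => ?_
    twist := fun e => ?_
    faces := ?_ }⟩
  · exact (hF1 (ι γ) i j).comp (R hN).contDiff
  · exact PantsGraph.FN.field_disc (F (R hN x)) (hlen x hx) Φ
  · exact PantsGraph.FN.field_hyp (F (R hN x)) Φ hΦ (hlen x hx) γ hγ
  · exact PantsGraph.FN.field_par (F (R hN x)) Φ hΦ (hlen x hx) γ hγ
  · have hv0 : R hN v = 0 := by
      refine immersion F hF1 hF2 (R hN x) (R hN v) fun γ => ?_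
      obtain ⟨γ, rfl⟩ := Φ.surjective γ
      set f : G.Teich → ℝ := fun y => (((F y).hol ((Φ γ : G.pi1) : G.PathGroup) : SL2) : M2).trace
        with hf
      have hfd : Differentiable ℝ f := by
        have h1 : f = fun y => (((F y).hol ((Φ γ : G.pi1) : G.PathGroup) : SL2) : M2) 0 0 +
            (((F y).hol ((Φ γ : G.pi1) : G.PathGroup) : SL2) : M2) 1 1 := by
          funext y
          exact Matrix.trace_fin_two _
        rw [h1]
        exact ((hF1 _ 0 0).add (hF1 _ 1 1)).differentiable (by simp)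
      have hne : f (R hN x) ≠ 0 := by
        intro h0
        by_cases hp : IsPer γ
        · have := PantsGraph.FN.field_par (F (R hN x)) Φ hΦ (hlen x hx) γ hp
          have h3 : |f (R hN x)| = 2 := this
          rw [h0] at h3
          norm_num at h3
        · have := PantsGraph.FN.field_hyp (F (R hN x)) Φ hΦ (hlen x hx) γ hp
          have h3 : 2 < |f (R hN x)| := this
          rw [h0] at h3
          norm_num at h3
      have h2 := hv γ
      have h3 : HasFDerivAt (fun y : E (dimT g n) => f (R hN y) ^ 2)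
          ((2 * f (R hN x)) • ((fderiv ℝ f (R hN x)).comp (R hN : E (dimT g n) →L[ℝ] G.Teich)))
          x := by
        have h4 : HasFDerivAt (fun y : E (dimT g n) => f (R hN y))
            ((fderiv ℝ f (R hN x)).comp (R hN : E (dimT g n) →L[ℝ] G.Teich)) x :=
          (hfd (R hN x)).hasFDerivAt.comp x (R hN).hasFDerivAt
        have h5 := h4.pow 2
        simpa [mul_comm] using h5
      have h6 : (fun y : E (dimT g n) => tr (((F (R hN y)).hol.comp ι) γ) ^ 2) =
          fun y => f (R hN y) ^ 2 := rfl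
      rw [h6, h3.fderiv] at h2
      simp only [_root_.smul_apply, ContinuousLinearMap.comp_apply,
        smul_eq_mul] at h2
      rcases mul_eq_zero.1 h2 with h7 | h7
      · rcases mul_eq_zero.1 h7 with h8 | h8
        · norm_num at h8
        · exact absurd h8 hne
      · exact h7
    exact (R hN).injective (by rw [hv0, map_zero])
  · obtain ⟨τ, hτ, h1⟩ := exists_twist G e
    refine ⟨⟨(MulAut.congr Φ).symm τ, mem_autStar
      ((Pool.Agent.DC.Iso.congr_symm_mem_sAutStar_iff hΦ τ).2 hτ)⟩, fun x γ => ?_⟩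
    obtain ⟨hs, hNN⟩ := hsame x (2 * Real.pi) e
    obtain ⟨σ, hσ, h2⟩ := h1 1 (R hN x) (R hN (x + (2 * Real.pi) • ev (idx hN (Sum.inr e))))
      (F _) (F _) (by rw [R_add, Nat.cast_one, mul_one]) hs hNN (Φ γ)
    rw [pow_one, ← Pool.Agent.DC.Iso.congr_symm_apply] at h2
    rcases hσ with rfl | rfl
    · left
      apply Subtype.ext
      rw [one_smul] at h2
      exact h2
    · right
      apply Subtype.ext
      rw [Matrix.SpecialLinearGroup.coe_neg]
      rw [neg_one_smul] at h2
      exact h2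
  · intro x y hx i L hxi hyi hxy φ K hK hφ
    refine faces_tl (F (R hN x)) (F (R hN y)) (hlen x hx) i L (fun j hj => ?_) (fun j hj => ?_) ?_
      (MulAut.congr Φ φ) K fun γ => ?_
    · rw [len_R, len_R]
      exact Real.exp_le_exp.2 (hxi j hj)
    · rw [len_R, len_R]
      exact Real.exp_le_exp.2 (hyi j hj)
    · rw [len_R, len_R, ← Real.exp_add, hxy]
    · obtain ⟨γ, rfl⟩ := Φ.surjective γ
      rw [Pool.Agent.DC.Iso.congr_apply]
      exact hφ γ

end
end PS
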