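import Pool.Agent.H96.PS.ADefs

/-!
Project PS (MP_b05a29_gt), row A20: auxiliary lemmas for the smooth cube inequality (locality and
smoothness of the scalar curvature, the norm of covectors, pointwise estimate of the potential).
-/

set_option autoImplicit false

open scoped ContDiff Matrix
open MeasureTheory Set

namespace PS
noncomputable section
variable {N : ℕ}

/-! ### locality -/

theorem cx_pd_congr {F : Type*} [NormedAddCommGroup F] [NormedSpace ℝ F] {f g : E N → F} {x : E N}
    (h : f =ᶠ[nhds x] g) (i : Fin N) : pd i f x = pd i g x := by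
  unfold pd
  rw [h.fderiv_eq]

theorem cx_chr_congr {G H : E N → Matrix (Fin N) (Fin N) ℝ} {x : E N} (h : G =ᶠ[nhds x] H)
    (i j k : Fin N) : chr G x i j k = chr H x i j k := by
  have h1 : ∀ a b : Fin N, (fun y => G y a b) =ᶠ[nhds x] fun y => H y a b := fun a b =>
    h.mono fun y hy => by
      show G y a b = H y a b
      rw [hy]
  have h2 : ∀ a b c : Fin N, pd c (fun y => G y a b) x = pd c (fun y => H y a b) x :=
    fun a b c => cx_pd_congr (h1 a b) c
  unfold chr
  rw [h.eq_of_nhds]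
  simp only [h2]

theorem cx_curv_congr {G H : E N → Matrix (Fin N) (Fin N) ℝ} {x : E N} (h : G =ᶠ[nhds x] H)
    (i j l k : Fin N) : curv G x i j l k = curv H x i j l k := by
  have h1 : ∀ a b c : Fin N, (fun y => chr G y a b c) =ᶠ[nhds x] fun y => chr H y a b c :=
    fun a b c => h.eventuallyEq_nhds.mono fun y hy => cx_chr_congr hy a b c
  have h2 : ∀ a b c d : Fin N, pd d (fun y => chr G y a b c) x = pd d (fun y => chr H y a b c) x :=
    fun a b c d => cx_pd_congr (h1 a b c) d
  have h3 : ∀ a b c : Fin N, chr G x a b c = chr H x a b c := fun a b c => cx_chr_congr h a b c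
  unfold curv
  simp only [h2, h3]

theorem cx_scal_congr {G H : E N → Matrix (Fin N) (Fin N) ℝ} {x : E N} (h : G =ᶠ[nhds x] H) :
    scal G x = scal H x := by
  have h3 : ∀ a b c d : Fin N, curv G x a b c d = curv H x a b c d :=
    fun a b c d => cx_curv_congr h a b c d
  unfold scal
  rw [h.eq_of_nhds]
  simp only [h3]

theorem cx_scal_one (x : E N) : scal (fun _ : E N => (1 : Matrix (Fin N) (Fin N) ℝ)) x = 0 := by
  have h1 : ∀ (y : E N) (i j k : Fin N), chr (fun _ : E N => (1 : Matrix (Fin N) (Fin N) ℝ)) y i j k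
      = 0 := by
    intro y i j k
    unfold chr
    have : ∀ a b c : Fin N, pd a (fun _ : E N => (1 : Matrix (Fin N) (Fin N) ℝ) b c) y = 0 := by
      intro a b c
      unfold pd
      simp
    simp [this]
  have h2 : ∀ (a b c d : Fin N), curv (fun _ : E N => (1 : Matrix (Fin N) (Fin N) ℝ)) x a b c d
      = 0 := by
    intro a b c d
    unfold curv
    have : ∀ a b c d : Fin N,
        pd a (fun y => chr (fun _ : E N => (1 : Matrix (Fin N) (Fin N) ℝ)) y b c d) x = 0 := by
      intro a b c d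
      have h : (fun y => chr (fun _ : E N => (1 : Matrix (Fin N) (Fin N) ℝ)) y b c d)
          = fun _ => 0 := funext fun y => h1 y b c d
      rw [h]
      unfold pd
      simp
    rw [this, this]
    simp [h1]
  unfold scal
  simp [h2]

/-! ### smoothness -/

theorem cx_sm_det {A : E N → Matrix (Fin N) (Fin N) ℝ}
    (h : ∀ i j, ContDiff ℝ ∞ (fun x => A x i j)) : ContDiff ℝ ∞ (fun x => (A x).det) := by
  have h1 : (fun x => (A x).det) = fun x => ∑ σ : Equiv.Perm (Fin N),
      ((Equiv.Perm.sign σ : ℤ) : ℝ) * ∏ i, A x (σ i) i := by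
    funext x
    rw [Matrix.det_apply']
  rw [h1]
  exact ContDiff.sum fun σ _ => contDiff_const.mul (contDiff_prod fun i _ => h (σ i) i)

theorem cx_sm_inv {G : E N → Matrix (Fin N) (Fin N) ℝ} (hG : IsMetricOn G univ) (i j : Fin N) :
    ContDiff ℝ ∞ (fun x => (G x)⁻¹ i j) := by
  have h0 : ∀ a b, ContDiff ℝ ∞ fun x => G x a b := fun a b => contDiffOn_univ.1 (hG.smooth a b)
  have h1 : (fun x => (G x)⁻¹ i j) = fun x => ((G x).det)⁻¹ * (G x).adjugate i j := by
    funext x
    rw [Matrix.inv_def, Ring.inverse_eq_inv']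
    rfl
  have h2 : ContDiff ℝ ∞ (fun x => (G x).adjugate i j) := by
    have h3 : (fun x => (G x).adjugate i j)
        = fun x => ((G x).updateRow j (Pi.single i 1)).det := by
      funext x
      rw [Matrix.adjugate_apply]
    rw [h3]
    refine cx_sm_det fun a b => ?_
    by_cases ha : a = j
    · subst ha
      simp only [Matrix.updateRow_self]
      exact contDiff_const
    · simp only [Matrix.updateRow_ne ha]
      exact h0 a b
  rw [h1]
  exact ((cx_sm_det h0).inv fun x => (hG.posDef x (mem_univ x)).det_pos.ne').mul h2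

theorem cx_sm_pd {F : Type*} [NormedAddCommGroup F] [NormedSpace ℝ F] {f : E N → F}
    (hf : ContDiff ℝ ∞ f) (i : Fin N) : ContDiff ℝ ∞ (fun x => pd i f x) := by
  unfold pd
  exact (hf.fderiv_right (m := ∞) (by simp)).clm_apply contDiff_const

theorem cx_sm_chr {G : E N → Matrix (Fin N) (Fin N) ℝ} (hG : IsMetricOn G univ) (i j k : Fin N) :
    ContDiff ℝ ∞ (fun x => chr G x i j k) := by
  have h0 : ∀ a b, ContDiff ℝ ∞ fun x => G x a b := fun a b => contDiffOn_univ.1 (hG.smooth a b)
  unfold chr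
  refine contDiff_const.mul (ContDiff.sum fun l _ => (cx_sm_inv hG k l).mul ?_)
  exact ((cx_sm_pd (h0 j l) i).add (cx_sm_pd (h0 i l) j)).sub (cx_sm_pd (h0 i j) l)

theorem cx_sm_scal {G : E N → Matrix (Fin N) (Fin N) ℝ} (hG : IsMetricOn G univ) :
    ContDiff ℝ ∞ (fun x => scal G x) := by
  unfold scal
  refine ContDiff.sum fun j _ => ContDiff.sum fun k _ =>
    (cx_sm_inv hG j k).mul (ContDiff.sum fun i _ => ?_)
  unfold curv
  refine ((cx_sm_pd (cx_sm_chr hG j k i) i).sub (cx_sm_pd (cx_sm_chr hG i k i) j)).add ?_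
  exact ContDiff.sum fun m _ =>
    ((cx_sm_chr hG i m i).mul (cx_sm_chr hG j k m)).sub
      ((cx_sm_chr hG j m i).mul (cx_sm_chr hG i k m))

theorem cx_ct_grad {G : E N → Matrix (Fin N) (Fin N) ℝ} (hG : IsMetricOn G univ) {f : E N → ℝ}
    (hf : ContDiff ℝ ∞ f) : Continuous (fun x => gradSq G f x) := by
  unfold gradSq
  exact continuous_finsetSum _ fun k _ => continuous_finsetSum _ fun l _ =>
    (cx_sm_inv hG k l).continuous.mul
      ((cx_sm_pd hf k).continuous.mul (cx_sm_pd hf l).continuous)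

/-! ### the norm of covectors -/

/-- norm of a covector for the matrix `M` -/
def cx_n (M : Matrix (Fin N) (Fin N) ℝ) (a : Fin N → ℝ) : ℝ :=
  Real.sqrt (∑ k, ∑ l, M k l * (a k * a l))

open scoped MatrixOrder in
theorem cx_n_eq {M : Matrix (Fin N) (Fin N) ℝ} (hM : M.PosSemidef) :
    ∃ B : Matrix (Fin N) (Fin N) ℝ, ∀ a : Fin N → ℝ,
      cx_n M a = ‖(WithLp.toLp 2 (B.mulVec a) : E N)‖ := by
  obtain ⟨B, hB⟩ := CStarAlgebra.nonneg_iff_eq_star_mul_self.mp hM.nonneg
  refine ⟨B, fun a => ?_⟩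
  unfold cx_n
  rw [EuclideanSpace.norm_eq]
  congr 1
  have h1 : ∀ k l, M k l = ∑ m, B m k * B m l := by
    intro k l
    rw [hB, Matrix.mul_apply]
    rfl
  have h2 : ∀ m : Fin N, ‖(WithLp.toLp 2 (B.mulVec a) : E N) m‖ ^ 2
      = ∑ k, ∑ l, B m k * B m l * (a k * a l) := by
    intro m
    rw [Real.norm_eq_abs, sq_abs]
    show (B.mulVec a m) ^ 2 = _
    simp only [Matrix.mulVec, dotProduct]
    rw [sq, Finset.sum_mul_sum]
    refine Finset.sum_congr rfl fun k _ => Finset.sum_congr rfl fun l _ => ?_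
    ring
  rw [Finset.sum_congr rfl fun m _ => h2 m]
  have h3 : ∑ m, ∑ k, ∑ l, B m k * B m l * (a k * a l)
      = ∑ k, ∑ m, ∑ l, B m k * B m l * (a k * a l) := Finset.sum_comm
  rw [h3]
  refine Finset.sum_congr rfl fun k _ => ?_
  have h4 : ∑ m, ∑ l, B m k * B m l * (a k * a l)
      = ∑ l, ∑ m, B m k * B m l * (a k * a l) := Finset.sum_comm
  rw [h4]
  refine Finset.sum_congr rfl fun l _ => ?_
  rw [h1, Finset.sum_mul]

theorem cx_n_nonneg (M : Matrix (Fin N) (Fin N) ℝ) (a : Fin N → ℝ) : 0 ≤ cx_n M a :=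
  Real.sqrt_nonneg _

theorem cx_n_add {M : Matrix (Fin N) (Fin N) ℝ} (hM : M.PosSemidef) (a b : Fin N → ℝ) :
    cx_n M (a + b) ≤ cx_n M a + cx_n M b := by
  obtain ⟨B, hB⟩ := cx_n_eq hM
  rw [hB, hB, hB, Matrix.mulVec_add, WithLp.toLp_add]
  exact norm_add_le _ _

theorem cx_n_smul {M : Matrix (Fin N) (Fin N) ℝ} (hM : M.PosSemidef) (t : ℝ) (a : Fin N → ℝ) :
    cx_n M (t • a) = |t| * cx_n M a := by
  obtain ⟨B, hB⟩ := cx_n_eq hM
  rw [hB, hB, Matrix.mulVec_smul, WithLp.toLp_smul, norm_smul, Real.norm_eq_abs]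

theorem cx_n_sum {M : Matrix (Fin N) (Fin N) ℝ} (hM : M.PosSemidef) {ι : Type*} (s : Finset ι)
    (a : ι → Fin N → ℝ) : cx_n M (∑ i ∈ s, a i) ≤ ∑ i ∈ s, cx_n M (a i) := by
  obtain ⟨B, hB⟩ := cx_n_eq hM
  simp only [hB]
  rw [Matrix.mulVec_sum, WithLp.toLp_sum]
  exact norm_sum_le _ _

/-! ### smooth transition -/

theorem cx_tr_zero {t : ℝ} (h : t ≤ 0) : deriv Real.smoothTransition t = 0 := by
  have h1 : IsLocalMin Real.smoothTransition t := by
    refine Filter.Eventually.of_forall fun s => ?_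
    rw [Real.smoothTransition.zero_of_nonpos h]
    exact Real.smoothTransition.nonneg s
  exact h1.deriv_eq_zero

theorem cx_tr_one {t : ℝ} (h : 1 ≤ t) : deriv Real.smoothTransition t = 0 := by
  have h1 : IsLocalMax Real.smoothTransition t := by
    refine Filter.Eventually.of_forall fun s => ?_
    rw [Real.smoothTransition.one_of_one_le h]
    exact Real.smoothTransition.le_one s
  exact h1.deriv_eq_zero

theorem cx_tr_bdd : ∃ K : ℝ, 0 < K ∧ ∀ t, |deriv Real.smoothTransition t| ≤ K := by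
  have hc : Continuous (deriv Real.smoothTransition) := by
    have h : ContDiff ℝ 1 Real.smoothTransition := Real.smoothTransition.contDiff
    exact h.continuous_deriv le_rfl
  obtain ⟨C, hC⟩ := (isCompact_Icc (a := (0 : ℝ)) (b := 1)).exists_bound_of_continuousOn
    hc.continuousOn
  refine ⟨max C 1, lt_of_lt_of_le one_pos (le_max_right _ _), fun t => ?_⟩
  rcases le_or_gt t 0 with h0 | h0
  · rw [cx_tr_zero h0, abs_zero]
    exact (zero_le_one).trans (le_max_right _ _)
  rcases le_or_gt 1 t with h1 | h1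
  · rw [cx_tr_one h1, abs_zero]
    exact (zero_le_one).trans (le_max_right _ _)
  · exact (hC t ⟨h0.le, h1.le⟩).trans (le_max_left _ _)

/-! ### the pointwise estimate in the box -/

theorem cx_inside (hN : 0 < N) {c b ρ K L : ℝ} (hc : 0 < c) (hb : b * (8 * N) = c)
    (hK : ∀ t, |deriv Real.smoothTransition t| ≤ K) (hρ : 0 < ρ) (h1 : 32 * K * N ^ 2 ≤ b * ρ ^ 2)
    (h2 : 8 * N ≤ b * ρ ^ 2) (hL : 1 ≤ L) {M : Matrix (Fin N) (Fin N) ℝ} (hM : M.PosSemidef)
    (f : Fin N → ℝ) (a : Fin N → Fin N → ℝ) (ha : ∀ j, cx_n M (a j) ≤ 1)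
    {s h : ℝ} (hs : s = 4 * (∑ i, f i ^ 2) / ρ ^ 2 - 1)
    (hh : h = 1 - (1 - 1 / L) * Real.smoothTransition s) {d : Fin N → ℝ}
    (hd : d = (-(1 - 1 / L) * deriv Real.smoothTransition s * (8 / ρ ^ 2)) • ∑ i, f i • a i)
    {S : ℝ} (hS : c ≤ S) :
    c / 8 ≤ S / 4 + ∑ j, (b * f j / h) ^ 2
      - ∑ j, cx_n M ((b / h) • a j + (-(b * f j / h ^ 2)) • d) := by
  have hNr : (0 : ℝ) < N := Nat.cast_pos.2 hN
  have hN1 : (1 : ℝ) ≤ N := Nat.one_le_cast.2 hN
  have hbpos : 0 < b := by
    have : 0 < b * (8 * N) := by rw [hb]; exact hc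
    exact pos_of_mul_pos_left this (by positivity)
  have hLpos : 0 < L := by linarith
  have he0 : 0 ≤ 1 - 1 / L := by
    have : 1 / L ≤ 1 := by rw [div_le_one hLpos]; exact hL
    linarith
  have he1 : 1 - 1 / L < 1 := by
    have : 0 < 1 / L := by positivity
    linarith
  set e : ℝ := 1 - 1 / L with he
  set σ : ℝ := Real.smoothTransition s with hσ
  have hσ0 : 0 ≤ σ := Real.smoothTransition.nonneg s
  have hσ1 : σ ≤ 1 := Real.smoothTransition.le_one s
  have hhpos : 0 < h := by rw [hh]; nlinarith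
  have hh1 : h ≤ 1 := by rw [hh]; nlinarith
  set q : ℝ := ∑ i, f i ^ 2 with hq
  have hfq : ∀ i, f i ^ 2 ≤ q := fun i =>
    Finset.single_le_sum (f := fun i => f i ^ 2) (fun i _ => sq_nonneg _) (Finset.mem_univ i)
  have hq0 : 0 ≤ q := Finset.sum_nonneg fun i _ => sq_nonneg _
  set D : ℝ := e * |deriv Real.smoothTransition s| * (8 / ρ ^ 2) * ∑ i, |f i| with hD
  have hsum0 : 0 ≤ ∑ i, |f i| := Finset.sum_nonneg fun i _ => abs_nonneg _
  have hD0 : 0 ≤ D := by positivity
  have hnd : cx_n M d ≤ D := by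
    rw [hd, cx_n_smul hM, hD]
    have h3 : |-e * deriv Real.smoothTransition s * (8 / ρ ^ 2)|
        = e * |deriv Real.smoothTransition s| * (8 / ρ ^ 2) := by
      rw [abs_mul, abs_mul, abs_neg, abs_of_nonneg he0,
        abs_of_nonneg (show (0 : ℝ) ≤ 8 / ρ ^ 2 by positivity)]
    rw [h3]
    refine mul_le_mul_of_nonneg_left ?_ (by positivity)
    refine (cx_n_sum hM _ _).trans (Finset.sum_le_sum fun i _ => ?_)
    rw [cx_n_smul hM]
    calc |f i| * cx_n M (a i) ≤ |f i| * 1 := mul_le_mul_of_nonneg_left (ha i) (abs_nonneg _)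
      _ = |f i| := mul_one _
  have hterm : ∀ j, cx_n M ((b / h) • a j + (-(b * f j / h ^ 2)) • d)
      ≤ b / h + b * |f j| * D / h ^ 2 := by
    intro j
    refine (cx_n_add hM _ _).trans (add_le_add ?_ ?_)
    · rw [cx_n_smul hM, abs_of_nonneg (by positivity)]
      calc b / h * cx_n M (a j) ≤ b / h * 1 := mul_le_mul_of_nonneg_left (ha j) (by positivity)
        _ = b / h := mul_one _
    · rw [cx_n_smul hM, abs_neg, abs_div, abs_mul, abs_of_pos hbpos,
        abs_of_nonneg (sq_nonneg h)]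
      calc b * |f j| / h ^ 2 * cx_n M d ≤ b * |f j| / h ^ 2 * D :=
            mul_le_mul_of_nonneg_left hnd (by positivity)
        _ = b * |f j| * D / h ^ 2 := by ring
  have hsumle : ∑ j, cx_n M ((b / h) • a j + (-(b * f j / h ^ 2)) • d)
      ≤ N * (b / h) + b * D * (∑ j, |f j|) / h ^ 2 := by
    refine (Finset.sum_le_sum fun j _ => hterm j).trans (le_of_eq ?_)
    rw [Finset.sum_add_distrib, Finset.sum_const, Finset.card_univ, Fintype.card_fin,
      nsmul_eq_mul]
    congr 1
    rw [Finset.mul_sum, Finset.sum_div]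
    refine Finset.sum_congr rfl fun j _ => ?_
    ring
  have hsq : ∑ j, (b * f j / h) ^ 2 = b ^ 2 * q / h ^ 2 := by
    rw [hq, Finset.mul_sum, Finset.sum_div]
    refine Finset.sum_congr rfl fun j _ => ?_
    rw [div_pow, mul_pow]
  rw [hsq]
  have hNb : N * b = c / 8 := by linarith
  rcases le_or_gt s 0 with hs0 | hs0
  · -- small values
    have hσz : σ = 0 := Real.smoothTransition.zero_of_nonpos hs0
    have hh' : h = 1 := by rw [hh, hσz]; ring
    have hD' : D = 0 := by rw [hD, cx_tr_zero hs0]; simp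
    rw [hh', hD'] at hsumle
    rw [hh']
    have h3 : 0 ≤ b ^ 2 * q / 1 ^ 2 := by positivity
    have h4 : N * (b / 1) + b * 0 * (∑ j, |f j|) / 1 ^ 2 = c / 8 := by
      rw [← hNb]; ring
    rw [h4] at hsumle
    rw [hh'] at *
    linarith
  · -- large values
    have hq4 : ρ ^ 2 / 4 ≤ q := by
      rw [hs] at hs0
      have h3 : 1 < 4 * q / ρ ^ 2 := by linarith
      rw [lt_div_iff₀ (by positivity)] at h3
      linarith
    set m : ℝ := Real.sqrt q with hm
    have hm2 : m ^ 2 = q := Real.sq_sqrt hq0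
    have hm0 : 0 ≤ m := Real.sqrt_nonneg q
    have hρm : ρ ≤ 2 * m := by
      have : ρ ^ 2 ≤ (2 * m) ^ 2 := by rw [mul_pow, hm2]; linarith
      exact le_of_sq_le_sq this (by positivity)
    have hfm : ∀ j, |f j| ≤ m := fun j => Real.abs_le_sqrt (hfq j)
    have hsm : ∑ j, |f j| ≤ N * m := by
      refine (Finset.sum_le_sum fun j _ => hfm j).trans (le_of_eq ?_)
      rw [Finset.sum_const, Finset.card_univ, Fintype.card_fin, nsmul_eq_mul]
    have hDle : D * (4 * N) ≤ b * ρ := by
      rcases le_or_gt 1 s with hs1 | hs1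
      · have hD' : D = 0 := by rw [hD, cx_tr_one hs1]; simp
        rw [hD', zero_mul]
        positivity
      · have hq2 : q ≤ ρ ^ 2 := by
          rw [hs] at hs1
          have h3 : 4 * q / ρ ^ 2 < 2 := by linarith
          rw [div_lt_iff₀ (by positivity)] at h3
          have : 0 < ρ ^ 2 := by positivity
          linarith
        have hmρ : m ≤ ρ := by
          rw [hm]
          exact Real.sqrt_le_iff.2 ⟨hρ.le, hq2⟩
        have hKpos : 0 ≤ K := (abs_nonneg _).trans (hK 0)
        have h3 : D ≤ 1 * K * (8 / ρ ^ 2) * (N * ρ) := by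
          rw [hD]
          refine mul_le_mul ?_ (hsm.trans (mul_le_mul_of_nonneg_left hmρ hNr.le)) hsum0
            (by positivity)
          refine mul_le_mul_of_nonneg_right ?_ (by positivity)
          exact mul_le_mul he1.le (hK s) (abs_nonneg _) zero_le_one
        have h4 : 1 * K * (8 / ρ ^ 2) * (N * ρ) * (4 * N) = 32 * K * N ^ 2 / ρ := by
          field_simp
          ring
        calc D * (4 * N) ≤ 1 * K * (8 / ρ ^ 2) * (N * ρ) * (4 * N) :=
              mul_le_mul_of_nonneg_right h3 (by positivity)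
          _ = 32 * K * N ^ 2 / ρ := h4
          _ ≤ b * ρ := by
              rw [div_le_iff₀ hρ]
              calc 32 * K * N ^ 2 ≤ b * ρ ^ 2 := h1
                _ = b * ρ * ρ := by ring
    have hh2 : 0 < h ^ 2 := by positivity
    -- first term
    have t1 : N * (b / h) ≤ b ^ 2 * q / 2 / h ^ 2 := by
      rw [le_div_iff₀ hh2]
      have h3 : N * (b / h) * h ^ 2 = N * b * h := by
        field_simp
      rw [h3]
      have h4 : (N : ℝ) * b * h ≤ N * b := by
        have : 0 ≤ (N : ℝ) * b := by positivity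
        nlinarith
      have h5 : b * (ρ ^ 2 / 4) ≤ b * q := mul_le_mul_of_nonneg_left hq4 hbpos.le
      have h6 : (2 : ℝ) * N ≤ b * q := by linarith
      have h7 : b * (2 * N) ≤ b * (b * q) := mul_le_mul_of_nonneg_left h6 hbpos.le
      nlinarith
    have t2 : b * D * (∑ j, |f j|) / h ^ 2 ≤ b ^ 2 * q / 2 / h ^ 2 := by
      refine div_le_div_of_nonneg_right ?_ hh2.le
      calc b * D * (∑ j, |f j|) ≤ b * D * (N * m) :=
            mul_le_mul_of_nonneg_left hsm (by positivity)
        _ = b * (D * (4 * N)) * m / 4 := by ring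
        _ ≤ b * (b * ρ) * m / 4 := by
            refine div_le_div_of_nonneg_right ?_ (by norm_num)
            refine mul_le_mul_of_nonneg_right ?_ hm0
            exact mul_le_mul_of_nonneg_left hDle hbpos.le
        _ ≤ b * (b * (2 * m)) * m / 4 := by
            refine div_le_div_of_nonneg_right ?_ (by norm_num)
            refine mul_le_mul_of_nonneg_right ?_ hm0
            refine mul_le_mul_of_nonneg_left ?_ hbpos.le
            exact mul_le_mul_of_nonneg_left hρm hbpos.le
        _ = b ^ 2 * q / 2 := by rw [← hm2]; ring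
    have t3 : b ^ 2 * q / h ^ 2 = b ^ 2 * q / 2 / h ^ 2 + b ^ 2 * q / 2 / h ^ 2 := by ring
    rw [t3]
    linarith

end
end PS
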