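import Pool.Agent.H96.PS.BDefs
import Pool.Agent.DC.D.Displ

/-!
Project PS / DC (MP_b05a29_gt), row C1 (helper6): displacement of an element of `SL(2, ℝ)`.
-/

open scoped ENNReal UpperHalfPlane ContDiff Matrix
open MeasureTheory Set
open Pool.Agent.DC (dispA cosh_dispA dispA_nonneg ad_eq_of_fixed smul_eq_of_ad
  exists_fixed_of_trace no_fixed_of_trace)

namespace PS
noncomputable section

theorem cosh_tl (A : SL2R) (h : 2 ≤ |tr A|) : Real.cosh (Pool.Agent.DC.tl A / 2) = |tr A| / 2 := by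
  rw [Pool.Agent.DC.tl, mul_div_cancel_left₀ _ (two_ne_zero), Real.cosh_arcosh]
  · rfl
  · show 1 ≤ |tr A| / 2
    linarith

theorem tl_nonneg' (A : SL2R) (h : 2 ≤ |tr A|) : 0 ≤ Pool.Agent.DC.tl A := by
  rw [Pool.Agent.DC.tl]
  have : 1 ≤ |tr A| / 2 := by linarith
  have := Real.arcosh_nonneg this
  show 0 ≤ 2 * Real.arcosh (|tr A| / 2)
  linarith

theorem displ_eq_dispA (T : ℍ ≃ᵢ ℍ) (A : SL2R) (hT : ∀ z : ℍ, T z = A • z) :
    displ T = dispA A := by
  unfold displ dispA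
  exact iInf_congr fun z => by rw [hT]

theorem displ_eq (T : ℍ ≃ᵢ ℍ) (A : SL2R) (hT : ∀ z : ℍ, T z = A • z) (h : 2 ≤ |tr A|) :
    displ T = Pool.Agent.DC.tl A := by
  rw [displ_eq_dispA T A hT]
  have h1 := cosh_dispA A
  have h2 := cosh_tl A h
  have h3 : max 1 (|(A : Matrix (Fin 2) (Fin 2) ℝ).trace| / 2) = |tr A| / 2 := by
    rw [max_eq_right]
    · rfl
    · show 1 ≤ |tr A| / 2
      linarith
  rw [h3, ← h2] at h1
  have h4 := dispA_nonneg A
  have h5 := tl_nonneg' A h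
  have h6 := Real.cosh_le_cosh.1 h1.le
  have h7 := Real.cosh_le_cosh.1 h1.ge
  rw [abs_of_nonneg (by linarith), abs_of_nonneg (by linarith)] at h6 h7
  linarith

theorem exists_fixed (A : SL2R) (h : |tr A| < 2) : ∃ z : ℍ, A • z = z := by
  apply exists_fixed_of_trace
  show tr A ^ 2 < 4
  rw [← sq_abs]
  have := abs_nonneg (tr A)
  nlinarith

theorem no_fixed (A : SL2R) (h : 2 < |tr A|) (z : ℍ) : A • z ≠ z := by
  apply no_fixed_of_trace
  show 4 < tr A ^ 2
  rw [← sq_abs]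
  nlinarith

theorem fixed_all (A : SL2R) (h : |tr A| = 2) (z : ℍ) (hz : A • z = z) (w : ℍ) : A • w = w := by
  apply smul_eq_of_ad
  apply ad_eq_of_fixed hz
  show 4 ≤ tr A ^ 2
  rw [← sq_abs, h]
  norm_num

end
end PS
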