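import Pool.Agent.H96.PS.ADefs

/-! Helper lemmas for `FlatDense.lean` (project PS): mollification and cut-off on `ℝ^N`. -/

open scoped ContDiff Matrix Convolution Topology
open MeasureTheory Set Filter

namespace PS
noncomputable section
variable {N : ℕ}

namespace FD

/-- mollified function -/
def mo (η : E N → ℝ) (v : E N → Lam N) : E N → Lam N :=
  η ⋆[ContinuousLinearMap.lsmul ℝ ℝ, (volume : Measure (E N))] v

theorem mo_apply (η : E N → ℝ) (v : E N → Lam N) (x : E N) :
    mo η v x = ∫ t, η t • v (x - t) := rfl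

/-- integrability of the convolution integrand -/
theorem int_smul {F : Type*} [NormedAddCommGroup F] [NormedSpace ℝ F] {θ : E N → ℝ}
    (hc : Continuous θ) (hs : HasCompactSupport θ) {v : E N → F}
    (hv : LocallyIntegrable v (volume : Measure (E N))) (x : E N) :
    Integrable (fun t => θ t • v (x - t)) (volume : Measure (E N)) :=
  (hs.convolutionExists_left (ContinuousLinearMap.lsmul ℝ ℝ) hc hv x)

theorem mo_contDiff {η : E N → ℝ} (h : ContDiff ℝ ∞ η) (hs : HasCompactSupport η) {v : E N → Lam N}
    (hv : LocallyIntegrable v (volume : Measure (E N))) : ContDiff ℝ ∞ (mo η v) :=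
  hs.contDiff_convolution_left _ h hv

theorem mo_pd {η : E N → ℝ} (h : ContDiff ℝ ∞ η) (hs : HasCompactSupport η) {v : E N → Lam N}
    (hv : LocallyIntegrable v (volume : Measure (E N))) (i : Fin N) (x : E N) :
    pd i (mo η v) x = ∫ t, pd i η t • v (x - t) := by
  have h1 := (hs.hasFDerivAt_convolution_left (ContinuousLinearMap.lsmul ℝ ℝ : ℝ →L[ℝ] Lam N →L[ℝ] Lam N)
    (h.of_le (by exact_mod_cast le_top)) hv x)
  have h2 : pd i (mo η v) x = (((fderiv ℝ η) ⋆[(ContinuousLinearMap.lsmul ℝ ℝ :
      ℝ →L[ℝ] Lam N →L[ℝ] Lam N).precompL (E N), (volume : Measure (E N))] v) x) (ev i) := by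
    unfold pd mo
    rw [h1.fderiv]
  rw [h2, convolution_def]
  have hint : Integrable (fun t => ((ContinuousLinearMap.lsmul ℝ ℝ :
      ℝ →L[ℝ] Lam N →L[ℝ] Lam N).precompL (E N)) (fderiv ℝ η t) (v (x - t))) := by
    refine (hs.fderiv ℝ).convolutionExists_left _ ?_ hv x
    exact h.continuous_fderiv (by simp)
  rw [ContinuousLinearMap.integral_apply hint]
  rfl

theorem pd_continuous {η : E N → ℝ} (h : ContDiff ℝ ∞ η) (i : Fin N) : Continuous (pd i η) := by
  unfold pd
  exact (h.continuous_fderiv (by simp)).clm_apply continuous_const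

theorem pd_hasCompactSupport {η : E N → ℝ} (hs : HasCompactSupport η) (i : Fin N) :
    HasCompactSupport (pd i η) := by
  have := hs.fderiv ℝ
  exact this.comp_left (g := fun L : E N →L[ℝ] ℝ => L (ev i)) (by simp)

end FD
end
end PS
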