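import Pool.Agent.H96.PS.FlatDense_x
import Pool.Agent.H96.PS.Cliff

/-! Helper lemmas for `FlatDense.lean` (project PS): the flat model on a mollified function. -/

open scoped ContDiff Matrix Convolution Topology
open MeasureTheory Set Filter

namespace PS
noncomputable section
variable {N : ℕ}

namespace FD

/-- the shifted bump times a constant vector is a test function -/
theorem shift_test {η : E N → ℝ} (h : ContDiff ℝ ∞ η) (hs : HasCompactSupport η) (x : E N)
    (e : Lam N) : Test (fun y => η (x - y) • e) := by
  refine ⟨(h.comp (contDiff_const.sub contDiff_id)).smul contDiff_const, ?_⟩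
  have h1 : HasCompactSupport (fun y => η (x - y)) :=
    hs.comp_homeomorph (Homeomorph.subLeft x)
  exact h1.smul_right

theorem shift_pd {η : E N → ℝ} (h : ContDiff ℝ ∞ η) (x : E N) (e : Lam N) (i : Fin N) (y : E N) :
    pd i (fun y => η (x - y) • e) y = -(pd i η (x - y) • e) := by
  unfold pd
  have h1 : HasFDerivAt (fun y => η (x - y)) ((fderiv ℝ η (x - y)).comp
      (-(ContinuousLinearMap.id ℝ (E N)))) y := by
    have ha : HasFDerivAt η (fderiv ℝ η (x - y)) (x - y) :=
      (h.differentiable (by simp) (x - y)).hasFDerivAt
    have hb : HasFDerivAt (fun y : E N => x - y) (-(ContinuousLinearMap.id ℝ (E N))) y :=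
      (hasFDerivAt_id y).const_sub x
    exact ha.comp y hb
  rw [(h1.smul_const e).fderiv]
  simp

/-- integrals of odd valued functions are odd -/
theorem odd_int {v : E N → Lam N} (hv : LocallyIntegrable v (volume : Measure (E N)))
    (ho : ∀ x, OddV (v x)) {θ : E N → ℝ} (hc : Continuous θ) (hs : HasCompactSupport θ) (x : E N) :
    OddV (∫ t, θ t • v (x - t)) := by
  intro I hI
  have h1 := (EuclideanSpace.proj I : Lam N →L[ℝ] ℝ).integral_comp_comm (int_smul hc hs hv x)
  have h2 : (∫ t, θ t • v (x - t)) I = (EuclideanSpace.proj I : Lam N →L[ℝ] ℝ)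
      (∫ t, θ t • v (x - t)) := rfl
  rw [h2, ← h1]
  have h3 : ∀ t, (EuclideanSpace.proj I : Lam N →L[ℝ] ℝ) (θ t • v (x - t)) = 0 := by
    intro t
    have : (EuclideanSpace.proj I : Lam N →L[ℝ] ℝ) (θ t • v (x - t)) = θ t * (v (x - t)) I := rfl
    rw [this, ho (x - t) I hI, mul_zero]
  simp [h3]

theorem coord_smul {η : E N → ℝ} (h : Continuous η) (hs : HasCompactSupport η) (i : Fin N) :
    Continuous (fun t : E N => t i * η t) ∧ HasCompactSupport (fun t : E N => t i * η t) :=
  ⟨by fun_prop, hs.mul_left⟩

/-- pointwise identity: the flat model applied to the mollified function -/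
theorem B0_mo {lam : ℝ} {v : E N → Lam N}
    (hv : LocallyIntegrable v (volume : Measure (E N))) (ho : ∀ x, OddV (v x))
    (hperp : ∀ u : E N → Lam N, Test u → (∀ x, EvenV (u x)) →
      ∫ x, inner ℝ (v x) (B0 lam u x) = 0)
    {η : E N → ℝ} (h : ContDiff ℝ ∞ η) (hs : HasCompactSupport η) (x : E N) :
    B0 lam (mo η v) x = lam • ∑ i, ep i (∫ t, (t i * η t) • v (x - t)) := by
  have i1 : ∀ i : Fin N, Integrable (fun t => pd i η t • v (x - t)) (volume : Measure (E N)) :=
    fun i => int_smul (pd_continuous h i) (pd_hasCompactSupport hs i) hv x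
  have i2 : Integrable (fun t => η t • v (x - t)) (volume : Measure (E N)) :=
    int_smul h.continuous hs hv x
  have i3 : ∀ i : Fin N, Integrable (fun t : E N => (t i * η t) • v (x - t))
      (volume : Measure (E N)) :=
    fun i => int_smul (coord_smul h.continuous hs i).1 (coord_smul h.continuous hs i).2 hv x
  set z : Lam N := B0 lam (mo η v) x - lam • ∑ i, ep i (∫ t, (t i * η t) • v (x - t)) with hz
  have hzZ : z = ∫ t, ((∑ i, cl i (pd i η t • v (x - t))) + lam • ∑ i, x i • ep i (η t • v (x - t))
      - lam • ∑ i, ep i ((t i * η t) • v (x - t))) := by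
    have a1 : Integrable (fun t => ∑ i, cl i (pd i η t • v (x - t))) (volume : Measure (E N)) :=
      integrable_finsetSum _ fun i _ => (cl i).integrable_comp (i1 i)
    have a2 : Integrable (fun t => ∑ i, x i • ep i (η t • v (x - t))) (volume : Measure (E N)) :=
      integrable_finsetSum _ fun i _ => ((ep i).integrable_comp i2).smul (x i)
    have a3 : Integrable (fun t : E N => ∑ i, ep i ((t i * η t) • v (x - t)))
        (volume : Measure (E N)) :=
      integrable_finsetSum _ fun i _ => (ep i).integrable_comp (i3 i)
    have a2' : Integrable (fun t => lam • ∑ i, x i • ep i (η t • v (x - t)))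
        (volume : Measure (E N)) := a2.smul lam
    have a3' : Integrable (fun t : E N => lam • ∑ i, ep i ((t i * η t) • v (x - t)))
        (volume : Measure (E N)) := a3.smul lam
    have a12 : Integrable (fun t => (∑ i, cl i (pd i η t • v (x - t)))
        + lam • ∑ i, x i • ep i (η t • v (x - t))) (volume : Measure (E N)) := a1.add a2'
    rw [integral_sub a12 a3', integral_add a1 a2', integral_smul, integral_smul,
      integral_finset_sum _ fun i _ => (cl i).integrable_comp (i1 i),
      integral_finset_sum _ (f := fun i t => x i • ep i (η t • v (x - t)))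
        fun i _ => ((ep i).integrable_comp i2).smul (x i),
      integral_finset_sum _ fun i _ => (ep i).integrable_comp (i3 i)]
    rw [hz]
    unfold B0
    congr 1
    · congr 1
      · refine Finset.sum_congr rfl fun i _ => ?_
        rw [mo_pd h hs hv i x, (cl i).integral_comp_comm (i1 i)]
      · congr 1
        refine Finset.sum_congr rfl fun i _ => ?_
        rw [integral_smul, (ep i).integral_comp_comm i2]
        rfl
    · congr 1
      refine Finset.sum_congr rfl fun i _ => ?_
      rw [(ep i).integral_comp_comm (i3 i)]
  have hev : EvenV z := by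
    intro I hI
    have e1 : ∀ i : Fin N, (cl i (pd i (mo η v) x)) I = 0 := by
      intro i
      rw [mo_pd h hs hv i x]
      exact (cl_odd i).2 _ (odd_int hv ho (pd_continuous h i) (pd_hasCompactSupport hs i) x) I hI
    have e2 : ∀ i : Fin N, (ep i (mo η v x)) I = 0 := by
      intro i
      rw [mo_apply]
      exact (ep_odd i).2 _ (odd_int hv ho h.continuous hs x) I hI
    have e3 : ∀ i : Fin N, (ep i (∫ t, (t i * η t) • v (x - t))) I = 0 := by
      intro i
      exact (ep_odd i).2 _ (odd_int hv ho (coord_smul h.continuous hs i).1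
        (coord_smul h.continuous hs i).2 x) I hI
    rw [hz]
    unfold B0
    simp [e1, e2, e3]
  have hint : Integrable (fun t => ((∑ i, cl i (pd i η t • v (x - t)))
      + lam • ∑ i, x i • ep i (η t • v (x - t))
      - lam • ∑ i, ep i ((t i * η t) • v (x - t)))) (volume : Measure (E N)) := by
    have a1 : Integrable (fun t => ∑ i, cl i (pd i η t • v (x - t))) (volume : Measure (E N)) :=
      integrable_finsetSum _ fun i _ => (cl i).integrable_comp (i1 i)
    have a2 : Integrable (fun t => ∑ i, x i • ep i (η t • v (x - t))) (volume : Measure (E N)) :=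
      integrable_finsetSum _ fun i _ => ((ep i).integrable_comp i2).smul (x i)
    have a3 : Integrable (fun t : E N => ∑ i, ep i ((t i * η t) • v (x - t)))
        (volume : Measure (E N)) :=
      integrable_finsetSum _ fun i _ => (ep i).integrable_comp (i3 i)
    exact (a1.add (a2.smul lam)).sub (a3.smul lam)
  have hkey : inner ℝ z z = 0 := by
    nth_rewrite 2 [hzZ]
    rw [← integral_inner hint z]
    have hp := hperp (fun y => η (x - y) • z) (shift_test h hs x z) (by
      intro y I hI
      have : (η (x - y) • z) I = η (x - y) * z I := rfl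
      rw [this, hev I hI, mul_zero])
    rw [← integral_sub_left_eq_self _ volume x] at hp
    rw [← hp]
    refine integral_congr_ae (Filter.Eventually.of_forall fun t => ?_)
    have hxt : x - (x - t) = t := by abel
    simp only [B0, shift_pd h, hxt, inner_sub_right, inner_add_right, inner_sum, inner_smul_right,
      map_smul, map_neg, inner_neg_right]
    have c1 : ∀ i : Fin N, inner ℝ z (cl i (v (x - t))) = - inner ℝ (v (x - t)) (cl i z) := by
      intro i
      rw [real_inner_comm, cl_adj]
    have c2 : ∀ i : Fin N, inner ℝ z (ep i (v (x - t))) = inner ℝ (v (x - t)) (ep i z) := by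
      intro i
      rw [real_inner_comm, ep_adj]
    simp only [c1, c2]
    have c3 : ∀ i : Fin N, (x - t) i = x i - t i := fun i => rfl
    simp only [c3]
    rw [add_sub_assoc, ← mul_sub, ← Finset.sum_sub_distrib]
    congr 1
    · refine Finset.sum_congr rfl fun i _ => by ring
    · congr 1
      refine Finset.sum_congr rfl fun i _ => by ring
  exact sub_eq_zero.mp (inner_self_eq_zero.mp hkey)

end FD
end
end PS
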