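import Pool.Agent.H96.PS.ADefs
import Pool.Agent.DC.QC
import Pool.Agent.DC.Std

/-!
# Teichmueller space of a punctured surface, its metrics, and the question MP_b05a29_gt

The surface `S` of genus `g` with `n` punctures enters through its fundamental group
`G = π₁(S)` (standard presentation: `Pool.Agent.DC.SGrp g n`) and the set `P` of its peripheral
elements (`IsPeripheral`, for the loops `Pool.Agent.DC.sc j` around the punctures).

* `HypStr P`: marked complete hyperbolic structures of finite area on `S`, i.e. free properly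
  discontinuous actions of `G` on the hyperbolic plane by orientation preserving isometries in
  which precisely the peripheral elements have infimal displacement `0`.
* `Teich P`: Teichmueller space, the quotient by conjugation with isometries.
* `autStar P`: automorphisms preserving the peripheral elements; by the theorem of Dehn, Nielsen
  and Baer, modulo inner automorphisms (which act trivially on Teichmueller space) this is the
  extended mapping class group of `S`.
* `teichDist`: the Teichmueller distance, by quasiconformal homeomorphisms of the plane compatible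
  with the markings.
* `IsSmoothChart`: a global coordinate system of Teichmueller space for its standard smooth
  structure (the one for which the length functions form a smooth embedding).
* A Riemannian metric on the quotient `T(S)/Λ` is a metric on `T(S)` which is `Invariant`;
  `qTeichDist`, `qRiemDist` are the distances of the quotient.
-/

open scoped ENNReal UpperHalfPlane ContDiff Matrix
open MeasureTheory Set

namespace PS

noncomputable section

/-- Infimal displacement (translation length) of an isometry of the hyperbolic plane. -/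
def displ (T : ℍ ≃ᵢ ℍ) : ℝ := ⨅ z : ℍ, dist z (T z)

theorem displ_conj (T U : ℍ ≃ᵢ ℍ) : displ (U * T * U⁻¹) = displ T := by
  unfold displ
  rw [← U.toEquiv.iInf_comp]
  refine iInf_congr fun z => ?_
  have h : (U * T * U⁻¹) (U z) = U (T z) := by
    show U (T (U⁻¹ (U z))) = U (T z)
    rw [show U⁻¹ (U z) = z from U.symm_apply_apply z]
  show dist (U z) ((U * T * U⁻¹) (U z)) = dist z (T z)
  rw [h, U.isometry.dist_eq]

variable {N : ℕ}

/-- Length of the curve `γ : [0, 1] → ℝ^N` for the Riemannian metric `h`. -/
def curveLen (h : EuclideanSpace ℝ (Fin N) → Matrix (Fin N) (Fin N) ℝ)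
    (γ : ℝ → EuclideanSpace ℝ (Fin N)) : ℝ≥0∞ :=
  ∫⁻ t in Icc (0 : ℝ) 1, ENNReal.ofReal (vnorm h (γ t) (derivWithin γ (Icc 0 1) t))

/-- `BrokenPath h p q L`: there is a piecewise `C¹` path of length `L` from `p` to `q`. -/
inductive BrokenPath (h : EuclideanSpace ℝ (Fin N) → Matrix (Fin N) (Fin N) ℝ) :
    EuclideanSpace ℝ (Fin N) → EuclideanSpace ℝ (Fin N) → ℝ≥0∞ → Prop
  | nil (p : EuclideanSpace ℝ (Fin N)) : BrokenPath h p p 0
  | cons (γ : ℝ → EuclideanSpace ℝ (Fin N)) (q : EuclideanSpace ℝ (Fin N)) (L : ℝ≥0∞) :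
      ContDiffOn ℝ 1 γ (Icc 0 1) →
      BrokenPath h (γ 1) q L → BrokenPath h (γ 0) q (curveLen h γ + L)

/-- Riemannian distance of the metric `h`. -/
def riemDist (h : EuclideanSpace ℝ (Fin N) → Matrix (Fin N) (Fin N) ℝ)
    (p q : EuclideanSpace ℝ (Fin N)) : ℝ≥0∞ :=
  ⨅ (L : ℝ≥0∞) (_ : BrokenPath h p q L), L

end

end PS

namespace PSC

noncomputable section

open PS (displ displ_conj riemDist vnorm scal IsMetricOn)
open Pool.Agent.DC (IsQC)

variable {G : Type} [Group G]

/-- Peripheral elements: `1` and the conjugates of the powers of the loops `c j` around the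
punctures. -/
def IsPeripheral {ι : Type} (c : ι → G) (γ : G) : Prop :=
  γ = 1 ∨ ∃ (j : ι) (k : ℤ) (w : G), γ = w * c j ^ k * w⁻¹

/-- The automorphisms of `G` which preserve the set `P` of the peripheral elements. -/
def autStar (P : G → Prop) : Subgroup (MulAut G) where
  carrier := {φ | ∀ γ, P (φ γ) ↔ P γ}
  one_mem' := fun _ => Iff.rfl
  mul_mem' := fun {a b} ha hb γ => by
    rw [MulAut.mul_apply]
    exact (ha (b γ)).trans (hb γ)
  inv_mem' := fun {a} ha γ => by
    have h := ha (a⁻¹ γ)
    rw [MulAut.apply_inv_self] at h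
    exact h.symm

/-! ## Teichmueller space -/

/-- A marked complete hyperbolic structure of finite area on the surface (given by its
holonomy). -/
structure HypStr (P : G → Prop) where
  /-- the holonomy -/
  hol : G →* (ℍ ≃ᵢ ℍ)
  /-- orientation preserving -/
  orient : ∀ γ, ∃ A : Matrix.SpecialLinearGroup (Fin 2) ℝ, ∀ z : ℍ, hol γ z = A • z
  /-- the action is free -/
  free : ∀ γ, γ ≠ 1 → ∀ z : ℍ, hol γ z ≠ z
  /-- the action is properly discontinuous -/
  proper : ∀ C : Set ℍ, IsCompact C → {γ | ((fun z => hol γ z) '' C ∩ C).Nonempty}.Finite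
  /-- exactly the peripheral elements have infimal displacement `0` -/
  type : ∀ γ, displ (hol γ) = 0 ↔ P γ

variable {P : G → Prop}

/-- Two marked hyperbolic structures are equivalent if their holonomies are conjugate by an
isometry of the hyperbolic plane. -/
def HypStr.setoid (P : G → Prop) : Setoid (HypStr P) where
  r := fun ρ σ => ∃ T : ℍ ≃ᵢ ℍ, ∀ γ, σ.hol γ = T * ρ.hol γ * T⁻¹
  iseqv :=
    { refl := fun ρ => ⟨1, fun γ => by simp⟩
      symm := fun {ρ σ} ⟨T, hT⟩ => ⟨T⁻¹, fun γ => by rw [hT]; group⟩
      trans := fun {ρ σ τ} ⟨T, hT⟩ ⟨U, hU⟩ => ⟨U * T, fun γ => by rw [hU, hT]; group⟩ }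

/-- Teichmueller space of the surface. -/
def Teich (P : G → Prop) : Type := Quotient (HypStr.setoid P)

/-- The point of Teichmueller space of a marked hyperbolic structure. -/
def HypStr.cls (ρ : HypStr P) : Teich P := Quotient.mk (HypStr.setoid P) ρ

/-- Change of marking by an automorphism of the fundamental group. -/
def HypStr.twist (φ : autStar P) (ρ : HypStr P) : HypStr P where
  hol := ρ.hol.comp (MulEquiv.toMonoidHom φ.1⁻¹)
  orient := fun γ => ρ.orient _
  free := fun γ hγ => ρ.free _ (fun h => hγ (by
    have := congrArg φ.1 h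
    simpa using this))
  proper := fun C hC => by
    have h := ρ.proper C hC
    refine (h.image φ.1).subset ?_
    intro γ hγ
    exact ⟨φ.1⁻¹ γ, hγ, by simp⟩
  type := fun γ => by
    have h1 := (autStar P).inv_mem φ.2 γ
    exact (ρ.type _).trans h1

/-- The action of the extended mapping class group on Teichmueller space. -/
def act (φ : autStar P) (X : Teich P) : Teich P :=
  Quotient.map' (s₁ := HypStr.setoid P) (s₂ := HypStr.setoid P) (HypStr.twist φ)
    (fun _ _ ⟨T, hT⟩ => ⟨T, fun _ => hT _⟩) X

/-- Length functions on Teichmueller space: the length of (the geodesic in the free homotopy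
class of) `γ`. -/
def len (X : Teich P) (γ : G) : ℝ :=
  Quotient.lift (s := HypStr.setoid P) (fun ρ : HypStr P => displ (ρ.hol γ))
    (fun ρ σ ⟨T, hT⟩ => by
      show displ (ρ.hol γ) = displ (σ.hol γ)
      rw [hT γ, displ_conj]) X

/-- The Teichmueller distance: `½ log K` for the smallest `K` such that there is a
`K`-quasiconformal homeomorphism of the plane compatible with the markings. -/
def teichDist (X Y : Teich P) : ℝ≥0∞ :=
  ⨅ (K : ℝ) (_ : 1 ≤ K ∧ ∃ (ρ σ : HypStr P) (f : ℍ ≃ₜ ℍ), ρ.cls = X ∧ σ.cls = Y ∧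
      IsQC K f ∧ ∀ γ z, f (ρ.hol γ z) = σ.hol γ (f z)),
    ENNReal.ofReal (Real.log K / 2)

/-! ## The smooth structure of Teichmueller space -/

variable {N : ℕ}

/-- `cosh (ℓ(γ) / 2)` (half the absolute value of the trace), in the coordinate system `Ψ`. -/
def trc (Ψ : Teich P ≃ EuclideanSpace ℝ (Fin N)) (γ : G) (p : EuclideanSpace ℝ (Fin N)) : ℝ :=
  Real.cosh (len (Ψ.symm p) γ / 2)

/-- `Ψ` is a global coordinate system of Teichmueller space with its standard smooth structure:
the functions `cosh (ℓ(γ) / 2)` are smooth, together they are a topological embedding, and they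
separate tangent vectors. -/
structure IsSmoothChart (Ψ : Teich P ≃ EuclideanSpace ℝ (Fin N)) : Prop where
  smooth : ∀ γ, ContDiff ℝ ∞ (trc Ψ γ)
  emb : Topology.IsEmbedding (fun (p : EuclideanSpace ℝ (Fin N)) (γ : G) => trc Ψ γ p)
  imm : ∀ p v, (∀ γ, fderiv ℝ (trc Ψ γ) p v = 0) → v = 0

/-- The action of the extended mapping class group, in the coordinates `Ψ`. -/
def actC (Ψ : Teich P ≃ EuclideanSpace ℝ (Fin N)) (φ : autStar P)
    (p : EuclideanSpace ℝ (Fin N)) : EuclideanSpace ℝ (Fin N) := Ψ (act φ (Ψ.symm p))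

/-! ## Riemannian metrics on finite covers of moduli space -/

/-- `h` (a metric on Teichmueller space in the coordinates `Ψ`) is invariant under `Λ`, i.e. it
is a Riemannian metric on the orbifold `T(S)/Λ`. -/
def Invariant (Ψ : Teich P ≃ EuclideanSpace ℝ (Fin N)) (Λ : Subgroup (autStar P))
    (h : EuclideanSpace ℝ (Fin N) → Matrix (Fin N) (Fin N) ℝ) : Prop :=
  ∀ φ ∈ Λ, ∀ p v, vnorm h (actC Ψ φ p) (fderiv ℝ (actC Ψ φ) p v) = vnorm h p v

/-- Distance of the quotient `T(S)/Λ` induced by the Teichmueller distance. -/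
def qTeichDist (Λ : Subgroup (autStar P)) (X Y : Teich P) : ℝ≥0∞ :=
  ⨅ φ : autStar P, ⨅ _ : φ ∈ Λ, teichDist X (act φ Y)

/-- Distance of the quotient `T(S)/Λ` induced by the Riemannian metric `h`. -/
def qRiemDist (Ψ : Teich P ≃ EuclideanSpace ℝ (Fin N)) (Λ : Subgroup (autStar P))
    (h : EuclideanSpace ℝ (Fin N) → Matrix (Fin N) (Fin N) ℝ) (X Y : Teich P) : ℝ≥0∞ :=
  ⨅ φ : autStar P, ⨅ _ : φ ∈ Λ, riemDist h (Ψ X) (actC Ψ φ (Ψ Y))

/-- `NoCoarseDomination P N`: for every subgroup `Λ` of finite index of `autStar P` (i.e. on every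
finite orbifold cover `T(S)/Λ` of moduli space, `N` the dimension of `T(S)`), no Riemannian metric
`h` on `T(S)/Λ` with scalar curvature bounded below by a constant `c > 0` satisfies
`d_T ≤ K d_h + K` on `T(S)/Λ` for a constant `K` (`d_T` the Teichmueller distance, `d_h` the
Riemannian distance of `h`). In particular no such `h` is in the quasi-isometry class of the
Teichmueller metric; `h` need not be complete, and its volume may be infinite. -/
def NoCoarseDomination (P : G → Prop) (N : ℕ) : Prop :=
  ∀ Λ : Subgroup (autStar P), Λ.FiniteIndex →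
  ∀ Ψ : Teich P ≃ EuclideanSpace ℝ (Fin N), IsSmoothChart Ψ →
  ∀ h : EuclideanSpace ℝ (Fin N) → Matrix (Fin N) (Fin N) ℝ, IsMetricOn h univ →
    Invariant Ψ Λ h →
  ∀ c : ℝ, 0 < c → (∀ p, c ≤ scal h p) →
  ¬ ∃ K : ℝ, ∀ X Y : Teich P,
      qTeichDist Λ X Y ≤ ENNReal.ofReal K * qRiemDist Ψ Λ h X Y + ENNReal.ofReal K

end

end PSC
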