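import Pool.Agent.H96.PS.ADefs

/-!
Project PS (MP_b05a29_gt), row A18, part 1: the weighted Sobolev space as a space of jets in a
Hilbert sum of copies of `L²`.
-/

open scoped ContDiff Matrix ENNReal
open MeasureTheory Set

namespace PS
noncomputable section
variable {N : ℕ}

namespace IOb

/-- index type of the jets -/
abbrev KK (N : ℕ) := Unit ⊕ (Fin N ⊕ Fin N)

/-- Hilbert sum of copies of `L²` -/
abbrev ZZ (N : ℕ) := PiLp 2 (fun _ : KK N => L2 N)

/-- components of the jet of a function -/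
def jf (u : E N → Lam N) : KK N → E N → Lam N
  | Sum.inl _ => u
  | Sum.inr (Sum.inl i) => pd i u
  | Sum.inr (Sum.inr i) => fun x => x i • u x

/-- the jet of a function -/
def jet (u : E N → Lam N) : ZZ N := WithLp.toLp 2 (fun k => tl (jf u k))

theorem tl_eq {u : E N → Lam N} (h : MemLp u 2 (volume : Measure (E N))) : tl u = h.toLp u := by
  unfold tl; rw [dif_pos h]

theorem coe_tl {u : E N → Lam N} (h : MemLp u 2 (volume : Measure (E N))) :
    (tl u : E N → Lam N) =ᵐ[volume] u := by
  rw [tl_eq h]; exact h.coeFn_toLp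

theorem tl_add {u v : E N → Lam N} (hu : MemLp u 2 (volume : Measure (E N)))
    (hv : MemLp v 2 (volume : Measure (E N))) : tl (fun x => u x + v x) = tl u + tl v := by
  rw [tl_eq hu, tl_eq hv]; exact tl_eq (hu.add hv)

theorem tl_sub {u v : E N → Lam N} (hu : MemLp u 2 (volume : Measure (E N)))
    (hv : MemLp v 2 (volume : Measure (E N))) : tl (fun x => u x - v x) = tl u - tl v := by
  rw [tl_eq hu, tl_eq hv]; exact tl_eq (hu.sub hv)

theorem tl_smul (c : ℝ) {u : E N → Lam N} (hu : MemLp u 2 (volume : Measure (E N))) :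
    tl (fun x => c • u x) = c • tl u := by
  rw [tl_eq hu]; exact tl_eq (hu.const_smul c)

theorem norm_tl {u : E N → Lam N} (hu : MemLp u 2 (volume : Measure (E N))) :
    ‖tl u‖ ^ 2 = ∫ x, ‖u x‖ ^ 2 := by
  rw [← real_inner_self_eq_norm_sq, L2.inner_def]
  apply integral_congr_ae
  filter_upwards [coe_tl hu] with x hx
  rw [hx, real_inner_self_eq_norm_sq]

theorem inner_tl {u v : E N → Lam N} (hu : MemLp u 2 (volume : Measure (E N)))
    (hv : MemLp v 2 (volume : Measure (E N))) :
    inner ℝ (tl u) (tl v) = ∫ x, inner ℝ (u x) (v x) := by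
  rw [L2.inner_def]
  apply integral_congr_ae
  filter_upwards [coe_tl hu, coe_tl hv] with x hx hy
  rw [hx, hy]

theorem test_pd {u : E N → Lam N} (hu : Test u) (i : Fin N) : Test (pd i u) := by
  constructor
  · have h1 : ContDiff ℝ ∞ (fderiv ℝ u) := hu.1.fderiv_right (m := ∞) (by simp)
    exact h1.clm_apply contDiff_const
  · have h1 := hu.2.fderiv ℝ
    apply h1.mono
    intro x hx
    simp only [Function.mem_support, ne_eq] at hx ⊢
    intro h
    apply hx
    unfold pd
    rw [h]; rfl

theorem test_xmul {u : E N → Lam N} (hu : Test u) (i : Fin N) : Test (fun x => x i • u x) := by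
  constructor
  · have h1 : ContDiff ℝ ∞ (fun x : E N => x i) := (EuclideanSpace.proj (𝕜 := ℝ) i).contDiff
    exact h1.smul hu.1
  · exact hu.2.smul_left (f := fun x : E N => x i)

theorem test_jf {u : E N → Lam N} (hu : Test u) : ∀ k, Test (jf u k)
  | Sum.inl _ => hu
  | Sum.inr (Sum.inl i) => test_pd hu i
  | Sum.inr (Sum.inr i) => test_xmul hu i

theorem test_memLp {u : E N → Lam N} (hu : Test u) : MemLp u 2 (volume : Measure (E N)) :=
  hu.1.continuous.memLp_of_hasCompactSupport hu.2

theorem jf_memLp {u : E N → Lam N} (hu : Test u) (k : KK N) :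
    MemLp (jf u k) 2 (volume : Measure (E N)) := test_memLp (test_jf hu k)

theorem sum_jf (u : E N → Lam N) (x : E N) :
    ∑ k : KK N, ‖jf u k x‖ ^ 2 = ‖u x‖ ^ 2 + ∑ i, ‖pd i u x‖ ^ 2 + ‖x‖ ^ 2 * ‖u x‖ ^ 2 := by
  rw [Fintype.sum_sum_type, Fintype.sum_sum_type]
  simp only [jf, Finset.univ_unique, Finset.sum_singleton, norm_smul, mul_pow]
  have h : ‖x‖ ^ 2 = ∑ i, ‖x i‖ ^ 2 := EuclideanSpace.norm_sq_eq x
  rw [← Finset.sum_mul, h]
  ring

theorem jf_integrable {u : E N → Lam N} (k : KK N) (h : MemLp (jf u k) 2 (volume : Measure (E N))) :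
    Integrable (fun x => ‖jf u k x‖ ^ 2) :=
  (memLp_two_iff_integrable_sq_norm h.1).1 h

theorem norm_jet {u : E N → Lam N} (h : ∀ k, MemLp (jf u k) 2 (volume : Measure (E N))) :
    ‖jet u‖ ^ 2 = wSq u := by
  rw [PiLp.norm_sq_eq_of_L2]
  have h1 : ∀ k, ‖(jet u) k‖ ^ 2 = ∫ x, ‖jf u k x‖ ^ 2 := fun k => norm_tl (h k)
  rw [Finset.sum_congr rfl fun k _ => h1 k, ← integral_finsetSum _ fun k _ => jf_integrable k (h k)]
  unfold wSq
  congr 1
  funext x
  exact sum_jf u x

theorem jf_add {u v : E N → Lam N} (hu : Differentiable ℝ u) (hv : Differentiable ℝ v) (k : KK N) :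
    jf (fun x => u x + v x) k = fun x => jf u k x + jf v k x := by
  rcases k with k | (i | i)
  · rfl
  · funext x
    change fderiv ℝ (fun x => u x + v x) x (ev i) = fderiv ℝ u x (ev i) + fderiv ℝ v x (ev i)
    rw [fderiv_fun_add (hu x) (hv x)]; rfl
  · funext x
    exact smul_add _ _ _

theorem jf_sub {u v : E N → Lam N} (hu : Differentiable ℝ u) (hv : Differentiable ℝ v) (k : KK N) :
    jf (fun x => u x - v x) k = fun x => jf u k x - jf v k x := by
  rcases k with k | (i | i)
  · rfl
  · funext x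
    change fderiv ℝ (fun x => u x - v x) x (ev i) = fderiv ℝ u x (ev i) - fderiv ℝ v x (ev i)
    rw [fderiv_fun_sub (hu x) (hv x)]; rfl
  · funext x
    exact smul_sub _ _ _

theorem jf_smul (c : ℝ) {u : E N → Lam N} (hu : Differentiable ℝ u) (k : KK N) :
    jf (fun x => c • u x) k = fun x => c • jf u k x := by
  rcases k with k | (i | i)
  · rfl
  · funext x
    change fderiv ℝ (fun x => c • u x) x (ev i) = c • fderiv ℝ u x (ev i)
    rw [fderiv_fun_const_smul (hu x)]; rfl
  · funext x
    exact smul_comm _ _ _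

/-- even test functions -/
def TE (N : ℕ) : Submodule ℝ (E N → Lam N) where
  carrier := {u | Test u ∧ ∀ x, EvenV (u x)}
  zero_mem' := by
    refine ⟨⟨contDiff_const, HasCompactSupport.zero⟩, fun x I _ => rfl⟩
  add_mem' := by
    rintro u v ⟨hu, hue⟩ ⟨hv, hve⟩
    refine ⟨⟨hu.1.add hv.1, hu.2.add hv.2⟩, fun x I hI => ?_⟩
    have h1 := hue x I hI
    have h2 := hve x I hI
    change u x I + v x I = 0
    rw [h1, h2, add_zero]
  smul_mem' := by
    rintro c u ⟨hu, hue⟩
    refine ⟨⟨contDiff_const.smul hu.1, hu.2.smul_left⟩, fun x I hI => ?_⟩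
    have h1 := hue x I hI
    change c * u x I = 0
    rw [h1, mul_zero]

/-- the jet map on even test functions -/
def jetL (N : ℕ) : TE N →ₗ[ℝ] ZZ N where
  toFun u := jet (u : E N → Lam N)
  map_add' := by
    rintro ⟨u, hu⟩ ⟨v, hv⟩
    ext1 k
    change tl (jf (fun x => u x + v x) k) = tl (jf u k) + tl (jf v k)
    rw [jf_add (hu.1.1.differentiable (by simp)) (hv.1.1.differentiable (by simp)) k,
      tl_add (jf_memLp hu.1 k) (jf_memLp hv.1 k)]
  map_smul' := by
    rintro c ⟨u, hu⟩
    ext1 k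
    change tl (jf (fun x => c • u x) k) = c • tl (jf u k)
    rw [jf_smul c (hu.1.1.differentiable (by simp)) k, tl_smul c (jf_memLp hu.1 k)]

/-- the weighted Sobolev space: closure of the jets of even test functions -/
def XX (N : ℕ) : Submodule ℝ (ZZ N) := (LinearMap.range (jetL N)).topologicalClosure

theorem jet_mem {u : E N → Lam N} (hu : Test u) (he : ∀ x, EvenV (u x)) : jet u ∈ XX N :=
  Submodule.le_topologicalClosure _ ⟨⟨u, hu, he⟩, rfl⟩

theorem isClosed_XX : IsClosed (XX N : Set (ZZ N)) := Submodule.isClosed_topologicalClosure _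

instance : CompleteSpace (XX N) := isClosed_XX.completeSpace_coe

/-- a closed condition holds on the space if it holds on the jets of even test functions -/
theorem XX_induction {p : ZZ N → Prop} (hp : IsClosed {z | p z})
    (h : ∀ u : E N → Lam N, Test u → (∀ x, EvenV (u x)) → p (jet u)) (z : ZZ N) (hz : z ∈ XX N) :
    p z := by
  have h1 : (XX N : Set (ZZ N)) ⊆ {z | p z} := by
    change closure ((LinearMap.range (jetL N) : Submodule ℝ (ZZ N)) : Set (ZZ N)) ⊆ _
    apply closure_minimal _ hp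
    rintro _ ⟨⟨u, hu, he⟩, rfl⟩
    exact h u hu he
  exact h1 hz

end IOb

end
end PS
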