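import Pool.Agent.H96.PS.IndexObs_a

/-!
Project PS (MP_b05a29_gt), row A18, part 2: multiplication operators, the path of bounded
operators on the space of jets.
-/

open scoped ContDiff Matrix ENNReal
open MeasureTheory Set

namespace PS
noncomputable section
variable {N : ℕ}

namespace IOb

/-- operators of the fibre -/
abbrev Op (N : ℕ) := Lam N →L[ℝ] Lam N

/-- bounded operator-valued functions -/
abbrev LI (N : ℕ) := Lp (Op N) ∞ (volume : Measure (E N))

/-- class in `L^∞` of an operator-valued function -/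
def ti (m : E N → Op N) : LI N := by
  classical exact if h : MemLp m ∞ (volume : Measure (E N)) then h.toLp m else 0

theorem ti_eq {m : E N → Op N} (h : MemLp m ∞ (volume : Measure (E N))) : ti m = h.toLp m := by
  unfold ti; rw [dif_pos h]

/-- multiplication operators -/
def mulL (N : ℕ) : LI N →L[ℝ] (L2 N →L[ℝ] L2 N) :=
  ContinuousLinearMap.holderL volume ∞ 2 2 (ContinuousLinearMap.id ℝ (Op N))

theorem coe_mulL {m : E N → Op N} (h : MemLp m ∞ (volume : Measure (E N))) (f : L2 N) :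
    (mulL N (ti m) f : E N → Lam N) =ᵐ[volume] fun x => m x (f x) := by
  have h1 : mulL N (ti m) f = ContinuousLinearMap.holder 2 (ContinuousLinearMap.id ℝ (Op N))
    (ti m) f := rfl
  rw [h1]
  filter_upwards [ContinuousLinearMap.coeFn_holder (r := 2) (ContinuousLinearMap.id ℝ (Op N))
    (ti m) f, show (ti m : E N → Op N) =ᵐ[volume] m by rw [ti_eq h]; exact h.coeFn_toLp] with x h2 h3
  rw [h2, h3]; rfl

theorem memLp_top_of_eq_outside {m : E N → Op N} (hm : Continuous m) (R : ℝ) (m0 : Op N)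
    (hR : ∀ x, R ≤ ‖x‖ → m x = m0) : MemLp m ∞ (volume : Measure (E N)) := by
  obtain ⟨C, hC⟩ := (isCompact_closedBall (0 : E N) R).exists_bound_of_continuousOn hm.continuousOn
  apply memLp_top_of_bound hm.aestronglyMeasurable (max C ‖m0‖)
  refine Filter.Eventually.of_forall fun x => ?_
  rcases le_total ‖x‖ R with h | h
  · exact (hC x (by simpa using h)).trans (le_max_left _ _)
  · rw [hR x h]; exact le_max_right _ _

theorem norm_ti_sub_le {m m' : E N → Op N} (h : MemLp m ∞ (volume : Measure (E N)))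
    (h' : MemLp m' ∞ (volume : Measure (E N))) (c : ℝ) (hc : 0 ≤ c) (hb : ∀ x, ‖m x - m' x‖ ≤ c) :
    ‖ti m - ti m'‖ ≤ c := by
  rw [ti_eq h, ti_eq h', ← MemLp.toLp_sub, Lp.norm_toLp, eLpNorm_exponent_top]
  refine ENNReal.toReal_le_of_le_ofReal hc ?_
  exact eLpNormEssSup_le_of_ae_bound (Filter.Eventually.of_forall hb)

theorem continuousOn_ti (c : ℝ → E N → Op N) (R : ℝ) (c0 : Op N)
    (hc : ContinuousOn (fun q : ℝ × E N => c q.1 q.2) (Icc 0 1 ×ˢ univ))
    (hR : ∀ t ∈ Icc (0 : ℝ) 1, ∀ x, R ≤ ‖x‖ → c t x = c0) :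
    ContinuousOn (fun t => ti (c t)) (Icc 0 1) := by
  have hm : ∀ t ∈ Icc (0 : ℝ) 1, MemLp (c t) ∞ (volume : Measure (E N)) := by
    intro t ht
    have h1 : Continuous (c t) := by
      have h2 : ContinuousOn (fun x : E N => c t x) univ :=
        hc.comp (f := fun x : E N => ((t, x) : ℝ × E N)) (by fun_prop) (fun x _ => ⟨ht, trivial⟩)
      exact continuousOn_univ.1 h2
    exact memLp_top_of_eq_outside h1 R c0 (hR t ht)
  have hu : UniformContinuousOn (fun q : ℝ × E N => c q.1 q.2)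
      (Icc 0 1 ×ˢ Metric.closedBall (0 : E N) R) := by
    apply (isCompact_Icc.prod (isCompact_closedBall (0 : E N) R)).uniformContinuousOn_of_continuous
    exact hc.mono (prod_mono le_rfl (subset_univ _))
  rw [Metric.uniformContinuousOn_iff] at hu
  rw [Metric.continuousOn_iff]
  intro t ht ε hε
  obtain ⟨δ, hδ, h⟩ := hu (ε / 2) (by positivity)
  refine ⟨δ, hδ, fun s hs hst => ?_⟩
  rw [dist_eq_norm]
  refine lt_of_le_of_lt (norm_ti_sub_le (hm s hs) (hm t ht) (ε / 2) (by positivity) fun x => ?_)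
    (by linarith)
  rcases le_total R ‖x‖ with hx | hx
  · rw [hR s hs x hx, hR t ht x hx, sub_self, norm_zero]; positivity
  · have h1 := h (s, x) ⟨hs, by simpa using hx⟩ (t, x) ⟨ht, by simpa using hx⟩ (by
      rw [Prod.dist_eq, dist_self]
      simpa using hst)
    rw [dist_eq_norm] at h1
    exact h1.le

/-- projections of the space of jets -/
def pr (k : KK N) : ZZ N →L[ℝ] L2 N := PiLp.proj 2 (fun _ : KK N => L2 N) k

theorem pr_jet (u : E N → Lam N) (k : KK N) : pr k (jet u) = tl (jf u k) := rfl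

/-- the growing part of the potential -/
def pt (lam : ℝ) (x : E N) : Op N := lam • ∑ i, x i • ep i

/-- the operator with coefficients `a`, `b` on jets -/
def SS (a : Fin N → E N → Op N) (b : E N → Op N) (lam : ℝ) : ZZ N →L[ℝ] L2 N :=
  ∑ i, (mulL N (ti (a i))) ∘L pr (Sum.inr (Sum.inl i))
    + (mulL N (ti (fun x => b x - pt lam x))) ∘L pr (Sum.inl ())
    + ∑ i, (lam • (ep i : Op N).compLpL 2 (volume : Measure (E N))) ∘L pr (Sum.inr (Sum.inr i))

theorem coe_SS {a : Fin N → E N → Op N} {b : E N → Op N} {lam : ℝ}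
    (ha : ∀ i, MemLp (a i) ∞ (volume : Measure (E N)))
    (hb : MemLp (fun x => b x - pt lam x) ∞ (volume : Measure (E N))) {u : E N → Lam N}
    (hu : ∀ k, MemLp (jf u k) 2 (volume : Measure (E N))) :
    (SS a b lam (jet u) : E N → Lam N) =ᵐ[volume] opB a b u := by
  have h0 : SS a b lam (jet u) = ∑ i, mulL N (ti (a i)) (tl (jf u (Sum.inr (Sum.inl i))))
    + mulL N (ti (fun x => b x - pt lam x)) (tl (jf u (Sum.inl ())))
    + ∑ i, lam • (ep i : Op N).compLp (tl (jf u (Sum.inr (Sum.inr i)))) := by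
    simp only [SS, add_apply, sum_apply,
      ContinuousLinearMap.comp_apply, smul_apply, pr_jet]
    rfl
  rw [h0]
  have h1 : ∀ i, (mulL N (ti (a i)) (tl (jf u (Sum.inr (Sum.inl i)))) : E N → Lam N)
      =ᵐ[volume] fun x => a i x (pd i u x) := by
    intro i
    filter_upwards [coe_mulL (ha i) (tl (jf u (Sum.inr (Sum.inl i)))),
      coe_tl (hu (Sum.inr (Sum.inl i)))] with x hx hy
    rw [hx, hy]; rfl
  have h2 : (mulL N (ti (fun x => b x - pt lam x)) (tl (jf u (Sum.inl ()))) : E N → Lam N)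
      =ᵐ[volume] fun x => (b x - pt lam x) (u x) := by
    filter_upwards [coe_mulL hb (tl (jf u (Sum.inl ()))), coe_tl (hu (Sum.inl ()))] with x hx hy
    rw [hx, hy]; rfl
  have h3 : ∀ i, ((lam • (ep i : Op N).compLp (tl (jf u (Sum.inr (Sum.inr i)))) : L2 N) :
      E N → Lam N) =ᵐ[volume] fun x => lam • ep i (x i • u x) := by
    intro i
    filter_upwards [Lp.coeFn_smul lam ((ep i : Op N).compLp (tl (jf u (Sum.inr (Sum.inr i))))),
      (ep i : Op N).coeFn_compLp (tl (jf u (Sum.inr (Sum.inr i)))),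
      coe_tl (hu (Sum.inr (Sum.inr i)))] with x hx hy hz
    rw [hx, Pi.smul_apply, hy, hz]; rfl
  have h4 := Lp.coeFn_add (∑ i, mulL N (ti (a i)) (tl (jf u (Sum.inr (Sum.inl i))))
    + mulL N (ti (fun x => b x - pt lam x)) (tl (jf u (Sum.inl ()))))
    (∑ i, lam • (ep i : Op N).compLp (tl (jf u (Sum.inr (Sum.inr i)))))
  have h5 := Lp.coeFn_add (∑ i, mulL N (ti (a i)) (tl (jf u (Sum.inr (Sum.inl i)))))
    (mulL N (ti (fun x => b x - pt lam x)) (tl (jf u (Sum.inl ()))))
  have h6 := Lp.coeFn_finsetSum (Finset.univ : Finset (Fin N))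
    (fun i => mulL N (ti (a i)) (tl (jf u (Sum.inr (Sum.inl i)))))
  have h7 := Lp.coeFn_finsetSum (Finset.univ : Finset (Fin N))
    (fun i => lam • (ep i : Op N).compLp (tl (jf u (Sum.inr (Sum.inr i)))))
  filter_upwards [h4, h5, h6, h7, ae_all_iff.2 h1, h2, ae_all_iff.2 h3] with x e4 e5 e6 e7 e1 e2 e3
  rw [e4, Pi.add_apply, e5, Pi.add_apply, e6, e7]
  simp only [Finset.sum_apply]
  rw [Finset.sum_congr rfl fun i _ => e1 i, e2, Finset.sum_congr rfl fun i _ => e3 i]
  have e8 : ∑ i, lam • ep i (x i • u x) = pt lam x (u x) := by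
    simp only [pt, smul_apply, sum_apply, map_smul,
      Finset.smul_sum]
  rw [e8, sub_apply]
  unfold opB
  abel

/-- continuity of the path -/
theorem continuousOn_SS (a : ℝ → Fin N → E N → Op N) (b : ℝ → E N → Op N) (lam R : ℝ)
    (ha : ∀ i, ContinuousOn (fun q : ℝ × E N => a q.1 i q.2) (Icc 0 1 ×ˢ univ))
    (hb : ContinuousOn (fun q : ℝ × E N => b q.1 q.2) (Icc 0 1 ×ˢ univ))
    (hinf : ∀ t ∈ Icc (0 : ℝ) 1, ∀ x : E N, R ≤ ‖x‖ →
      (∀ i, a t i x = cl i) ∧ b t x = lam • ∑ i, x i • ep i) :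
    ContinuousOn (fun t => SS (a t) (b t) lam) (Icc 0 1) := by
  have h1 : ∀ i, ContinuousOn (fun t => ti (a t i)) (Icc 0 1) := fun i =>
    continuousOn_ti (fun t => a t i) R (cl i) (ha i) (fun t ht x hx => (hinf t ht x hx).1 i)
  have hpt : Continuous (fun x : E N => pt lam x) := by
    unfold pt
    fun_prop
  have h2 : ContinuousOn (fun t => ti (fun x => b t x - pt lam x)) (Icc 0 1) := by
    apply continuousOn_ti (fun t x => b t x - pt lam x) R 0
    · exact hb.sub (hpt.comp continuous_snd).continuousOn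
    · intro t ht x hx
      rw [(hinf t ht x hx).2]
      exact sub_self _
  unfold SS
  refine ContinuousOn.add (ContinuousOn.add ?_ ?_) continuousOn_const
  · apply continuousOn_finsetSum
    intro i _
    exact ((mulL N).continuous.comp_continuousOn (h1 i)).clm_comp continuousOn_const
  · exact ((mulL N).continuous.comp_continuousOn h2).clm_comp continuousOn_const

theorem memLp_coeff (a : ℝ → Fin N → E N → Op N) (b : ℝ → E N → Op N) (lam R : ℝ)
    (ha : ∀ i, ContinuousOn (fun q : ℝ × E N => a q.1 i q.2) (Icc 0 1 ×ˢ univ))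
    (hb : ContinuousOn (fun q : ℝ × E N => b q.1 q.2) (Icc 0 1 ×ˢ univ))
    (hinf : ∀ t ∈ Icc (0 : ℝ) 1, ∀ x : E N, R ≤ ‖x‖ →
      (∀ i, a t i x = cl i) ∧ b t x = lam • ∑ i, x i • ep i) (t : ℝ) (ht : t ∈ Icc (0 : ℝ) 1) :
    (∀ i, MemLp (a t i) ∞ (volume : Measure (E N))) ∧
      MemLp (fun x => b t x - pt lam x) ∞ (volume : Measure (E N)) ∧
      (∀ i, Continuous (a t i)) ∧ Continuous (b t) := by
  have hpt : Continuous (fun x : E N => pt lam x) := by
    unfold pt
    fun_prop
  have h1 : ∀ i, Continuous (a t i) := by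
    intro i
    have h2 : ContinuousOn (fun x : E N => a t i x) univ :=
      (ha i).comp (f := fun x : E N => ((t, x) : ℝ × E N)) (by fun_prop) (fun x _ => ⟨ht, trivial⟩)
    exact continuousOn_univ.1 h2
  have h2 : Continuous (b t) := by
    have h2 : ContinuousOn (fun x : E N => b t x) univ :=
      hb.comp (f := fun x : E N => ((t, x) : ℝ × E N)) (by fun_prop) (fun x _ => ⟨ht, trivial⟩)
    exact continuousOn_univ.1 h2
  refine ⟨fun i => memLp_top_of_eq_outside (h1 i) R (cl i) (fun x hx => (hinf t ht x hx).1 i), ?_,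
    h1, h2⟩
  apply memLp_top_of_eq_outside (h2.sub hpt) R 0
  intro x hx
  change b t x - pt lam x = 0
  rw [(hinf t ht x hx).2]
  exact sub_self _

end IOb

end
end PS
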