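import Pool.Agent.H96.PS.Displ

/-!
Project PS / DC (MP_b05a29_gt), row C2 (helper6): the marked hyperbolic structure of a point of
the Fenchel-Nielsen model.
-/

open scoped ENNReal UpperHalfPlane ContDiff Matrix
open MeasureTheory Set

namespace PS
noncomputable section

/-- `SL(2, ℝ)` acts by isometries -/
def isoHom : SL2R →* (ℍ ≃ᵢ ℍ) where
  toFun A := IsometryEquiv.constSMul A
  map_one' := by ext z : 1; exact one_smul SL2R z
  map_mul' A B := by ext z : 1; exact mul_smul A B z

theorem isoHom_apply (A : SL2R) (z : ℍ) : isoHom A z = A • z := rfl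

/-- separated points in a compact set are finitely many -/
theorem finite_of_separated {ι X : Type*} [PseudoMetricSpace X] {K : Set X} (hK : IsCompact K)
    (f : ι → X) {r : ℝ} (hr : 0 < r) (hf : ∀ i j, i ≠ j → r ≤ dist (f i) (f j)) :
    {i | f i ∈ K}.Finite := by
  obtain ⟨t, -, htf, hcov⟩ := hK.finite_cover_balls (half_pos hr)
  have hch : ∀ i ∈ {i | f i ∈ K}, ∃ x ∈ t, f i ∈ Metric.ball x (r / 2) := by
    intro i hi
    simpa using hcov hi
  choose c hc1 hc2 using hch
  have : Finite t := htf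
  have hinj : Function.Injective (fun i : {i | f i ∈ K} => (⟨c i.1 i.2, hc1 i.1 i.2⟩ : t)) := by
    rintro ⟨i, hi⟩ ⟨j, hj⟩ hij
    have hij' : c i hi = c j hj := congrArg Subtype.val hij
    apply Subtype.ext
    by_contra hne
    have h1 := hf i j hne
    have h2 := hc2 i hi
    have h3 := hc2 j hj
    rw [Metric.mem_ball] at h2 h3
    rw [← hij'] at h3
    have := dist_triangle_right (f i) (f j) (c i hi)
    linarith
  exact Finite.of_injective _ hinj

theorem tl_eq_zero {A : SL2R} (h : |tr A| = 2) : Pool.Agent.DC.tl A = 0 := by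
  rw [Pool.Agent.DC.tl]
  have : |(A : Matrix (Fin 2) (Fin 2) ℝ).trace| = 2 := h
  rw [this]
  norm_num

theorem tl_ne_zero {A : SL2R} (h : 2 < |tr A|) : Pool.Agent.DC.tl A ≠ 0 := by
  intro h0
  have h1 := cosh_tl A h.le
  rw [h0, zero_div, Real.cosh_zero] at h1
  linarith

theorem exists_hypStr {g n : ℕ} (M : FNModel g n) (x : E (dimT g n)) (hx : x ∈ M.V) :
    ∃ ρ : HypStr g n, ∀ γ (z : ℍ), ρ.hol γ z = M.rep x γ • z := by
  obtain ⟨z0, r, hr, hmove⟩ := M.disc x hx
  have htr : ∀ γ, 2 ≤ |tr (M.rep x γ)| := by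
    intro γ
    by_cases h : IsPer γ
    · exact (M.par x hx γ h).ge
    · exact (M.hyp x hx γ h).le
  refine ⟨{ hol := isoHom.comp (M.rep x), orient := ?_, free := ?_, proper := ?_, type := ?_ },
    fun γ z => rfl⟩
  · intro γ
    exact ⟨M.rep x γ, fun z => rfl⟩
  · intro γ hγ z hz
    have hz' : M.rep x γ • z = z := hz
    by_cases h : IsPer γ
    · have h1 := fixed_all (M.rep x γ) (M.par x hx γ h) z hz' z0
      have h2 := hmove γ hγ
      rw [h1, dist_self] at h2
      linarith
    · exact no_fixed (M.rep x γ) (M.hyp x hx γ h) z hz'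
  · intro C hC
    obtain ⟨R, hR⟩ := hC.isBounded.subset_closedBall z0
    have hfin : {γ : SurfaceGroup g n | M.rep x γ • z0 ∈ Metric.closedBall z0 (2 * R)}.Finite := by
      refine finite_of_separated (isCompact_closedBall z0 (2 * R)) (fun γ => M.rep x γ • z0) hr ?_
      intro γ δ hne
      have h2 := hmove (γ⁻¹ * δ) (fun h => hne (inv_mul_eq_one.1 h))
      have h3 : dist (M.rep x γ • z0) (M.rep x δ • z0) = dist z0 (M.rep x (γ⁻¹ * δ) • z0) := by
        rw [← dist_smul (M.rep x γ) z0 (M.rep x (γ⁻¹ * δ) • z0), ← mul_smul, ← map_mul,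
          mul_inv_cancel_left]
      show r ≤ dist (M.rep x γ • z0) (M.rep x δ • z0)
      rw [h3]
      exact h2
    refine hfin.subset ?_
    rintro γ ⟨w, ⟨c, hc, rfl⟩, hw⟩
    show dist (M.rep x γ • z0) z0 ≤ 2 * R
    have h1 := hR hc
    have h2 := hR hw
    rw [Metric.mem_closedBall] at h1 h2
    have h3 : dist (M.rep x γ • z0) (M.rep x γ • c) = dist z0 c := dist_smul _ _ _
    have h4 := dist_triangle (M.rep x γ • z0) (M.rep x γ • c) z0
    rw [h3, dist_comm z0 c] at h4
    have h2' : dist (M.rep x γ • c) z0 ≤ R := h2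
    linarith
  · intro γ
    have h1 : displ ((isoHom.comp (M.rep x)) γ) = Pool.Agent.DC.tl (M.rep x γ) :=
      displ_eq _ _ (fun z => rfl) (htr γ)
    rw [h1]
    constructor
    · intro h
      by_contra hper
      exact tl_ne_zero (M.hyp x hx γ hper) h
    · intro h
      exact tl_eq_zero (M.par x hx γ h)

/-- the marked hyperbolic structure of a point of the model -/
def FNModel.str {g n : ℕ} (M : FNModel g n) (x : E (dimT g n)) (hx : x ∈ M.V) : HypStr g n :=
  (exists_hypStr M x hx).choose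
theorem FNModel.str_hol {g n : ℕ} (M : FNModel g n) (x : E (dimT g n)) (hx : x ∈ M.V) (γ) (z : ℍ) :
    (M.str x hx).hol γ z = M.rep x γ • z := (exists_hypStr M x hx).choose_spec γ z

theorem FNModel.two_le {g n : ℕ} (M : FNModel g n) (x : E (dimT g n)) (hx : x ∈ M.V) (γ) :
    2 ≤ |tr (M.rep x γ)| := by
  by_cases h : IsPer γ
  · exact (M.par x hx γ h).ge
  · exact (M.hyp x hx γ h).le

theorem FNModel.len_str {g n : ℕ} (M : FNModel g n) (x : E (dimT g n)) (hx : x ∈ M.V) (γ) :
    (M.str x hx).len γ = Pool.Agent.DC.tl (M.rep x γ) :=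
  displ_eq _ _ (fun z => M.str_hol x hx γ z) (M.two_le x hx γ)

theorem FNModel.cosh_len_str {g n : ℕ} (M : FNModel g n) (x : E (dimT g n)) (hx : x ∈ M.V) (γ) :
    Real.cosh ((M.str x hx).len γ / 2) = |tr (M.rep x γ)| / 2 := by
  rw [M.len_str, cosh_tl _ (M.two_le x hx γ)]

end
end PS
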