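import Pool.Agent.H96.PS.ADefs

/-!
Project PS (MP_b05a29_gt), row A14: auxiliary lemmas (translation estimate, cubes).
-/

open scoped ContDiff Matrix ENNReal
open MeasureTheory Set

namespace PS

noncomputable section

variable {N : ℕ}

/-- Cauchy-Schwarz against the constant one. -/
theorem rl_sq_le {α : Type*} [MeasurableSpace α] (μ : Measure α) [IsFiniteMeasure μ] (f : α → ℝ)
    (hf : Integrable f μ) (hf2 : Integrable (fun x => f x ^ 2) μ) :
    (∫ x, f x ∂μ) ^ 2 ≤ μ.real univ * ∫ x, f x ^ 2 ∂μ := by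
  rcases eq_or_ne (μ.real univ) 0 with h0 | h0
  · have : μ = 0 := by
      rw [← Measure.measure_univ_eq_zero]
      rw [Measure.real, ENNReal.toReal_eq_zero_iff] at h0
      exact h0.resolve_right (measure_ne_top μ univ)
    subst this
    simp
  · have hV : 0 < μ.real univ := lt_of_le_of_ne measureReal_nonneg (Ne.symm h0)
    set V := μ.real univ with hVd
    set m : ℝ := (∫ x, f x ∂μ) / V with hm
    have h1 : 0 ≤ ∫ x, (f x - m) ^ 2 ∂μ := integral_nonneg fun x => sq_nonneg _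
    have h2 : ∫ x, (f x - m) ^ 2 ∂μ = ∫ x, f x ^ 2 ∂μ - 2 * m * ∫ x, f x ∂μ + m ^ 2 * V := by
      have h3 : (fun x => (f x - m) ^ 2) = fun x => f x ^ 2 - 2 * m * f x + m ^ 2 := by
        funext x
        ring
      have h5 : Integrable (fun x => 2 * m * f x) μ := hf.const_mul _
      have h6 : Integrable (fun x => f x ^ 2 - 2 * m * f x) μ := hf2.sub h5
      have h7 : Integrable (fun _ : α => m ^ 2) μ := integrable_const _
      rw [h3, integral_add h6 h7, integral_sub hf2 h5, integral_const_mul, integral_const]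
      simp [hVd, mul_comm]
    rw [h2] at h1
    have h4 : ∫ x, f x ∂μ = m * V := by
      rw [hm]
      field_simp
    rw [h4] at h1 ⊢
    nlinarith

theorem rl_test_cont {u : E N → Lam N} (hu : Test u) : Continuous u := hu.1.continuous

theorem rl_pd_cont {u : E N → Lam N} (hu : Test u) (i : Fin N) : Continuous (pd i u) := by
  have h1 : Continuous (fderiv ℝ u) := hu.1.continuous_fderiv (by simp)
  exact h1.clm_apply continuous_const

theorem rl_pd_supp {u : E N → Lam N} (hu : Test u) (i : Fin N) : HasCompactSupport (pd i u) := by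
  have h1 : HasCompactSupport (fderiv ℝ u) := hu.2.fderiv (𝕜 := ℝ)
  have := h1.comp_left (g := fun L : E N →L[ℝ] Lam N => L (ev i)) (by simp)
  exact this

/-- squared gradient -/
def rl_g (u : E N → Lam N) (x : E N) : ℝ := ∑ i, ‖pd i u x‖ ^ 2

theorem rl_g_cont {u : E N → Lam N} (hu : Test u) : Continuous (rl_g u) := by
  unfold rl_g
  exact continuous_finsetSum _ fun i _ => ((rl_pd_cont hu i).norm.pow 2)

theorem rl_g_nonneg (u : E N → Lam N) (x : E N) : 0 ≤ rl_g u x :=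
  Finset.sum_nonneg fun i _ => sq_nonneg _

theorem rl_g_supp {u : E N → Lam N} (hu : Test u) : HasCompactSupport (rl_g u) := by
  unfold rl_g
  have h1 : HasCompactSupport (fun x => fderiv ℝ u x) := hu.2.fderiv (𝕜 := ℝ)
  have := h1.comp_left (g := fun L : E N →L[ℝ] Lam N => ∑ i, ‖L (ev i)‖ ^ 2) (by simp)
  exact this

theorem rl_fderiv_sq (u : E N → Lam N) (x h : E N) :
    ‖fderiv ℝ u x h‖ ^ 2 ≤ ‖h‖ ^ 2 * rl_g u x := by
  have h1 : fderiv ℝ u x h = ∑ i, h i • pd i u x := by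
    have h2 : h = ∑ i, h i • ev i := by
      ext j
      simp [ev, Finset.sum_apply, Pi.single_apply]
    conv_lhs => rw [h2]
    rw [map_sum]
    simp [pd]
  rw [h1]
  have h3 : ‖∑ i, h i • pd i u x‖ ≤ ∑ i, |h i| * ‖pd i u x‖ := by
    refine (norm_sum_le _ _).trans (Finset.sum_le_sum fun i _ => ?_)
    rw [norm_smul, Real.norm_eq_abs]
  calc ‖∑ i, h i • pd i u x‖ ^ 2 ≤ (∑ i, |h i| * ‖pd i u x‖) ^ 2 :=
        pow_le_pow_left₀ (norm_nonneg _) h3 2
    _ ≤ (∑ i, |h i| ^ 2) * ∑ i, ‖pd i u x‖ ^ 2 := Finset.sum_mul_sq_le_sq_mul_sq _ _ _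
    _ = ‖h‖ ^ 2 * rl_g u x := by
        rw [EuclideanSpace.norm_sq_eq, rl_g]
        simp

/-- pointwise form of the translation estimate -/
theorem rl_trans_pt {u : E N → Lam N} (hu : Test u) (x h : E N) :
    ‖u (x + h) - u x‖ ^ 2 ≤ ‖h‖ ^ 2 * ∫ s in (0 : ℝ)..1, rl_g u (x + s • h) := by
  have hd : ∀ s : ℝ, HasDerivAt (fun s : ℝ => u (x + s • h)) (fderiv ℝ u (x + s • h) h) s := by
    intro s
    have h1 : HasFDerivAt u (fderiv ℝ u (x + s • h)) (x + s • h) :=
      ((hu.1.differentiable (by simp)) _).hasFDerivAt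
    have h2 : HasDerivAt (fun s : ℝ => x + s • h) h s := by
      simpa using ((hasDerivAt_id s).smul_const h).const_add x
    exact h1.comp_hasDerivAt s h2
  have hc : Continuous fun s : ℝ => fderiv ℝ u (x + s • h) h := by
    have h1 : Continuous (fderiv ℝ u) := hu.1.continuous_fderiv (by simp)
    exact (h1.comp (by fun_prop)).clm_apply continuous_const
  have h1 : ∫ s in (0 : ℝ)..1, fderiv ℝ u (x + s • h) h = u (x + h) - u x := by
    rw [intervalIntegral.integral_eq_sub_of_hasDerivAt (fun s _ => hd s)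
      (hc.intervalIntegrable _ _)]
    simp
  rw [← h1]
  have h2 : ‖∫ s in (0 : ℝ)..1, fderiv ℝ u (x + s • h) h‖ ≤
      ∫ s in (0 : ℝ)..1, ‖fderiv ℝ u (x + s • h) h‖ :=
    intervalIntegral.norm_integral_le_integral_norm (by norm_num)
  have h3 : (∫ s in (0 : ℝ)..1, ‖fderiv ℝ u (x + s • h) h‖) ^ 2 ≤
      ∫ s in (0 : ℝ)..1, ‖fderiv ℝ u (x + s • h) h‖ ^ 2 := by
    rw [intervalIntegral.integral_of_le (by norm_num), intervalIntegral.integral_of_le (by norm_num)]
    have h4 := rl_sq_le (volume.restrict (Ioc (0 : ℝ) 1)) (fun s => ‖fderiv ℝ u (x + s • h) h‖)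
      ((hc.norm.integrableOn_Icc (a := 0) (b := 1)).mono_set Ioc_subset_Icc_self)
      (((hc.norm.pow 2).integrableOn_Icc (a := 0) (b := 1)).mono_set Ioc_subset_Icc_self)
    have h5 : (volume.restrict (Ioc (0 : ℝ) 1)).real univ = 1 := by
      simp [Measure.real]
    rwa [h5, one_mul] at h4
  have hg : Continuous fun s : ℝ => rl_g u (x + s • h) := (rl_g_cont hu).comp (by fun_prop)
  calc ‖∫ s in (0 : ℝ)..1, fderiv ℝ u (x + s • h) h‖ ^ 2
      ≤ (∫ s in (0 : ℝ)..1, ‖fderiv ℝ u (x + s • h) h‖) ^ 2 :=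
        pow_le_pow_left₀ (norm_nonneg _) h2 2
    _ ≤ ∫ s in (0 : ℝ)..1, ‖fderiv ℝ u (x + s • h) h‖ ^ 2 := h3
    _ ≤ ∫ s in (0 : ℝ)..1, ‖h‖ ^ 2 * rl_g u (x + s • h) := by
        apply intervalIntegral.integral_mono_on (by norm_num)
        · exact ((hc.norm.pow 2).intervalIntegrable _ _)
        · exact ((continuous_const.mul hg).intervalIntegrable _ _)
        · intro s _
          exact rl_fderiv_sq u _ h
    _ = ‖h‖ ^ 2 * ∫ s in (0 : ℝ)..1, rl_g u (x + s • h) := by
        rw [intervalIntegral.integral_const_mul]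

/-- the translation estimate -/
theorem rl_trans {u : E N → Lam N} (hu : Test u) (h : E N) :
    ∫⁻ x, ENNReal.ofReal (‖u (x + h) - u x‖ ^ 2) ≤
      ENNReal.ofReal (‖h‖ ^ 2) * ∫⁻ x, ENNReal.ofReal (rl_g u x) := by
  have hgc := rl_g_cont hu
  have h1 : ∀ x, ENNReal.ofReal (‖u (x + h) - u x‖ ^ 2) ≤ ENNReal.ofReal (‖h‖ ^ 2) *
      ∫⁻ s in Ioc (0 : ℝ) 1, ENNReal.ofReal (rl_g u (x + s • h)) := by
    intro x
    have hg : Continuous fun s : ℝ => rl_g u (x + s • h) := hgc.comp (by fun_prop)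
    refine (ENNReal.ofReal_le_ofReal (rl_trans_pt hu x h)).trans ?_
    rw [ENNReal.ofReal_mul (sq_nonneg _), intervalIntegral.integral_of_le (by norm_num),
      ofReal_integral_eq_lintegral_ofReal]
    · exact ((hg.integrableOn_Icc (a := 0) (b := 1)).mono_set Ioc_subset_Icc_self)
    · exact Filter.Eventually.of_forall fun s => rl_g_nonneg u _
  have hm : Measurable fun p : E N × ℝ => ENNReal.ofReal (rl_g u (p.1 + p.2 • h)) := by
    have : Continuous fun p : E N × ℝ => rl_g u (p.1 + p.2 • h) := hgc.comp (by fun_prop)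
    exact ENNReal.measurable_ofReal.comp this.measurable
  calc ∫⁻ x, ENNReal.ofReal (‖u (x + h) - u x‖ ^ 2)
      ≤ ∫⁻ x, ENNReal.ofReal (‖h‖ ^ 2) *
        ∫⁻ s in Ioc (0 : ℝ) 1, ENNReal.ofReal (rl_g u (x + s • h)) := lintegral_mono h1
    _ = ENNReal.ofReal (‖h‖ ^ 2) *
        ∫⁻ x, ∫⁻ s in Ioc (0 : ℝ) 1, ENNReal.ofReal (rl_g u (x + s • h)) := by
        rw [lintegral_const_mul]
        exact hm.lintegral_prod_right'
    _ = ENNReal.ofReal (‖h‖ ^ 2) *
        ∫⁻ s in Ioc (0 : ℝ) 1, ∫⁻ x, ENNReal.ofReal (rl_g u (x + s • h)) := by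
        congr 1
        exact lintegral_lintegral_swap hm.aemeasurable
    _ = ENNReal.ofReal (‖h‖ ^ 2) * ∫⁻ x, ENNReal.ofReal (rl_g u x) := by
        congr 1
        have h2 : ∀ s : ℝ, ∫⁻ x, ENNReal.ofReal (rl_g u (x + s • h)) =
            ∫⁻ x, ENNReal.ofReal (rl_g u x) := fun s =>
          lintegral_add_right_eq_self (fun x => ENNReal.ofReal (rl_g u x)) (s • h)
        simp_rw [h2]
        simp

end

end PS
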