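import Pool.Agent.H96.PS.GDefs

/-!
# Teichmueller space of a punctured surface, its metrics, and the question MP_b05a29_gt

* `SurfaceGroup g n`: fundamental group of the orientable surface `S` of genus `g` with `n`
  punctures, standard presentation `∏ [a_i, b_i] ∏ c_j = 1`.
* `HypStr g n`: marked complete hyperbolic structures of finite area on `S`, i.e. free properly
  discontinuous actions of the fundamental group on the hyperbolic plane by orientation preserving
  isometries in which precisely the peripheral elements have infimal displacement `0`.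
* `Teich g n`: Teichmueller space, the quotient by conjugation with isometries.
* `autStar g n`: automorphisms preserving the peripheral structure; by the theorem of Dehn, Nielsen
  and Baer, modulo inner automorphisms this is the extended mapping class group of `S`.
* `teichDist`: the Teichmueller distance, by quasiconformal homeomorphisms of the plane compatible
  with the markings.
* `IsSmoothChart`: a global coordinate system of Teichmueller space for its standard smooth
  structure (the one for which the length functions form a smooth embedding).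
-/

open scoped ENNReal UpperHalfPlane ContDiff Matrix
open MeasureTheory Set
open Pool.Agent.DC (IsQC SGrp sc)

namespace PS

noncomputable section

/-! ## The surface group -/

/-- Fundamental group of the orientable surface of genus `g` with `n` punctures: generators
`a_i`, `b_i` (`i < g`) and `c_j` (`j < n`), one relation `∏ [a_i, b_i] ∏ c_j = 1`. -/
abbrev SurfaceGroup (g n : ℕ) : Type := SGrp g n

/-- Peripheral elements: `1` and the conjugates of the powers of the loops around punctures. -/
def IsPer {g n : ℕ} (γ : SurfaceGroup g n) : Prop :=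
  γ = 1 ∨ ∃ (j : Fin n) (k : ℤ) (w : SurfaceGroup g n), γ = w * sc j ^ k * w⁻¹

/-- The automorphisms of the fundamental group which preserve the set of peripheral elements. -/
def autStar (g n : ℕ) : Subgroup (MulAut (SurfaceGroup g n)) where
  carrier := {φ | ∀ γ, IsPer (φ γ) ↔ IsPer γ}
  one_mem' := fun γ => Iff.rfl
  mul_mem' := fun {a b} ha hb γ => by
    rw [MulAut.mul_apply]
    exact (ha (b γ)).trans (hb γ)
  inv_mem' := fun {a} ha γ => by
    have h := ha (a⁻¹ γ)
    rw [MulAut.apply_inv_self] at h
    exact h.symm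

/-! ## Teichmueller space -/

/-- A marked complete hyperbolic structure of finite area on the surface of genus `g` with `n`
punctures (given by its holonomy). -/
structure HypStr (g n : ℕ) where
  /-- the holonomy -/
  hol : SurfaceGroup g n →* (ℍ ≃ᵢ ℍ)
  /-- orientation preserving -/
  orient : ∀ γ, ∃ A : Matrix.SpecialLinearGroup (Fin 2) ℝ, ∀ z : ℍ, hol γ z = A • z
  /-- the action is free -/
  free : ∀ γ, γ ≠ 1 → ∀ z : ℍ, hol γ z ≠ z
  /-- the action is properly discontinuous -/
  proper : ∀ C : Set ℍ, IsCompact C → {γ | ((fun z => hol γ z) '' C ∩ C).Nonempty}.Finite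
  /-- exactly the peripheral elements have infimal displacement `0` -/
  type : ∀ γ, displ (hol γ) = 0 ↔ IsPer γ

/-- Two marked hyperbolic structures are equivalent if their holonomies are conjugate by an
isometry of the hyperbolic plane. -/
def HypStr.setoid (g n : ℕ) : Setoid (HypStr g n) where
  r := fun ρ σ => ∃ T : ℍ ≃ᵢ ℍ, ∀ γ, σ.hol γ = T * ρ.hol γ * T⁻¹
  iseqv :=
    { refl := fun ρ => ⟨1, fun γ => by simp⟩
      symm := fun {ρ σ} ⟨T, hT⟩ => ⟨T⁻¹, fun γ => by rw [hT]; group⟩
      trans := fun {ρ σ τ} ⟨T, hT⟩ ⟨U, hU⟩ => ⟨U * T, fun γ => by rw [hU, hT]; group⟩ }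

/-- Teichmueller space of the surface of genus `g` with `n` punctures. -/
def Teich (g n : ℕ) : Type := Quotient (HypStr.setoid g n)

/-- The point of Teichmueller space of a marked hyperbolic structure. -/
def HypStr.cls {g n : ℕ} (ρ : HypStr g n) : Teich g n := Quotient.mk (HypStr.setoid g n) ρ

/-- Change of marking by an automorphism of the fundamental group. -/
def HypStr.twist {g n : ℕ} (φ : autStar g n) (ρ : HypStr g n) : HypStr g n where
  hol := ρ.hol.comp (((φ : MulAut (SurfaceGroup g n))⁻¹ : MulAut (SurfaceGroup g n)) :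
    SurfaceGroup g n →* SurfaceGroup g n)
  orient := fun γ => ρ.orient _
  free := fun γ hγ => ρ.free _ (fun h => hγ (by
    have := congrArg (φ : MulAut (SurfaceGroup g n)) h
    simpa using this))
  proper := fun C hC => by
    have h := ρ.proper C hC
    refine (h.image (φ : MulAut (SurfaceGroup g n))).subset ?_
    intro γ hγ
    exact ⟨(φ : MulAut (SurfaceGroup g n))⁻¹ γ, hγ, by simp⟩
  type := fun γ => by
    have h1 := (autStar g n).inv_mem φ.2 γ
    exact (ρ.type _).trans h1

/-- The action of the extended mapping class group on Teichmueller space. -/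
def act {g n : ℕ} (φ : autStar g n) (X : Teich g n) : Teich g n :=
  Quotient.map' (s₁ := HypStr.setoid g n) (s₂ := HypStr.setoid g n) (HypStr.twist φ)
    (fun ρ σ ⟨T, hT⟩ => ⟨T, fun γ => hT _⟩) X

/-- The length of (the geodesic in the free homotopy class of) `γ` in the hyperbolic structure. -/
def HypStr.len {g n : ℕ} (ρ : HypStr g n) (γ : SurfaceGroup g n) : ℝ := displ (ρ.hol γ)

/-- Length functions on Teichmueller space. -/
def len {g n : ℕ} (X : Teich g n) (γ : SurfaceGroup g n) : ℝ :=
  Quotient.lift (s := HypStr.setoid g n) (fun ρ : HypStr g n => ρ.len γ)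
    (fun ρ σ ⟨T, hT⟩ => by
      show displ (ρ.hol γ) = displ (σ.hol γ)
      rw [hT γ, displ_conj]) X

/-- The Teichmueller distance: `½ log K` for the smallest `K` such that there is a
`K`-quasiconformal homeomorphism of the plane compatible with the markings. -/
def teichDist {g n : ℕ} (X Y : Teich g n) : ℝ≥0∞ :=
  ⨅ (K : ℝ) (_ : 1 ≤ K ∧ ∃ (ρ σ : HypStr g n) (f : ℍ ≃ₜ ℍ), ρ.cls = X ∧ σ.cls = Y ∧
      IsQC K f ∧ ∀ γ z, f (ρ.hol γ z) = σ.hol γ (f z)),
    ENNReal.ofReal (Real.log K / 2)

/-! ## The smooth structure of Teichmueller space -/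

/-- The dimension `6 g - 6 + 2 n` of Teichmueller space. -/
abbrev dimT (g n : ℕ) : ℕ := 2 * (3 * g + n - 3)

/-- `cosh (ℓ_X(γ) / 2)`, in the coordinate system `Ψ`. -/
def trc {g n : ℕ} (Ψ : Teich g n ≃ E (dimT g n)) (γ : SurfaceGroup g n) (p : E (dimT g n)) : ℝ :=
  Real.cosh (len (Ψ.symm p) γ / 2)

/-- `Ψ` is a global coordinate system of Teichmueller space with its standard smooth structure:
the functions `cosh (ℓ(γ) / 2)` (half the absolute values of the traces) are smooth, together they
are a topological embedding, and they separate tangent vectors. -/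
structure IsSmoothChart {g n : ℕ} (Ψ : Teich g n ≃ E (dimT g n)) : Prop where
  smooth : ∀ γ, ContDiff ℝ ∞ (trc Ψ γ)
  emb : Topology.IsEmbedding (fun p : E (dimT g n) => fun γ => trc Ψ γ p)
  imm : ∀ p v, (∀ γ, fderiv ℝ (trc Ψ γ) p v = 0) → v = 0

/-- The action of the extended mapping class group, in the coordinates `Ψ`. -/
def actC {g n : ℕ} (Ψ : Teich g n ≃ E (dimT g n)) (φ : autStar g n) (p : E (dimT g n)) :
    E (dimT g n) := Ψ (act φ (Ψ.symm p))

/-! ## Riemannian metrics on finite covers of moduli space -/

variable {N : ℕ}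

/-- `h` (a metric on Teichmueller space in the coordinates `Ψ`) is invariant under `Λ`, i.e. it
is a Riemannian metric on the orbifold `T(S)/Λ`. -/
def Invariant {g n : ℕ} (Ψ : Teich g n ≃ E (dimT g n)) (Λ : Subgroup (autStar g n))
    (h : E (dimT g n) → Matrix (Fin (dimT g n)) (Fin (dimT g n)) ℝ) : Prop :=
  ∀ φ ∈ Λ, ∀ p v, vnorm h (actC Ψ φ p) (fderiv ℝ (actC Ψ φ) p v) = vnorm h p v

/-- Distance of the quotient `T(S)/Λ` induced by the Teichmueller distance. -/
def qTeichDist {g n : ℕ} (Λ : Subgroup (autStar g n)) (X Y : Teich g n) : ℝ≥0∞ :=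
  ⨅ φ : Λ, teichDist X (act (φ : autStar g n) Y)

/-- Distance of the quotient `T(S)/Λ` induced by the Riemannian metric `h`. -/
def qRiemDist {g n : ℕ} (Ψ : Teich g n ≃ E (dimT g n)) (Λ : Subgroup (autStar g n))
    (h : E (dimT g n) → Matrix (Fin (dimT g n)) (Fin (dimT g n)) ℝ) (X Y : Teich g n) : ℝ≥0∞ :=
  ⨅ φ : Λ, riemDist h (Ψ X) (actC Ψ (φ : autStar g n) (Ψ Y))

/-- The statement: no Riemannian metric of uniformly positive scalar curvature on a finite
(orbifold) cover `T(S)/Λ` of moduli space dominates the Teichmueller distance coarsely. In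
particular none is in the quasi-isometry class of the Teichmueller metric; neither completeness
nor finite volume is needed. -/
def MainStatement : Prop :=
  ∀ (g n : ℕ), 4 ≤ 3 * g + n →
  ∀ (Λ : Subgroup (autStar g n)), Λ.FiniteIndex →
  ∀ (Ψ : Teich g n ≃ E (dimT g n)), IsSmoothChart Ψ →
  ∀ (h : E (dimT g n) → Matrix (Fin (dimT g n)) (Fin (dimT g n)) ℝ), IsMetricOn h univ →
    Invariant Ψ Λ h →
  ∀ c : ℝ, 0 < c → (∀ p, c ≤ scal h p) →
  ¬ ∃ K : ℝ, ∀ X Y : Teich g n,
      qTeichDist Λ X Y ≤ ENNReal.ofReal K * qRiemDist Ψ Λ h X Y + ENNReal.ofReal K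

end

end PS
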