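import Pool.Agent.H96.PS.Stmt

/-! Project PS: the generic form of the statement follows from `PS.MainStatement`. -/

open scoped ENNReal UpperHalfPlane ContDiff Matrix
open MeasureTheory Set

namespace PSC

noncomputable section

open Pool.Agent.DC (IsQC SGrp sc)

/-- the peripheral elements of the surface group -/
abbrev PP (g n : ℕ) : SGrp g n → Prop := IsPeripheral (fun j : Fin n => (sc j : SGrp g n))

variable {g n : ℕ}

def toPS (ρ : HypStr (PP g n)) : PS.HypStr g n := ⟨ρ.hol, ρ.orient, ρ.free, ρ.proper, ρ.type⟩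

def ofPS (ρ : PS.HypStr g n) : HypStr (PP g n) := ⟨ρ.hol, ρ.orient, ρ.free, ρ.proper, ρ.type⟩

def eqv : HypStr (PP g n) ≃ PS.HypStr g n := ⟨toPS, ofPS, fun _ => rfl, fun _ => rfl⟩

def TT : Teich (PP g n) ≃ PS.Teich g n :=
  Quotient.congr (ra := HypStr.setoid (PP g n)) (rb := PS.HypStr.setoid g n) eqv
    (fun _ _ => Iff.rfl)

theorem TT_cls (ρ : HypStr (PP g n)) : TT ρ.cls = (toPS ρ).cls := rfl

theorem TT_act (φ : autStar (PP g n)) (X : Teich (PP g n)) :
    TT (act φ X) = PS.act (g := g) (n := n) φ (TT X) := by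
  induction X using Quotient.inductionOn with
  | h ρ => rfl

theorem TT_len (X : Teich (PP g n)) (γ : SGrp g n) : PS.len (TT X) γ = len X γ := by
  induction X using Quotient.inductionOn with
  | h ρ => rfl

theorem TT_dist (X Y : Teich (PP g n)) : PS.teichDist (TT X) (TT Y) = teichDist X Y := by
  unfold PS.teichDist teichDist
  refine iInf_congr fun K => ?_
  refine iInf_congr_Prop (and_congr_right fun _ => ?_) (fun _ => rfl)
  constructor
  · rintro ⟨ρ, σ, f, h1, h2, h3, h4⟩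
    exact ⟨ofPS ρ, ofPS σ, f, TT.injective h1, TT.injective h2, h3, h4⟩
  · rintro ⟨ρ, σ, f, h1, h2, h3, h4⟩
    exact ⟨toPS ρ, toPS σ, f, congrArg TT h1, congrArg TT h2, h3, h4⟩

theorem noCoarse_of_main (H : PS.MainStatement) (g n : ℕ) (hgn : 4 ≤ 3 * g + n) :
    NoCoarseDomination (PP g n) (PS.dimT g n) := by
  intro Λ hΛ Ψ hΨ h hh hinv c hc hs ⟨K, hK⟩
  let Ψ' : PS.Teich g n ≃ PS.E (PS.dimT g n) := TT.symm.trans Ψ
  have hsymm : ∀ p, Ψ'.symm p = TT (Ψ.symm p) := fun p => rfl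
  have htrc : ∀ γ, PS.trc Ψ' γ = trc Ψ γ := by
    intro γ
    funext p
    show Real.cosh (PS.len (TT (Ψ.symm p)) γ / 2) = Real.cosh (len (Ψ.symm p) γ / 2)
    rw [TT_len]
  have hact : ∀ φ : autStar (PP g n), PS.actC (g := g) (n := n) Ψ' φ = actC Ψ φ := by
    intro φ
    funext p
    show Ψ (TT.symm (PS.act (g := g) (n := n) φ (TT (Ψ.symm p)))) = Ψ (act φ (Ψ.symm p))
    rw [← TT_act, Equiv.symm_apply_apply]
  have hΨ' : PS.IsSmoothChart Ψ' := by
    refine ⟨fun γ => ?_, ?_, ?_⟩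
    · rw [htrc]; exact hΨ.smooth γ
    · have h1 := hΨ.emb
      have h2 : (fun p : PS.E (PS.dimT g n) => fun γ => PS.trc Ψ' γ p) =
          fun p γ => trc Ψ γ p := by
        funext p γ
        rw [htrc]
      rw [h2]
      exact h1
    · intro p v hv
      refine hΨ.imm p v (fun γ => ?_)
      rw [← htrc]
      exact hv γ
  have hinv' : PS.Invariant (g := g) (n := n) Ψ' Λ h := by
    intro φ hφ p v
    have h1 := hinv φ hφ p v
    rw [← hact φ] at h1
    exact h1
  refine H g n hgn Λ hΛ Ψ' hΨ' h hh hinv' c hc hs ⟨K, fun X Y => ?_⟩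
  have h1 := hK (TT.symm X) (TT.symm Y)
  have h2 : PS.qTeichDist (g := g) (n := n) Λ X Y = qTeichDist Λ (TT.symm X) (TT.symm Y) := by
    unfold PS.qTeichDist qTeichDist
    rw [iInf_subtype]
    refine iInf_congr fun φ => iInf_congr fun _ => ?_
    show PS.teichDist X (PS.act (g := g) (n := n) φ Y) = _
    rw [← TT_dist, TT_act, Equiv.apply_symm_apply, Equiv.apply_symm_apply]
  have h3 : PS.qRiemDist (g := g) (n := n) Ψ' Λ h X Y =
      qRiemDist Ψ Λ h (TT.symm X) (TT.symm Y) := by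
    unfold PS.qRiemDist qRiemDist
    rw [iInf_subtype]
    refine iInf_congr fun φ => iInf_congr fun _ => ?_
    show PS.riemDist h (Ψ' X) (PS.actC (g := g) (n := n) Ψ' φ (Ψ' Y)) = _
    rw [hact φ]
    rfl
  rw [h2, h3]
  exact h1

end

end PSC
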